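import Pool.Agent.Lib.MP_537232_an.PG.SpecA

set_option autoImplicit false

/-!
# MP_537232_an, directory PG: character sums
-/

open Finset

namespace Pool.Agent.Lib.MP_537232_an.PG

private theorem sum_shift {A G : Type} [AddCommGroup A] [Fintype A] [AddCommGroup G]
    (Ψ : AddChar G ℝ) (f : A → G) (u : A) (a : G) (ha : Ψ a ≠ 1) (hf : ∀ v, f (v + u) = f v + a) :
    ∑ v, Ψ (f v) = 0 := by
  have h1 : ∑ v, Ψ (f v) = ∑ v, Ψ (f (v + u)) :=
    (Fintype.sum_equiv (Equiv.addRight u) (fun v => Ψ (f (v + u))) (fun v => Ψ (f v))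
      (fun v => rfl)).symm
  have h2 : ∑ v, Ψ (f v) = (∑ v, Ψ (f v)) * Ψ a := by
    rw [Finset.sum_mul]
    rw [h1]
    exact Finset.sum_congr rfl fun v _ => by rw [hf, AddChar.map_add_eq_mul]
  have h3 : (∑ v, Ψ (f v)) * (Ψ a - 1) = 0 := by
    rw [mul_sub, mul_one, ← h2, sub_self]
  exact (mul_eq_zero.1 h3).resolve_right (sub_ne_zero.2 ha)

theorem wChs : S_Chs := by
  intro E _ _ _ Ψ hΨ
  obtain ⟨a, ha⟩ : ∃ a, Ψ a ≠ 1 := (AddChar.ne_one_iff).1 hΨ
  refine ⟨fun x => ?_, fun c hc => ?_, fun R c hc => ?_⟩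
  · have h : Ψ x * Ψ x = 1 := by
      rw [← AddChar.map_add_eq_mul, CharTwo.add_self_eq_zero, AddChar.map_zero_eq_one]
    exact mul_self_eq_one_iff.1 h
  · refine sum_shift Ψ (fun v => c * v) (c⁻¹ * a) a ha fun v => ?_
    rw [mul_add, mul_inv_cancel_left₀ hc]
  · obtain ⟨i, hi⟩ : ∃ i, c i ≠ 0 := Function.ne_iff.1 hc
    refine sum_shift Ψ (fun b : Fin R → E => ∑ i, b i * c i) (Pi.single i (a * (c i)⁻¹)) a ha
      fun b => ?_
    simp only [Pi.add_apply, add_mul, Finset.sum_add_distrib]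
    congr 1
    rw [Finset.sum_eq_single i]
    · rw [Pi.single_eq_same, inv_mul_cancel_right₀ hi]
    · intro j _ hj
      rw [Pi.single_eq_of_ne hj, zero_mul]
    · intro h
      exact absurd (Finset.mem_univ i) h

end Pool.Agent.Lib.MP_537232_an.PG
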