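import Pool.Agent.Lib.MP_537232_an.PG.SpecA

set_option autoImplicit false

/-!
# MP_537232_an, PG: Cnt, numbers of independent tuples
-/

open Finset

namespace Pool.Agent.Lib.MP_537232_an.PG

namespace Cnt

theorem card_ind (K : Type) [Field K] [Fintype K] (E : Type) [Field E] [Fintype E] [Algebra K E] (m : ℕ)
    (hm : m ≤ Module.finrank K E) :
    (Ind K E m).card = ∏ i ∈ range m, (Fintype.card E - Fintype.card K ^ i) := by
  classical
  have h := card_linearIndependent (K := K) (V := E) hm
  rw [← Module.card_eq_pow_finrank (K := K) (V := E)] at h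
  rw [← Fin.prod_univ_eq_prod_range (fun i => Fintype.card E - Fintype.card K ^ i) m, ← h,
    Nat.card_eq_fintype_card, Fintype.card_subtype]
  unfold Ind
  congr

theorem prod_bound (Q W : ℝ) (hQ : 2 ≤ Q) (m : ℕ) (hm : 2 * Q ^ m ≤ W) :
    ∀ j ≤ m, W ^ j * (W - Q ^ j) ≤ (∏ i ∈ range j, (W - Q ^ i)) * W := by
  intro j
  induction j with
  | zero =>
    intro _
    simp
  | succ j ih =>
    intro hj
    have h1 := ih (by omega)
    have hQ1 : 1 ≤ Q := by linarith
    have hjm : Q ^ j ≤ Q ^ m := pow_le_pow_right₀ hQ1 (by omega)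
    have hQj : 1 ≤ Q ^ j := one_le_pow₀ hQ1
    have hW : 0 ≤ W - Q ^ j := by linarith
    have hW0 : 0 ≤ W := by linarith
    rw [prod_range_succ]
    have hWj : 0 ≤ W ^ j := pow_nonneg hW0 j
    calc W ^ (j + 1) * (W - Q ^ (j + 1)) = W ^ j * (W * (W - Q * Q ^ j)) := by ring
      _ ≤ W ^ j * ((W - Q ^ j) * (W - Q ^ j)) := by
          refine mul_le_mul_of_nonneg_left ?_ hWj
          nlinarith [mul_nonneg hW0 (mul_nonneg (by linarith : (0 : ℝ) ≤ Q - 2) (by linarith : (0 : ℝ) ≤ Q ^ j)),
            sq_nonneg (Q ^ j)]
      _ = (W ^ j * (W - Q ^ j)) * (W - Q ^ j) := by ring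
      _ ≤ ((∏ i ∈ range j, (W - Q ^ i)) * W) * (W - Q ^ j) := mul_le_mul_of_nonneg_right h1 hW
      _ = _ := by ring

theorem mem_ind {K : Type} [Field K] [Fintype K] {E : Type} [Field E] [Fintype E] [Algebra K E] {m : ℕ}
    {x : Fin m → E} : x ∈ Ind K E m ↔ LinearIndependent K x := by
  classical
  unfold Ind
  simp

open Classical in
theorem card_fib (K : Type) [Field K] [Fintype K] (E : Type) [Field E] [Fintype E] [Algebra K E] (m : ℕ)
    (y : Fin m → E) (hy : LinearIndependent K y) :
    ((Ind K E m).filter fun x => Submodule.span K (Set.range x) = Submodule.span K (Set.range y)).card =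
      gl (Fintype.card K) m := by
  set X := Submodule.span K (Set.range y) with hX
  have hfr : Module.finrank K X = m := by
    rw [hX, finrank_span_eq_card hy, Fintype.card_fin]
  have h := card_linearIndependent (K := K) (V := X) (k := m) hfr.ge
  rw [hfr] at h
  have hgl : gl (Fintype.card K) m = ∏ i : Fin m, (Fintype.card K ^ m - Fintype.card K ^ i.val) := by
    unfold gl
    rw [← Fin.prod_univ_eq_prod_range (fun i => Fintype.card K ^ m - Fintype.card K ^ i) m]
  rw [hgl, ← h, Nat.card_eq_fintype_card, Fintype.card_subtype]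
  symm
  refine card_bij (fun s _ j => (s j : E)) ?_ ?_ ?_
  · intro s hs
    have hs' : LinearIndependent K s := by simpa using hs
    have hli : LinearIndependent K fun j => (s j : E) :=
      hs'.map' X.subtype (Submodule.ker_subtype X)
    rw [mem_filter, mem_ind]
    refine ⟨hli, ?_⟩
    have hle : Submodule.span K (Set.range fun j => (s j : E)) ≤ X := by
      rw [Submodule.span_le]
      rintro _ ⟨j, rfl⟩
      exact (s j).2
    refine Submodule.eq_of_le_of_finrank_eq hle ?_
    rw [finrank_span_eq_card hli, Fintype.card_fin, hfr]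
  · intro s _ s' _ hss
    funext j
    exact Subtype.ext (congrFun hss j)
  · intro x hx
    rw [mem_filter, mem_ind] at hx
    have hmem : ∀ j, x j ∈ X := fun j => by
      rw [← hx.2]
      exact Submodule.subset_span ⟨j, rfl⟩
    refine ⟨fun j => ⟨x j, hmem j⟩, ?_, rfl⟩
    rw [mem_filter]
    refine ⟨mem_univ _, ?_⟩
    exact LinearIndependent.of_comp X.subtype hx.1

end Cnt

open Cnt in
theorem wCnt : S_Cnt := by
  classical
  intro K E _ _ _ _ _ m hm
  have hQ : 1 < Fintype.card K := Fintype.one_lt_card
  have hle : m ≤ Module.finrank K E := by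
    rw [Module.card_eq_pow_finrank (K := K) (V := E)] at hm
    rw [← Nat.pow_le_pow_iff_right hQ]
    omega
  have h1 := card_ind K E m hle
  refine ⟨h1, ?_, ?_, ?_, ?_⟩
  · -- (2)
    have hmR : 2 * (Fintype.card K : ℝ) ^ m ≤ Fintype.card E := by exact_mod_cast hm
    have hQR : (2 : ℝ) ≤ Fintype.card K := by exact_mod_cast hQ
    have h2 := prod_bound (Fintype.card K : ℝ) (Fintype.card E : ℝ) hQR m hmR m le_rfl
    have h3 : ((Ind K E m).card : ℝ) = ∏ i ∈ range m, ((Fintype.card E : ℝ) - (Fintype.card K : ℝ) ^ i) := by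
      rw [h1]
      push_cast
      refine prod_congr rfl fun i hi => ?_
      rw [Nat.cast_sub]
      · push_cast
        rfl
      · have : Fintype.card K ^ i ≤ Fintype.card K ^ m :=
          Nat.pow_le_pow_right hQ.le (mem_range.1 hi).le
        omega
    rw [← h3] at h2
    have hW : (0 : ℝ) < Fintype.card E := by exact_mod_cast Fintype.card_pos
    have h4 : (Fintype.card E : ℝ) ^ m * ((Fintype.card E : ℝ) / 2) ≤ (Ind K E m).card * Fintype.card E := by
      refine le_trans ?_ h2
      refine mul_le_mul_of_nonneg_left ?_ (pow_nonneg hW.le m)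
      linarith
    have h5 : (Fintype.card E : ℝ) ^ m / 2 * Fintype.card E ≤ (Ind K E m).card * Fintype.card E := by
      refine le_trans (le_of_eq ?_) h4
      ring
    exact le_of_mul_le_mul_right h5 hW
  · -- (3)
    intro y hy
    exact card_fib K E m y (mem_ind.1 hy)
  · -- (4)
    have hch : ∀ X : Submodule K E, ∃ c : Fin m → E,
        (∃ x ∈ Ind K E m, Submodule.span K (Set.range x) = X) →
          c ∈ Ind K E m ∧ Submodule.span K (Set.range c) = X := by
      intro X
      by_cases h : ∃ x ∈ Ind K E m, Submodule.span K (Set.range x) = X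
      · obtain ⟨x, hx, hX⟩ := h
        exact ⟨x, fun _ => ⟨hx, hX⟩⟩
      · exact ⟨0, fun h' => absurd h' h⟩
    choose c hc using hch
    have hc1 : ∀ x ∈ Ind K E m, c (Submodule.span K (Set.range x)) ∈ Ind K E m :=
      fun x hx => (hc _ ⟨x, hx, rfl⟩).1
    have hc2 : ∀ x ∈ Ind K E m, Submodule.span K (Set.range (c (Submodule.span K (Set.range x)))) =
        Submodule.span K (Set.range x) := fun x hx => (hc _ ⟨x, hx, rfl⟩).2
    set cf : (Fin m → E) → (Fin m → E) := fun x => c (Submodule.span K (Set.range x)) with hcf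
    have hfix : ∀ y ∈ (Ind K E m).image cf, cf y = y := by
      intro y hy
      obtain ⟨x, hx, rfl⟩ := mem_image.1 hy
      change c (Submodule.span K (Set.range (c (Submodule.span K (Set.range x))))) = _
      rw [hc2 x hx]
    have hsub : (Ind K E m).image cf ⊆ Ind K E m := by
      intro y hy
      obtain ⟨x, hx, rfl⟩ := mem_image.1 hy
      exact hc1 x hx
    refine ⟨(Ind K E m).image cf, hsub, ?_, ?_⟩
    · intro y hy y' hy' hyy
      rw [← hfix y hy, ← hfix y' hy']
      change c _ = c _
      rw [hyy]
    · intro G hG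
      rw [← sum_fiberwise_of_maps_to (g := cf) (t := (Ind K E m).image cf)
        (fun x hx => mem_image_of_mem _ hx), mul_sum]
      refine sum_congr rfl fun y hy => ?_
      have hyI := hsub hy
      have hfil : (Ind K E m).filter (fun x => cf x = y) = (Ind K E m).filter
          fun x => Submodule.span K (Set.range x) = Submodule.span K (Set.range y) := by
        refine filter_congr fun x hx => ?_
        constructor
        · intro h
          rw [← h]
          exact (hc2 x hx).symm
        · intro h
          rw [← hfix y hy]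
          change c _ = c _
          rw [h]
      rw [hfil]
      have hG' : ∀ x ∈ (Ind K E m).filter
          fun x => Submodule.span K (Set.range x) = Submodule.span K (Set.range y), G x = G y := by
        intro x hx
        rw [mem_filter] at hx
        exact hG x hx.1 y hyI hx.2
      rw [sum_congr rfl hG', sum_const, card_fib K E m y (mem_ind.1 hyI), nsmul_eq_mul]
  · -- (5)
    unfold gl
    calc ∏ i ∈ range m, (Fintype.card K ^ m - Fintype.card K ^ i) ≤ ∏ _i ∈ range m, Fintype.card K ^ m :=
          prod_le_prod' fun i _ => Nat.sub_le _ _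
      _ = Fintype.card K ^ (m * m) := by rw [prod_const, card_range, ← pow_mul]

end Pool.Agent.Lib.MP_537232_an.PG
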