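import Pool.Agent.Lib.MP_537232_an.PG.SpecJ

set_option autoImplicit false

/-!
# MP_537232_an, PG/ColE: existence of `S_M` and `I` and the formulas (helper77)
-/

open scoped ENNReal Topology
open Filter Finset

namespace Pool.Agent.Lib.MP_537232_an.PG

open NM

namespace ColE

variable {q : ℝ}

lemma qE_pos (hq : 1 < q) : 0 < qE q := ENNReal.ofReal_pos.2 (by linarith)

lemma formS [Fact (1 ≤ qE q)] (X : Dat q) {M : Set ℕ} [DecidablePred (· ∈ M)]
    {S : YSp X.P.v →L[ℝ] lp (E X.P.u) (qE q)} (hS : IsSq X M S) (y : YSp X.P.v) (n : ℕ) :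
    S y n = if n ∈ M then ∑ j, y n j • X.P.g n j else 0 := by
  classical
  obtain ⟨D, hD⟩ : ∃ D : YSp X.P.v →L[ℝ] E X.P.u n, ∀ y, D y =
      S y n - if n ∈ M then ∑ j, y n j • X.P.g n j else 0 := by
    obtain ⟨R, hR⟩ : ∃ R : PiLp 1 (fun _ : Fin (X.P.v n) => ℝ) →L[ℝ] E X.P.u n, ∀ z, R z =
        if n ∈ M then ∑ j, z j • X.P.g n j else 0 := by
      refine ⟨LinearMap.toContinuousLinearMap
        { toFun := fun z => if n ∈ M then ∑ j, z j • X.P.g n j else 0
          map_add' := fun a b => by
            split_ifs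
            · simp only [PiLp.add_apply, add_smul, Finset.sum_add_distrib]
            · rw [add_zero]
          map_smul' := fun c a => by
            split_ifs
            · simp only [PiLp.smul_apply, smul_eq_mul, mul_smul, Finset.smul_sum,
                RingHom.id_apply]
            · rw [smul_zero] }, fun z => rfl⟩
    refine ⟨(lp.evalCLM ℝ (E X.P.u) (qE q) n).comp S -
      R.comp (lp.evalCLM ℝ (fun n => PiLp 1 (fun _ : Fin (X.P.v n) => ℝ)) 1 n), fun y => ?_⟩
    change S y n - R (y n) = _
    rw [hR]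
  have h0 : D = 0 := by
    refine Y_ext fun ν => ?_
    rw [hD, hS, zero_apply, sub_eq_zero]
    unfold eY
    obtain ⟨k, i⟩ := ν
    simp only
    by_cases hk : n = k
    · subst hk
      by_cases hM : n ∈ M
      · rw [if_pos hM, if_pos hM, lp.single_apply_self, lp.single_apply_self]
        symm
        rw [Finset.sum_eq_single i]
        · rw [PiLp.single_eq_same, one_smul]
        · intro j _ hj
          rw [PiLp.single_apply, if_neg hj, zero_smul]
        · intro h
          exact absurd (Finset.mem_univ _) h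
      · rw [if_neg hM, if_neg hM]
        rfl
    · rw [lp.single_apply_ne _ _ _ hk]
      have h1 : (if n ∈ M then ∑ j, (0 : PiLp 1 (fun _ : Fin (X.P.v n) => ℝ)) j • X.P.g n j
          else 0) = 0 := by
        split_ifs
        · refine Finset.sum_eq_zero fun j _ => ?_
          rw [PiLp.zero_apply, zero_smul]
        · rfl
      rw [h1]
      split_ifs
      · rw [lp.single_apply_ne _ _ _ hk]
      · rfl
  have h1 := hD y
  rw [h0, zero_apply] at h1
  exact (sub_eq_zero.1 h1.symm)

lemma formI [Fact (1 ≤ qE q)] (X : Dat q) {I : YSp X.P.v →L[ℝ] lp (E X.P.u) (qE q)}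
    (hI : IsIq X I) (y : YSp X.P.v) (m : ℕ) (t : Fin (X.P.u m)) (n : ℕ) (j : Fin (X.P.v n))
    (hnj : pos X.P.v n j = pos X.P.u m t) : I y m t = y n j := by
  classical
  have htw : X.P.tw ⟨n, j⟩ = ⟨m, t⟩ := by
    unfold Params.tw
    simp only
    rw [hnj]
    exact unpos_pos X.P.u_pos ⟨m, t⟩
  obtain ⟨D, hD⟩ : ∃ D : YSp X.P.v →L[ℝ] ℝ, ∀ y, D y = I y m t - y n j := by
    obtain ⟨C, hC⟩ : ∃ C : E X.P.u m →L[ℝ] ℝ, ∀ z, C z = z t :=
      ⟨LinearMap.toContinuousLinearMap
        { toFun := fun z => z t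
          map_add' := fun a b => rfl
          map_smul' := fun c a => rfl }, fun z => rfl⟩
    obtain ⟨R, hR⟩ : ∃ R : PiLp 1 (fun _ : Fin (X.P.v n) => ℝ) →L[ℝ] ℝ, ∀ z, R z = z j :=
      ⟨LinearMap.toContinuousLinearMap
        { toFun := fun z => z j
          map_add' := fun a b => rfl
          map_smul' := fun c a => rfl }, fun z => rfl⟩
    refine ⟨(C.comp (lp.evalCLM ℝ (E X.P.u) (qE q) m)).comp I -
      R.comp (lp.evalCLM ℝ (fun n => PiLp 1 (fun _ : Fin (X.P.v n) => ℝ)) 1 n), fun y => ?_⟩
    change C (I y m) - R (y n) = _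
    rw [hC, hR]
  have h0 : D = 0 := by
    refine Y_ext fun ν => ?_
    rw [hD, hI, zero_apply, sub_eq_zero]
    unfold eY
    by_cases hν : ν = ⟨n, j⟩
    · subst hν
      simp only
      rw [lp.single_apply_self, htw, lp.single_apply_self, PiLp.single_eq_same,
        PiLp.single_eq_same]
    · have h1 : X.P.tw ν ≠ ⟨m, t⟩ := fun h2 => hν (X.P.tw_injective (h2.trans htw.symm))
      have h2 : (lp.single (qE q) (X.P.tw ν).1 (EuclideanSpace.single (X.P.tw ν).2 (1 : ℝ)) :
          lp (E X.P.u) (qE q)) m t = 0 := by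
        by_cases hm : m = (X.P.tw ν).1
        · rcases hq : X.P.tw ν with ⟨m', t'⟩
          rw [hq] at hm h1
          simp only at hm ⊢
          subst hm
          rw [lp.single_apply_self, PiLp.single_apply, if_neg]
          intro h3
          apply h1
          rw [h3]
        · rw [lp.single_apply_ne _ _ _ hm]
          rfl
      rw [h2]
      obtain ⟨k, i⟩ := ν
      simp only
      symm
      by_cases hk : n = k
      · subst hk
        rw [lp.single_apply_self, PiLp.single_apply, if_neg]
        intro h3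
        apply hν
        rw [h3]
      · rw [lp.single_apply_ne _ _ _ hk]
        rfl
  have h1 := hD y
  rw [h0, zero_apply] at h1
  exact (sub_eq_zero.1 h1.symm)

end ColE

open ColE in
theorem wColE : S_ColE := by
  classical
  intro q hq hq2 _ X
  refine ⟨fun M => ?_, ?_, fun M _ S hS y n => formS X hS y n,
    fun I hI y m t n j h => formI X hI y m t n j h⟩
  · obtain ⟨S, _, hS⟩ := Y_lift (v := X.P.v) (X := lp (E X.P.u) (qE q))
      (fun ν => if ν.1 ∈ M then lp.single (qE q) ν.1 (X.P.g ν.1 ν.2) else 0) zero_le_one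
      (fun ν => by
        split_ifs
        · rw [lp.norm_single (qE_pos hq), X.P.norm_g]
        · rw [norm_zero]
          exact zero_le_one)
    exact ⟨S, fun ν => hS ν⟩
  · obtain ⟨S, _, hS⟩ := Y_lift (v := X.P.v) (X := lp (E X.P.u) (qE q))
      (fun ν => lp.single (qE q) (X.P.tw ν).1 (EuclideanSpace.single (X.P.tw ν).2 1))
      zero_le_one (fun ν => by
        rw [lp.norm_single (qE_pos hq), PiLp.norm_single, norm_one])
    exact ⟨S, fun ν => hS ν⟩

end Pool.Agent.Lib.MP_537232_an.PG
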