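import Pool.Agent.Lib.MP_537232_an.PG.SpecJ

set_option autoImplicit false

/-!
# MP_537232_an, directory PG, ColF: the map `φ₃`
-/

open scoped ENNReal Topology
open Filter Finset

namespace Pool.Agent.Lib.MP_537232_an.PG

open NM

namespace ColF

private theorem even_inf : {n : ℕ | Even n}.Infinite :=
  Set.infinite_of_injective_forall_mem (f := fun m : ℕ => 2 * m)
    (fun _ _ h => Nat.eq_of_mul_eq_mul_left two_pos h) fun m => even_two_mul m

private theorem odd_inf : {n : ℕ | Odd n}.Infinite :=
  Set.infinite_of_injective_forall_mem (f := fun m : ℕ => 2 * m + 1)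
    (fun a b h => by simpa using h) fun m => ⟨m, rfl⟩

private theorem eo : ({n : ℕ | Even n} ∩ {n | Odd n}) = ∅ := by
  ext n
  simp only [Set.mem_inter_iff, Set.mem_ofPred_eq, Set.mem_empty_iff_false, iff_false, not_and]
  intro h1 h2
  exact (Nat.not_even_iff_odd.2 h2) h1

end ColF

open ColF in
theorem wColF (h1 : S_ColR) (h2 : S_ColM) (h3 : S_ColI) : S_ColF := by
  intro q hq hq2 _ X S I hS hI heq
  obtain ⟨J, R, hJ, hR, hJn⟩ := h1 q hq hq2 X
  apply h3 q hq hq2 X J hJ R I hR hI
  have e1 : phi S I ({n | Even n} ∩ {n | Odd n}) = idealGen I := by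
    rw [eo, phi, if_neg]
    exact fun h => h Set.finite_empty
  have e2 : phi S I {n | Even n} = idealGen (S {n | Even n}) := by
    rw [phi, if_pos even_inf]
  have e3 : phi S I {n | Odd n} = idealGen (S {n | Odd n}) := by
    rw [phi, if_pos odd_inf]
  rw [e1, e2, e3] at heq
  rw [heq]
  refine Submodule.mem_inf.2 ⟨?_, ?_⟩
  · exact h2 q hq hq2 X J hJ hJn R hR _ (S _) (hS _) (fun m => 2 * m) (fun m => id)
      (fun a b h => Nat.eq_of_mul_eq_mul_left two_pos h) (fun m => even_two_mul m)
      (fun m => Function.injective_id) fun m => (X.st m).app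
  · exact h2 q hq hq2 X J hJ hJn R hR _ (S _) (hS _) (fun m => 2 * m + 1) (fun m => (X.st m).ι)
      (fun a b h => by simpa using h) (fun m => ⟨m, rfl⟩)
      (fun m => (X.st m).ι_inj) fun m => (X.st m).app'

end Pool.Agent.Lib.MP_537232_an.PG
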