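import Pool.Agent.Lib.MP_537232_an.PG.SpecJ

set_option autoImplicit false

open scoped ENNReal Topology
open Filter Finset

namespace Pool.Agent.Lib.MP_537232_an.PG

open NM

theorem wColR (h1 : S_Emb) : S_ColR := by
  intro q hq hq2 _ X
  classical
  obtain ⟨J, hJn, _, hJ⟩ := h1 q (by linarith) X.P.u X.P.u_pos X.D
  have hq0 : 0 < q := by linarith
  have hex : ∀ n, ∃ ρ : Fin (X.P.v n) → lp (E X.P.u) (qE q),
      (∀ m (h : 2 * m = n) (t : Fin (X.P.v (2 * m))), ρ (h ▸ t) = J m ((X.st m).r t)) ∧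
      (∀ m, 2 * m + 1 = n → ρ = 0) ∧ ∀ t, ‖ρ t‖ ≤ 1 := by
    intro n
    obtain ⟨m, hm | hm⟩ := Nat.even_or_odd' n
    · subst hm
      refine ⟨fun t => J m ((X.st m).r t), fun m' h' t => ?_, fun m' h' => ?_, fun t => ?_⟩
      · have : m' = m := by omega
        subst this
        rfl
      · omega
      · refine (hJn m ((X.st m).r t)).le.trans ?_
        exact Real.rpow_le_one (Finset.sum_nonneg fun ω _ => Real.rpow_nonneg (abs_nonneg _) _)
          ((X.st m).r_norm t) (by positivity)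
    · subst hm
      refine ⟨0, fun m' h' => ?_, fun m' h' => rfl, fun t => ?_⟩
      · omega
      · simp
  choose ρ hρ1 hρ2 hρ3 using hex
  obtain ⟨R, -, hR⟩ := Y_lift (v := X.P.v) (X := lp (E X.P.u) (qE q)) (fun ν => ρ ν.1 ν.2) zero_le_one
    (fun ν => hρ3 ν.1 ν.2)
  refine ⟨J, R, hJ, ⟨fun m t => ?_, fun m t => ?_⟩, hJn⟩
  · rw [hR]
    exact hρ1 (2 * m) m rfl t
  · rw [hR]
    change ρ (2 * m + 1) t = 0
    rw [hρ2 (2 * m + 1) m rfl]
    rfl

end Pool.Agent.Lib.MP_537232_an.PG
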