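import Pool.Agent.Lib.MP_537232_an.PG.SpecA

set_option autoImplicit false

/-!
# MP_537232_an, directory PG: the distribution of the dimension of the kernel
-/

open Finset

namespace Pool.Agent.Lib.MP_537232_an.PG

open Classical in
private theorem crk_count (h1 : S_Moo) (K E : Type) [Field K] [Field E] [Fintype K] [Fintype E]
    [Algebra K E] (R i : ℕ) (hi : i ≤ R) (A : E →ₗ[K] E) :
    ∑ b : Fin R → E, (univ.filter fun x : Fin i → E =>
      LinearIndependent K x ∧ ∀ j, (A + Lq K b) (x j) = 0).card ≤ Fintype.card E ^ R := by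
  have h2 : ∑ b : Fin R → E, (univ.filter fun x : Fin i → E =>
      LinearIndependent K x ∧ ∀ j, (A + Lq K b) (x j) = 0).card =
      ∑ x : Fin i → E, (univ.filter fun b : Fin R → E =>
        LinearIndependent K x ∧ ∀ j, (A + Lq K b) (x j) = 0).card := by
    simp only [Finset.card_filter]
    rw [Finset.sum_comm]
  rw [h2]
  have h3 : ∀ x ∈ (univ : Finset (Fin i → E)), (univ.filter fun b : Fin R → E =>
        LinearIndependent K x ∧ ∀ j, (A + Lq K b) (x j) = 0).card ≤ Fintype.card E ^ (R - i) := by
    intro x _
    by_cases hx : LinearIndependent K x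
    · rw [← (h1 K E).1 i R hi x hx (fun j => -A (x j))]
      refine Finset.card_le_card fun b hb => ?_
      rw [Finset.mem_filter] at hb ⊢
      refine ⟨Finset.mem_univ _, fun j => ?_⟩
      have h4 := hb.2.2 j
      rw [LinearMap.add_apply] at h4
      exact eq_neg_of_add_eq_zero_right h4
    · rw [Finset.filter_false_of_mem]
      · simp
      · intro b _ hb
        exact hx hb.1
  refine (Finset.sum_le_sum h3).trans ?_
  rw [Finset.sum_const, Finset.card_univ, Fintype.card_fun, Fintype.card_fin, smul_eq_mul, ← pow_add]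
  rw [Nat.add_sub_cancel' hi]

open Classical in
private theorem crk_low (K E : Type) [Field K] [Field E] [Fintype K] [Fintype E]
    [Algebra K E] (i : ℕ) (D : E →ₗ[K] E) (hi : i ≤ cr K D) :
    ∏ s : Fin i, (Fintype.card K ^ cr K D - Fintype.card K ^ (s : ℕ)) ≤
      (univ.filter fun x : Fin i → E => LinearIndependent K x ∧ ∀ j, D (x j) = 0).card := by
  have h1 := card_linearIndependent (K := K) (V := LinearMap.ker D) (k := i) hi
  have h2 : Module.finrank K (LinearMap.ker D) = cr K D := rfl
  rw [h2] at h1
  rw [← h1]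
  have h3 : (univ.filter fun x : Fin i → E => LinearIndependent K x ∧ ∀ j, D (x j) = 0).card =
      Nat.card {x : Fin i → E // LinearIndependent K x ∧ ∀ j, D (x j) = 0} := by
    rw [Nat.card_eq_fintype_card, Fintype.card_subtype]
  rw [h3]
  refine Nat.card_le_card_of_injective (fun s => ⟨fun j => ((s.1 j : LinearMap.ker D) : E), ?_, ?_⟩) ?_
  · exact s.2.map' (LinearMap.ker D).subtype (Submodule.ker_subtype _)
  · intro j
    exact LinearMap.mem_ker.mp (s.1 j).2
  · intro s s' hs
    apply Subtype.ext
    funext j
    apply Subtype.ext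
    exact congrFun (congrArg Subtype.val hs) j

theorem wCrk (h1 : S_Moo) : S_Crk := by
  classical
  intro K E _ _ _ _ _ _ R A
  have hQ : 2 ≤ Fintype.card K := Fintype.one_lt_card
  constructor
  · intro k i hik hiR
    have h2 := crk_count h1 K E R i hiR A
    refine le_trans ?_ h2
    rw [Finset.card_filter, Finset.sum_mul]
    refine Finset.sum_le_sum fun b _ => ?_
    split_ifs with hk
    · rw [one_mul]
      refine le_trans ?_ (crk_low K E i (A + Lq K b) (hik.trans hk))
      rw [pow_mul]
      have h3 : (Fintype.card K ^ (k - 1)) ^ i = ∏ _s : Fin i, Fintype.card K ^ (k - 1) := by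
        rw [Finset.prod_const, Finset.card_univ, Fintype.card_fin]
      rw [h3]
      refine Finset.prod_le_prod' fun s _ => ?_
      obtain ⟨r, hr⟩ : ∃ r, cr K (A + Lq K b) = r + 1 :=
        ⟨cr K (A + Lq K b) - 1, by have := s.2; omega⟩
      have h4 : Fintype.card K ^ (s : ℕ) ≤ Fintype.card K ^ r :=
        Nat.pow_le_pow_right (by omega) (by have := s.2; omega)
      have h5 : Fintype.card K ^ (k - 1) ≤ Fintype.card K ^ r :=
        Nat.pow_le_pow_right (by omega) (by omega)
      rw [hr, pow_succ]
      have h6 : Fintype.card K ^ r * 2 ≤ Fintype.card K ^ r * Fintype.card K :=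
        Nat.mul_le_mul_left _ hQ
      omega
    · rw [zero_mul]
      exact Nat.zero_le _
  · intro hR
    have h2 := crk_count h1 K E R 1 hR A
    refine le_trans ?_ h2
    rw [Finset.card_filter, Finset.sum_mul]
    refine Finset.sum_le_sum fun b _ => ?_
    split_ifs with hk
    · rw [one_mul]
      refine le_trans ?_ (crk_low K E 1 (A + Lq K b) hk)
      rw [Finset.univ_unique, Finset.prod_singleton]
      show Fintype.card K - 1 ≤ Fintype.card K ^ cr K (A + Lq K b) - Fintype.card K ^ 0
      rw [pow_zero]
      have h3 : Fintype.card K ^ 1 ≤ Fintype.card K ^ cr K (A + Lq K b) :=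
        Nat.pow_le_pow_right (by omega) hk
      rw [pow_one] at h3
      omega
    · rw [zero_mul]
      exact Nat.zero_le _

end Pool.Agent.Lib.MP_537232_an.PG
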