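import Pool.Agent.Lib.MP_537232_an.PG.SpecB

set_option autoImplicit false

/-!
# MP_537232_an, directory PG: the approximation by the even block is exact
-/

open Finset

namespace Pool.Agent.Lib.MP_537232_an.PG

theorem wEva (h1 : S_Pra) : S_Eva := by
  intro q hq1 hq2 n v F Cc L m hC hL
  obtain ⟨-, -, hr, hn⟩ := h1 q hq1 hq2 n v F
  have hq0 : 0 < q := by linarith
  have hD : 0 < F.D := by
    have : Nonempty F.PO := ⟨fun l => ⟨0, F.nO_pos l⟩⟩
    exact Fintype.card_pos
  have hD' : (0 : ℝ) < (F.D : ℝ) := by exact_mod_cast hD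
  have hDr : (0 : ℝ) ≤ (F.D : ℝ) ^ (-(1 / q)) := Real.rpow_nonneg hD'.le _
  refine ⟨fun l j ω => if l = 0 then (F.D : ℝ) ^ (-(1 / q)) * F.M j (F.en ω) else 0, ?_, ?_⟩
  · intro l a
    have ha : 0 ≤ ∑ j, a j ^ 2 := Finset.sum_nonneg fun j _ => sq_nonneg _
    by_cases hl : l = 0
    · subst hl
      have e1 : ∀ ω : Fin F.D, |∑ j, a j * (if 0 = 0 then (F.D : ℝ) ^ (-(1 / q)) *
          F.M j (F.en ω) else 0)| ^ q = (F.D : ℝ)⁻¹ * |∑ j, a j * F.M j (F.en ω)| ^ q := by
        intro ω
        have e2 : ∑ j, a j * (if 0 = 0 then (F.D : ℝ) ^ (-(1 / q)) * F.M j (F.en ω) else 0) =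
            (F.D : ℝ) ^ (-(1 / q)) * ∑ j, a j * F.M j (F.en ω) := by
          rw [Finset.mul_sum]
          refine Finset.sum_congr rfl fun j _ => ?_
          rw [if_pos rfl]
          ring
        rw [e2, abs_mul, abs_of_nonneg hDr, Real.mul_rpow hDr (abs_nonneg _), ← Real.rpow_mul hD'.le]
        congr 1
        rw [show -(1 / q) * q = -1 by field_simp, Real.rpow_neg_one]
      rw [Finset.sum_congr rfl fun ω _ => e1 ω, ← Finset.mul_sum,
        F.en.sum_comp (fun ω => |∑ j, a j * F.M j ω| ^ q)]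
      have h2 := hn a
      have h3 : (F.D : ℝ)⁻¹ * ∑ ω, |∑ j, a j * F.M j ω| ^ q ≤ (∑ j, a j ^ 2) ^ (q / 2) := by
        rw [inv_mul_le_iff₀ hD']
        exact h2
      refine h3.trans (Real.rpow_le_rpow ha ?_ (by linarith))
      norm_num
      linarith
    · simp only [if_neg hl, mul_zero, Finset.sum_const_zero, abs_zero]
      rw [Real.zero_rpow hq0.ne', Finset.sum_const_zero]
      exact Real.rpow_nonneg (mul_nonneg (by positivity) ha) _
  · intro i hi t
    have hLi : 0 < L i := hL i
    refine ⟨fun l => if (l : ℕ) = 0 then 1 else 0, ?_, ?_⟩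
    · intro l
      dsimp only
      split_ifs
      · rw [abs_one]
        exact hC i
      · rw [abs_zero]
        linarith [hC i]
    · have e3 : ∀ ω : Fin F.D, F.rN t ω - ∑ l : Fin (L i), (if (l : ℕ) = 0 then (1 : ℝ) else 0) *
          ∑ j, F.x t j * (if (l : ℕ) = 0 then (F.D : ℝ) ^ (-(1 / q)) * F.M j (F.en ω) else 0) = 0 := by
        intro ω
        rw [Finset.sum_eq_single (⟨0, hLi⟩ : Fin (L i))]
        · simp only [if_true, one_mul]
          rw [Fam.rN, ← hr t (F.en ω), Finset.mul_sum, sub_eq_zero]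
          exact Finset.sum_congr rfl fun j _ => by ring
        · intro l _ hl
          rw [if_neg, zero_mul]
          intro h
          exact hl (Fin.ext h)
        · intro h
          exact absurd (Finset.mem_univ _) h
      simp only [e3, abs_zero]
      rw [Real.zero_rpow hq0.ne', Finset.sum_const_zero]
      exact Real.rpow_nonneg (by positivity) _

end Pool.Agent.Lib.MP_537232_an.PG
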