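import Pool.Agent.Lib.MP_537232_an.PG.SpecA

/-! # MP_537232_an, PG/Fld: the fields `K`, `E` of characteristic two and a nontrivial real character -/

open Finset BigOperators

namespace Pool.Agent.Lib.MP_537232_an.PG

namespace Fld

/-- The sign of an element of `ZMod 2`. -/
private noncomputable def sg (a : ZMod 2) : ℝ := if a = 0 then 1 else -1

private lemma sg_add (a b : ZMod 2) : sg (a + b) = sg a * sg b := by
  have h01 : ∀ c : ZMod 2, c = 0 ∨ c = 1 := by decide
  have h10 : (1 : ZMod 2) ≠ 0 := by decide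
  have h11 : (1 + 1 : ZMod 2) = 0 := by decide
  unfold sg
  rcases h01 a with rfl | rfl <;> rcases h01 b with rfl | rfl
  · simp
  · rw [zero_add, if_neg h10, if_pos rfl, one_mul]
  · rw [add_zero, if_neg h10, if_pos rfl, mul_one]
  · rw [h11, if_neg h10, if_pos rfl]; norm_num

private lemma exists_char (E : Type) [Field E] [CharP E 2] : ∃ Ψ : AddChar E ℝ, Ψ ≠ 1 := by
  let : Algebra (ZMod 2) E := ZMod.algebra E 2
  obtain ⟨f, hf⟩ : ∃ f : Module.Dual (ZMod 2) E, f 1 ≠ 0 := by
    by_contra h
    push Not at h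
    exact one_ne_zero ((Module.forall_dual_apply_eq_zero_iff (ZMod 2) (1 : E)).1 h)
  refine ⟨⟨fun x => sg (f x), by simp [sg], fun a b => by rw [map_add, sg_add]⟩, ?_⟩
  intro h
  have h1 := DFunLike.congr_fun h (1 : E)
  have h2 : sg (f 1) = 1 := h1
  unfold sg at h2
  rw [if_neg hf] at h2
  norm_num at h2

end Fld

open Fld in
/-- **Fld.** -/
theorem wFld : S_Fld := by
  intro e N he hN
  have : Fact (Nat.Prime 2) := ⟨Nat.prime_two⟩
  have : NeZero N := ⟨by omega⟩
  let K : Type := GaloisField 2 e
  let iK : Field K := inferInstanceAs (Field (GaloisField 2 e))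
  have cK : CharP K 2 := inferInstanceAs (CharP (GaloisField 2 e) 2)
  have fK : Finite K := inferInstanceAs (Finite (GaloisField 2 e))
  let E : Type := FiniteField.Extension K 2 N
  let iE : Field E := inferInstanceAs (Field (FiniteField.Extension K 2 N))
  let aE : Algebra K E := inferInstanceAs (Algebra K (FiniteField.Extension K 2 N))
  have fE : Finite E := inferInstanceAs (Finite (FiniteField.Extension K 2 N))
  have cE : CharP E 2 := charP_of_injective_algebraMap (FaithfulSMul.algebraMap_injective K E) 2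
  let tK : Fintype K := Fintype.ofFinite K
  let tE : Fintype E := Fintype.ofFinite E
  obtain ⟨Ψ, hΨ⟩ := exists_char E
  have hK : Nat.card K = 2 ^ e := GaloisField.card 2 e (by omega)
  have hE : Nat.card E = Nat.card K ^ N := FiniteField.natCard_extension K 2 N
  refine ⟨K, E, iK, iE, tK, tE, aE, cE, Ψ, hΨ, ?_, ?_⟩
  · rw [← hK, Nat.card_eq_fintype_card]
  · rw [pow_mul, ← hK, ← hE, Nat.card_eq_fintype_card]

end Pool.Agent.Lib.MP_537232_an.PG
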