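import Pool.Agent.Lib.MP_537232_an.PG.SpecB

set_option autoImplicit false

/-!
# MP_537232_an, directory PG, Flk: vectors with small coherence
-/

open Finset

namespace Pool.Agent.Lib.MP_537232_an.PG

namespace Flk

/-- the value of the polynomial with coefficients `a` at `x` -/
private def ev {p k : ℕ} (a : Fin k → ZMod p) (x : ZMod p) : ZMod p := ∑ i, a i * x ^ (i : ℕ)

private theorem count {p k : ℕ} [Fact p.Prime] (a b : Fin k → ZMod p) (h : a ≠ b) :
    (univ.filter fun x : ZMod p => ev a x = ev b x).card ≤ k := by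
  classical
  set P : Polynomial (ZMod p) :=
    ∑ i : Fin k, Polynomial.C (a i - b i) * Polynomial.X ^ (i : ℕ) with hP
  have hP0 : P ≠ 0 := by
    intro h0
    apply h
    funext j
    have h2 : P.coeff j = a j - b j := by
      rw [hP, Polynomial.finset_sum_coeff]
      rw [Finset.sum_eq_single j]
      · rw [Polynomial.coeff_C_mul, Polynomial.coeff_X_pow, if_pos rfl, mul_one]
      · intro i _ hi
        rw [Polynomial.coeff_C_mul, Polynomial.coeff_X_pow, if_neg, mul_zero]
        intro hh
        exact hi (Fin.ext hh.symm)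
      · intro hj
        exact absurd (Finset.mem_univ _) hj
    rw [h0, Polynomial.coeff_zero] at h2
    exact sub_eq_zero.1 h2.symm
  have hdeg : P.natDegree ≤ k := by
    rw [hP]
    refine Polynomial.natDegree_sum_le_of_forall_le _ _ fun i _ => ?_
    exact (Polynomial.natDegree_C_mul_X_pow_le _ _).trans i.2.le
  have hsub : (univ.filter fun x : ZMod p => ev a x = ev b x) ⊆ P.roots.toFinset := by
    intro x hx
    rw [Finset.mem_filter] at hx
    rw [Multiset.mem_toFinset, Polynomial.mem_roots hP0, Polynomial.IsRoot.def]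
    have hx2 : ∑ i, a i * x ^ (i : ℕ) = ∑ i, b i * x ^ (i : ℕ) := hx.2
    rw [hP, Polynomial.eval_finset_sum]
    have h3 : ∀ i : Fin k, Polynomial.eval x (Polynomial.C (a i - b i) * Polynomial.X ^ (i : ℕ)) =
        a i * x ^ (i : ℕ) - b i * x ^ (i : ℕ) := by
      intro i
      rw [Polynomial.eval_mul, Polynomial.eval_C, Polynomial.eval_pow, Polynomial.eval_X, sub_mul]
    rw [Finset.sum_congr rfl fun i _ => h3 i, Finset.sum_sub_distrib, hx2, sub_self]
  calc (univ.filter fun x : ZMod p => ev a x = ev b x).card ≤ P.roots.toFinset.card :=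
        Finset.card_le_card hsub
    _ ≤ Multiset.card P.roots := Multiset.toFinset_card_le _
    _ ≤ P.natDegree := Polynomial.card_roots' P
    _ ≤ k := hdeg

/-- the vectors -/
private noncomputable def vec {p k : ℕ} (a : Fin k → ZMod p) (z : ZMod p × ZMod p) : ℝ := by
  classical
  exact if z.2 = ev a z.1 then (Real.sqrt p)⁻¹ else 0

private theorem inn {p k : ℕ} [Fact p.Prime] (a b : Fin k → ZMod p) :
    ∑ z : ZMod p × ZMod p, vec a z * vec b z =
      ((univ.filter fun x : ZMod p => ev a x = ev b x).card : ℝ) / p := by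
  classical
  have hp : (0 : ℝ) < p := by exact_mod_cast (Fact.out : p.Prime).pos
  have hs : (Real.sqrt p)⁻¹ * (Real.sqrt p)⁻¹ = 1 / p := by
    rw [← mul_inv, Real.mul_self_sqrt hp.le, one_div]
  rw [Fintype.sum_prod_type]
  have h1 : ∀ x : ZMod p, ∑ y : ZMod p, vec a (x, y) * vec b (x, y) =
      if ev a x = ev b x then 1 / (p : ℝ) else 0 := by
    intro x
    rw [Finset.sum_eq_single (ev a x)]
    · by_cases h : ev a x = ev b x
      · rw [if_pos h]
        simp only [vec]
        rw [if_pos trivial, if_pos h, hs]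
      · rw [if_neg h]
        simp only [vec]
        rw [if_pos trivial, if_neg h, mul_zero]
    · intro y _ hy
      simp only [vec]
      rw [if_neg hy, zero_mul]
    · intro h
      exact absurd (Finset.mem_univ _) h
  rw [Finset.sum_congr rfl fun x _ => h1 x, ← Finset.sum_filter, Finset.sum_const, nsmul_eq_mul]
  ring

end Flk

open Flk in
theorem wFlk : S_Flk := by
  classical
  intro n k
  obtain ⟨p, hn, hp⟩ := Nat.exists_infinite_primes n
  haveI : Fact p.Prime := ⟨hp⟩
  have hp0 : (0 : ℝ) < p := by exact_mod_cast hp.pos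
  refine ⟨p, hn, hp.one_lt.le, ?_⟩
  have e3 : Fin (p ^ k) ≃ (Fin k → ZMod p) := Fintype.equivOfCardEq (by simp [ZMod.card])
  have e2 : Fin (p ^ 2) ≃ ZMod p × ZMod p := Fintype.equivOfCardEq (by simp [ZMod.card, sq])
  have key : ∀ c c', ∑ i, vec (e3 c) (e2 i) * vec (e3 c') (e2 i) =
      ((univ.filter fun x : ZMod p => ev (e3 c) x = ev (e3 c') x).card : ℝ) / p := by
    intro c c'
    rw [← inn (e3 c) (e3 c')]
    exact Equiv.sum_comp e2 (fun z => vec (e3 c) z * vec (e3 c') z)
  refine ⟨fun c i => vec (e3 c) (e2 i), fun c => ?_, fun c c' h => ?_⟩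
  · have h1 := key c c
    simp only [Finset.filter_true, Finset.card_univ, ZMod.card] at h1
    rw [div_self hp0.ne'] at h1
    rw [← h1]
    exact Finset.sum_congr rfl fun i _ => by ring
  · simp only []
    rw [key c c', abs_of_nonneg (by positivity)]
    apply div_le_div_of_nonneg_right _ hp0.le
    exact_mod_cast count (e3 c) (e3 c') (fun hh => h (e3.injective hh))

end Pool.Agent.Lib.MP_537232_an.PG
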