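import Pool.Agent.Lib.MP_537232_an.PG.SpecB

set_option autoImplicit false

/-!
# MP_537232_an, directory PG: the family of sites
-/

open Finset

namespace Pool.Agent.Lib.MP_537232_an.PG

theorem wFmm (h1 : S_Sif) : S_Fmm := by
  intro q h M₀ m G Θ hq1 hq2 hh hM hG hΘ hN
  have hM2 : M₀ ≤ 2 ^ M₀ := Nat.lt_two_pow_self.le
  have key : ∀ l : Fin (m + 1), Nonempty (Site q (Fin (wl G m l ^ (2 * h)))
      (Fin (wl G m l ^ (2 * rho M₀ l + 2 * h))) (Fin (wl G m l ^ (Θ - 1 + 1)))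
      (((2 : ℝ) ^ ee M₀ l) ^ rho M₀ l) (2 / 2 ^ ee M₀ l) (1 / 2 ^ ee M₀ l)
      ((((2 : ℝ) ^ ee M₀ l) ^ (Θ - 1) / (wl G m l : ℕ)) ^ h)
      (4 * ((Θ : ℝ) - 1 + 1) * ((2 : ℝ) ^ ee M₀ l) ^ ((Θ - 1) ^ 2 + 3 * (Θ - 1) + rho M₀ l ^ 2) /
      ((wl G m l : ℕ) : ℝ) ^ rho M₀ l)) := by
    intro l
    obtain ⟨N, hN1, hN2⟩ := hN l (Nat.lt_succ_iff.1 l.2)
    have hρ1 : 1 ≤ rho M₀ l := by
      unfold rho
      exact Nat.mul_pos (by positivity) hM
    have hρ2 : rho M₀ l ≤ 2 ^ ee M₀ l := by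
      unfold rho ee
      calc 2 ^ ((l : ℕ) + 1) * M₀ ≤ 2 ^ ((l : ℕ) + 1) * 2 ^ M₀ := Nat.mul_le_mul_left _ hM2
        _ = 2 ^ ((l : ℕ) + 1 + M₀) := (pow_add _ _ _).symm
        _ ≤ 2 ^ ((l : ℕ) + 5 + M₀) := Nat.pow_le_pow_right two_pos (by omega)
    have h5 : 5 ≤ ee M₀ l := by unfold ee; omega
    have h2 := h1 q h (rho M₀ l) (Θ - 1) (ee M₀ l) N hq1 hq2 hh hρ1 hρ2 h5 hN2
    rw [hN1] at h2
    have hw : ((wl G m l : ℕ) : ℝ) = 2 ^ (G * 2 ^ (m - (l : ℕ))) := by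
      unfold wl
      push_cast
      rfl
    have hT : ((Θ - 1 : ℕ) : ℝ) = (Θ : ℝ) - 1 := by
      rw [Nat.cast_sub hΘ, Nat.cast_one]
    rw [hT] at h2
    rw [hw]
    exact h2
  have hv : ∀ l : Fin (m + 1), 2 ^ (G * Θ) ≤ wl G m l ^ (Θ - 1 + 1) := by
    intro l
    unfold wl
    rw [← pow_mul, Nat.sub_add_cancel hΘ]
    refine Nat.pow_le_pow_right two_pos ?_
    refine Nat.mul_le_mul_right _ ?_
    exact Nat.le_mul_of_pos_right _ (by positivity)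
  refine ⟨{ nX := fun l => wl G m l ^ (2 * h)
            nO := fun l => wl G m l ^ (2 * rho M₀ l + 2 * h)
            nL := fun l => wl G m l ^ (Θ - 1 + 1)
            Cm := fun l => ((2 : ℝ) ^ ee M₀ l) ^ rho M₀ l
            β := fun l => 2 / 2 ^ ee M₀ l
            ε := fun l => 1 / 2 ^ ee M₀ l
            δ := fun l => (((2 : ℝ) ^ ee M₀ l) ^ (Θ - 1) / (wl G m l : ℕ)) ^ h
            μ := fun l => 4 * ((Θ : ℝ) - 1 + 1) *
              ((2 : ℝ) ^ ee M₀ l) ^ ((Θ - 1) ^ 2 + 3 * (Θ - 1) + rho M₀ l ^ 2) /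
              ((wl G m l : ℕ) : ℝ) ^ rho M₀ l
            S := fun l => (key l).some
            lam := fun l => Fin.castLE (hv l)
            lam_inj := fun l => Fin.castLE_injective (hv l)
            nO_pos := fun l => by unfold wl; positivity }, ?_, ?_, fun l => rfl, fun l => rfl,
            fun l => rfl, fun l => rfl, fun l => rfl⟩
  · rw [Fintype.card_pi]
    simp only [Fintype.card_fin]
    exact Fin.prod_univ_eq_prod_range (fun l => wl G m l ^ (2 * h)) (m + 1)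
  · rw [Fintype.card_pi]
    simp only [Fintype.card_fin]
    rw [Fin.prod_univ_eq_prod_range (fun l => wl G m l ^ (2 * rho M₀ l + 2 * h)) (m + 1), kap,
      Finset.mul_sum, ← Finset.prod_pow_eq_pow_sum]
    refine Finset.prod_congr rfl fun l _ => ?_
    unfold wl
    rw [← pow_mul]
    congr 1
    ring

end Pool.Agent.Lib.MP_537232_an.PG
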