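import Pool.Agent.Lib.MP_537232_an.PG.SpecB

set_option autoImplicit false

/-!
# Fwp: the functionals have few large coordinates
-/

open Finset

namespace Pool.Agent.Lib.MP_537232_an.PG

namespace Fwp

/-- One functional: the number of the large coordinates. -/
theorem one {p : ℝ} (hp : 2 < p) {v D : ℕ} (hD : 1 ≤ D) {y : Fin v → Fin D → ℝ} {μ : ℝ}
    (hy : ∀ t ω, |y t ω| ≤ 1) (hμ : 0 ≤ μ)
    (hyy : ∀ t t', t ≠ t' → |∑ ω, y t ω * y t' ω| ≤ D * μ) {η b : ℝ} (hη : 0 < η) (hb : 0 ≤ b)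
    (hbμ : b ^ p * μ ≤ η ^ p / 2) (Λ : Fin D → ℝ)
    (hΛ : ∀ h : Fin D → ℝ, |∑ ω, Λ ω * h ω| ^ p ≤ b ^ p * ∑ ω, |h ω| ^ p) (J : Finset (Fin v))
    (hJ : ∀ t ∈ J, η ≤ |∑ ω, Λ ω * ((D : ℝ) ^ (-(1 / p)) * y t ω)|) :
    (J.card : ℝ) * η ^ p ≤ 2 * b ^ p := by
  classical
  have hbp : 0 ≤ b ^ p := Real.rpow_nonneg hb p
  have hηp : 0 < η ^ p := Real.rpow_pos_of_pos hη p
  have hD0 : (0 : ℝ) < D := by exact_mod_cast hD
  rcases J.eq_empty_or_nonempty with h0 | hne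
  · rw [h0, Finset.card_empty, Nat.cast_zero, zero_mul]
    positivity
  obtain ⟨N, hN⟩ : ∃ N : ℝ, N = (J.card : ℝ) := ⟨_, rfl⟩
  have hN0 : 0 < N := by
    rw [hN]
    exact_mod_cast hne.card_pos
  rw [← hN]
  obtain ⟨F, hF⟩ : ∃ F : Fin v → ℝ, ∀ t, F t = ∑ ω, Λ ω * ((D : ℝ) ^ (-(1 / p)) * y t ω) :=
    ⟨_, fun _ => rfl⟩
  obtain ⟨σ, hσ1, hσ2⟩ : ∃ σ : Fin v → ℝ, (∀ t, |σ t| = 1) ∧ ∀ t, σ t * F t = |F t| := by
    refine ⟨fun t => if 0 ≤ F t then 1 else -1, fun t => ?_, fun t => ?_⟩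
    · by_cases h : 0 ≤ F t
      · simp [h]
      · simp [h]
    · by_cases h : 0 ≤ F t
      · simp [h, abs_of_nonneg h]
      · simp [h, abs_of_neg (not_le.1 h)]
  obtain ⟨g, hg⟩ : ∃ g : Fin D → ℝ, ∀ ω, g ω = ∑ t ∈ J, σ t * y t ω := ⟨_, fun _ => rfl⟩
  -- the value at the combination
  have h1 : ∑ ω, Λ ω * ((D : ℝ) ^ (-(1 / p)) * g ω) = ∑ t ∈ J, |F t| := by
    have e1 : ∀ ω, Λ ω * ((D : ℝ) ^ (-(1 / p)) * g ω) =
        ∑ t ∈ J, σ t * (Λ ω * ((D : ℝ) ^ (-(1 / p)) * y t ω)) := by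
      intro ω
      rw [hg, Finset.mul_sum, Finset.mul_sum]
      exact Finset.sum_congr rfl fun t _ => by ring
    simp only [e1]
    rw [Finset.sum_comm]
    refine Finset.sum_congr rfl fun t _ => ?_
    rw [← Finset.mul_sum, ← hF, hσ2]
  have h2 : N * η ≤ ∑ t ∈ J, |F t| := by
    rw [hN, ← nsmul_eq_mul]
    exact Finset.card_nsmul_le_sum J _ _ fun t ht => by rw [hF]; exact hJ t ht
  have h3 : (N * η) ^ p ≤ b ^ p * ∑ ω, |(D : ℝ) ^ (-(1 / p)) * g ω| ^ p := by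
    refine le_trans ?_ (hΛ fun ω => (D : ℝ) ^ (-(1 / p)) * g ω)
    refine Real.rpow_le_rpow (by positivity) ?_ (by linarith)
    rw [h1]
    exact h2.trans (le_abs_self _)
  -- the norm of the combination
  have hgN : ∀ ω, |g ω| ≤ N := by
    intro ω
    rw [hg, hN, ← nsmul_one]
    refine (Finset.abs_sum_le_sum_abs _ _).trans (Finset.sum_le_card_nsmul _ _ _ fun t _ => ?_)
    rw [abs_mul, hσ1, one_mul]
    exact hy t ω
  have hg2 : ∑ ω, g ω ^ 2 ≤ N * D + N ^ 2 * (D * μ) := by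
    have e1 : ∀ ω, g ω ^ 2 = ∑ t ∈ J, ∑ t' ∈ J, σ t * σ t' * (y t ω * y t' ω) := by
      intro ω
      rw [hg, sq, Finset.sum_mul_sum]
      exact Finset.sum_congr rfl fun t _ => Finset.sum_congr rfl fun t' _ => by ring
    have e2 : ∑ ω, g ω ^ 2 = ∑ t ∈ J, ∑ t' ∈ J, σ t * σ t' * ∑ ω, y t ω * y t' ω := by
      simp only [e1]
      rw [Finset.sum_comm]
      refine Finset.sum_congr rfl fun t _ => ?_
      rw [Finset.sum_comm]
      refine Finset.sum_congr rfl fun t' _ => ?_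
      rw [Finset.mul_sum]
    rw [e2]
    have e3 : ∀ t ∈ J, ∀ t' ∈ J, σ t * σ t' * ∑ ω, y t ω * y t' ω ≤
        (if t = t' then (D : ℝ) else 0) + D * μ := by
      intro t _ t' _
      have e4 : |σ t * σ t' * ∑ ω, y t ω * y t' ω| = |∑ ω, y t ω * y t' ω| := by
        rw [abs_mul, abs_mul, hσ1, hσ1, one_mul, one_mul]
      refine (le_abs_self _).trans ?_
      rw [e4]
      by_cases h : t = t'
      · subst h
        rw [if_pos rfl]
        have e5 : |∑ ω, y t ω * y t ω| ≤ D := by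
          refine (Finset.abs_sum_le_sum_abs _ _).trans ?_
          have e6 : ∑ ω : Fin D, |y t ω * y t ω| ≤ ∑ _ω : Fin D, (1 : ℝ) := by
            refine Finset.sum_le_sum fun ω _ => ?_
            rw [abs_mul]
            exact mul_le_one₀ (hy t ω) (abs_nonneg _) (hy t ω)
          refine e6.trans (le_of_eq ?_)
          simp
        have e7 : 0 ≤ (D : ℝ) * μ := by positivity
        linarith
      · rw [if_neg h, zero_add]
        exact hyy t t' h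
    refine (Finset.sum_le_sum fun t ht => Finset.sum_le_sum fun t' ht' => e3 t ht t' ht').trans
      (le_of_eq ?_)
    have e8 : ∀ t ∈ J, ∑ t' ∈ J, ((if t = t' then (D : ℝ) else 0) + D * μ) = D + N * (D * μ) := by
      intro t ht
      rw [Finset.sum_add_distrib, Finset.sum_ite_eq, if_pos ht, Finset.sum_const, nsmul_eq_mul, hN]
    rw [Finset.sum_congr rfl e8, Finset.sum_const, nsmul_eq_mul, ← hN]
    ring
  have h4 : ∑ ω, |(D : ℝ) ^ (-(1 / p)) * g ω| ^ p ≤ N ^ (p - 2) * (N + N ^ 2 * μ) := by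
    have e1 : ∀ ω, |(D : ℝ) ^ (-(1 / p)) * g ω| ^ p ≤ (D : ℝ)⁻¹ * (N ^ (p - 2) * g ω ^ 2) := by
      intro ω
      have e2 : |(D : ℝ) ^ (-(1 / p))| = (D : ℝ) ^ (-(1 / p)) := abs_of_pos (Real.rpow_pos_of_pos hD0 _)
      have e3 : ((D : ℝ) ^ (-(1 / p))) ^ p = (D : ℝ)⁻¹ := by
        rw [← Real.rpow_mul hD0.le, ← Real.rpow_neg_one]
        congr 1
        field_simp
      rw [abs_mul, e2, Real.mul_rpow (Real.rpow_nonneg hD0.le _) (abs_nonneg _), e3]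
      refine mul_le_mul_of_nonneg_left ?_ (by positivity)
      have e4 : |g ω| ^ p = |g ω| ^ (p - 2) * g ω ^ 2 := by
        have e5 : p = (p - 2) + 2 := by ring
        conv_lhs => rw [e5]
        rw [Real.rpow_add' (abs_nonneg _) (by linarith), ← sq_abs (g ω)]
        congr 1
        exact_mod_cast Real.rpow_natCast |g ω| 2
      rw [e4]
      exact mul_le_mul_of_nonneg_right (Real.rpow_le_rpow (abs_nonneg _) (hgN ω) (by linarith))
        (sq_nonneg _)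
    refine (Finset.sum_le_sum fun ω _ => e1 ω).trans ?_
    rw [← Finset.mul_sum, ← Finset.mul_sum]
    have hNp : 0 < N ^ (p - 2) := Real.rpow_pos_of_pos hN0 _
    calc (D : ℝ)⁻¹ * (N ^ (p - 2) * ∑ ω, g ω ^ 2)
        ≤ (D : ℝ)⁻¹ * (N ^ (p - 2) * (N * D + N ^ 2 * (D * μ))) := by
          refine mul_le_mul_of_nonneg_left (mul_le_mul_of_nonneg_left hg2 hNp.le) (by positivity)
      _ = N ^ (p - 2) * (N + N ^ 2 * μ) := by
          field_simp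
  have hNp : 0 < N ^ (p - 2) := Real.rpow_pos_of_pos hN0 _
  have h5 : (N * η) ^ p = N ^ (p - 2) * (N ^ 2 * η ^ p) := by
    rw [Real.mul_rpow hN0.le hη.le]
    have e5 : p = (p - 2) + 2 := by ring
    have e6 : N ^ p = N ^ (p - 2) * N ^ 2 := by
      conv_lhs => rw [e5]
      rw [Real.rpow_add hN0]
      congr 1
      exact_mod_cast Real.rpow_natCast N 2
    rw [e6]
    ring
  have h6 : N ^ (p - 2) * (N ^ 2 * η ^ p) ≤ N ^ (p - 2) * (b ^ p * (N + N ^ 2 * μ)) := by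
    rw [← h5]
    refine h3.trans ((mul_le_mul_of_nonneg_left h4 hbp).trans (le_of_eq ?_))
    ring
  have h7 : N ^ 2 * η ^ p ≤ b ^ p * (N + N ^ 2 * μ) := le_of_mul_le_mul_left h6 hNp
  have h8 : N * (N * η ^ p) ≤ N * (b ^ p + N * (b ^ p * μ)) := by
    calc N * (N * η ^ p) = N ^ 2 * η ^ p := by ring
      _ ≤ b ^ p * (N + N ^ 2 * μ) := h7
      _ = N * (b ^ p + N * (b ^ p * μ)) := by ring
  have h9 := le_of_mul_le_mul_left h8 hN0
  have h10 := mul_le_mul_of_nonneg_left hbμ hN0.le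
  linarith

/-- A functional with a large coordinate has a large quadratic norm. -/
theorem two {p : ℝ} (hp : 2 < p) {D : ℕ} (hD : 1 ≤ D) {y : Fin D → ℝ} (hy : ∀ ω, |y ω| ≤ 1)
    {η : ℝ} (hη : 0 < η) (Λ : Fin D → ℝ)
    (h : η ≤ |∑ ω, Λ ω * ((D : ℝ) ^ (-(1 / p)) * y ω)|) :
    η ^ p * D ≤ (D : ℝ) ^ (p / 2) * (∑ ω, Λ ω ^ 2) ^ (p / 2) := by
  have hD0 : (0 : ℝ) < D := by exact_mod_cast hD
  have hA : 0 < (D : ℝ) ^ (1 / p) := Real.rpow_pos_of_pos hD0 _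
  have hQ : 0 ≤ ∑ ω, Λ ω ^ 2 := Finset.sum_nonneg fun ω _ => sq_nonneg _
  have h1 : η * (D : ℝ) ^ (1 / p) ≤ ∑ ω, |Λ ω| := by
    have e1 : |∑ ω, Λ ω * ((D : ℝ) ^ (-(1 / p)) * y ω)| ≤
        (D : ℝ) ^ (-(1 / p)) * ∑ ω, |Λ ω| := by
      refine (Finset.abs_sum_le_sum_abs _ _).trans ?_
      rw [Finset.mul_sum]
      refine Finset.sum_le_sum fun ω _ => ?_
      have e2 : |(D : ℝ) ^ (-(1 / p))| = (D : ℝ) ^ (-(1 / p)) := abs_of_pos (Real.rpow_pos_of_pos hD0 _)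
      rw [abs_mul, abs_mul, e2]
      have e3 : |Λ ω| * ((D : ℝ) ^ (-(1 / p)) * |y ω|) =
          ((D : ℝ) ^ (-(1 / p)) * |Λ ω|) * |y ω| := by ring
      rw [e3]
      exact mul_le_of_le_one_right (by positivity) (hy ω)
    have e4 := h.trans e1
    rw [Real.rpow_neg hD0.le, inv_mul_eq_div, le_div_iff₀ hA] at e4
    exact e4
  have h2 : (∑ ω, |Λ ω|) ^ 2 ≤ D * ∑ ω, Λ ω ^ 2 := by
    have e1 := sq_sum_le_card_mul_sum_sq (s := (Finset.univ : Finset (Fin D))) (f := fun ω => |Λ ω|)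
    simpa using e1
  have h3 : (η * (D : ℝ) ^ (1 / p)) ^ 2 ≤ D * ∑ ω, Λ ω ^ 2 :=
    (pow_le_pow_left₀ (by positivity) h1 2).trans h2
  have h4 := Real.rpow_le_rpow (by positivity) h3 (by linarith : 0 ≤ p / 2)
  rw [Real.mul_rpow hD0.le hQ] at h4
  refine le_trans (le_of_eq ?_) h4
  rw [← Real.rpow_natCast, ← Real.rpow_mul (by positivity), Real.mul_rpow hη.le hA.le,
    ← Real.rpow_mul hD0.le]
  have e1 : ((2 : ℕ) : ℝ) * (p / 2) = p := by push_cast; ring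
  have e2 : 1 / p * (((2 : ℕ) : ℝ) * (p / 2)) = 1 := by
    rw [e1]
    field_simp
  rw [e2, Real.rpow_one, e1]

end Fwp

theorem wFwp (h1 : S_Rad) : S_Fwp := by
  classical
  intro p hp v D m y μ hD hy hyy hμ hm hv b n Λ hb hbm hΛ J hJ
  have hD0 : (0 : ℝ) < D := by exact_mod_cast hD
  have hm0 : (0 : ℝ) ≤ m := Nat.cast_nonneg m
  have hm1 : (0 : ℝ) < (m : ℝ) + 1 := by positivity
  obtain ⟨η, hη⟩ : ∃ η : ℝ, η = 1 / ((m : ℝ) + 1) := ⟨_, rfl⟩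
  have hη0 : 0 < η := by rw [hη]; positivity
  have hηp : η ^ p * ((m : ℝ) + 1) ^ p = 1 := by
    rw [← Real.mul_rpow hη0.le hm1.le, hη, one_div, inv_mul_cancel₀ hm1.ne', Real.one_rpow]
  have hηp0 : 0 < η ^ p := Real.rpow_pos_of_pos hη0 p
  have hm1p : 0 < ((m : ℝ) + 1) ^ p := Real.rpow_pos_of_pos hm1 p
  have hbp : b ^ p ≤ (m : ℝ) ^ p := Real.rpow_le_rpow hb hbm (by linarith)
  have hbp0 : 0 ≤ b ^ p := Real.rpow_nonneg hb p
  have hbμ : b ^ p * μ ≤ η ^ p / 2 := by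
    have e1 : b ^ p * μ ≤ (m : ℝ) ^ p * μ := mul_le_mul_of_nonneg_right hbp hμ
    have e2 : (m : ℝ) ^ p * μ ≤ η ^ p / 2 := by
      apply le_of_mul_le_mul_right _ hm1p
      have e3 : η ^ p / 2 * ((m : ℝ) + 1) ^ p = 1 / 2 := by
        rw [div_mul_eq_mul_div, hηp]
      rw [e3]
      linarith
    exact e1.trans e2
  rw [← hη] at hJ
  -- the functionals
  obtain ⟨S, hS⟩ : ∃ S : Finset (Fin n), ∀ s, s ∈ S ↔ ∃ t ∈ J,
      η ≤ |∑ ω, Λ s ω * ((D : ℝ) ^ (-(1 / p)) * y t ω)| :=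
    ⟨univ.filter fun s => ∃ t ∈ J, η ≤ |∑ ω, Λ s ω * ((D : ℝ) ^ (-(1 / p)) * y t ω)|,
      fun s => by rw [Finset.mem_filter]; exact ⟨fun h => h.2, fun h => ⟨Finset.mem_univ s, h⟩⟩⟩
  obtain ⟨Js, hJs⟩ : ∃ Js : Fin n → Finset (Fin v), ∀ s t, t ∈ Js s ↔ t ∈ J ∧
      η ≤ |∑ ω, Λ s ω * ((D : ℝ) ^ (-(1 / p)) * y t ω)| :=
    ⟨fun s => J.filter fun t => η ≤ |∑ ω, Λ s ω * ((D : ℝ) ^ (-(1 / p)) * y t ω)|,
      fun s t => Finset.mem_filter⟩
  -- (2)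
  have h2 : ∀ s, ((Js s).card : ℝ) * η ^ p ≤ 2 * b ^ p := by
    intro s
    refine Fwp.one hp hD hy hμ hyy hη0 hb hbμ (Λ s) (fun h => ?_) (Js s)
      fun t ht => ((hJs s t).1 ht).2
    refine le_trans ?_ (hΛ h)
    exact Finset.single_le_sum (f := fun s => |∑ ω, Λ s ω * h ω| ^ p)
      (fun s _ => Real.rpow_nonneg (abs_nonneg _) p) (Finset.mem_univ s)
  -- (1)
  have h3 : ∀ s ∈ S, η ^ p * D ≤ (D : ℝ) ^ (p / 2) * (∑ ω, Λ s ω ^ 2) ^ (p / 2) := by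
    intro s hs
    obtain ⟨t, _, ht⟩ := (hS s).1 hs
    exact Fwp.two hp hD (hy t) hη0 (Λ s) ht
  have h4 : ∑ s, (∑ ω, Λ s ω ^ 2) ^ (p / 2) ≤ b ^ p * D := by
    refine (Finset.sum_le_sum fun s _ => h1 p hp.le D (Λ s)).trans ?_
    rw [← Finset.mul_sum, Finset.sum_comm]
    have e1 : ∀ θ : Fin D → Bool, ∑ s, |∑ ω, Λ s ω * NM.sg (θ ω)| ^ p ≤ b ^ p * D := by
      intro θ
      refine (hΛ fun ω => NM.sg (θ ω)).trans (le_of_eq ?_)
      have e2 : ∀ ω : Fin D, |NM.sg (θ ω)| ^ p = 1 := by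
        intro ω
        have e3 : |NM.sg (θ ω)| = 1 := by
          cases θ ω <;> simp [NM.sg]
        rw [e3, Real.one_rpow]
      simp only [e2]
      simp
    refine (mul_le_mul_of_nonneg_left (Finset.sum_le_sum fun θ _ => e1 θ) (by positivity)).trans
      (le_of_eq ?_)
    rw [Finset.sum_const, Finset.card_univ, Fintype.card_fun, Fintype.card_bool, Fintype.card_fin,
      nsmul_eq_mul]
    push_cast
    rw [inv_mul_cancel_left₀ (by positivity)]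
  have h5 : (S.card : ℝ) * η ^ p ≤ (D : ℝ) ^ (p / 2) * b ^ p := by
    have e1 : (S.card : ℝ) * (η ^ p * D) ≤ (D : ℝ) ^ (p / 2) * (b ^ p * D) := by
      rw [← nsmul_eq_mul]
      refine (Finset.card_nsmul_le_sum S _ _ h3).trans ?_
      rw [← Finset.mul_sum]
      refine mul_le_mul_of_nonneg_left ?_ (Real.rpow_nonneg hD0.le _)
      refine le_trans ?_ h4
      exact Finset.sum_le_univ_sum_of_nonneg fun s =>
        Real.rpow_nonneg (Finset.sum_nonneg fun ω _ => sq_nonneg _) _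
    apply le_of_mul_le_mul_right _ hD0
    calc (S.card : ℝ) * η ^ p * D = (S.card : ℝ) * (η ^ p * D) := by ring
      _ ≤ _ := e1
      _ = _ := by ring
  -- (3)
  have h6 : (J.card : ℝ) * η ^ p ≤ S.card * (2 * b ^ p) := by
    have e1 : J ⊆ S.biUnion Js := by
      intro t ht
      obtain ⟨s, hs⟩ := hJ t ht
      rw [Finset.mem_biUnion]
      exact ⟨s, (hS s).2 ⟨t, ht, hs⟩, (hJs s t).2 ⟨ht, hs⟩⟩
    have e2 : (J.card : ℝ) ≤ ∑ s ∈ S, ((Js s).card : ℝ) := by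
      have := (Finset.card_le_card e1).trans Finset.card_biUnion_le
      exact_mod_cast this
    calc (J.card : ℝ) * η ^ p ≤ (∑ s ∈ S, ((Js s).card : ℝ)) * η ^ p :=
          mul_le_mul_of_nonneg_right e2 hηp0.le
      _ = ∑ s ∈ S, ((Js s).card : ℝ) * η ^ p := by rw [Finset.sum_mul]
      _ ≤ ∑ _s ∈ S, 2 * b ^ p := Finset.sum_le_sum fun s _ => h2 s
      _ = S.card * (2 * b ^ p) := by rw [Finset.sum_const, nsmul_eq_mul]
  have h7 : (J.card : ℝ) * (η ^ p * η ^ p) ≤ 2 * (b ^ p * b ^ p) * (D : ℝ) ^ (p / 2) := by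
    calc (J.card : ℝ) * (η ^ p * η ^ p) = (J.card : ℝ) * η ^ p * η ^ p := by ring
      _ ≤ S.card * (2 * b ^ p) * η ^ p := mul_le_mul_of_nonneg_right h6 hηp0.le
      _ = 2 * b ^ p * (S.card * η ^ p) := by ring
      _ ≤ 2 * b ^ p * ((D : ℝ) ^ (p / 2) * b ^ p) :=
          mul_le_mul_of_nonneg_left h5 (by positivity)
      _ = _ := by ring
  have h8 : (J.card : ℝ) ≤ 2 * ((m : ℝ) * ((m : ℝ) + 1)) ^ (2 * p) * (D : ℝ) ^ (p / 2) := by
    have e1 : ((m : ℝ) * ((m : ℝ) + 1)) ^ (2 * p) =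
        (m : ℝ) ^ p * (m : ℝ) ^ p * (((m : ℝ) + 1) ^ p * ((m : ℝ) + 1) ^ p) := by
      rw [Real.mul_rpow hm0 hm1.le, two_mul, Real.rpow_add' hm0 (by linarith), Real.rpow_add hm1]
    have e2 : (J.card : ℝ) = (J.card : ℝ) * (η ^ p * η ^ p) *
        (((m : ℝ) + 1) ^ p * ((m : ℝ) + 1) ^ p) := by
      have e3 : η ^ p * η ^ p * (((m : ℝ) + 1) ^ p * ((m : ℝ) + 1) ^ p) = 1 := by
        calc η ^ p * η ^ p * (((m : ℝ) + 1) ^ p * ((m : ℝ) + 1) ^ p)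
            = (η ^ p * ((m : ℝ) + 1) ^ p) * (η ^ p * ((m : ℝ) + 1) ^ p) := by ring
          _ = 1 := by rw [hηp, one_mul]
      rw [mul_assoc, e3, mul_one]
    have e4 : b ^ p * b ^ p ≤ (m : ℝ) ^ p * (m : ℝ) ^ p :=
      mul_le_mul hbp hbp hbp0 (Real.rpow_nonneg hm0 p)
    have hDp : 0 ≤ (D : ℝ) ^ (p / 2) := Real.rpow_nonneg hD0.le _
    rw [e1, e2]
    calc (J.card : ℝ) * (η ^ p * η ^ p) * (((m : ℝ) + 1) ^ p * ((m : ℝ) + 1) ^ p)
        ≤ 2 * (b ^ p * b ^ p) * (D : ℝ) ^ (p / 2) * (((m : ℝ) + 1) ^ p * ((m : ℝ) + 1) ^ p) :=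
          mul_le_mul_of_nonneg_right h7 (by positivity)
      _ ≤ 2 * ((m : ℝ) ^ p * (m : ℝ) ^ p) * (D : ℝ) ^ (p / 2) *
          (((m : ℝ) + 1) ^ p * ((m : ℝ) + 1) ^ p) := by
          refine mul_le_mul_of_nonneg_right (mul_le_mul_of_nonneg_right ?_ hDp) (by positivity)
          linarith
      _ = _ := by ring
  calc ((m : ℝ) + 1) * J.card
      ≤ ((m : ℝ) + 1) * (2 * ((m : ℝ) * ((m : ℝ) + 1)) ^ (2 * p) * (D : ℝ) ^ (p / 2)) :=
        mul_le_mul_of_nonneg_left h8 hm1.le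
    _ = 2 * ((m : ℝ) + 1) * ((m : ℝ) * ((m : ℝ) + 1)) ^ (2 * p) * (D : ℝ) ^ (p / 2) := by ring
    _ ≤ v := hv

end Pool.Agent.Lib.MP_537232_an.PG
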