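import Pool.Agent.Lib.MP_537232_an.PG.SpecA

/-!
# MP_537232_an, PG: kernels
-/

set_option autoImplicit false

open Finset

namespace Pool.Agent.Lib.MP_537232_an.PG

theorem wKer : S_Ker := by
  classical
  intro K E _ _ _ _ _ D
  have hfin : FiniteDimensional K E := Module.Finite.of_finite
  have h0 : Fintype.card K ^ cr K (0 : E →ₗ[K] E) = Fintype.card E := by
    unfold cr
    rw [LinearMap.ker_zero, finrank_top]
    exact (Module.card_eq_pow_finrank (K := K) (V := E)).symm
  refine ⟨?_, ?_, h0, ?_⟩
  · have h1 : Fintype.card (LinearMap.ker D) = Fintype.card K ^ cr K D :=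
      Module.card_eq_pow_finrank (K := K) (V := LinearMap.ker D)
    rw [← h1, Fintype.card_subtype]
    congr 1
  · unfold cr
    rw [Submodule.finrank_eq_zero, LinearMap.ker_eq_bot]
  · unfold cr
    rw [LinearMap.ker_zero, finrank_top]
    exact Submodule.finrank_le _

end Pool.Agent.Lib.MP_537232_an.PG
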