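import Pool.Agent.Lib.MP_537232_an.PG.SpecA

/-!
# MP_537232_an, directory PG: `Q`-polynomials
-/

set_option autoImplicit false

open Finset

namespace Pool.Agent.Lib.MP_537232_an.PG

namespace Lqa

variable (K E : Type) [Field K] [Field E] [Fintype K] [Fintype E] [Algebra K E]

theorem frob_pow (i : ℕ) (v : E) :
    ((FiniteField.frobeniusAlgHom K E) ^ i) v = v ^ (Fintype.card K ^ i) := by
  induction i with
  | zero =>
    rw [pow_zero, pow_zero, pow_one]
    rfl
  | succ i ih =>
    rw [pow_succ', AlgHom.mul_apply, ih, FiniteField.coe_frobeniusAlgHom, pow_succ, pow_mul]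

theorem Lq_apply {R : ℕ} (b : Fin R → E) (v : E) :
    Lq K b v = ∑ i, b i * v ^ (Fintype.card K ^ (i : ℕ)) := by
  unfold Lq
  rw [LinearMap.sum_apply]
  refine sum_congr rfl fun i _ => ?_
  rw [LinearMap.comp_apply, LinearMap.mulLeft_apply, AlgHom.toLinearMap_apply, frob_pow]

end Lqa

open Lqa

theorem wLqa : S_Lqa := by
  classical
  intro K E _ _ _ _ _ R b b'
  refine ⟨Lq_apply K E b, ?_, fun hb => ?_⟩
  · ext v
    rw [LinearMap.add_apply, Lq_apply, Lq_apply, Lq_apply, ← sum_add_distrib]
    refine sum_congr rfl fun i _ => ?_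
    rw [Pi.add_apply, add_mul]
  · obtain ⟨i₀, hi₀⟩ : ∃ i, b i ≠ 0 := by
      by_contra h
      push Not at h
      exact hb (funext h)
    have hQ : 1 < Fintype.card K := Fintype.one_lt_card
    set P : Polynomial E :=
      ∑ i : Fin R, Polynomial.C (b i) * Polynomial.X ^ (Fintype.card K ^ (i : ℕ)) with hP
    have hP0 : P ≠ 0 := by
      intro h
      have h1 : P.coeff (Fintype.card K ^ (i₀ : ℕ)) = b i₀ := by
        rw [hP, Polynomial.finset_sum_coeff, sum_eq_single i₀]
        · rw [Polynomial.coeff_C_mul, Polynomial.coeff_X_pow, if_pos rfl, mul_one]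
        · intro i _ hi
          rw [Polynomial.coeff_C_mul, Polynomial.coeff_X_pow, if_neg, mul_zero]
          intro h2
          exact hi (Fin.ext (Nat.pow_right_injective hQ h2).symm)
        · intro h2
          exact absurd (mem_univ i₀) h2
      rw [h, Polynomial.coeff_zero] at h1
      exact hi₀ h1.symm
    have hdeg : P.natDegree ≤ Fintype.card K ^ (R - 1) := by
      rw [hP]
      refine Polynomial.natDegree_sum_le_of_forall_le _ _ fun i _ => ?_
      refine (Polynomial.natDegree_C_mul_X_pow_le _ _).trans ?_
      exact Nat.pow_le_pow_right hQ.le (by have := i.2; omega)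
    have hker : Fintype.card (LinearMap.ker (Lq K b)) ≤ P.roots.toFinset.card := by
      rw [← Fintype.card_coe P.roots.toFinset]
      refine Fintype.card_le_of_injective (fun v : LinearMap.ker (Lq K b) =>
        (⟨(v : E), ?_⟩ : P.roots.toFinset)) fun v w h => ?_
      · rw [Multiset.mem_toFinset, Polynomial.mem_roots hP0, Polynomial.IsRoot.def, hP,
          Polynomial.eval_finset_sum]
        have h := v.2
        rw [LinearMap.mem_ker, Lq_apply] at h
        rw [← h]
        refine sum_congr rfl fun i _ => ?_
        rw [Polynomial.eval_mul, Polynomial.eval_C, Polynomial.eval_pow, Polynomial.eval_X]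
      · exact Subtype.ext (congrArg (fun z : P.roots.toFinset => (z : E)) h)
    have h2 : P.roots.toFinset.card ≤ P.natDegree :=
      (Multiset.toFinset_card_le _).trans (Polynomial.card_roots' P)
    have h3 : Fintype.card (LinearMap.ker (Lq K b)) = Fintype.card K ^ cr K (Lq K b) :=
      Module.card_eq_pow_finrank
    have h4 : Fintype.card K ^ cr K (Lq K b) ≤ Fintype.card K ^ (R - 1) := by
      rw [← h3]
      exact (hker.trans h2).trans hdeg
    exact (Nat.pow_le_pow_iff_right hQ).1 h4

end Pool.Agent.Lib.MP_537232_an.PG
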