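import Pool.Agent.Lib.MP_537232_an.PG.SpecA

set_option autoImplicit false

/-!
# MP_537232_an, directory PG: Moo (Moore's lemma)
-/

open Finset

namespace Pool.Agent.Lib.MP_537232_an.PG

private lemma moo_inj (h1 : S_Lqa) (K E : Type) [Field K] [Field E] [Fintype K] [Fintype E]
    [Algebra K E] (i : ℕ) (x : Fin i → E) (hx : LinearIndependent K x) (b : Fin i → E)
    (hb : ∀ j, Lq K b (x j) = 0) : b = 0 := by
  by_contra hne
  rcases Nat.eq_zero_or_pos i with h0 | hpos
  · subst h0
    exact hne (Subsingleton.elim _ _)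
  · have h2 := (h1 K E i b b).2.2 hne
    have h3 : Submodule.span K (Set.range x) ≤ LinearMap.ker (Lq K b) := by
      rw [Submodule.span_le]
      rintro _ ⟨j, rfl⟩
      exact LinearMap.mem_ker.mpr (hb j)
    have h4 := Submodule.finrank_mono h3
    rw [finrank_span_eq_card hx, Fintype.card_fin] at h4
    unfold cr at h2
    omega

private lemma moo_mul (h1 : S_Lqa) (K E : Type) [Field K] [Field E] [Fintype K] [Fintype E]
    [Algebra K E] (i R : ℕ) (x : Fin i → E) (b : Fin R → E) (j : Fin i) :
    Matrix.mulVecLin (fun (j : Fin i) (s : Fin R) => x j ^ (Fintype.card K ^ (s : ℕ)) :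
      Matrix (Fin i) (Fin R) E) b j = Lq K b (x j) := by
  rw [(h1 K E R b b).1 (x j), Matrix.mulVecLin_apply]
  unfold Matrix.mulVec dotProduct
  exact Finset.sum_congr rfl fun (s : Fin R) _ =>
    mul_comm (x j ^ (Fintype.card K ^ (s : ℕ))) (b s)

private lemma moo_surj (h1 : S_Lqa) (K E : Type) [Field K] [Field E] [Fintype K] [Fintype E]
    [Algebra K E] (i R : ℕ) (hi : i ≤ R) (x : Fin i → E) (hx : LinearIndependent K x) :
    Function.Surjective (Matrix.mulVecLin
      (fun (j : Fin i) (s : Fin R) => x j ^ (Fintype.card K ^ (s : ℕ)) :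
        Matrix (Fin i) (Fin R) E)) := by
  have hinj : Function.Injective (Matrix.mulVecLin
      (fun (j : Fin i) (s : Fin i) => x j ^ (Fintype.card K ^ (s : ℕ)) :
        Matrix (Fin i) (Fin i) E)) := by
    rw [← LinearMap.ker_eq_bot, LinearMap.ker_eq_bot']
    intro b hb
    refine moo_inj h1 K E i x hx b fun j => ?_
    rw [← moo_mul h1 K E i i x b j, hb]
    rfl
  have hsurj := LinearMap.injective_iff_surjective.mp hinj
  intro y
  obtain ⟨b', hb'⟩ := hsurj y
  refine ⟨fun s => if h : (s : ℕ) < i then b' ⟨s, h⟩ else 0, ?_⟩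
  funext j
  rw [← hb', moo_mul h1 K E i R, moo_mul h1 K E i i, (h1 K E R _ _).1 (x j),
    (h1 K E i b' b').1 (x j)]
  · rw [← Finset.sum_range (fun s : ℕ => (if h : s < i then b' ⟨s, h⟩ else 0) *
      x j ^ (Fintype.card K ^ s))]
    rw [← Finset.sum_subset (Finset.range_mono hi)]
    · rw [Finset.sum_range]
      refine Finset.sum_congr rfl fun s _ => ?_
      rw [dif_pos s.2]
    · intro s _ hs
      rw [Finset.mem_range] at hs
      rw [dif_neg hs, zero_mul]
  · exact 0

theorem wMoo (h1 : S_Lqa) : S_Moo := by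
  classical
  intro K E _ _ _ _ _
  have key : ∀ i R : ℕ, i ≤ R → ∀ x : Fin i → E, LinearIndependent K x → ∀ y : Fin i → E,
      (univ.filter fun b : Fin R → E => ∀ j, Lq K b (x j) = y j).card =
        Fintype.card E ^ (R - i) := by
    intro i R hi x hx y
    set Φ : (Fin R → E) →ₗ[E] (Fin i → E) := Matrix.mulVecLin
      (fun (j : Fin i) (s : Fin R) => x j ^ (Fintype.card K ^ (s : ℕ)) :
        Matrix (Fin i) (Fin R) E) with hΦ
    have hΦj : ∀ b j, Φ b j = Lq K b (x j) := fun b j => moo_mul h1 K E i R x b j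
    have hs : Function.Surjective Φ := moo_surj h1 K E i R hi x hx
    obtain ⟨b₀, hb₀⟩ := hs y
    have hker : Module.finrank E (LinearMap.ker Φ) = R - i := by
      have h2 := LinearMap.finrank_range_add_finrank_ker Φ
      rw [LinearMap.range_eq_top.mpr hs, finrank_top, Module.finrank_fin_fun,
        Module.finrank_fin_fun] at h2
      omega
    have hcard : Fintype.card (LinearMap.ker Φ) = Fintype.card E ^ (R - i) := by
      rw [Module.card_eq_pow_finrank (K := E), hker]
    rw [← hcard, Fintype.card_subtype]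
    refine Finset.card_bij (fun b _ => b - b₀) ?_ ?_ ?_
    · intro b hb
      rw [Finset.mem_filter] at hb ⊢
      refine ⟨Finset.mem_univ _, ?_⟩
      rw [LinearMap.mem_ker, map_sub, sub_eq_zero, hb₀]
      funext j
      rw [hΦj]
      exact hb.2 j
    · intro b _ b' _ h
      exact sub_left_injective h
    · intro k hk
      rw [Finset.mem_filter, LinearMap.mem_ker] at hk
      refine ⟨k + b₀, ?_, by simp⟩
      rw [Finset.mem_filter]
      refine ⟨Finset.mem_univ _, fun j => ?_⟩
      rw [← hΦj, map_add, hk.2, hb₀, zero_add]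
  refine ⟨key, ?_⟩
  intro R n u c hr hc D
  have hfin : Module.Finite K (Submodule.span K (Set.range u)) := inferInstance
  let bz := Module.finBasis K (Submodule.span K (Set.range u))
  have hz : LinearIndependent K fun j => ((bz j : Submodule.span K (Set.range u)) : E) :=
    bz.linearIndependent.map' (Submodule.subtype _) (Submodule.ker_subtype _)
  have hr' : Module.finrank K (Submodule.span K (Set.range u)) ≤ R := hr
  have hcardpos : 0 < (univ.filter fun b : Fin R → E => ∀ j,
      Lq K b ((bz j : Submodule.span K (Set.range u)) : E) =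
        D ((bz j : Submodule.span K (Set.range u)) : E)).card := by
    rw [key _ R hr' _ hz fun j => D ((bz j : Submodule.span K (Set.range u)) : E)]
    exact pow_pos Fintype.card_pos _
  obtain ⟨b, hb⟩ := Finset.card_pos.mp hcardpos
  rw [Finset.mem_filter] at hb
  have heq : (Lq K b).comp (Submodule.subtype (Submodule.span K (Set.range u))) =
      D.comp (Submodule.subtype _) := bz.ext fun j => hb.2 j
  have hu : ∀ j, D (u j) = Lq K b (u j) := fun j =>
    (LinearMap.congr_fun heq ⟨u j, Submodule.subset_span ⟨j, rfl⟩⟩).symm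
  calc ∑ j, c j * D (u j) = ∑ j, ∑ i : Fin R, b i * (c j * u j ^ (Fintype.card K ^ (i : ℕ))) := by
        refine Finset.sum_congr rfl fun j _ => ?_
        rw [hu j, (h1 K E R b b).1 (u j), Finset.mul_sum]
        refine Finset.sum_congr rfl fun i _ => ?_
        ring
    _ = ∑ i : Fin R, b i * ∑ j, c j * u j ^ (Fintype.card K ^ (i : ℕ)) := by
        rw [Finset.sum_comm]
        refine Finset.sum_congr rfl fun i _ => ?_
        rw [Finset.mul_sum]
    _ = 0 := Finset.sum_eq_zero fun i _ => by rw [hc i i.2, mul_zero]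

end Pool.Agent.Lib.MP_537232_an.PG
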