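import Pool.Agent.Lib.MP_537232_an.PG.SpecA

/-! Task 17861: the number of tuples with a given rank of the image. -/

set_option autoImplicit false
set_option linter.unusedSectionVars false

open Finset

namespace Pool.Agent.Lib.MP_537232_an.PG

namespace Njd

variable {K E : Type} [Field K] [Field E] [Fintype K] [Fintype E] [Algebra K E]

/-- rank and nullity on a subspace -/
theorem fr_le (D : E →ₗ[K] E) (P : Submodule K E) :
    Module.finrank K P ≤ Module.finrank K (P.map D) + cr K D := by
  have h1 := (D.domRestrict P).finrank_range_add_finrank_ker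
  rw [LinearMap.range_domRestrict] at h1
  have h2 : Module.finrank K (LinearMap.ker (D.domRestrict P)) ≤ cr K D := by
    unfold cr
    rw [← Submodule.finrank_map_subtype_eq P (LinearMap.ker (D.domRestrict P))]
    apply Submodule.finrank_mono
    rintro _ ⟨y, hy, rfl⟩
    exact hy
  omega

/-- the span of the images -/
theorem span_map {ι : Type} (D : E →ₗ[K] E) (x : ι → E) :
    Submodule.span K (Set.range fun j => D (x j)) = (Submodule.span K (Set.range x)).map D := by
  rw [Submodule.map_span, ← Set.range_comp]
  rfl

theorem part1 (D : E →ₗ[K] E) (m : ℕ) (x : Fin m → E) (hx : LinearIndependent K x) :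
    m ≤ rk K (fun j => D (x j)) + cr K D ∧ rk K (fun j => D (x j)) ≤ m := by
  constructor
  · have h1 := fr_le D (Submodule.span K (Set.range x))
    rw [← span_map, finrank_span_eq_card hx, Fintype.card_fin] at h1
    exact h1
  · have h1 := finrank_range_le_card (R := K) fun j => D (x j)
    rw [Fintype.card_fin] at h1
    exact h1

open Classical in
/-- the preimage of a subspace -/
theorem card_pre (D : E →ₗ[K] E) (S : Submodule K E) (r : ℕ) (hr : Module.finrank K S ≤ r) :
    (univ.filter fun e : E => D e ∈ S).card ≤ Fintype.card K ^ (r + cr K D) := by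
  have h1 : (univ.filter fun e : E => D e ∈ S).card = Nat.card (S.comap D) := by
    rw [← Fintype.card_subtype, Nat.card_eq_fintype_card]
    exact Fintype.card_congr (Equiv.refl _)
  rw [h1, Module.natCard_eq_pow_finrank (K := K), Nat.card_eq_fintype_card]
  apply Nat.pow_le_pow_right Fintype.card_pos
  have h2 := fr_le D (S.comap D)
  have h3 : Module.finrank K ((S.comap D).map D) ≤ Module.finrank K S :=
    Submodule.finrank_mono (Submodule.map_comap_le D S)
  omega

open Classical in
/-- the tuples for which the images at `J` span everything -/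
noncomputable def T (D : E →ₗ[K] E) (m : ℕ) (J : Finset (Fin m)) : Finset (Fin m → E) :=
  univ.filter fun x => ∀ i, i ∉ J → D (x i) ∈ Submodule.span K (Set.range fun l : J => D (x l))

open Classical in
theorem card_T (D : E →ₗ[K] E) (m j : ℕ) (hj : j ≤ m) (J : Finset (Fin m)) (hJ : J.card = m - j) :
    (T D m J).card ≤ Fintype.card E ^ (m - j) * (Fintype.card K ^ (m - j + cr K D)) ^ j := by
  let f : (Fin m → E) → (J → E) := fun x l => x l
  have h1 := card_le_mul_card_image (f := f) (T D m J)
    ((Fintype.card K ^ (m - j + cr K D)) ^ j) (by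
      intro z _
      let C : Finset E := univ.filter fun e : E => D e ∈ Submodule.span K (Set.range fun l : J => D (z l))
      have hC : C.card ≤ Fintype.card K ^ (m - j + cr K D) := by
        apply card_pre
        have h2 := finrank_range_le_card (R := K) fun l : J => D (z l)
        rw [Fintype.card_coe, hJ] at h2
        exact h2
      let B : Fin m → Finset E := fun l => if h : l ∈ J then {z ⟨l, h⟩} else C
      have hsub : ({x ∈ T D m J | f x = z} : Finset (Fin m → E)) ⊆ Fintype.piFinset B := by
        intro x hx
        rw [mem_filter] at hx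
        obtain ⟨hxT, hxz⟩ := hx
        rw [Fintype.mem_piFinset]
        intro l
        by_cases hl : l ∈ J
        · simp only [B, dif_pos hl, mem_singleton]
          exact congrFun hxz ⟨l, hl⟩
        · simp only [B, dif_neg hl, C, mem_filter, mem_univ, true_and]
          have h3 := (mem_filter.1 hxT).2 l hl
          rw [← hxz]
          exact h3
      refine (card_le_card hsub).trans ?_
      rw [Fintype.card_piFinset]
      have h4 : ∀ l : Fin m, (B l).card = if l ∈ J then 1 else C.card := by
        intro l
        by_cases hl : l ∈ J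
        · simp only [B, dif_pos hl, if_pos hl, card_singleton]
        · simp only [B, dif_neg hl, if_neg hl]
      simp only [h4]
      rw [prod_ite, prod_const_one, one_mul, prod_const]
      have h5 : (univ.filter fun l : Fin m => l ∉ J).card = j := by
        have h6 := card_compl J
        rw [hJ, Fintype.card_fin] at h6
        have h7 : (univ.filter fun l : Fin m => l ∉ J) = Jᶜ := by
          ext l
          simp
        rw [h7, h6]
        omega
      rw [h5]
      exact Nat.pow_le_pow_left hC j)
  refine h1.trans ?_
  rw [mul_comm]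
  apply Nat.mul_le_mul_right
  calc ((T D m J).image f).card ≤ (univ : Finset (J → E)).card := card_le_card (subset_univ _)
    _ = Fintype.card E ^ (m - j) := by
      rw [card_univ, Fintype.card_fun, Fintype.card_coe, hJ]

open Classical in
theorem mem_T (D : E →ₗ[K] E) (m r : ℕ) (x : Fin m → E) (hx : rk K (fun i => D (x i)) = r) :
    ∃ J : Finset (Fin m), J.card = r ∧ x ∈ T D m J := by
  obtain ⟨κ, a, ha, hsp, hli⟩ := exists_linearIndependent' K fun i => D (x i)
  have iκ : Fintype κ := Fintype.ofInjective a ha
  refine ⟨univ.image a, ?_, ?_⟩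
  · rw [card_image_of_injective _ ha, card_univ, ← finrank_span_eq_card hli, hsp]
    exact hx
  · rw [T, mem_filter]
    refine ⟨mem_univ _, ?_⟩
    intro i _
    have h1 : D (x i) ∈ Submodule.span K (Set.range fun i => D (x i)) :=
      Submodule.subset_span ⟨i, rfl⟩
    rw [← hsp] at h1
    refine Submodule.span_mono ?_ h1
    rintro _ ⟨k, rfl⟩
    exact ⟨⟨a k, mem_image_of_mem a (mem_univ k)⟩, rfl⟩

open Classical in
theorem part2 (D : E →ₗ[K] E) (m j : ℕ) (hj : j ≤ m) :
    ((Ind K E m).filter fun x => rk K (fun i => D (x i)) = m - j).card ≤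
      m.choose j * Fintype.card E ^ (m - j) * (Fintype.card K ^ (m - j + cr K D)) ^ j := by
  have h1 : ((Ind K E m).filter fun x => rk K (fun i => D (x i)) = m - j) ⊆
      (powersetCard (m - j) (univ : Finset (Fin m))).biUnion fun J => T D m J := by
    intro x hx
    rw [mem_filter] at hx
    obtain ⟨J, hJ, hxJ⟩ := mem_T D m (m - j) x hx.2
    rw [mem_biUnion]
    exact ⟨J, by rw [mem_powersetCard]; exact ⟨subset_univ _, hJ⟩, hxJ⟩
  refine (card_le_card h1).trans (card_biUnion_le.trans ?_)
  have h2 : ∀ J ∈ powersetCard (m - j) (univ : Finset (Fin m)), (T D m J).card ≤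
      Fintype.card E ^ (m - j) * (Fintype.card K ^ (m - j + cr K D)) ^ j := by
    intro J hJ
    rw [mem_powersetCard] at hJ
    exact card_T D m j hj J hJ.2
  refine (sum_le_sum h2).trans ?_
  rw [sum_const, card_powersetCard, card_univ, Fintype.card_fin, smul_eq_mul, mul_assoc,
    Nat.choose_symm hj]

end Njd

theorem wNjd : S_Njd := by
  intro K E _ _ _ _ _ D m
  exact ⟨fun x hx => Njd.part1 D m x hx, fun j hj => Njd.part2 D m j hj⟩

end Pool.Agent.Lib.MP_537232_an.PG
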