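import Pool.Agent.Lib.MP_537232_an.PG.SpecA

set_option autoImplicit false

/-! A numerical series. -/

open Finset

namespace Pool.Agent.Lib.MP_537232_an.PG

namespace Nse

theorem pow_bound (k : ℕ) (hk : 1 ≤ k) : ((2 * (k : ℝ) + 3)) ^ 2 ≤ 25 ^ k := by
  induction k, hk using Nat.le_induction with
  | base => norm_num
  | succ k hk ih =>
    have hk' : (1 : ℝ) ≤ k := by exact_mod_cast hk
    rw [pow_succ (25 : ℝ) k]
    push_cast
    nlinarith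

theorem geom (r : ℝ) (n : ℕ) (h0 : 0 ≤ r) (h1 : r < 1) :
    ∑ k ∈ Icc 1 n, r ^ k ≤ r / (1 - r) := by
  have h2 : 0 < 1 - r := by linarith
  have h3 : ∑ k ∈ Icc 1 n, r ^ k = (r - r ^ (n + 1)) / (1 - r) := by
    induction n with
    | zero => simp
    | succ n ih =>
      rw [Finset.sum_Icc_succ_top (by omega), ih]
      field_simp
      ring
  rw [h3]
  refine div_le_div_of_nonneg_right ?_ h2.le
  have := pow_nonneg h0 (n + 1)
  linarith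

theorem expo (k i : ℕ) (q H : ℝ) (hk : 1 ≤ k) (hi : i ≤ k) (h1 : 1 < q) (h2 : q < 2)
    (hH : 6 ≤ H) :
    -(((k - 1) * i : ℕ) : ℝ) + (k : ℝ) * ((i : ℝ) + 3) / 2 * q + (k : ℝ) * (-H) ≤
      -(2 * (k : ℝ)) := by
  obtain ⟨k, rfl⟩ : ∃ k', k = k' + 1 := ⟨k - 1, by omega⟩
  rw [Nat.add_sub_cancel]
  have hi' : (i : ℝ) ≤ (k : ℝ) + 1 := by exact_mod_cast hi
  have hk0 : (0 : ℝ) ≤ (k : ℝ) := Nat.cast_nonneg k
  have hi0 : (0 : ℝ) ≤ (i : ℝ) := Nat.cast_nonneg i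
  push_cast
  nlinarith [mul_nonneg (mul_nonneg (by linarith : (0 : ℝ) ≤ (k : ℝ) + 1) hi0)
    (by linarith : (0 : ℝ) ≤ 2 - q), mul_nonneg (by linarith : (0 : ℝ) ≤ (k : ℝ) + 1)
    (by linarith : (0 : ℝ) ≤ H - 6), mul_nonneg (by linarith : (0 : ℝ) ≤ (k : ℝ) + 1)
    (by linarith : (0 : ℝ) ≤ 2 - q)]

theorem term (q : ℝ) (k i : ℕ) (H Q : ℝ) (h1 : 1 < q) (h2 : q < 2) (hH : 6 ≤ H) (hk : 1 ≤ k)
    (hi : i ≤ k) (hQ : 32 ≤ Q) :
    (Q ^ ((k - 1) * i))⁻¹ *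
      ((1 + 2 * ((k : ℝ) + 1) * Q ^ ((k : ℝ) * ((i : ℝ) + 3) / 2)) ^ q *
      (Q ^ k) ^ (-H)) ≤ (25 / Q ^ 2) ^ k := by
  have hQ0 : 0 < Q := by linarith
  have hQ1 : 1 ≤ Q := by linarith
  have hk1 : (1 : ℝ) ≤ (k : ℝ) := by exact_mod_cast hk
  set f : ℝ := (k : ℝ) * ((i : ℝ) + 3) / 2 with hf
  have hf0 : 0 ≤ f := by positivity
  have hQf : 1 ≤ Q ^ f := Real.one_le_rpow hQ1 hf0
  have e1 : 1 + 2 * ((k : ℝ) + 1) * Q ^ f ≤ (2 * (k : ℝ) + 3) * Q ^ f := by nlinarith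
  have e2 : (1 + 2 * ((k : ℝ) + 1) * Q ^ f) ^ q ≤ ((2 * (k : ℝ) + 3) * Q ^ f) ^ q := by
    refine Real.rpow_le_rpow (by positivity) e1 (by linarith)
  have e3 : ((2 * (k : ℝ) + 3) * Q ^ f) ^ q = (2 * (k : ℝ) + 3) ^ q * Q ^ (f * q) := by
    rw [Real.mul_rpow (by positivity) (by positivity), ← Real.rpow_mul hQ0.le]
  have e4 : (2 * (k : ℝ) + 3) ^ q ≤ 25 ^ k := by
    refine le_trans ?_ (pow_bound k hk)
    rw [← Real.rpow_natCast]
    refine Real.rpow_le_rpow_of_exponent_le (by linarith) ?_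
    push_cast
    exact h2.le
  have e5 : (Q ^ ((k - 1) * i))⁻¹ = Q ^ (-(((k - 1) * i : ℕ) : ℝ)) := by
    rw [Real.rpow_neg hQ0.le, Real.rpow_natCast]
  have e6 : (Q ^ k) ^ (-H) = Q ^ ((k : ℝ) * (-H)) := by
    rw [Real.rpow_mul hQ0.le, Real.rpow_natCast]
  have e7 : Q ^ (-(((k - 1) * i : ℕ) : ℝ)) * (Q ^ (f * q) * Q ^ ((k : ℝ) * (-H))) ≤
      Q ^ (-(2 * (k : ℝ))) := by
    rw [← Real.rpow_add hQ0, ← Real.rpow_add hQ0]
    refine Real.rpow_le_rpow_of_exponent_le hQ1 ?_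
    have := expo k i q H hk hi h1 h2 hH
    rw [← hf] at this
    linarith
  rw [e5, e6]
  have e8 : Q ^ (-(2 * (k : ℝ))) = (1 / Q ^ 2) ^ k := by
    rw [Real.rpow_neg hQ0.le, show (2 * (k : ℝ)) = ((2 * k : ℕ) : ℝ) by push_cast; ring,
      Real.rpow_natCast, pow_mul, one_div, inv_pow]
  calc Q ^ (-(((k - 1) * i : ℕ) : ℝ)) * ((1 + 2 * ((k : ℝ) + 1) * Q ^ f) ^ q *
        Q ^ ((k : ℝ) * (-H)))
      ≤ Q ^ (-(((k - 1) * i : ℕ) : ℝ)) * ((25 ^ k * Q ^ (f * q)) * Q ^ ((k : ℝ) * (-H))) := by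
        refine mul_le_mul_of_nonneg_left (mul_le_mul_of_nonneg_right ?_ (by positivity))
          (by positivity)
        rw [e3] at e2
        exact e2.trans (mul_le_mul_of_nonneg_right e4 (by positivity))
    _ = 25 ^ k * (Q ^ (-(((k - 1) * i : ℕ) : ℝ)) * (Q ^ (f * q) * Q ^ ((k : ℝ) * (-H)))) := by
        ring
    _ ≤ 25 ^ k * (1 / Q ^ 2) ^ k := by
        rw [← e8]
        exact mul_le_mul_of_nonneg_left e7 (by positivity)
    _ = (25 / Q ^ 2) ^ k := by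
        rw [← mul_pow, mul_one_div]

end Nse

open Nse in
theorem wNse : S_Nse := by
  intro q h m n Q h1 h2 h3 hm hQ
  have hQ0 : 0 < Q := by linarith
  have hQ2 : 1024 ≤ Q ^ 2 := by nlinarith
  calc ∑ k ∈ Icc 1 n, (Q ^ ((k - 1) * min k (2 * m)))⁻¹ *
        ((1 + 2 * ((k : ℝ) + 1) * Q ^ ((k : ℝ) * ((min k (2 * m) : ℕ) + 3) / 2)) ^ q *
        (Q ^ k) ^ (-(h * (2 - q))))
      ≤ ∑ k ∈ Icc 1 n, (25 / Q ^ 2) ^ k := by
        refine Finset.sum_le_sum fun k hk => ?_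
        rw [Finset.mem_Icc] at hk
        exact term q k (min k (2 * m)) (h * (2 - q)) Q h1 h2 h3 hk.1 (min_le_left _ _) hQ
    _ ≤ (25 / Q ^ 2) / (1 - 25 / Q ^ 2) := by
        refine geom _ n (by positivity) ?_
        rw [div_lt_one (by positivity)]
        linarith
    _ ≤ 1 / Q := by
        have h4 : 0 < 1 - 25 / Q ^ 2 := by
          rw [sub_pos, div_lt_one (by positivity)]
          linarith
        rw [div_le_div_iff₀ h4 hQ0]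
        have h5 : 25 / Q ^ 2 * Q = 25 * Q / Q ^ 2 := by ring
        have h6 : 25 * Q / Q ^ 2 + 25 / Q ^ 2 ≤ 1 := by
          rw [← add_div, div_le_one (by positivity)]
          nlinarith
        rw [h5]
        linarith

end Pool.Agent.Lib.MP_537232_an.PG
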