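import Pool.Agent.Lib.MP_537232_an.PG.SpecB

set_option autoImplicit false

/-!
# MP_537232_an, directory PG, task Num: the choice of `G`
-/

open Finset

namespace Pool.Agent.Lib.MP_537232_an.PG

private theorem numSum (m : ℕ) : ∑ l ∈ range (m + 1), 2 ^ (m - l) ≤ 2 ^ (m + 1) := by
  have h1 : ∑ l ∈ range (m + 1), 2 ^ (m - l) = ∑ l ∈ range (m + 1), 2 ^ l := by
    rw [← Finset.sum_range_reflect (fun l => 2 ^ l) (m + 1)]
    apply Finset.sum_congr rfl
    intro l hl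
    have : m + 1 - 1 - l = m - l := by omega
    rw [this]
  rw [h1]
  have h2 := Nat.geomSum_lt (m := 2) (n := m + 1) (s := range (m + 1)) le_rfl
    (fun k hk => Finset.mem_range.mp hk)
  exact h2.le

private theorem numProd (h P G m : ℕ) :
    (∏ l ∈ range (m + 1), wl G m l ^ (2 * h)) ^ P ≤ 2 ^ (2 * h * P * (G * 2 ^ (m + 1))) := by
  have h1 : ∏ l ∈ range (m + 1), wl G m l ^ (2 * h) = 2 ^ (∑ l ∈ range (m + 1), G * 2 ^ (m - l) * (2 * h)) := by
    rw [← Finset.prod_pow_eq_pow_sum]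
    apply Finset.prod_congr rfl
    intro l hl
    rw [wl, ← pow_mul]
  rw [h1, ← pow_mul]
  apply Nat.pow_le_pow_right (by norm_num)
  rw [← Finset.sum_mul, ← Finset.mul_sum]
  have h2 := numSum m
  have h3 := Nat.mul_le_mul_left (G * (2 * h) * P) h2
  calc (G * ∑ i ∈ range (m + 1), 2 ^ (m - i)) * (2 * h) * P
      = G * (2 * h) * P * ∑ i ∈ range (m + 1), 2 ^ (m - i) := by ring
    _ ≤ _ := h3
    _ = _ := by ring

/-- **Num.** -/
theorem wNum : S_Num := by
  intro h P M₀ m K T hM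
  set c : ℕ → ℕ := fun l => K * (T + 1) * (2 ^ ee M₀ l) ^ (T ^ 2 + 3 * T + rho M₀ l ^ 2) with hc
  set g : ℕ := rho M₀ m + 1 + K * (2 ^ ee M₀ 0) ^ T + ∑ l ∈ range (m + 1), c l with hg
  set Q' : ℕ := ∏ l ∈ range (m + 1), ee M₀ l with hQ
  have hee : ∀ l, 1 ≤ ee M₀ l := fun l => by unfold ee; omega
  have hQ1 : 1 ≤ Q' := Nat.succ_le_of_lt (Finset.prod_pos fun l _ => hee l)
  have hgG : g ≤ Q' * g := Nat.le_mul_of_pos_left _ hQ1
  have hG2 : Q' * g ≤ 2 ^ (Q' * g) := Nat.lt_two_pow_self.le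
  have hcl : ∀ l ≤ m, c l ≤ g := by
    intro l hl
    have : c l ≤ ∑ l ∈ range (m + 1), c l :=
      Finset.single_le_sum (f := c) (fun i _ => Nat.zero_le _) (Finset.mem_range.mpr (Nat.lt_succ_of_le hl))
    omega
  refine ⟨Q' * g, ?_, ?_, ?_, ?_⟩
  · exact le_trans (by omega) hgG
  · exact le_trans (by omega) (hgG.trans hG2)
  · intro l hl
    obtain ⟨N, hN⟩ : ee M₀ l ∣ Q' := Finset.dvd_prod_of_mem _ (Finset.mem_range.mpr (Nat.lt_succ_of_le hl))
    refine ⟨N * g * 2 ^ (m - l), by rw [hN]; ring, ?_⟩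
    have hN1 : 1 ≤ N := by
      rcases Nat.eq_zero_or_pos N with h0 | h0
      · rw [h0, mul_zero] at hN; omega
      · exact h0
    have hr : rho M₀ l ≤ rho M₀ m := by
      unfold rho
      exact Nat.mul_le_mul_right _ (Nat.pow_le_pow_right (by norm_num) (by omega))
    have h1 : g ≤ N * g * 2 ^ (m - l) := by
      calc g = 1 * g * 1 := by ring
        _ ≤ _ := Nat.mul_le_mul (Nat.mul_le_mul_right _ hN1) Nat.one_le_two_pow
    omega
  · intro l hl
    have h1 : wl (Q' * g) m l ^ rho M₀ l = 2 ^ (Q' * g * 2 ^ (m + 1) * (2 * h * P + 1)) := by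
      rw [wl, ← pow_mul, rho, ← hM]
      congr 1
      have : 2 ^ (m + 1) = 2 ^ (m - l) * 2 ^ (l + 1) := by
        rw [← pow_add]; congr 1; omega
      rw [this]; ring
    rw [h1]
    calc c l * (∏ l ∈ range (m + 1), wl (Q' * g) m l ^ (2 * h)) ^ P
        ≤ 2 ^ (Q' * g) * 2 ^ (2 * h * P * ((Q' * g) * 2 ^ (m + 1))) :=
          Nat.mul_le_mul ((hcl l hl).trans (hgG.trans hG2)) (numProd h P _ m)
      _ = 2 ^ (Q' * g + 2 * h * P * ((Q' * g) * 2 ^ (m + 1))) := (pow_add _ _ _).symm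
      _ ≤ _ := by
        apply Nat.pow_le_pow_right (by norm_num)
        have h2 : Q' * g ≤ Q' * g * 2 ^ (m + 1) := Nat.le_mul_of_pos_right _ (by positivity)
        calc Q' * g + 2 * h * P * ((Q' * g) * 2 ^ (m + 1))
            ≤ Q' * g * 2 ^ (m + 1) + 2 * h * P * ((Q' * g) * 2 ^ (m + 1)) := Nat.add_le_add_right h2 _
          _ = _ := by ring

end Pool.Agent.Lib.MP_537232_an.PG
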