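import Pool.Agent.Lib.MP_537232_an.PG.SpecB
import Pool.Agent.Lib.MP_537232_an.NM.Coh
import Pool.Agent.Lib.MP_537232_an.NM.Rp

set_option autoImplicit false

/-!
# MP_537232_an, directory PG: the odd blocks
-/

namespace Pool.Agent.Lib.MP_537232_an.PG

open Finset NM

namespace Odp

/-- the block diagonal family -/
private def bd {A B I J : Type} (w : A → I → ℝ) (y : B → J → ℝ) : A ⊕ B → I ⊕ J → ℝ :=
  Sum.elim (fun a => Sum.elim (w a) fun _ => 0) (fun b => Sum.elim (fun _ => 0) (y b))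

private theorem bd_inn {A B I J : Type} [Fintype I] [Fintype J] (w : A → I → ℝ) (y : B → J → ℝ) :
    (∀ a a', ∑ z, bd w y (Sum.inl a) z * bd w y (Sum.inl a') z = ∑ i, w a i * w a' i) ∧
    (∀ a b, ∑ z, bd w y (Sum.inl a) z * bd w y (Sum.inr b) z = 0) ∧
    (∀ b a, ∑ z, bd w y (Sum.inr b) z * bd w y (Sum.inl a) z = 0) ∧
    (∀ b b', ∑ z, bd w y (Sum.inr b) z * bd w y (Sum.inr b') z = ∑ j, y b j * y b' j) := by
  refine ⟨fun a a' => ?_, fun a b => ?_, fun b a => ?_, fun b b' => ?_⟩ <;>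
  · rw [Fintype.sum_sum_type]
    simp [bd]

/-- a sum over a subset of a sum type -/
private theorem sum_split {X A B : Type} [Fintype X] [Fintype A] [Fintype B] [DecidableEq X]
    [DecidableEq A] [DecidableEq B] (E : X ≃ A ⊕ B) (S : Finset X) (F : X → ℝ) :
    ∑ t ∈ S, F t = ∑ a ∈ univ.filter (fun a => E.symm (Sum.inl a) ∈ S), F (E.symm (Sum.inl a)) +
      ∑ b ∈ univ.filter (fun b => E.symm (Sum.inr b) ∈ S), F (E.symm (Sum.inr b)) := by
  have h1 : ∑ t ∈ S, F t = ∑ t, if t ∈ S then F t else 0 := by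
    rw [Finset.sum_ite_mem, Finset.univ_inter]
  rw [h1, ← E.symm.sum_comp, Fintype.sum_sum_type, Finset.sum_filter, Finset.sum_filter]

private theorem ob_sum {X : Type} {n v m : ℕ} (E : Fin n ≃ Fin v ⊕ Fin m)
    (G : Fin v ⊕ Fin m → X → ℝ) [Fintype X] (s : ℕ) (δ : ℝ)
    (h1 : OB (fun t t' => ∑ z, G (Sum.inl t) z * G (Sum.inl t') z) s δ)
    (h2 : OB (fun t t' => ∑ z, G (Sum.inr t) z * G (Sum.inr t') z) s δ)
    (h12 : ∀ a b, ∑ z, G (Sum.inl a) z * G (Sum.inr b) z = 0)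
    (h21 : ∀ b a, ∑ z, G (Sum.inr b) z * G (Sum.inl a) z = 0) :
    OB (fun t t' => ∑ z, G (E t) z * G (E t') z) s δ := by
  classical
  intro J a hJ
  set J1 : Finset (Fin v) := univ.filter (fun a => E.symm (Sum.inl a) ∈ J) with hJ1
  set J2 : Finset (Fin m) := univ.filter (fun b => E.symm (Sum.inr b) ∈ J) with hJ2
  have hsplit : ∀ F : Fin n → ℝ, ∑ t ∈ J, F t = ∑ a ∈ J1, F (E.symm (Sum.inl a)) +
      ∑ b ∈ J2, F (E.symm (Sum.inr b)) := fun F => sum_split E J F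
  have hcard : J.card = J1.card + J2.card := by
    have h := hsplit (fun _ => 1)
    simp only [Finset.sum_const, nsmul_eq_mul, mul_one] at h
    exact_mod_cast h
  have e1 := h1 J1 (fun t => a (E.symm (Sum.inl t))) (by omega)
  have e2 := h2 J2 (fun t => a (E.symm (Sum.inr t))) (by omega)
  have hs : ∑ t ∈ J, ∑ t' ∈ J, a t * a t' * ∑ z, G (E t) z * G (E t') z =
      (∑ t ∈ J1, ∑ t' ∈ J1, a (E.symm (Sum.inl t)) * a (E.symm (Sum.inl t')) *
        ∑ z, G (Sum.inl t) z * G (Sum.inl t') z) +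
      (∑ t ∈ J2, ∑ t' ∈ J2, a (E.symm (Sum.inr t)) * a (E.symm (Sum.inr t')) *
        ∑ z, G (Sum.inr t) z * G (Sum.inr t') z) := by
    rw [hsplit]
    congr 1
    · refine Finset.sum_congr rfl fun t _ => ?_
      rw [hsplit]
      simp only [Equiv.apply_symm_apply, h12, mul_zero, Finset.sum_const_zero, add_zero]
    · refine Finset.sum_congr rfl fun t _ => ?_
      rw [hsplit]
      simp only [Equiv.apply_symm_apply, h21, mul_zero, Finset.sum_const_zero, zero_add]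
  have hq := hsplit (fun t => a t ^ 2)
  change |∑ t ∈ J, ∑ t' ∈ J, a t * a t' * ∑ z, G (E t) z * G (E t') z - ∑ t ∈ J, a t ^ 2| ≤
    δ * ∑ t ∈ J, a t ^ 2
  rw [hs, hq]
  rw [abs_le] at e1 e2 ⊢
  constructor
  · linarith [e1.1, e2.1]
  · linarith [e1.2, e2.2]

end Odp

open Odp in
theorem wOdp (h1 : S_Flk) : S_Odp := by
  classical
  intro v s P ι _ w hP hw hob A B
  set k : ℕ := Fintype.card ι with hk
  obtain ⟨Pr, hn, hP1, y, hy1, hy2⟩ := h1 (A + (B * (k + 1) ^ P + (k + 2)) + 2 * (2 * P + 1) * s)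
    (2 * P + 1)
  have hPA : A ≤ Pr := by omega
  have hPk : k + 2 ≤ Pr := by omega
  have hPB : B * (k + 1) ^ P ≤ Pr := by omega
  have hPs : 2 * (2 * P + 1) * s ≤ Pr := by omega
  have hsq : Pr ≤ Pr ^ 2 := by nlinarith
  have hcu : Pr * Pr ^ 2 ≤ Pr ^ (2 * P + 1) := by
    have h5 : Pr * Pr ^ 2 = Pr ^ 3 := by ring
    rw [h5]
    exact Nat.pow_le_pow_right hP1 (by omega)
  have EU : Fin (k + Pr ^ 2) ≃ ι ⊕ Fin (Pr ^ 2) := Fintype.equivOfCardEq (by simp [hk])
  set EV : Fin (v + Pr ^ (2 * P + 1)) ≃ Fin v ⊕ Fin (Pr ^ (2 * P + 1)) := finSumFinEquiv.symm with hEV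
  set G : Fin v ⊕ Fin (Pr ^ (2 * P + 1)) → ι ⊕ Fin (Pr ^ 2) → ℝ := bd w y with hG
  obtain ⟨b1, b2, b3, b4⟩ := bd_inn w y
  have hP0 : (0 : ℝ) < Pr := by exact_mod_cast hP1
  have hoby : OB (fun t t' => ∑ i, y t i * y t' i) s (1 / 2) := by
    refine NM.wCoh _ _ s (((2 * P + 1 : ℕ) : ℝ) / Pr) (1 / 2) (fun t => ?_) (by positivity) hy2 ?_
    · rw [← hy1 t]
      exact Finset.sum_congr rfl fun i _ => by ring
    · rw [div_mul_eq_mul_div, div_le_div_iff₀ hP0 (by norm_num)]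
      have h5 : (2 : ℝ) * (2 * P + 1) * s ≤ Pr := by exact_mod_cast hPs
      push_cast
      linarith
  set g' : Fin (v + Pr ^ (2 * P + 1)) → EuclideanSpace ℝ (Fin (k + Pr ^ 2)) :=
    fun a => WithLp.toLp 2 fun i => G (EV a) (EU i) with hg'
  have hinn : ∀ a b, inner ℝ (g' a) (g' b) = ∑ z, G (EV a) z * G (EV b) z := by
    intro a b
    rw [← EU.sum_comp (fun z => G (EV a) z * G (EV b) z)]
    simp only [hg', PiLp.inner_apply, RCLike.inner_apply, conj_trivial]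
    exact Finset.sum_congr rfl fun i _ => by ring
  have hnorm : ∀ a, ‖g' a‖ = 1 := by
    intro a
    have h0 : ‖g' a‖ ^ 2 = 1 := by
      rw [← real_inner_self_eq_norm_sq, hinn]
      rcases hEa : EV a with t | c
      · rw [b1, ← hw t]
        exact Finset.sum_congr rfl fun i _ => by ring
      · rw [b4, ← hy1 c]
        exact Finset.sum_congr rfl fun i _ => by ring
    nlinarith [norm_nonneg (g' a)]
  have hOB : OB (fun t t' => inner ℝ (g' t) (g' t')) s (1 / 2) := by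
    have h := ob_sum EV G s (1 / 2) (by simp only [hG, b1]; exact hob) (by simp only [hG, b4]; exact hoby)
      (fun a b => b2 a b) (fun b a => b3 b a)
    simp only [hinn]
    exact h
  refine ⟨k + Pr ^ 2, v + Pr ^ (2 * P + 1), by omega, ?_, ?_, g', fun t => EV.symm (Sum.inl t),
    fun j => EU.symm (Sum.inl j), ?_, ?_, NM.wRp _ _ s s g' le_rfl hnorm hOB, ?_⟩
  · have h5 : (k + 2) * Pr ^ 2 ≤ Pr * Pr ^ 2 := Nat.mul_le_mul_right _ hPk
    have h6 : (k + 1) * 1 ≤ (k + 1) * Pr ^ 2 := Nat.mul_le_mul_left _ (by nlinarith)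
    nlinarith
  · have h5 : (k + Pr ^ 2) ≤ (k + 1) * Pr ^ 2 := by nlinarith
    have h6 : (k + Pr ^ 2) ^ P ≤ ((k + 1) * Pr ^ 2) ^ P := Nat.pow_le_pow_left h5 P
    have h7 : B * (k + Pr ^ 2) ^ P ≤ B * ((k + 1) * Pr ^ 2) ^ P := Nat.mul_le_mul_left _ h6
    have h8 : B * ((k + 1) * Pr ^ 2) ^ P = B * (k + 1) ^ P * Pr ^ (2 * P) := by
      rw [mul_pow, ← pow_mul]
      ring
    have h9 : B * (k + 1) ^ P * Pr ^ (2 * P) ≤ Pr * Pr ^ (2 * P) := Nat.mul_le_mul_right _ hPB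
    have h10 : Pr * Pr ^ (2 * P) = Pr ^ (2 * P + 1) := by
      rw [pow_succ]
      ring
    omega
  · intro t t' h
    exact Sum.inl_injective (EV.symm.injective h)
  · intro t t' h
    exact Sum.inl_injective (EU.symm.injective h)
  · intro t
    constructor
    · intro j
      simp [hg', hG, bd]
    · intro i hi
      rcases hEi : EU i with j | c
      · exfalso
        apply hi j
        simp only []
        rw [← hEi, Equiv.symm_apply_apply]
      · simp [hg', hG, bd, hEi]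

end Pool.Agent.Lib.MP_537232_an.PG
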