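import Pool.Agent.Lib.MP_537232_an.PG.SpecA

set_option autoImplicit false

/-!
# MP_537232_an, directory PG: the two consequences of the orthogonality relation
-/

open Finset

namespace Pool.Agent.Lib.MP_537232_an.PG

namespace Orb

private theorem gm_zero {K E : Type} [Field K] [Field E] [Fintype K] [Fintype E] [Algebra K E]
    (Ψ : AddChar E ℝ) (m : ℕ) (hN : ((Ind K E m).card : ℝ) ≠ 0) :
    gm K Ψ m (0 : E →ₗ[K] E) =
      ((Ind K E m).card : ℝ) / ((-1) ^ m * (Fintype.card K : ℝ) ^ (m * (m - 1) / 2)) := by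
  have h1 : ∀ x : Fin m → E, Th K Ψ (fun j => (0 : E →ₗ[K] E) (x j)) = (Ind K E m).card := by
    intro x
    rw [Th]
    simp only [LinearMap.zero_apply, mul_zero, sum_const_zero, AddChar.map_zero_eq_one, sum_const,
      nsmul_eq_mul, mul_one]
  rw [gm, sum_congr rfl fun x _ => h1 x, sum_const, nsmul_eq_mul, mul_div_mul_left _ _ hN]

private theorem sq_s (Q : ℝ) (m : ℕ) :
    ((-1) ^ m * Q ^ (m * (m - 1) / 2)) ^ 2 = Q ^ (m * (m - 1)) := by
  rw [mul_pow, ← pow_mul, mul_comm m 2, pow_mul, neg_one_sq, one_pow, one_mul, ← pow_mul,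
    Nat.div_mul_cancel (Nat.even_mul_pred_self m).two_dvd]

end Orb

open Orb

/-- The two consequences of `Orh`. -/
theorem wOrb (h1 : S_Orh) (h2 : S_Cnt) (h3 : S_Gmb) : S_Orb := by
  classical
  intro K E _ _ _ _ _ _ Ψ hΨ m t hm1 hmQ hQW A A'
  obtain ⟨-, c2, -, -, c5⟩ := h2 K E m hQW
  have hQ : (1 : ℝ) ≤ (Fintype.card K : ℝ) := by exact_mod_cast Fintype.card_pos
  have hW : (0 : ℝ) < (Fintype.card E : ℝ) := by exact_mod_cast Fintype.card_pos
  have hWm : (0 : ℝ) < (Fintype.card E : ℝ) ^ m := by positivity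
  have hN : (0 : ℝ) < ((Ind K E m).card : ℝ) := by linarith
  have hgl : (gl (Fintype.card K) m : ℝ) ≤ (Fintype.card K : ℝ) ^ (m * m) := by
    exact_mod_cast c5
  have hgl0 : (0 : ℝ) ≤ (gl (Fintype.card K) m : ℝ) := Nat.cast_nonneg _
  have hQ0 : (0 : ℝ) < (Fintype.card K : ℝ) := by linarith
  constructor
  · have e1 := h1 K E Ψ hΨ m hQW A A
    have e2 : A + A = 0 := by
      ext v
      rw [LinearMap.add_apply, CharTwo.add_self_eq_zero, LinearMap.zero_apply]
    rw [e2, gm_zero Ψ m hN.ne'] at e1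
    simp only [sq]
    rw [e1]
    have e3 : (Fintype.card E : ℝ) ^ (2 * m) * ((gl (Fintype.card K) m : ℝ) / (Ind K E m).card) *
        (((-1) ^ m * (Fintype.card K : ℝ) ^ (m * (m - 1) / 2))⁻¹ *
          (((Ind K E m).card : ℝ) / ((-1) ^ m * (Fintype.card K : ℝ) ^ (m * (m - 1) / 2)))) =
        (Fintype.card E : ℝ) ^ (2 * m) * ((gl (Fintype.card K) m : ℝ) /
          ((-1) ^ m * (Fintype.card K : ℝ) ^ (m * (m - 1) / 2)) ^ 2) := by
      have hs : ((-1) ^ m * (Fintype.card K : ℝ) ^ (m * (m - 1) / 2)) ≠ 0 := by positivity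
      field_simp
    rw [e3, sq_s]
    refine mul_le_mul_of_nonneg_left ?_ (by positivity)
    rw [div_le_iff₀ (by positivity), ← pow_add]
    refine hgl.trans (le_of_eq ?_)
    congr 1
    cases m with
    | zero => rfl
    | succ m => rw [Nat.add_sub_cancel]; ring
  · intro ht
    rw [h1 K E Ψ hΨ m hQW A A']
    have hg : |gm K Ψ m (A + A')| ≤ 2 * ((t : ℝ) + 1) *
        (Fintype.card K : ℝ) ^ (t ^ 2 + 3 * t) := by
      obtain ⟨g0, g1⟩ := h3 K E Ψ hΨ m hm1 hmQ hQW (A + A')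
      have ht0 : (0 : ℝ) ≤ (t : ℝ) := Nat.cast_nonneg t
      have hp : (1 : ℝ) ≤ (Fintype.card K : ℝ) ^ (t ^ 2 + 3 * t) := one_le_pow₀ hQ
      rcases Nat.eq_zero_or_pos (cr K (A + A')) with hk | hk
      · rw [g0 hk, abs_one]
        nlinarith
      · refine (g1 hk).trans ?_
        have hkt : (cr K (A + A') : ℝ) ≤ t := by exact_mod_cast ht
        have hk0 : (0 : ℝ) ≤ (cr K (A + A') : ℝ) := Nat.cast_nonneg _
        have hmin : ((min (cr K (A + A')) (2 * m) : ℕ) : ℝ) ≤ t := by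
          exact_mod_cast (min_le_left _ _).trans ht
        have hmin0 : (0 : ℝ) ≤ ((min (cr K (A + A')) (2 * m) : ℕ) : ℝ) := Nat.cast_nonneg _
        have e4 : (cr K (A + A') : ℝ) * ((min (cr K (A + A')) (2 * m) : ℕ) + 3) / 2 ≤
            ((t ^ 2 + 3 * t : ℕ) : ℝ) := by
          push_cast
          have e5 : (cr K (A + A') : ℝ) * ((min (cr K (A + A')) (2 * m) : ℕ) + 3) ≤
              (t : ℝ) * (t + 3) :=
            mul_le_mul hkt (by linarith) (by linarith) ht0
          push_cast at e5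
          nlinarith
        have e6 : (Fintype.card K : ℝ) ^ ((cr K (A + A') : ℝ) *
            ((min (cr K (A + A')) (2 * m) : ℕ) + 3) / 2) ≤
            (Fintype.card K : ℝ) ^ (t ^ 2 + 3 * t) := by
          rw [← Real.rpow_natCast]
          exact Real.rpow_le_rpow_of_exponent_le hQ e4
        refine mul_le_mul (by linarith) e6 (by positivity) (by positivity)
    have hs : |(((-1) ^ m * (Fintype.card K : ℝ) ^ (m * (m - 1) / 2))⁻¹ : ℝ)| ≤ 1 := by
      rw [abs_inv, abs_mul, abs_pow, abs_neg, abs_one, one_pow, one_mul,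
        abs_of_pos (by positivity)]
      exact inv_le_one_of_one_le₀ (one_le_pow₀ hQ)
    have hq : (gl (Fintype.card K) m : ℝ) / ((Ind K E m).card : ℝ) ≤
        (Fintype.card K : ℝ) ^ (m * m) / ((Fintype.card E : ℝ) ^ m / 2) :=
      div_le_div₀ (by positivity) hgl (by positivity) c2
    have hq0 : (0 : ℝ) ≤ (gl (Fintype.card K) m : ℝ) / ((Ind K E m).card : ℝ) := by positivity
    rw [abs_mul, abs_mul, abs_mul, abs_of_pos (show (0 : ℝ) < (Fintype.card E : ℝ) ^ (2 * m) by
      positivity), abs_of_nonneg hq0, mul_assoc]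
    refine mul_le_mul_of_nonneg_left ?_ (by positivity)
    calc (gl (Fintype.card K) m : ℝ) / ((Ind K E m).card : ℝ) *
          (|(((-1) ^ m * (Fintype.card K : ℝ) ^ (m * (m - 1) / 2))⁻¹ : ℝ)| *
            |gm K Ψ m (A + A')|)
        ≤ (Fintype.card K : ℝ) ^ (m * m) / ((Fintype.card E : ℝ) ^ m / 2) *
          (1 * (2 * ((t : ℝ) + 1) * (Fintype.card K : ℝ) ^ (t ^ 2 + 3 * t))) := by
          refine mul_le_mul hq (mul_le_mul hs hg (abs_nonneg _) zero_le_one) (by positivity)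
            (by positivity)
      _ = 4 * ((t : ℝ) + 1) * (Fintype.card K : ℝ) ^ (t ^ 2 + 3 * t + m ^ 2) /
          (Fintype.card E : ℝ) ^ m := by
          rw [pow_add, sq m]
          field_simp
          ring

end Pool.Agent.Lib.MP_537232_an.PG
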