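import Pool.Agent.Lib.MP_537232_an.PG.SpecA

set_option autoImplicit false

/-!
# MP_537232_an, PG, module Orh: orthogonality
-/

open Finset

namespace Pool.Agent.Lib.MP_537232_an.PG

namespace Orh

variable {K E : Type} [Field K] [Field E] [Fintype K] [Fintype E] [Algebra K E]

theorem mem_Ind {m : ℕ} {x : Fin m → E} : x ∈ Ind K E m ↔ LinearIndependent K x := by
  classical
  simp [Ind]

/-- the argument of the character -/
def ex (D : E →ₗ[K] E) {m : ℕ} (p : (Fin m → E) × (Fin m → E)) : E := ∑ j, p.2 j * D (p.1 j)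

theorem ex_add (A B : E →ₗ[K] E) {m : ℕ} (p : (Fin m → E) × (Fin m → E)) :
    ex (A + B) p = ex A p + ex B p := by
  simp only [ex, LinearMap.add_apply, mul_add, Finset.sum_add_distrib]

variable (K) in
/-- the coefficient of `b_i` -/
def cc {m R : ℕ} (p : (Fin m → E) × (Fin m → E)) (i : Fin R) : E :=
  ∑ j, p.2 j * p.1 j ^ (Fintype.card K ^ (i : ℕ))

theorem ex_Lq {R : ℕ} {b : Fin R → E}
    (hb : ∀ v, Lq K b v = ∑ i, b i * v ^ (Fintype.card K ^ (i : ℕ))) {m : ℕ}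
    (p : (Fin m → E) × (Fin m → E)) : ex (Lq K b) p = ∑ i, b i * cc K p i := by
  simp only [ex, cc, hb, Finset.mul_sum]
  rw [Finset.sum_comm]
  refine Finset.sum_congr rfl fun i _ => Finset.sum_congr rfl fun j _ => ?_
  ring

/-- the sum over all `b` -/
theorem sum_b (h2 : S_Chs) (h3 : S_Sym) [CharP E 2] (Ψ : AddChar E ℝ) (hΨ : Ψ ≠ 1) {m : ℕ}
    {Rm : Finset (Fin m → E)} (hRm : Rm ⊆ Ind K E m)
    (hR : ∀ y ∈ Rm, ∀ y' ∈ Rm, Submodule.span K (Set.range y) = Submodule.span K (Set.range y') →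
      y = y') (p p' : (Fin m → E) × (Fin m → E)) (hp : p ∈ Rm ×ˢ Ind K E m)
    (hp' : p' ∈ Rm ×ˢ Ind K E m) :
    ∑ b : Fin (2 * m) → E, Ψ (∑ i, b i * (cc K p i + cc K p' i)) =
      open Classical in if p = p' then (Fintype.card E : ℝ) ^ (2 * m) else 0 := by
  classical
  rw [Finset.mem_product] at hp hp'
  split_ifs with h
  · rw [← h]
    have h4 : ∀ b : Fin (2 * m) → E, Ψ (∑ i, b i * (cc K p i + cc K p i)) = 1 := by
      intro b
      simp only [CharTwo.add_self_eq_zero, mul_zero, Finset.sum_const_zero, AddChar.map_zero_eq_one]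
    rw [Finset.sum_congr rfl fun b _ => h4 b, Finset.sum_const, nsmul_eq_mul, mul_one,
      Finset.card_univ, Fintype.card_fun, Fintype.card_fin, Nat.cast_pow]
  · apply (h2 E Ψ hΨ).2.2
    intro h0
    obtain ⟨h5, h6⟩ := h3 K E m p.1 p'.1 p.2 p'.2 (mem_Ind.mp (hRm hp.1)) (mem_Ind.mp (hRm hp'.1))
      (mem_Ind.mp hp.2) (mem_Ind.mp hp'.2) (fun i hi => congrFun h0 ⟨i, hi⟩)
    have h7 : p.1 = p'.1 := hR _ hp.1 _ hp'.1 h5
    exact h (Prod.ext h7 (h6 h7))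

/-- the double sum -/
theorem sum_T (h1 : S_Lqa) (h2 : S_Chs) (h3 : S_Sym) [CharP E 2] (Ψ : AddChar E ℝ) (hΨ : Ψ ≠ 1)
    {m : ℕ} {Rm : Finset (Fin m → E)} (hRm : Rm ⊆ Ind K E m)
    (hR : ∀ y ∈ Rm, ∀ y' ∈ Rm, Submodule.span K (Set.range y) = Submodule.span K (Set.range y') →
      y = y') (A A' : E →ₗ[K] E) :
    ∑ b : Fin (2 * m) → E, (∑ p ∈ Rm ×ˢ Ind K E m, Ψ (ex (A + Lq K b) p)) *
      (∑ p ∈ Rm ×ˢ Ind K E m, Ψ (ex (A' + Lq K b) p)) =
    (Fintype.card E : ℝ) ^ (2 * m) * ∑ p ∈ Rm ×ˢ Ind K E m, Ψ (ex (A + A') p) := by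
  classical
  have h4 : ∀ (b : Fin (2 * m) → E) (p p' : (Fin m → E) × (Fin m → E)),
      Ψ (ex (A + Lq K b) p) * Ψ (ex (A' + Lq K b) p') =
        Ψ (ex A p + ex A' p') * Ψ (∑ i, b i * (cc K p i + cc K p' i)) := by
    intro b p p'
    rw [← AddChar.map_add_eq_mul, ← AddChar.map_add_eq_mul]
    have hb := (h1 K E (2 * m) b b).1
    rw [ex_add, ex_add, ex_Lq hb, ex_Lq hb]
    simp only [mul_add, Finset.sum_add_distrib]
    rw [add_add_add_comm]
  simp only [Finset.sum_mul_sum, h4]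
  rw [Finset.sum_comm, Finset.mul_sum]
  refine Finset.sum_congr rfl fun p hp => ?_
  rw [Finset.sum_comm]
  simp only [← Finset.mul_sum]
  rw [Finset.sum_eq_single p]
  · rw [sum_b h2 h3 Ψ hΨ hRm hR p p hp hp, if_pos rfl, ← ex_add, mul_comm]
  · intro p' hp' hne
    rw [sum_b h2 h3 Ψ hΨ hRm hR p p' hp hp', if_neg (Ne.symm hne), mul_zero]
  · intro hn
    exact absurd hp hn

end Orh

open Orh in
theorem wOrh (h1 : S_Lqa) (h2 : S_Chs) (h3 : S_Sym) (h4 : S_Cnt) (h5 : S_Thb) : S_Orh := by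
  classical
  intro K E _ _ _ _ _ _ Ψ hΨ m hm A A'
  obtain ⟨-, hN, -, ⟨Rm, hRm, hR, hG⟩, -⟩ := h4 K E m hm
  have hE : (0 : ℝ) < Fintype.card E := by exact_mod_cast Fintype.card_pos
  have hN0 : ((Ind K E m).card : ℝ) ≠ 0 := by
    have h6 : (0 : ℝ) < (Fintype.card E : ℝ) ^ m / 2 := by positivity
    exact (lt_of_lt_of_le h6 hN).ne'
  have hNc : ((Ind K E m).card : ℝ) = gl (Fintype.card K) m * (Rm.card : ℝ) := by
    have h6 := hG (fun _ => 1) (fun _ _ _ _ _ => rfl)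
    simpa using h6
  have hg0 : (gl (Fintype.card K) m : ℝ) ≠ 0 := by
    intro h
    rw [h, zero_mul] at hNc
    exact hN0 hNc
  have hc0 : (Rm.card : ℝ) ≠ 0 := by
    intro h
    rw [h, mul_zero] at hNc
    exact hN0 hNc
  have hK : (0 : ℝ) < Fintype.card K := by exact_mod_cast Fintype.card_pos
  have hs0 : ((-1 : ℝ) ^ m * (Fintype.card K : ℝ) ^ (m * (m - 1) / 2)) ≠ 0 :=
    mul_ne_zero (pow_ne_zero _ (by norm_num)) (pow_ne_zero _ hK.ne')
  have hT : ∀ D : E →ₗ[K] E, gm K Ψ m D = (∑ p ∈ Rm ×ˢ Ind K E m, Ψ (ex D p)) /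
      ((Rm.card : ℝ) * ((-1) ^ m * (Fintype.card K : ℝ) ^ (m * (m - 1) / 2))) := by
    intro D
    have h6 := hG (fun x => Th K Ψ fun j => D (x j)) (fun x hx x' hx' hxx =>
      (h5 K E Ψ hΨ m).1 x x' D (mem_Ind.mp hx) (mem_Ind.mp hx') hxx)
    rw [gm, h6, hNc, Finset.sum_product, mul_assoc, mul_div_mul_left _ _ hg0]
    rfl
  have hS := sum_T h1 h2 h3 Ψ hΨ hRm hR A A'
  simp only [hT, div_mul_div_comm]
  rw [← Finset.sum_div, hS, hNc]
  field_simp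

end Pool.Agent.Lib.MP_537232_an.PG
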