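import Pool.Agent.Lib.MP_537232_an.PG.SpecB

/-!
# MP_537232_an, directory PG: `Ovc`, the vectors of the odd block
-/

set_option autoImplicit false

open Finset

namespace Pool.Agent.Lib.MP_537232_an.PG

namespace Ovc

/-- power mean -/
private theorem pm {ι : Type} [Fintype ι] {q : ℝ} (hq1 : 1 < q) (hq2 : q < 2) (b : ι → ℝ) :
    ∑ i, |b i| ^ q ≤ (Fintype.card ι : ℝ) ^ (1 - q / 2) * (∑ i, b i ^ 2) ^ (q / 2) := by
  have hq0 : 0 < q := by linarith
  have h := Real.rpow_sum_le_const_mul_sum_rpow univ (fun i => |b i| ^ q) (p := 2 / q)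
    (by rw [le_div_iff₀ hq0]; linarith)
  have h1 : ∀ i, (|b i| ^ q) ^ (2 / q) = b i ^ 2 := by
    intro i
    rw [← Real.rpow_mul (abs_nonneg _), mul_div_cancel₀ _ hq0.ne', Real.rpow_two, sq_abs]
  have h2 : ∀ i, |(|b i| ^ q)| = |b i| ^ q := fun i => abs_of_nonneg (by positivity)
  simp only [h2, h1, card_univ] at h
  have hs : 0 ≤ ∑ i, |b i| ^ q := sum_nonneg fun i _ => by positivity
  have h3 := Real.rpow_le_rpow (by positivity) h (show 0 ≤ q / 2 by positivity)
  rw [← Real.rpow_mul hs, Real.mul_rpow (by positivity) (sum_nonneg fun i _ => sq_nonneg _),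
    ← Real.rpow_mul (by positivity)] at h3
  have h4 : 2 / q * (q / 2) = 1 := by field_simp
  have h5 : (2 / q - 1) * (q / 2) = 1 - q / 2 := by field_simp
  rwa [h4, Real.rpow_one, h5] at h3

end Ovc

open Ovc in
theorem wOvc (h1 : S_Prb) : S_Ovc := by
  classical
  intro q hq1 hq2 m v F Cc L μ₀ hCc hL hCc0 hε hμ
  have hq0 : 0 < q := by linarith
  have hP := h1 q hq1 hq2 (m + 1) v F
  -- the number of points
  set D : ℝ := (Fintype.card F.PO : ℝ) with hD
  have hDpos : 0 < D := by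
    have : Nonempty F.PO := ⟨fun l => ⟨0, F.nO_pos l⟩⟩
    exact Nat.cast_pos.2 Fintype.card_pos
  have hFD : (F.D : ℝ) = D := rfl
  -- the weights
  set s : ℝ := ∑ i : Fin (m + 1), (1 / 2 : ℝ) ^ ((i : ℕ) + 1) with hs
  have hs0 : 0 < s := sum_pos (fun i _ => by positivity) univ_nonempty
  have hs1 : s ≤ 1 := by
    have h2 : ∀ n : ℕ, ∑ i ∈ range n, (1 / 2 : ℝ) ^ (i + 1) = 1 - (1 / 2) ^ n := by
      intro n
      induction n with
      | zero => simp
      | succ n ih => rw [sum_range_succ, ih]; ring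
    rw [hs, Fin.sum_univ_eq_sum_range (fun i => (1 / 2 : ℝ) ^ (i + 1)) (m + 1), h2]
    have : (0 : ℝ) < (1 / 2) ^ (m + 1) := by positivity
    linarith
  let c : ℕ → ℝ := fun i => (1 / 2 : ℝ) ^ (i + 1) / s
  have hc0 : ∀ i, 0 < c i := fun i => by positivity
  have hcs : ∑ i : Fin (m + 1), c i = 1 := by
    change ∑ i : Fin (m + 1), (1 / 2 : ℝ) ^ ((i : ℕ) + 1) / s = 1
    rw [← sum_div, ← hs, div_self hs0.ne']
  have hci : ∀ i, (c i)⁻¹ ≤ 2 ^ (i + 1) := by
    intro i
    change ((1 / 2 : ℝ) ^ (i + 1) / s)⁻¹ ≤ 2 ^ (i + 1)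
    rw [inv_div, one_div, inv_pow, div_inv_eq_mul]
    have : (0 : ℝ) < 2 ^ (i + 1) := by positivity
    nlinarith
  -- the norms
  let T : Fin (m + 1) → Fin v → ℝ := fun i t => ∑ ω, F.f i t ω ^ 2
  have hTlow : ∀ i t, D / 2 ≤ T i t := fun i t => (hP i).1 t
  have hTup : ∀ i t, T i t ≤ D * F.Cm i := fun i t => (hP i).2.1 t
  have hT0 : ∀ i t, 0 < T i t := fun i t => lt_of_lt_of_le (by positivity) (hTlow i t)
  let w : Fin v → (Fin (m + 1) × F.PO) → ℝ := fun t j =>
    Real.sqrt (c j.1) / Real.sqrt (T j.1 t) * F.f j.1 t j.2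
  refine ⟨w, ?_, ?_, ?_⟩
  · intro t
    rw [Fintype.sum_prod_type]
    rw [← hcs]
    refine sum_congr rfl fun i _ => ?_
    have h2 : ∀ ω, w t (i, ω) ^ 2 = c i / T i t * F.f i t ω ^ 2 := by
      intro ω
      change (Real.sqrt (c i) / Real.sqrt (T i t) * F.f i t ω) ^ 2 = _
      rw [mul_pow, div_pow, Real.sq_sqrt (hc0 i).le, Real.sq_sqrt (hT0 i t).le]
    rw [sum_congr rfl fun ω _ => h2 ω, ← mul_sum]
    change c i / T i t * T i t = c i
    rw [div_mul_cancel₀ _ (hT0 i t).ne']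
  · intro t t' htt
    rw [Fintype.sum_prod_type]
    have h2 : ∀ i : Fin (m + 1), |∑ ω, w t (i, ω) * w t' (i, ω)| ≤ c i * μ₀ := by
      intro i
      have h3 : ∀ ω, w t (i, ω) * w t' (i, ω) =
          c i / (Real.sqrt (T i t) * Real.sqrt (T i t')) * (F.f i t ω * F.f i t' ω) := by
        intro ω
        change (Real.sqrt (c i) / Real.sqrt (T i t) * F.f i t ω) *
          (Real.sqrt (c i) / Real.sqrt (T i t') * F.f i t' ω) = _
        have h4 : Real.sqrt (c i) * Real.sqrt (c i) = c i := Real.mul_self_sqrt (hc0 i).le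
        calc _ = (Real.sqrt (c i) * Real.sqrt (c i)) / (Real.sqrt (T i t) * Real.sqrt (T i t')) *
              (F.f i t ω * F.f i t' ω) := by ring
          _ = _ := by rw [h4]
      rw [sum_congr rfl fun ω _ => h3 ω, ← mul_sum, abs_mul]
      have h7 := (hP i).2.2.1 t t' htt
      have h8 : D / 2 ≤ Real.sqrt (T i t) * Real.sqrt (T i t') := by
        have h9 : Real.sqrt (D / 2) * Real.sqrt (D / 2) ≤
            Real.sqrt (T i t) * Real.sqrt (T i t') :=
          mul_le_mul (Real.sqrt_le_sqrt (hTlow i t)) (Real.sqrt_le_sqrt (hTlow i t'))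
            (Real.sqrt_nonneg _) (Real.sqrt_nonneg _)
        rwa [Real.mul_self_sqrt (by positivity)] at h9
      have h10 : 0 < Real.sqrt (T i t) * Real.sqrt (T i t') := lt_of_lt_of_le (by positivity) h8
      rw [abs_of_nonneg (div_nonneg (hc0 i).le h10.le)]
      have h11 : c i / (Real.sqrt (T i t) * Real.sqrt (T i t')) ≤ c i / (D / 2) :=
        div_le_div_of_nonneg_left (hc0 i).le (by positivity) h8
      have h12 : 0 ≤ D * F.μ i := (abs_nonneg _).trans h7
      calc c i / (Real.sqrt (T i t) * Real.sqrt (T i t')) * |∑ ω, F.f i t ω * F.f i t' ω|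
          ≤ c i / (D / 2) * (D * F.μ i) := mul_le_mul h11 h7 (abs_nonneg _) (by positivity)
        _ = c i * (2 * F.μ i) := by field_simp
        _ ≤ c i * μ₀ := mul_le_mul_of_nonneg_left (hμ i) (hc0 i).le
    calc |∑ i, ∑ ω, w t (i, ω) * w t' (i, ω)| ≤ ∑ i, |∑ ω, w t (i, ω) * w t' (i, ω)| :=
          abs_sum_le_sum_abs _ _
      _ ≤ ∑ i : Fin (m + 1), c i * μ₀ := sum_le_sum fun i _ => h2 i
      _ = μ₀ := by rw [← sum_mul, hcs, one_mul]
  · -- the matrices
    let K : ℕ → ℝ := fun l => D ^ (1 / 2 - 1 / q) / Real.sqrt (c l)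
    have hK0 : ∀ l, 0 ≤ K l := fun l => by positivity
    let B : ℕ → (Fin (m + 1) × F.PO) → Fin F.D → ℝ := fun l j ω =>
      if (j.1 : ℕ) = l ∧ j.2 = F.en ω then K l else 0
    have hB0 : ∀ l, m < l → ∀ (a : (Fin (m + 1) × F.PO) → ℝ) ω, ∑ j, a j * B l j ω = 0 := by
      intro l hl a ω
      refine sum_eq_zero fun j _ => ?_
      have : ¬ ((j.1 : ℕ) = l ∧ j.2 = F.en ω) := by
        rintro ⟨h, _⟩
        have := j.1.isLt
        omega
      change a j * (if (j.1 : ℕ) = l ∧ j.2 = F.en ω then K l else 0) = 0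
      rw [if_neg this, mul_zero]
    have hB : ∀ i : Fin (m + 1), ∀ (a : (Fin (m + 1) × F.PO) → ℝ) ω,
        ∑ j, a j * B i j ω = a (i, F.en ω) * K i := by
      intro i a ω
      rw [sum_eq_single (i, F.en ω)]
      · change a (i, F.en ω) * (if (i : ℕ) = i ∧ F.en ω = F.en ω then K i else 0) = _
        rw [if_pos ⟨rfl, rfl⟩]
      · intro j _ hj
        have : ¬ ((j.1 : ℕ) = i ∧ j.2 = F.en ω) := by
          rintro ⟨h, h'⟩
          exact hj (Prod.ext (Fin.ext h) h')
        change a j * (if (j.1 : ℕ) = i ∧ j.2 = F.en ω then K i else 0) = 0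
        rw [if_neg this, mul_zero]
      · intro h
        exact absurd (mem_univ _) h
    refine ⟨B, ?_, ?_⟩
    · intro l a
      by_cases hl : m < l
      · simp only [hB0 l hl a, abs_zero, Real.zero_rpow hq0.ne', sum_const_zero]
        positivity
      · obtain ⟨i, rfl⟩ : ∃ i : Fin (m + 1), (i : ℕ) = l := ⟨⟨l, by omega⟩, rfl⟩
        simp only [hB i a]
        have h2 : ∀ ω : Fin F.D, |a (i, F.en ω) * K i| ^ q = K i ^ q * |a (i, F.en ω)| ^ q := by
          intro ω
          rw [abs_mul, abs_of_nonneg (hK0 i), Real.mul_rpow (abs_nonneg _) (hK0 i), mul_comm]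
        rw [sum_congr rfl fun ω _ => h2 ω, ← mul_sum,
          Equiv.sum_comp F.en (fun ω => |a (i, ω)| ^ q)]
        have h3 := pm hq1 hq2 (fun ω => a (i, ω))
        rw [← hD] at h3
        have h4 : ∑ ω, a (i, ω) ^ 2 ≤ ∑ j, a j ^ 2 := by
          rw [Fintype.sum_prod_type]
          exact single_le_sum (f := fun i => ∑ ω, a (i, ω) ^ 2)
            (fun i _ => sum_nonneg fun ω _ => sq_nonneg _) (mem_univ i)
        have h5 : K i ^ q * D ^ (1 - q / 2) = ((c i)⁻¹) ^ (q / 2) := by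
          change (D ^ (1 / 2 - 1 / q) / Real.sqrt (c i)) ^ q * D ^ (1 - q / 2) = _
          rw [Real.div_rpow (by positivity) (Real.sqrt_nonneg _), ← Real.rpow_mul hDpos.le,
            Real.sqrt_eq_rpow, ← Real.rpow_mul (hc0 i).le, div_mul_eq_mul_div,
            ← Real.rpow_add hDpos, Real.inv_rpow (hc0 i).le]
          have h6 : (1 / 2 - 1 / q) * q + (1 - q / 2) = 0 := by field_simp; ring
          rw [h6, Real.rpow_zero, one_div, one_div_mul_eq_div]
        calc K i ^ q * ∑ ω, |a (i, ω)| ^ q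
            ≤ K i ^ q * (D ^ (1 - q / 2) * (∑ ω, a (i, ω) ^ 2) ^ (q / 2)) :=
              mul_le_mul_of_nonneg_left h3 (by have := hK0 i; positivity)
          _ = ((c i)⁻¹ * ∑ ω, a (i, ω) ^ 2) ^ (q / 2) := by
              rw [← mul_assoc, h5, Real.mul_rpow (by have := hc0 i; positivity)
                (sum_nonneg fun ω _ => sq_nonneg _)]
          _ ≤ ((2 : ℝ) ^ ((i : ℕ) + 1) * ∑ j, a j ^ 2) ^ (q / 2) := by
              refine Real.rpow_le_rpow ?_ ?_ (by positivity)
              · exact mul_nonneg (by have := hc0 i; positivity) (sum_nonneg fun ω _ => sq_nonneg _)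
              · exact mul_le_mul (hci i) h4 (sum_nonneg fun ω _ => sq_nonneg _) (by positivity)
    · intro i' hi' t
      obtain ⟨i, rfl⟩ : ∃ i : Fin (m + 1), (i : ℕ) = i' := ⟨⟨i', by omega⟩, rfl⟩
      have hLi : (i : ℕ) < L i := by rw [hL]; omega
      refine ⟨fun l => if (l : ℕ) = i then Real.sqrt (T i t / D) else 0, ?_, ?_⟩
      · intro l
        beta_reduce
        by_cases hl : (l : ℕ) = i
        · rw [if_pos hl, abs_of_nonneg (Real.sqrt_nonneg _)]
          refine (Real.sqrt_le_sqrt ?_).trans (hCc i)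
          rw [div_le_iff₀ hDpos, mul_comm]
          exact hTup i t
        · rw [if_neg hl, abs_zero]
          exact hCc0 i
      · have h2 : ∀ ω : Fin F.D, ∑ l : Fin (L i), (if (l : ℕ) = i then Real.sqrt (T i t / D) else 0) *
            ∑ j, w t j * B l j ω = D ^ (-(1 / q)) * F.f i t (F.en ω) := by
          intro ω
          rw [sum_eq_single (⟨i, hLi⟩ : Fin (L i))]
          · rw [if_pos rfl, hB i (w t) ω]
            change Real.sqrt (T i t / D) * (Real.sqrt (c i) / Real.sqrt (T i t) *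
              F.f i t (F.en ω) * (D ^ (1 / 2 - 1 / q) / Real.sqrt (c i))) = _
            have h5 : Real.sqrt (T i t) ≠ 0 := (Real.sqrt_pos.2 (hT0 i t)).ne'
            have h6 : Real.sqrt (c i) ≠ 0 := (Real.sqrt_pos.2 (hc0 i)).ne'
            rw [Real.sqrt_div (hT0 i t).le]
            have h7 : D ^ (1 / 2 - 1 / q) = Real.sqrt D * D ^ (-(1 / q)) := by
              rw [Real.sqrt_eq_rpow, ← Real.rpow_add hDpos]
              congr 1
            have h8 : Real.sqrt D ≠ 0 := (Real.sqrt_pos.2 hDpos).ne'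
            rw [h7]
            field_simp
          · intro l _ hl
            have : ¬ (l : ℕ) = i := fun h => hl (Fin.ext h)
            rw [if_neg this, zero_mul]
          · intro h
            exact absurd (mem_univ _) h
        simp only [h2]
        have h3 : ∀ ω : Fin F.D, |F.rN t ω - D ^ (-(1 / q)) * F.f i t (F.en ω)| ^ q =
            D⁻¹ * |F.r t (F.en ω) - F.f i t (F.en ω)| ^ q := by
          intro ω
          change |(F.D : ℝ) ^ (-(1 / q)) * F.r t (F.en ω) - D ^ (-(1 / q)) * F.f i t (F.en ω)| ^ q = _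
          rw [hFD, ← mul_sub, abs_mul, abs_of_nonneg (by positivity),
            Real.mul_rpow (by positivity) (abs_nonneg _), ← Real.rpow_mul hDpos.le]
          have h4 : -(1 / q) * q = -1 := by field_simp
          rw [h4, Real.rpow_neg_one]
        rw [sum_congr rfl fun ω _ => h3 ω, ← mul_sum,
          Equiv.sum_comp F.en (fun ω => |F.r t ω - F.f i t ω| ^ q)]
        have h4 := (hP i).2.2.2 t
        calc D⁻¹ * ∑ ω, |F.r t ω - F.f i t ω| ^ q ≤ D⁻¹ * (D * F.ε i) :=
              mul_le_mul_of_nonneg_left h4 (by positivity)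
          _ = F.ε i := by field_simp
          _ ≤ (1 / (((i : ℕ) : ℝ) + 1)) ^ q := hε i

end Pool.Agent.Lib.MP_537232_an.PG
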