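import Pool.Agent.Lib.MP_537232_an.PG.SpecB

set_option autoImplicit false

/-!
# MP_537232_an, PG/Par: the parameters
-/

namespace Pool.Agent.Lib.MP_537232_an.PG

open MeasureTheory ProbabilityTheory Finset Filter Topology
open scoped ENNReal

namespace Par

/-- A block. -/
structure Bl where
  u : ℕ
  v : ℕ
  g : Fin v → EuclideanSpace ℝ (Fin u)

/-- The conditions for the pair number `m`. -/
def Cond (q c : ℝ) (Cc : ℕ → ℝ) (L : ℕ → ℕ) (m u₀ v₀ S : ℕ) (a b : Bl) : Prop :=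
  v₀ < a.u ∧ a.u < a.v ∧ a.v < b.u ∧ b.u < b.v ∧
    19 * (2 * m + 1) ^ 3 * (6 * (2 * m + 1) + 1) ^ S ≤ a.u ∧
    19 * (2 * m + 2) ^ 3 * (6 * (2 * m + 2) + 1) ^ (S + a.u) ≤ b.u ∧
    9 * (2 * (m : ℝ) + 1) ^ 3 *
      ((2 * (a.u : ℝ)) ^ (q / (q - 1) / 2) * (2 * (m : ℝ) + 1) ^ (q / (q - 1))) ≤ a.v ∧
    9 * (2 * (m : ℝ) + 2) ^ 3 *
      ((2 * (b.u : ℝ)) ^ (q / (q - 1) / 2) * (2 * (m : ℝ) + 2) ^ (q / (q - 1))) ≤ b.v ∧
    NM.Rip (max ((2 * (u₀ : ℝ)) ^ (q / (q - 1) / 2) * (2 * (m : ℝ)) ^ (q / (q - 1)) + 1)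
      (19 * (2 * (m : ℝ) + 1) ^ 2)) a.g ∧
    NM.Rip (max ((2 * (a.u : ℝ)) ^ (q / (q - 1) / 2) * (2 * (m : ℝ) + 1) ^ (q / (q - 1)) + 1)
      (19 * (2 * (m : ℝ) + 2) ^ 2)) b.g ∧
    Nonempty (Stage q c Cc L m a.g b.g)

/-- The sequence of blocks. -/
lemma blocks (q c : ℝ) (Cc : ℕ → ℝ) (L : ℕ → ℕ)
    (H : ∀ m u₀ v₀ S : ℕ, ∃ a b : Bl, Cond q c Cc L m u₀ v₀ S a b) :
    ∃ (B : ℕ → Bl) (U V : ℕ → ℕ), U 0 = 0 ∧ (∀ m, U (m + 1) = (B (2 * m + 1)).u) ∧
      (∀ m, V (m + 1) = (B (2 * m + 1)).v) ∧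
      ∀ m, Cond q c Cc L m (U m) (V m) (∑ l ∈ range (2 * m), (B l).u) (B (2 * m))
        (B (2 * m + 1)) := by
  choose A B' hAB using H
  let F : ℕ → ℕ × ℕ × ℕ := fun m => Nat.rec (0, 0, 0) (fun m s =>
    ((B' m s.1 s.2.1 s.2.2).u, (B' m s.1 s.2.1 s.2.2).v,
      s.2.2 + (A m s.1 s.2.1 s.2.2).u + (B' m s.1 s.2.1 s.2.2).u)) m
  let a : ℕ → Bl := fun m => A m (F m).1 (F m).2.1 (F m).2.2
  let b : ℕ → Bl := fun m => B' m (F m).1 (F m).2.1 (F m).2.2
  have hF0 : F 0 = (0, 0, 0) := rfl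
  have hF1 : ∀ m, F (m + 1) = ((b m).u, (b m).v, (F m).2.2 + (a m).u + (b m).u) := fun _ => rfl
  let B : ℕ → Bl := fun n => if n % 2 = 0 then a (n / 2) else b (n / 2)
  have hB0 : ∀ m, B (2 * m) = a m := by
    intro m
    show (if 2 * m % 2 = 0 then a (2 * m / 2) else b (2 * m / 2)) = a m
    rw [if_pos (by omega), show 2 * m / 2 = m by omega]
  have hB1 : ∀ m, B (2 * m + 1) = b m := by
    intro m
    show (if (2 * m + 1) % 2 = 0 then a ((2 * m + 1) / 2) else b ((2 * m + 1) / 2)) = b m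
    rw [if_neg (by omega), show (2 * m + 1) / 2 = m by omega]
  have hS : ∀ m, ∑ l ∈ range (2 * m), (B l).u = (F m).2.2 := by
    intro m
    induction m with
    | zero => simp [hF0]
    | succ m ih =>
      rw [show 2 * (m + 1) = 2 * m + 1 + 1 by ring, sum_range_succ, sum_range_succ, ih, hB0, hB1,
        hF1]
  refine ⟨B, fun m => (F m).1, fun m => (F m).2.1, rfl, fun m => ?_, fun m => ?_, fun m => ?_⟩
  · rw [hB1]
  · rw [hB1]
  · rw [hS, hB0, hB1]
    exact hAB m (F m).1 (F m).2.1 (F m).2.2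

lemma sPrev_succ (p : ℝ≥0∞) (u : ℕ → ℕ) (n : ℕ) : sPrev p u (n + 1) = sNum p u n := rfl

lemma two_lt {q : ℝ} (hq : 1 < q) (hq2 : q < 2) : 2 < q / (q - 1) := by
  rw [lt_div_iff₀ (by linarith)]
  linarith

lemma two_le {q : ℝ} (hq : 1 < q) (hq2 : q < 2) : 2 ≤ ENNReal.ofReal (q / (q - 1)) := by
  have h2 := ENNReal.ofReal_le_ofReal (two_lt hq hq2).le
  simpa using h2

end Par

open Par in
theorem wPar (h1 : S_Stg) : S_Par := by
  intro q hq hq2
  obtain ⟨c, Cc, L, hc, H⟩ := h1 q hq hq2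
  obtain ⟨B, U, V, hU0, hU, hV, hB⟩ := blocks q c Cc L (fun m u₀ v₀ S => by
    obtain ⟨u, v, u', v', g, g', h⟩ := H m u₀ v₀ S
    exact ⟨⟨u, v, g⟩, ⟨u', v', g'⟩, h⟩)
  have hp0 : 0 < q / (q - 1) := lt_trans (by norm_num) (two_lt hq hq2)
  have hs : ∀ n, sNum (ENNReal.ofReal (q / (q - 1))) (fun l => (B l).u) n =
      (2 * ((B n).u : ℝ)) ^ (q / (q - 1) / 2) * ((n : ℝ) + 1) ^ (q / (q - 1)) := by
    intro n
    unfold sNum
    rw [if_pos (two_le hq hq2), ENNReal.toReal_ofReal hp0.le]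
  have hrip : ∀ n, NM.Rip (max (sPrev (ENNReal.ofReal (q / (q - 1))) (fun l => (B l).u) n + 1)
      (19 * ((n : ℝ) + 1) ^ 2)) (B n).g := by
    intro n
    obtain ⟨m, rfl | rfl⟩ := Nat.even_or_odd' n
    · obtain ⟨-, -, -, -, -, -, -, -, h9, -, -⟩ := hB m
      have e1 : sPrev (ENNReal.ofReal (q / (q - 1))) (fun l => (B l).u) (2 * m) =
          (2 * (U m : ℝ)) ^ (q / (q - 1) / 2) * (2 * (m : ℝ)) ^ (q / (q - 1)) := by
        rcases m with _ | m
        · have e3 : (2 * ((0 : ℕ) : ℝ)) ^ (q / (q - 1)) = 0 := by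
            rw [Nat.cast_zero, mul_zero]
            exact Real.zero_rpow hp0.ne'
          rw [e3]
          exact (mul_zero _).symm
        · have e4 : (((2 * m + 1 : ℕ) : ℝ) + 1) = 2 * ((m + 1 : ℕ) : ℝ) := by
            push_cast
            ring
          rw [show 2 * (m + 1) = (2 * m + 1) + 1 by ring, hU, sPrev_succ, hs, e4]
      rw [e1]
      push_cast
      exact h9
    · obtain ⟨-, -, -, -, -, -, -, -, -, h10, -⟩ := hB m
      have e1 : sPrev (ENNReal.ofReal (q / (q - 1))) (fun l => (B l).u) (2 * m + 1) =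
          (2 * ((B (2 * m)).u : ℝ)) ^ (q / (q - 1) / 2) *
            (2 * (m : ℝ) + 1) ^ (q / (q - 1)) := by
        rw [sPrev_succ, hs]
        push_cast
        rfl
      rw [e1]
      have e2 : (((2 * m + 1 : ℕ) : ℝ) + 1) = 2 * (m : ℝ) + 2 := by
        push_cast
        ring
      rw [e2]
      exact h10
  let P : Params (ENNReal.ofReal (q / (q - 1))) :=
    { u := fun n => (B n).u
      v := fun n => (B n).v
      g := fun n => (B n).g
      u_lt_v := by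
        intro n
        obtain ⟨m, rfl | rfl⟩ := Nat.even_or_odd' n
        · exact (hB m).2.1
        · exact (hB m).2.2.2.1
      v_lt_u := by
        intro n
        obtain ⟨m, rfl | rfl⟩ := Nat.even_or_odd' n
        · exact (hB m).2.2.1
        · have := (hB (m + 1)).1
          rw [hV] at this
          exact this
      u_large := by
        intro n
        obtain ⟨m, rfl | rfl⟩ := Nat.even_or_odd' n
        · exact (hB m).2.2.2.2.1
        · have := (hB m).2.2.2.2.2.1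
          rw [sum_range_succ]
          exact this
      v_large := by
        intro n
        rw [hs]
        obtain ⟨m, rfl | rfl⟩ := Nat.even_or_odd' n
        · have := (hB m).2.2.2.2.2.2.1
          have e2 : (((2 * m : ℕ) : ℝ) + 1) = 2 * (m : ℝ) + 1 := by
            push_cast
            ring
          rw [e2]
          exact this
        · have := (hB m).2.2.2.2.2.2.2.1
          have e2 : (((2 * m + 1 : ℕ) : ℝ) + 1) = 2 * (m : ℝ) + 2 := by
            push_cast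
            ring
          rw [e2]
          exact this
      norm_g := fun n => (hrip n).1
      lower := fun n J hJ => ((hrip n).2 J hJ).1
      upper := fun n J hJ => ((hrip n).2 J hJ).2.1
      bessel := fun n J hJ => ((hrip n).2 J hJ).2.2 }
  exact ⟨P, c, Cc, L, hc, fun m => (hB m).2.2.2.2.2.2.2.2.2.2⟩

end Pool.Agent.Lib.MP_537232_an.PG
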