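import Pool.Agent.Lib.MP_537232_an.PG.SpecB

/-!
# MP_537232_an, PG: products of sites, the functions `f i`
-/

set_option autoImplicit false

open Finset

namespace Pool.Agent.Lib.MP_537232_an.PG

private theorem rr_inner {q Cm β ε δ μ : ℝ} {X O L : Type} [Fintype X] [Fintype O]
    (S : Site q X O L Cm β ε δ μ) (a a' : L) :
    ∑ ω, rr S.x S.M a ω * rr S.x S.M a' ω =
      (Fintype.card O : ℝ) * ∑ j, S.x a j * S.x a' j := by
  classical
  have h1 : ∀ ω, rr S.x S.M a ω * rr S.x S.M a' ω =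
      ∑ j, ∑ j', S.x a j * S.x a' j' * (S.M j ω * S.M j' ω) := by
    intro ω
    unfold rr
    rw [sum_mul_sum]
    refine sum_congr rfl fun j _ => sum_congr rfl fun j' _ => ?_
    ring
  simp only [h1]
  rw [sum_comm, mul_sum]
  refine sum_congr rfl fun j _ => ?_
  rw [sum_comm]
  have h2 : ∀ j' ∈ (univ : Finset X), j' ≠ j →
      ∑ ω, S.x a j * S.x a' j' * (S.M j ω * S.M j' ω) = 0 := by
    intro j' _ hj'
    rw [← mul_sum, S.iso_zero j j' (Ne.symm hj'), mul_zero]
  rw [sum_eq_single j h2 (fun h => absurd (mem_univ j) h), ← mul_sum, S.iso_one j]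
  ring

private theorem x_inner {q Cm β ε δ μ : ℝ} {X O L : Type} [Fintype X] [Fintype O]
    (S : Site q X O L Cm β ε δ μ) (a a' : L) : |∑ j, S.x a j * S.x a' j| ≤ 1 := by
  have h1 : |∑ j, S.x a j * S.x a' j| ≤ ∑ j, (S.x a j ^ 2 + S.x a' j ^ 2) / 2 := by
    refine (abs_sum_le_sum_abs _ _).trans (sum_le_sum fun j _ => ?_)
    rw [abs_le]
    constructor <;> nlinarith [sq_nonneg (S.x a j + S.x a' j), sq_nonneg (S.x a j - S.x a' j)]
  rw [← sum_div, sum_add_distrib, S.norm_x a, S.norm_x a'] at h1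
  linarith

private theorem rr_abs {q Cm β ε δ μ : ℝ} {X O L : Type} [Fintype X] [Fintype O]
    (S : Site q X O L Cm β ε δ μ) (a a' : L) :
    |∑ ω, rr S.x S.M a ω * rr S.x S.M a' ω| ≤ (Fintype.card O : ℝ) := by
  rw [rr_inner S a a', abs_mul, abs_of_nonneg (Nat.cast_nonneg _)]
  have h := x_inner S a a'
  exact mul_le_of_le_one_right (Nat.cast_nonneg _) h

private theorem rr_sq {q Cm β ε δ μ : ℝ} {X O L : Type} [Fintype X] [Fintype O]
    (S : Site q X O L Cm β ε δ μ) (a : L) :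
    ∑ ω, rr S.x S.M a ω ^ 2 = (Fintype.card O : ℝ) := by
  have h1 : ∀ ω, rr S.x S.M a ω ^ 2 = rr S.x S.M a ω * rr S.x S.M a ω := fun ω => sq _
  have h2 : ∑ j, S.x a j * S.x a j = 1 := by
    rw [← S.norm_x a]
    exact sum_congr rfl fun j _ => (sq _).symm
  simp only [h1]
  rw [rr_inner S a a, h2, mul_one]

private theorem pow_tan {q : ℝ} (hq : 1 < q) (hq2 : q < 2) (x : ℝ) :
    |x| ^ q ≤ 1 + q / 2 * (x ^ 2 - 1) := by
  have h1 : |x| ^ q = (1 + (x ^ 2 - 1)) ^ (q / 2) := by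
    have h2 : 1 + (x ^ 2 - 1) = |x| ^ (2 : ℝ) := by
      rw [Real.rpow_two, sq_abs]
      ring
    rw [h2, ← Real.rpow_mul (abs_nonneg x)]
    congr 1
    ring
  rw [h1]
  exact rpow_one_add_le_one_add_mul_self (by nlinarith [sq_nonneg x]) (by linarith)
    (by linarith)

private theorem rr_pow {q Cm β ε δ μ : ℝ} (hq : 1 < q) (hq2 : q < 2) {X O L : Type} [Fintype X]
    [Fintype O] (S : Site q X O L Cm β ε δ μ) (a : L) :
    ∑ ω, |rr S.x S.M a ω| ^ q ≤ (Fintype.card O : ℝ) := by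
  have h1 : ∑ ω, |rr S.x S.M a ω| ^ q ≤ ∑ ω, (1 + q / 2 * (rr S.x S.M a ω ^ 2 - 1)) :=
    sum_le_sum fun ω _ => pow_tan hq hq2 _
  rw [sum_add_distrib, ← mul_sum, sum_sub_distrib, rr_sq S a] at h1
  simpa using h1

section prod

variable {q : ℝ} {n v : ℕ} (F : Fam q n v)

private theorem sum_PO (h : ∀ l, Fin (F.nO l) → ℝ) :
    ∑ ω : F.PO, ∏ l, h l (ω l) = ∏ l, ∑ o, h l o := by
  classical
  rw [prod_univ_sum, Fintype.piFinset_univ]

private theorem card_PO : (Fintype.card F.PO : ℝ) = ∏ l, (Fintype.card (Fin (F.nO l)) : ℝ) := by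
  classical
  rw [show Fintype.card F.PO = ∏ l, Fintype.card (Fin (F.nO l)) from Fintype.card_pi]
  push_cast
  rfl

open Classical in
/-- the factors of `f i` -/
private noncomputable def Gf (i : Fin n) (t : Fin v) (l : Fin n) (o : Fin (F.nO l)) : ℝ :=
  (if l = i then (F.S l).gam (F.lam l t) o else 1) * rr (F.S l).x (F.S l).M (F.lam l t) o

open Classical in
/-- the factors of `r - f i` -/
private noncomputable def Hf (i : Fin n) (t : Fin v) (l : Fin n) (o : Fin (F.nO l)) : ℝ :=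
  (if l = i then 1 - (F.S l).gam (F.lam l t) o else 1) * rr (F.S l).x (F.S l).M (F.lam l t) o

private theorem f_eq (i : Fin n) (t : Fin v) (ω : F.PO) :
    F.f i t ω = ∏ l, Gf F i t l (ω l) := by
  classical
  unfold Fam.f Fam.r Gf
  rw [prod_mul_distrib, prod_ite_eq' univ i (fun l => (F.S l).gam (F.lam l t) (ω l)),
    if_pos (mem_univ i)]

private theorem rf_eq (i : Fin n) (t : Fin v) (ω : F.PO) :
    F.r t ω - F.f i t ω = ∏ l, Hf F i t l (ω l) := by
  classical
  unfold Fam.f Fam.r Hf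
  rw [prod_mul_distrib, prod_ite_eq' univ i (fun l => 1 - (F.S l).gam (F.lam l t) (ω l)),
    if_pos (mem_univ i)]
  ring

private theorem Gf_self (i : Fin n) (t : Fin v) (o : Fin (F.nO i)) : Gf F i t i o =
    (F.S i).gam (F.lam i t) o * rr (F.S i).x (F.S i).M (F.lam i t) o := by
  unfold Gf
  rw [if_pos rfl]

private theorem Gf_ne (i : Fin n) (t : Fin v) (l : Fin n) (hl : l ≠ i) (o : Fin (F.nO l)) :
    Gf F i t l o = rr (F.S l).x (F.S l).M (F.lam l t) o := by
  unfold Gf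
  rw [if_neg hl, one_mul]

private theorem Hf_self (i : Fin n) (t : Fin v) (o : Fin (F.nO i)) : Hf F i t i o =
    rr (F.S i).x (F.S i).M (F.lam i t) o -
      (F.S i).gam (F.lam i t) o * rr (F.S i).x (F.S i).M (F.lam i t) o := by
  unfold Hf
  rw [if_pos rfl]
  ring

private theorem Hf_ne (i : Fin n) (t : Fin v) (l : Fin n) (hl : l ≠ i) (o : Fin (F.nO l)) :
    Hf F i t l o = rr (F.S l).x (F.S l).M (F.lam l t) o := by
  unfold Hf
  rw [if_neg hl, one_mul]

private theorem sum_ff (i : Fin n) (t t' : Fin v) :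
    ∑ ω, F.f i t ω * F.f i t' ω = ∏ l, ∑ o, Gf F i t l o * Gf F i t' l o := by
  rw [← sum_PO F (fun l o => Gf F i t l o * Gf F i t' l o)]
  refine sum_congr rfl fun ω _ => ?_
  rw [f_eq, f_eq, ← prod_mul_distrib]

private theorem sum_f2 (i : Fin n) (t : Fin v) :
    ∑ ω, F.f i t ω ^ 2 =
      (∑ o, ((F.S i).gam (F.lam i t) o * rr (F.S i).x (F.S i).M (F.lam i t) o) ^ 2) *
        ∏ l ∈ univ.erase i, (Fintype.card (Fin (F.nO l)) : ℝ) := by
  classical
  have h1 : ∑ ω, F.f i t ω ^ 2 = ∏ l, ∑ o, Gf F i t l o ^ 2 := by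
    rw [← sum_PO F (fun l o => Gf F i t l o ^ 2)]
    refine sum_congr rfl fun ω _ => ?_
    rw [f_eq, ← prod_pow]
  rw [h1, ← mul_prod_erase univ _ (mem_univ i)]
  congr 1
  · exact sum_congr rfl fun o _ => by rw [Gf_self]
  · refine prod_congr rfl fun l hl => ?_
    have hl' : l ≠ i := (mem_erase.1 hl).1
    rw [← rr_sq (F.S l) (F.lam l t)]
    exact sum_congr rfl fun o _ => by rw [Gf_ne F i t l hl']

end prod

theorem wPrb : S_Prb := by
  classical
  intro q hq hq2 n v F i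
  have hcard : (Fintype.card F.PO : ℝ) = (Fintype.card (Fin (F.nO i)) : ℝ) *
      ∏ l ∈ univ.erase i, (Fintype.card (Fin (F.nO l)) : ℝ) := by
    rw [card_PO, ← mul_prod_erase univ _ (mem_univ i)]
  have hP : 0 ≤ ∏ l ∈ univ.erase i, (Fintype.card (Fin (F.nO l)) : ℝ) :=
    prod_nonneg fun l _ => Nat.cast_nonneg _
  refine ⟨fun t => ?_, fun t => ?_, fun t t' htt => ?_, fun t => ?_⟩
  · rw [sum_f2, hcard]
    have h := mul_le_mul_of_nonneg_right ((F.S i).f_low (F.lam i t)) hP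
    refine le_trans (le_of_eq ?_) h
    ring
  · rw [sum_f2, hcard]
    have h := mul_le_mul_of_nonneg_right ((F.S i).f_up (F.lam i t)) hP
    refine le_trans h (le_of_eq ?_)
    ring
  · rw [sum_ff, ← mul_prod_erase univ _ (mem_univ i), abs_mul, abs_prod, hcard]
    have h1 : |∑ o, Gf F i t i o * Gf F i t' i o| ≤ (Fintype.card (Fin (F.nO i)) : ℝ) * F.μ i := by
      have h := (F.S i).f_cross (F.lam i t) (F.lam i t') (fun h => htt (F.lam_inj i h))
      refine le_trans (le_of_eq ?_) h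
      congr 1
      refine sum_congr rfl fun o _ => ?_
      rw [Gf_self, Gf_self]
    have h2 : ∏ l ∈ univ.erase i, |∑ o, Gf F i t l o * Gf F i t' l o| ≤
        ∏ l ∈ univ.erase i, (Fintype.card (Fin (F.nO l)) : ℝ) := by
      refine prod_le_prod (fun l _ => abs_nonneg _) fun l hl => ?_
      have hl' : l ≠ i := (mem_erase.1 hl).1
      refine le_trans (le_of_eq ?_) (rr_abs (F.S l) (F.lam l t) (F.lam l t'))
      congr 1
      refine sum_congr rfl fun o _ => ?_
      rw [Gf_ne F i t l hl', Gf_ne F i t' l hl']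
    calc _ ≤ (Fintype.card (Fin (F.nO i)) : ℝ) * F.μ i *
          ∏ l ∈ univ.erase i, (Fintype.card (Fin (F.nO l)) : ℝ) :=
          mul_le_mul h1 h2 (prod_nonneg fun l _ => abs_nonneg _) ((abs_nonneg _).trans h1)
      _ = _ := by ring
  · have h0 : ∑ ω, |F.r t ω - F.f i t ω| ^ q = ∏ l, ∑ o, |Hf F i t l o| ^ q := by
      rw [← sum_PO F (fun l o => |Hf F i t l o| ^ q)]
      refine sum_congr rfl fun ω _ => ?_
      rw [rf_eq, abs_prod]
      exact (Real.finsetProd_rpow univ (fun l => |Hf F i t l (ω l)|)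
        (fun l _ => abs_nonneg _) q).symm
    rw [h0, ← mul_prod_erase univ _ (mem_univ i), hcard]
    have h1 : ∑ o, |Hf F i t i o| ^ q ≤ (Fintype.card (Fin (F.nO i)) : ℝ) * F.ε i := by
      refine le_trans (le_of_eq ?_) ((F.S i).app (F.lam i t))
      exact sum_congr rfl fun o _ => by rw [Hf_self]
    have h2 : ∏ l ∈ univ.erase i, ∑ o, |Hf F i t l o| ^ q ≤
        ∏ l ∈ univ.erase i, (Fintype.card (Fin (F.nO l)) : ℝ) := by
      refine prod_le_prod (fun l _ => sum_nonneg fun o _ => Real.rpow_nonneg (abs_nonneg _) q)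
        fun l hl => ?_
      have hl' : l ≠ i := (mem_erase.1 hl).1
      refine le_trans (le_of_eq ?_) (rr_pow hq hq2 (F.S l) (F.lam l t))
      exact sum_congr rfl fun o _ => by rw [Hf_ne F i t l hl']
    have h3 : 0 ≤ ∑ o, |Hf F i t i o| ^ q :=
      sum_nonneg fun o _ => Real.rpow_nonneg (abs_nonneg _) q
    calc _ ≤ (Fintype.card (Fin (F.nO i)) : ℝ) * F.ε i *
          ∏ l ∈ univ.erase i, (Fintype.card (Fin (F.nO l)) : ℝ) :=
          mul_le_mul h1 h2 (prod_nonneg fun l _ => sum_nonneg fun o _ =>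
            Real.rpow_nonneg (abs_nonneg _) q) (h3.trans h1)
      _ = _ := by ring

end Pool.Agent.Lib.MP_537232_an.PG
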