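import Pool.Agent.Lib.MP_537232_an.PG.SpecB

set_option autoImplicit false

/-!
# MP_537232_an, PG: products, the functions `y`
-/

open Finset

namespace Pool.Agent.Lib.MP_537232_an.PG

namespace Prc

private theorem sum_prod {n : ℕ} {nO : Fin n → ℕ} (f : ∀ l, Fin (nO l) → ℝ) :
    ∑ ω : (∀ l, Fin (nO l)), ∏ l, f l (ω l) = ∏ l, ∑ a, f l a := by
  classical
  rw [Finset.prod_univ_sum, Fintype.piFinset_univ]

private theorem card_PO {q : ℝ} {n v : ℕ} (F : Fam q n v) :
    (Fintype.card F.PO : ℝ) = ∏ l, (F.nO l : ℝ) := by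
  rw [Fintype.card_pi]
  push_cast
  exact Finset.prod_congr rfl fun l _ => by rw [Fintype.card_fin]

private theorem fac {q : ℝ} {X O L : Type} [Fintype X] [Fintype O] {Cm β ε δ μ : ℝ}
    (S : Site q X O L Cm β ε δ μ) (a : L) (ω : O) : |S.ind a ω * rr S.x S.M a ω| ≤ 1 := by
  rcases S.ind_01 a ω with h | ⟨h1, h2⟩
  · rw [h, zero_mul, abs_zero]
    exact zero_le_one
  · rw [h1, one_mul, h2]

private theorem fac2 {q : ℝ} {X O L : Type} [Fintype X] [Fintype O] {Cm β ε δ μ : ℝ}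
    (S : Site q X O L Cm β ε δ μ) (a : L) (ω : O) :
    S.ind a ω * rr S.x S.M a ω * rr S.x S.M a ω = S.ind a ω := by
  rcases S.ind_01 a ω with h | ⟨h1, h2⟩
  · rw [h, zero_mul, zero_mul]
  · rw [h1, one_mul, ← abs_mul_abs_self, h2, one_mul]

private theorem ind_le {q : ℝ} {X O L : Type} [Fintype X] [Fintype O] {Cm β ε δ μ : ℝ}
    (S : Site q X O L Cm β ε δ μ) (a : L) (ω : O) : 0 ≤ S.ind a ω ∧ S.ind a ω ≤ 1 := by
  rcases S.ind_01 a ω with h | ⟨h1, _⟩
  · rw [h]
    exact ⟨le_rfl, zero_le_one⟩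
  · rw [h1]
    exact ⟨zero_le_one, le_rfl⟩

private theorem prod_ge {ι : Type} (s : Finset ι) (N S β : ι → ℝ) (hN : ∀ i ∈ s, 0 < N i)
    (h0 : ∀ i ∈ s, 0 ≤ S i) (h1 : ∀ i ∈ s, S i ≤ N i) (h2 : ∀ i ∈ s, N i * (1 - β i) ≤ S i) :
    (∏ i ∈ s, N i) * (1 - ∑ i ∈ s, β i) ≤ ∏ i ∈ s, S i ∧ ∏ i ∈ s, S i ≤ ∏ i ∈ s, N i := by
  classical
  refine ⟨?_, Finset.prod_le_prod h0 h1⟩
  induction s using Finset.induction_on with
  | empty => simp
  | insert a s ha ih =>
    have i0 : ∀ i ∈ s, 0 ≤ S i := fun i hi => h0 i (mem_insert_of_mem hi)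
    have i1 : ∀ i ∈ s, S i ≤ N i := fun i hi => h1 i (mem_insert_of_mem hi)
    have h := ih (fun i hi => hN i (mem_insert_of_mem hi)) i0 i1
      (fun i hi => h2 i (mem_insert_of_mem hi))
    rw [prod_insert ha, prod_insert ha, sum_insert ha]
    have hQ0 : 0 ≤ ∏ i ∈ s, S i := Finset.prod_nonneg i0
    have hQP : ∏ i ∈ s, S i ≤ ∏ i ∈ s, N i := Finset.prod_le_prod i0 i1
    have hNa := hN a (mem_insert_self a s)
    have h1a := h1 a (mem_insert_self a s)
    have h2a := h2 a (mem_insert_self a s)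
    have hβ : 0 ≤ N a * β a := by nlinarith
    have e1 := mul_le_mul_of_nonneg_right h2a hQ0
    have e2 := mul_le_mul_of_nonneg_left h hNa.le
    have e3 := mul_le_mul_of_nonneg_left hQP hβ
    linarith

end Prc

open Prc in
/-- Products: the functions `y`. -/
theorem wPrc : S_Prc := by
  intro q n v F
  refine ⟨fun t ω => ?_, fun t => ?_, fun t t' htt l => ?_⟩
  · unfold Fam.y
    rw [Finset.abs_prod]
    exact Finset.prod_le_one (fun l _ => abs_nonneg _) fun l _ => fac (F.S l) _ _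
  · have h1 : ∑ ω, F.y t ω * F.r t ω = ∏ l, ∑ a, (F.S l).ind (F.lam l t) a := by
      rw [← sum_prod]
      refine Finset.sum_congr rfl fun ω _ => ?_
      unfold Fam.y Fam.r
      rw [← Finset.prod_mul_distrib]
      exact Finset.prod_congr rfl fun l _ => fac2 (F.S l) _ _
    rw [h1, card_PO]
    refine (prod_ge univ (fun l => (F.nO l : ℝ)) _ F.β (fun l _ => ?_) (fun l _ => ?_)
      (fun l _ => ?_) fun l _ => ?_).1
    · exact_mod_cast F.nO_pos l
    · exact Finset.sum_nonneg fun a _ => (ind_le (F.S l) _ _).1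
    · refine (Finset.sum_le_sum fun a _ => (ind_le (F.S l) (F.lam l t) a).2).trans ?_
      simp
    · have h := (F.S l).ind_mean (F.lam l t)
      rwa [Fintype.card_fin] at h
  · have h1 : ∑ ω, F.y t ω * F.y t' ω = ∏ l, ∑ a, (F.S l).ind (F.lam l t) a *
        rr (F.S l).x (F.S l).M (F.lam l t) a *
          ((F.S l).ind (F.lam l t') a * rr (F.S l).x (F.S l).M (F.lam l t') a) := by
      rw [← sum_prod]
      refine Finset.sum_congr rfl fun ω _ => ?_
      unfold Fam.y
      rw [← Finset.prod_mul_distrib]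
    rw [h1, card_PO, Finset.abs_prod, ← Finset.mul_prod_erase univ _ (mem_univ l),
      ← Finset.mul_prod_erase univ (fun l => (F.nO l : ℝ)) (mem_univ l)]
    have h2 := (F.S l).ind_cross (F.lam l t) (F.lam l t') fun h => htt (F.lam_inj l h)
    rw [Fintype.card_fin] at h2
    have h3 : ∏ x ∈ univ.erase l, |∑ a, (F.S x).ind (F.lam x t) a *
        rr (F.S x).x (F.S x).M (F.lam x t) a *
          ((F.S x).ind (F.lam x t') a * rr (F.S x).x (F.S x).M (F.lam x t') a)| ≤
        ∏ x ∈ univ.erase l, (F.nO x : ℝ) := by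
      refine Finset.prod_le_prod (fun x _ => abs_nonneg _) fun x _ => ?_
      refine (Finset.abs_sum_le_sum_abs _ _).trans ?_
      have h4 : ∀ a ∈ (univ : Finset (Fin (F.nO x))), |(F.S x).ind (F.lam x t) a *
          rr (F.S x).x (F.S x).M (F.lam x t) a *
          ((F.S x).ind (F.lam x t') a * rr (F.S x).x (F.S x).M (F.lam x t') a)| ≤ 1 := by
        intro a _
        rw [abs_mul]
        exact mul_le_one₀ (fac (F.S x) _ _) (abs_nonneg _) (fac (F.S x) _ _)
      refine (Finset.sum_le_sum h4).trans ?_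
      simp
    calc |∑ a, (F.S l).ind (F.lam l t) a * rr (F.S l).x (F.S l).M (F.lam l t) a *
          ((F.S l).ind (F.lam l t') a * rr (F.S l).x (F.S l).M (F.lam l t') a)| *
          ∏ x ∈ univ.erase l, |∑ a, (F.S x).ind (F.lam x t) a *
            rr (F.S x).x (F.S x).M (F.lam x t) a *
            ((F.S x).ind (F.lam x t') a * rr (F.S x).x (F.S x).M (F.lam x t') a)| ≤
          (F.nO l * F.δ l) * ∏ x ∈ univ.erase l, (F.nO x : ℝ) :=
          mul_le_mul h2 h3 (Finset.prod_nonneg fun x _ => abs_nonneg _)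
            ((abs_nonneg _).trans h2)
      _ = F.nO l * (∏ x ∈ univ.erase l, (F.nO x : ℝ)) * F.δ l := by ring

end Pool.Agent.Lib.MP_537232_an.PG
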