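import Pool.Agent.Lib.MP_537232_an.PG.SpecB
import Pool.Agent.Lib.MP_537232_an.NM.Coh

set_option autoImplicit false

/-!
# MP_537232_an, PG/Pre: the main step
-/

open Finset

namespace Pool.Agent.Lib.MP_537232_an.PG

namespace Pre

private theorem sq_add_le (l : ℕ) : (l + 1) ^ 2 + 2 ≤ 2 ^ (l + 5) := by
  induction l with
  | zero => norm_num
  | succ l ih =>
    have e : 2 ^ (l + 1 + 5) = 2 * 2 ^ (l + 5) := by ring
    rw [e]
    nlinarith

private theorem eps_le (q : ℝ) (hq2 : q < 2) (M₀ l : ℕ) :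
    1 / (2 : ℝ) ^ ee M₀ l ≤ (1 / ((l : ℝ) + 1)) ^ q := by
  have h0 : (0 : ℝ) < (l : ℝ) + 1 := by positivity
  have h1 : (1 / ((l : ℝ) + 1)) ^ (2 : ℝ) ≤ (1 / ((l : ℝ) + 1)) ^ q := by
    refine Real.rpow_le_rpow_of_exponent_ge (by positivity) ?_ hq2.le
    rw [div_le_one h0]
    have : (0 : ℝ) ≤ l := by positivity
    linarith
  refine le_trans ?_ h1
  rw [Real.rpow_two, div_pow, one_pow]
  refine one_div_le_one_div_of_le (by positivity) ?_
  have h2 : (l + 1) ^ 2 ≤ 2 ^ ee M₀ l := by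
    unfold ee
    calc (l + 1) ^ 2 ≤ 2 ^ (l + 5) := by have := sq_add_le l; omega
      _ ≤ 2 ^ (l + 5 + M₀) := Nat.pow_le_pow_right (by norm_num) (by omega)
  exact_mod_cast h2

private theorem beta_sum (M₀ n : ℕ) :
    ∑ l ∈ range n, 2 / (2 : ℝ) ^ ee M₀ l ≤ 1 / 8 - 1 / (8 * 2 ^ n) := by
  induction n with
  | zero => simp
  | succ n ih =>
    rw [Finset.sum_range_succ]
    have h1 : 2 / (2 : ℝ) ^ ee M₀ n ≤ 2 / (2 : ℝ) ^ (n + 5) := by
      refine div_le_div_of_nonneg_left (by norm_num) (by positivity) ?_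
      unfold ee
      exact pow_le_pow_right₀ (by norm_num) (by omega)
    have h2 : 2 / (2 : ℝ) ^ (n + 5) = 1 / (8 * 2 ^ n) - 1 / (8 * 2 ^ (n + 1)) := by
      rw [pow_succ, pow_add]
      field_simp
      ring
    linarith

private theorem card_PX_le (h M₀ m G : ℕ) :
    ∏ l ∈ range (m + 1), wl G m l ^ (2 * h) ≤ 2 ^ (G * kap h M₀ m) := by
  have h1 : ∀ l ∈ range (m + 1), wl G m l ^ (2 * h) = 2 ^ (G * (2 ^ (m - l) * (2 * h))) := by
    intro l _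
    unfold wl
    rw [← pow_mul]
    congr 1
    ring
  rw [Finset.prod_congr rfl h1, Finset.prod_pow_eq_pow_sum]
  refine Nat.pow_le_pow_right (by norm_num) ?_
  rw [← Finset.mul_sum]
  refine Nat.mul_le_mul_left _ ?_
  unfold kap
  refine Finset.sum_le_sum fun l _ => Nat.mul_le_mul_left _ ?_
  omega

private theorem le_card_PX (h m G : ℕ) (hh : 1 ≤ h) :
    2 ^ G ≤ ∏ l ∈ range (m + 1), wl G m l ^ (2 * h) := by
  have hpos : ∀ l, 0 < wl G m l ^ (2 * h) := fun l => by unfold wl; positivity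
  have h1 : wl G m m ^ (2 * h) ∣ ∏ l ∈ range (m + 1), wl G m l ^ (2 * h) :=
    Finset.dvd_prod_of_mem (fun l => wl G m l ^ (2 * h)) (Finset.mem_range.2 (Nat.lt_succ_self m))
  refine le_trans ?_ (Nat.le_of_dvd (Finset.prod_pos fun l _ => hpos l) h1)
  unfold wl
  rw [Nat.sub_self, pow_zero, mul_one, ← pow_mul]
  exact Nat.pow_le_pow_right (by norm_num) (by nlinarith)

private theorem delta_le (G m K T e h : ℕ) (hh : 1 ≤ h) (hK1 : 1 ≤ K)
    (hK : K * (2 ^ e) ^ T ≤ 2 ^ G) :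
    (((2 : ℝ) ^ e) ^ T / ((wl G m 0 : ℕ) : ℝ)) ^ h ≤ 1 / K := by
  have h1 : (2 : ℝ) ^ G ≤ ((wl G m 0 : ℕ) : ℝ) := by
    have : 2 ^ G ≤ wl G m 0 := by
      unfold wl
      exact Nat.pow_le_pow_right (by norm_num) (Nat.le_mul_of_pos_right _ (by positivity))
    exact_mod_cast this
  have h2 : (K : ℝ) * ((2 : ℝ) ^ e) ^ T ≤ (2 : ℝ) ^ G := by exact_mod_cast hK
  have hKp : (0 : ℝ) < K := by exact_mod_cast hK1
  have hK1' : (1 : ℝ) ≤ K := by exact_mod_cast hK1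
  have hw : (0 : ℝ) < ((wl G m 0 : ℕ) : ℝ) := lt_of_lt_of_le (by positivity) h1
  have h3 : ((2 : ℝ) ^ e) ^ T / ((wl G m 0 : ℕ) : ℝ) ≤ 1 / K := by
    rw [div_le_div_iff₀ hw hKp]
    linarith
  have h4 : ((2 : ℝ) ^ e) ^ T / ((wl G m 0 : ℕ) : ℝ) ≤ 1 := by
    refine h3.trans ?_
    rw [div_le_one hKp]
    exact hK1'
  calc (((2 : ℝ) ^ e) ^ T / ((wl G m 0 : ℕ) : ℝ)) ^ h ≤
      (((2 : ℝ) ^ e) ^ T / ((wl G m 0 : ℕ) : ℝ)) ^ 1 :=
        pow_le_pow_of_le_one (by positivity) h4 hh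
    _ ≤ 1 / K := by rw [pow_one]; exact h3

private theorem mu_le (K T X W U : ℕ) (hK1 : 1 ≤ K) (hU : 1 ≤ U) (hW : 1 ≤ W)
    (h : K * (T + 1) * X * U ≤ W) :
    2 * (4 * ((T : ℝ) + 1) * X / W) ≤ 8 / (K * U) := by
  have h' : (K : ℝ) * (T + 1) * X * U ≤ W := by exact_mod_cast h
  have hKp : (0 : ℝ) < K := by exact_mod_cast hK1
  have hUp : (0 : ℝ) < U := by exact_mod_cast hU
  have hWp : (0 : ℝ) < W := by exact_mod_cast hW
  rw [← mul_div_assoc, div_le_div_iff₀ hWp (by positivity)]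
  nlinarith

/-- norm of the rows -/
private theorem r_norm (h1 : S_Pra) (q : ℝ) (hq1 : 1 < q) (hq2 : q < 2) (n v : ℕ) (F : Fam q n v)
    (t : Fin v) : ∑ ω, |F.rN t ω| ^ q ≤ 1 := by
  obtain ⟨p1, -, p3, p4⟩ := h1 q hq1 hq2 n v F
  have hN : 0 < (Fintype.card F.PO : ℝ) := by
    rw [Fintype.card_pi]
    push_cast
    refine Finset.prod_pos fun l _ => ?_
    rw [Fintype.card_fin]
    exact_mod_cast F.nO_pos l
  have e1 : ∀ ω, |F.rN t ω| ^ q = (Fintype.card F.PO : ℝ)⁻¹ * |F.r t (F.en ω)| ^ q := by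
    intro ω
    unfold Fam.rN Fam.D
    rw [abs_mul, Real.mul_rpow (abs_nonneg _) (abs_nonneg _), abs_of_nonneg (by positivity),
      ← Real.rpow_mul hN.le, neg_mul, one_div, inv_mul_cancel₀ (by positivity),
      Real.rpow_neg_one]
  rw [Finset.sum_congr rfl fun ω _ => e1 ω, ← Finset.mul_sum,
    Equiv.sum_comp F.en fun ω => |F.r t ω| ^ q]
  have e2 := p4 (F.x t)
  rw [p1 t, Real.one_rpow, mul_one] at e2
  rw [Finset.sum_congr rfl fun ω _ => by rw [← p3 t ω]]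
  rw [inv_mul_le_iff₀ hN, mul_one]
  exact e2

/-- norm of the functionals -/
private theorem f_norm (h3 : S_Prc) (q : ℝ) (hq1 : 1 < q) (n v : ℕ) (F : Fam q n v)
    (t : Fin v) : ∑ ω, |F.fN t ω| ^ (q / (q - 1)) ≤ 1 := by
  obtain ⟨p1, -, -⟩ := h3 q n v F
  have hN : 0 < (Fintype.card F.PO : ℝ) := by
    rw [Fintype.card_pi]
    push_cast
    refine Finset.prod_pos fun l _ => ?_
    rw [Fintype.card_fin]
    exact_mod_cast F.nO_pos l
  have hq0 : q - 1 ≠ 0 := by linarith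
  have hp0 : 0 < q / (q - 1) := div_pos (by linarith) (by linarith)
  have e1 : ∀ ω, |F.fN t ω| ^ (q / (q - 1)) ≤ (Fintype.card F.PO : ℝ)⁻¹ := by
    intro ω
    unfold Fam.fN Fam.D
    rw [abs_mul, Real.mul_rpow (abs_nonneg _) (abs_nonneg _), abs_of_nonneg (by positivity),
      ← Real.rpow_mul hN.le]
    have e2 : -((q - 1) / q) * (q / (q - 1)) = -1 := by
      field_simp
    rw [e2, Real.rpow_neg_one]
    have e3 : |F.y t (F.en ω)| ^ (q / (q - 1)) ≤ 1 :=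
      Real.rpow_le_one (abs_nonneg _) (p1 t _) hp0.le
    calc (Fintype.card F.PO : ℝ)⁻¹ * |F.y t (F.en ω)| ^ (q / (q - 1)) ≤
        (Fintype.card F.PO : ℝ)⁻¹ * 1 := mul_le_mul_of_nonneg_left e3 (by positivity)
      _ = _ := mul_one _
  calc ∑ ω, |F.fN t ω| ^ (q / (q - 1)) ≤ ∑ _ω : Fin F.D, (Fintype.card F.PO : ℝ)⁻¹ :=
        Finset.sum_le_sum fun ω _ => e1 ω
    _ = (Fintype.card F.PO : ℝ) * (Fintype.card F.PO : ℝ)⁻¹ := by
        rw [Finset.sum_const, Finset.card_univ, Fintype.card_fin, nsmul_eq_mul]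
        rfl
    _ = 1 := mul_inv_cancel₀ hN.ne'

/-- the duality -/
private theorem pairing (h3 : S_Prc) (q : ℝ) (hq1 : 1 < q) (n v : ℕ) (F : Fam q n v)
    (t : Fin v) : 1 - ∑ l, F.β l ≤ ∑ ω, F.fN t ω * F.rN t ω := by
  obtain ⟨-, p2, -⟩ := h3 q n v F
  have hN : 0 < (Fintype.card F.PO : ℝ) := by
    rw [Fintype.card_pi]
    push_cast
    refine Finset.prod_pos fun l _ => ?_
    rw [Fintype.card_fin]
    exact_mod_cast F.nO_pos l
  have e1 : ∀ ω, F.fN t ω * F.rN t ω =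
      (Fintype.card F.PO : ℝ)⁻¹ * (F.y t (F.en ω) * F.r t (F.en ω)) := by
    intro ω
    unfold Fam.fN Fam.rN Fam.D
    have e2 : -((q - 1) / q) + -(1 / q) = -1 := by
      have : q ≠ 0 := by linarith
      field_simp
      ring
    have e3 : (Fintype.card F.PO : ℝ) ^ (-((q - 1) / q)) * (Fintype.card F.PO : ℝ) ^ (-(1 / q)) =
        (Fintype.card F.PO : ℝ)⁻¹ := by
      rw [← Real.rpow_add hN, e2, Real.rpow_neg_one]
    rw [← e3]
    ring
  rw [Finset.sum_congr rfl fun ω _ => e1 ω, ← Finset.mul_sum,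
    Equiv.sum_comp F.en fun ω => F.y t ω * F.r t ω]
  have e4 := p2 t
  rw [← div_eq_inv_mul, le_div_iff₀ hN]
  linarith

/-- the functionals have few large coordinates -/
private theorem few (h3 : S_Prc) (h4 : S_Fwp) (q : ℝ) (P : ℕ) (hq1 : 1 < q) (hq2 : q < 2)
    (hP : q / (q - 1) ≤ P) (n v m K : ℕ) (F : Fam q n v) (l : Fin n) (hK1 : 1 ≤ K)
    (hδ0 : 0 ≤ F.δ l) (hδ : F.δ l ≤ 1 / K) (hK : 2 * (m + 1) ^ (2 * P) ≤ K)
    (hv : 2 * (m + 1) * (m * (m + 1) + 1) ^ (2 * P) * Fintype.card F.PO ^ P ≤ v) :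
    FewP (q / (q - 1)) m F.fN := by
  obtain ⟨p1, -, p3⟩ := h3 q n v F
  have hN1 : 1 ≤ Fintype.card F.PO := by
    rw [Fintype.card_pi]
    refine Finset.one_le_prod' fun l _ => ?_
    rw [Fintype.card_fin]
    exact F.nO_pos l
  have hN : (1 : ℝ) ≤ (Fintype.card F.PO : ℝ) := by exact_mod_cast hN1
  have hq0 : q - 1 ≠ 0 := by linarith
  have hp2 : 2 < q / (q - 1) := by
    rw [lt_div_iff₀ (by linarith)]
    linarith
  set p : ℝ := q / (q - 1) with hp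
  have hKp : (0 : ℝ) < K := by exact_mod_cast hK1
  have hm1 : (1 : ℝ) ≤ (m : ℝ) + 1 := by
    have : (0 : ℝ) ≤ m := by positivity
    linarith
  have hf : F.fN = fun t ω => (F.D : ℝ) ^ (-(1 / p)) * F.y t (F.en ω) := by
    funext t ω
    unfold Fam.fN
    rw [hp, one_div_div]
  rw [hf]
  refine h4 p hp2 v F.D m (fun t ω => F.y t (F.en ω)) (F.δ l) hN1 (fun t ω => p1 t _) ?_ hδ0 ?_ ?_
  · intro t t' htt
    rw [Equiv.sum_comp F.en fun ω => F.y t ω * F.y t' ω]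
    exact p3 t t' htt l
  · have e1 : ((m : ℝ)) ^ p ≤ ((m : ℝ) + 1) ^ (P : ℝ) :=
      (Real.rpow_le_rpow (by positivity) (by linarith) (by linarith)).trans
        (Real.rpow_le_rpow_of_exponent_le hm1 hP)
    have e2 : ((m : ℝ) + 1) ^ p ≤ ((m : ℝ) + 1) ^ (P : ℝ) :=
      Real.rpow_le_rpow_of_exponent_le hm1 hP
    rw [Real.rpow_natCast] at e1 e2
    have e3 : (2 : ℝ) * ((m : ℝ) + 1) ^ (2 * P) ≤ K := by exact_mod_cast hK
    have e4 : (m : ℝ) ^ p * ((m : ℝ) + 1) ^ p ≤ ((m : ℝ) + 1) ^ (2 * P) := by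
      rw [two_mul, pow_add]
      exact mul_le_mul e1 e2 (by positivity) (by positivity)
    calc 2 * (m : ℝ) ^ p * F.δ l * ((m : ℝ) + 1) ^ p =
        2 * ((m : ℝ) ^ p * ((m : ℝ) + 1) ^ p) * F.δ l := by ring
      _ ≤ 2 * ((m : ℝ) + 1) ^ (2 * P) * (1 / K) :=
        mul_le_mul (by linarith) hδ hδ0 (by positivity)
      _ ≤ K * (1 / K) := mul_le_mul_of_nonneg_right e3 (by positivity)
      _ = 1 := mul_one_div_cancel hKp.ne'
  · have hb : (1 : ℝ) ≤ (m : ℝ) * ((m : ℝ) + 1) + 1 := by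
      have : (0 : ℝ) ≤ (m : ℝ) * ((m : ℝ) + 1) := by positivity
      linarith
    have e1 : ((m : ℝ) * ((m : ℝ) + 1)) ^ (2 * p) ≤ ((m : ℝ) * ((m : ℝ) + 1) + 1) ^ (2 * P) := by
      rw [← Real.rpow_natCast ((m : ℝ) * ((m : ℝ) + 1) + 1)]
      push_cast
      exact (Real.rpow_le_rpow (by positivity) (by linarith) (by linarith)).trans
        (Real.rpow_le_rpow_of_exponent_le hb (by linarith))
    have e2 : (F.D : ℝ) ^ (p / 2) ≤ (Fintype.card F.PO : ℝ) ^ P := by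
      rw [← Real.rpow_natCast]
      exact Real.rpow_le_rpow_of_exponent_le hN (by linarith)
    have e3 : (2 : ℝ) * ((m : ℝ) + 1) * ((m : ℝ) * ((m : ℝ) + 1) + 1) ^ (2 * P) *
        (Fintype.card F.PO : ℝ) ^ P ≤ v := by exact_mod_cast hv
    refine le_trans ?_ e3
    refine mul_le_mul ?_ e2 (by positivity) (by positivity)
    exact mul_le_mul_of_nonneg_left e1 (by positivity)

end Pre

open Pre in
theorem wPre (h1 : S_Pra) (_h2 : S_Prb) (h3 : S_Prc) (h4 : S_Fwp) (h5 : S_Eva) (h6 : S_Ovc)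
    (h7 : S_Num) (h8 : S_Fmm) : S_Pre := by
  intro q P hq1 hq2 hP
  have hP2 : 2 ≤ P := by
    have e1 : 2 < q / (q - 1) := by
      rw [lt_div_iff₀ (by linarith)]
      linarith
    have e2 : (2 : ℝ) < P := lt_of_lt_of_le e1 hP
    exact_mod_cast e2.le
  obtain ⟨h, hh1, hh6⟩ : ∃ h : ℕ, 1 ≤ h ∧ 6 ≤ (h : ℝ) * (2 - q) := by
    obtain ⟨n, hn⟩ := exists_nat_ge (6 / (2 - q))
    refine ⟨n + 1, by omega, ?_⟩
    rw [div_le_iff₀ (by linarith)] at hn
    push_cast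
    nlinarith
  set M₀ : ℕ := 2 * h * P + 1 with hM₀
  refine ⟨fun l => ((2 : ℝ) ^ ee M₀ l) ^ rho M₀ l, fun l => l + 1, ?_⟩
  have hCc1 : ∀ l, (1 : ℝ) ≤ ((2 : ℝ) ^ ee M₀ l) ^ rho M₀ l := fun l =>
    one_le_pow₀ (one_le_pow₀ (by norm_num))
  intro m K₀ A B
  set κ : ℕ := kap h M₀ m with hκ
  set c₁ : ℕ := 2 * (m + 1) * (m * (m + 1) + 1) ^ (2 * P) with hc₁
  set K : ℕ := A + 2 * K₀ + 17 * B + 1 + c₁ + 2 * (m + 1) ^ (2 * P) with hK
  obtain ⟨G, hG1, hGK, hGN, hGμ⟩ := h7 h P M₀ m K (κ * P) hM₀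
  obtain ⟨F, hPX, hPO, hCm, hβ, hε, hδ, hμ⟩ := h8 q h M₀ m G (κ * P + 1) hq1 hq2 hh6 (by omega)
    hG1 (by omega) hGN
  have hK1 : 1 ≤ K := by omega
  have hKG : K ≤ 2 ^ G := by
    refine le_trans ?_ hGK
    exact Nat.le_mul_of_pos_right _ (by positivity)
  have hv : 2 ^ (G * (κ * P + 1)) = 2 ^ G * (2 ^ (G * κ)) ^ P := by
    rw [← pow_mul, ← pow_add]
    congr 1
    ring
  have hUle : Fintype.card F.PX ≤ 2 ^ (G * κ) := by
    rw [hPX]
    exact card_PX_le h M₀ m G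
  have hUge : 2 ^ G ≤ Fintype.card F.PX := by
    rw [hPX]
    exact le_card_PX h m G hh1
  have hU1 : 1 ≤ Fintype.card F.PX := le_trans Nat.one_le_two_pow hUge
  have hUP : Fintype.card F.PX ^ P ≤ (2 ^ (G * κ)) ^ P := Nat.pow_le_pow_left hUle P
  have hUP1 : 1 ≤ Fintype.card F.PX ^ P := Nat.one_le_pow _ _ hU1
  have hKp : (0 : ℝ) < K := by exact_mod_cast hK1
  have hδ0 : 0 ≤ F.δ 0 := by
    rw [hδ]
    positivity
  have hδK : F.δ 0 ≤ 1 / K := by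
    rw [hδ, Nat.add_sub_cancel]
    exact delta_le G m K (κ * P) _ h hh1 hK1 hGK
  obtain ⟨p1, p2, p3, p4⟩ := h1 q hq1 hq2 (m + 1) _ F
  obtain ⟨w', w1, w2, w3⟩ := h6 q hq1 hq2 m _ F (fun l => ((2 : ℝ) ^ ee M₀ l) ^ rho M₀ l)
    (fun l => l + 1) (8 / (K * (Fintype.card F.PX ^ P : ℕ)))
    (fun i => by
      rw [hCm i]
      refine Real.sqrt_le_iff.2 ⟨le_trans zero_le_one (hCc1 i), ?_⟩
      have := hCc1 (i : ℕ)
      nlinarith)
    (fun i => rfl) (fun i => le_trans zero_le_one (hCc1 i))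
    (fun i => by
      rw [hε i]
      exact eps_le q hq2 M₀ i)
    (fun i => by
      rw [hμ i, Nat.add_sub_cancel]
      have e1 := mu_le K (κ * P) ((2 ^ ee M₀ i) ^ ((κ * P) ^ 2 + 3 * (κ * P) + rho M₀ i ^ 2))
        (wl G m i ^ rho M₀ i) (Fintype.card F.PX ^ P) hK1 hUP1
        (Nat.one_le_pow _ _ (by unfold wl; positivity))
        (by
          rw [hPX]
          exact hGμ i (Nat.lt_succ_iff.1 i.2))
      push_cast at e1 ⊢
      rw [add_sub_cancel_right]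
      exact e1)
  refine ⟨2 ^ (G * (κ * P + 1)), F.D, F.PX, Fin (m + 1) × F.PO, inferInstance, inferInstance,
    F.x, w', F.rN, F.fN, ?_, ?_, ?_, p1, ?_, w1, ?_, r_norm h1 q hq1 hq2 _ _ F,
    f_norm h3 q hq1 _ _ F, ?_, ?_, w3, ?_⟩
  · omega
  · refine lt_of_lt_of_eq ?_ hv.symm
    calc B * Fintype.card F.PX ^ P ≤ B * (2 ^ (G * κ)) ^ P := Nat.mul_le_mul_left _ hUP
      _ < 2 ^ G * (2 ^ (G * κ)) ^ P := Nat.mul_lt_mul_of_pos_right (by omega) (by positivity)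
  · refine lt_of_lt_of_eq ?_ hv.symm
    have e1 : 2 ^ (G * κ) ≤ (2 ^ (G * κ)) ^ P := Nat.le_self_pow (by omega) _
    have e2 : 0 < (2 ^ (G * κ)) ^ P := by positivity
    have e3 : 2 ≤ 2 ^ G := by
      calc 2 = 2 ^ 1 := by norm_num
        _ ≤ 2 ^ G := Nat.pow_le_pow_right (by norm_num) hG1
    calc Fintype.card F.PX ≤ (2 ^ (G * κ)) ^ P := hUle.trans e1
      _ < 2 * (2 ^ (G * κ)) ^ P := by omega
      _ ≤ 2 ^ G * (2 ^ (G * κ)) ^ P := Nat.mul_le_mul_right _ e3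
  · intro t t' htt
    have e1 := (p2 t t' htt 0).trans hδK
    have e2 : (2 : ℝ) * K₀ ≤ K := by
      have : 2 * K₀ ≤ K := by omega
      exact_mod_cast this
    calc |∑ j, F.x t j * F.x t' j| * K₀ ≤ 1 / K * K₀ :=
          mul_le_mul_of_nonneg_right e1 (by positivity)
      _ ≤ 1 / 2 := by
          rw [one_div_mul_eq_div, div_le_div_iff₀ hKp (by norm_num)]
          linarith
  · refine NM.wCoh _ _ _ (8 / (K * (Fintype.card F.PX ^ P : ℕ))) _ ?_ (by positivity) ?_ ?_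
    · intro t
      rw [← w1 t]
      exact Finset.sum_congr rfl fun j _ => (sq _).symm
    · exact fun t t' htt => w2 t t' htt
    · have e2 : (16 : ℝ) * B ≤ K := by
        have : 16 * B ≤ K := by omega
        exact_mod_cast this
      have e3 : (0 : ℝ) < ((Fintype.card F.PX ^ P : ℕ) : ℝ) := by exact_mod_cast hUP1
      have e4 : 8 / ((K : ℝ) * ((Fintype.card F.PX ^ P : ℕ) : ℝ)) *
          ((B * Fintype.card F.PX ^ P : ℕ) : ℝ) = 8 * B / K := by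
        rw [Nat.cast_mul]
        field_simp
      rw [e4, div_le_div_iff₀ hKp (by norm_num)]
      linarith
  · intro t
    refine le_trans ?_ (pairing h3 q hq1 _ _ F t)
    have e1 : ∑ l, F.β l = ∑ l ∈ range (m + 1), 2 / (2 : ℝ) ^ ee M₀ l := by
      rw [Finset.sum_congr rfl fun l _ => hβ l]
      exact Fin.sum_univ_eq_sum_range (fun l => 2 / (2 : ℝ) ^ ee M₀ l) (m + 1)
    have e2 := beta_sum M₀ (m + 1)
    have e3 : (0 : ℝ) < 1 / (8 * 2 ^ (m + 1)) := by positivity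
    rw [e1]
    linarith
  · exact h5 q hq1 hq2 (m + 1) _ F _ _ m hCc1 (fun i => Nat.le_add_left 1 i)
  · refine few h3 h4 q P hq1 hq2 hP (m + 1) _ m K F 0 hK1 hδ0 hδK (by omega) ?_
    rw [hPO]
    exact (Nat.mul_le_mul_right _ (by omega)).trans (le_of_eq hv.symm)

end Pool.Agent.Lib.MP_537232_an.PG
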