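import Pool.Agent.Lib.MP_537232_an.PG.SpecB

set_option autoImplicit false

/-!
# Rad: a lower bound for the moments of Rademacher sums
-/

open Finset

namespace Pool.Agent.Lib.MP_537232_an.PG

namespace Rad

theorem sg_sq (b : Bool) : NM.sg b * NM.sg b = 1 := by
  cases b <;> simp [NM.sg]

theorem sg_not (b : Bool) : NM.sg (!b) = -NM.sg b := by
  cases b <;> simp [NM.sg]

theorem orth {n : ℕ} (i j : Fin n) : ∑ θ : Fin n → Bool, NM.sg (θ i) * NM.sg (θ j) =
    if i = j then (2 : ℝ) ^ n else 0 := by
  classical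
  by_cases h : i = j
  · subst h
    rw [if_pos rfl]
    simp only [sg_sq, Finset.sum_const, Finset.card_univ, nsmul_eq_mul, mul_one]
    simp
  · rw [if_neg h]
    let e : (Fin n → Bool) ≃ (Fin n → Bool) :=
      { toFun := fun θ => Function.update θ i (!θ i)
        invFun := fun θ => Function.update θ i (!θ i)
        left_inv := fun θ => by
          funext k
          by_cases hk : k = i
          · subst hk
            simp
          · simp [Function.update_of_ne hk]
        right_inv := fun θ => by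
          funext k
          by_cases hk : k = i
          · subst hk
            simp
          · simp [Function.update_of_ne hk] }
    have h1 : ∑ θ : Fin n → Bool, NM.sg (θ i) * NM.sg (θ j) =
        ∑ θ : Fin n → Bool, NM.sg (e θ i) * NM.sg (e θ j) :=
      (Equiv.sum_comp e fun θ => NM.sg (θ i) * NM.sg (θ j)).symm
    have h2 : ∀ θ : Fin n → Bool, NM.sg (e θ i) * NM.sg (e θ j) = -(NM.sg (θ i) * NM.sg (θ j)) := by
      intro θ
      have e1 : e θ i = !θ i := Function.update_self ..
      have e2 : e θ j = θ j := Function.update_of_ne (Ne.symm h) ..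
      rw [e1, e2, sg_not, neg_mul]
    simp only [h2, Finset.sum_neg_distrib] at h1
    linarith

end Rad

theorem wRad : S_Rad := by
  intro p hp n a
  have h1 : ∑ θ : Fin n → Bool, ((2 : ℝ) ^ n)⁻¹ = 1 := by
    rw [Finset.sum_const, Finset.card_univ, Fintype.card_fun, Fintype.card_bool, Fintype.card_fin,
      nsmul_eq_mul]
    push_cast
    exact mul_inv_cancel₀ (by positivity)
  have h2 : ∑ θ : Fin n → Bool, (∑ ω, a ω * NM.sg (θ ω)) ^ 2 = (2 : ℝ) ^ n * ∑ ω, a ω ^ 2 := by
    have e1 : ∀ θ : Fin n → Bool, (∑ ω, a ω * NM.sg (θ ω)) ^ 2 =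
        ∑ i, ∑ j, (a i * a j) * (NM.sg (θ i) * NM.sg (θ j)) := by
      intro θ
      rw [sq, Finset.sum_mul_sum]
      exact Finset.sum_congr rfl fun i _ => Finset.sum_congr rfl fun j _ => by ring
    simp only [e1]
    rw [Finset.sum_comm]
    have e2 : ∀ i : Fin n, ∑ θ : Fin n → Bool, ∑ j, (a i * a j) * (NM.sg (θ i) * NM.sg (θ j)) =
        (2 : ℝ) ^ n * a i ^ 2 := by
      intro i
      rw [Finset.sum_comm]
      simp only [← Finset.mul_sum, Rad.orth, mul_ite, mul_zero, Finset.sum_ite_eq, Finset.mem_univ,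
        if_true]
      ring
    simp only [e2, ← Finset.mul_sum]
  have h3 := Real.rpow_arith_mean_le_arith_mean_rpow (Finset.univ : Finset (Fin n → Bool))
    (fun _ => ((2 : ℝ) ^ n)⁻¹) (fun θ => (∑ ω, a ω * NM.sg (θ ω)) ^ 2)
    (fun _ _ => by positivity) h1 (fun _ _ => sq_nonneg _) (p := p / 2) (by linarith)
  rw [← Finset.mul_sum, ← Finset.mul_sum, h2, inv_mul_cancel_left₀ (by positivity)] at h3
  refine h3.trans (le_of_eq ?_)
  congr 1
  refine Finset.sum_congr rfl fun θ _ => ?_
  rw [← sq_abs, ← Real.rpow_natCast, ← Real.rpow_mul (abs_nonneg _)]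
  congr 1
  push_cast
  ring

end Pool.Agent.Lib.MP_537232_an.PG
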