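import Pool.Agent.Lib.MP_537232_an.PG.SpecJ

/-!
# MP_537232_an, PG/RowI: `R` does not belong to the ideal of `I`
-/

set_option autoImplicit false

open scoped ENNReal Topology
open Filter Finset

namespace Pool.Agent.Lib.MP_537232_an.PG

open NM (pE qE fc MulSp)

namespace RowI

theorem toReal_pE {q : ℝ} (hq : 1 < q) : (pE q).toReal = q / (q - 1) :=
  ENNReal.toReal_ofReal (div_nonneg (by linarith) (by linarith))

theorem two_lt {q : ℝ} (hq : 1 < q) (hq2 : q < 2) : 2 < q / (q - 1) := by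
  rw [lt_div_iff₀ (by linarith)]
  linarith

/-- One block. -/
theorem blk_le {p : ℝ} (hp : 2 < p) {k : ℕ} (y : EuclideanSpace ℝ (Fin k)) :
    ∑ j, |y j| ^ p ≤ ‖y‖ ^ p := by
  have e1 : ‖y‖ ^ 2 = ∑ j, (y j) ^ 2 := by
    rw [EuclideanSpace.norm_sq_eq]
    exact Finset.sum_congr rfl fun j _ => by rw [Real.norm_eq_abs, sq_abs]
  have e2 : ∀ j, |y j| ≤ ‖y‖ := by
    intro j
    refine abs_le_of_sq_le_sq ?_ (norm_nonneg y)
    rw [e1]
    exact Finset.single_le_sum (f := fun j => (y j) ^ 2) (fun i _ => sq_nonneg _)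
      (Finset.mem_univ j)
  have e3 : ∀ j, |y j| ^ p ≤ ‖y‖ ^ (p - 2) * (y j) ^ 2 := by
    intro j
    rcases eq_or_lt_of_le (abs_nonneg (y j)) with h | h
    · rw [← h, Real.zero_rpow (by linarith)]
      positivity
    · have h4 : |y j| ^ p = |y j| ^ (p - 2) * (y j) ^ 2 := by
        rw [← sq_abs (y j), ← Real.rpow_natCast, ← Real.rpow_add h]
        norm_num
      rw [h4]
      exact mul_le_mul_of_nonneg_right
        (Real.rpow_le_rpow (abs_nonneg _) (e2 j) (by linarith)) (sq_nonneg _)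
  refine (Finset.sum_le_sum fun j _ => e3 j).trans (le_of_eq ?_)
  rw [← Finset.mul_sum, ← e1]
  rcases eq_or_lt_of_le (norm_nonneg y) with h | h
  · rw [← h, Real.zero_rpow (by linarith : p ≠ 0)]
    simp
  · rw [← Real.rpow_natCast, ← Real.rpow_add h]
    norm_num

/-- The sum of the powers of the coordinates. -/
theorem pw_sum_le {q : ℝ} (hq : 1 < q) (hq2 : q < 2) (u : ℕ → ℕ) [Fact (1 ≤ pE q)]
    (x : lp (E u) (pE q)) (S : Finset (Ix u)) :
    ∑ σ ∈ S, |x σ.1 σ.2| ^ (q / (q - 1)) ≤ ‖x‖ ^ (q / (q - 1)) := by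
  classical
  have hp2 := two_lt hq hq2
  have hpr := toReal_pE hq
  set s : Finset ℕ := S.image Sigma.fst with hs
  have h1 : ∑ σ ∈ S, |x σ.1 σ.2| ^ (q / (q - 1)) ≤ ∑ n ∈ s, ‖x n‖ ^ (q / (q - 1)) := by
    have e2 : ∑ n ∈ s, ∑ j : Fin (u n), |x n j| ^ (q / (q - 1)) =
        ∑ σ ∈ s.sigma fun n => (Finset.univ : Finset (Fin (u n))),
          |x σ.1 σ.2| ^ (q / (q - 1)) := by
      rw [Finset.sum_sigma]
    refine le_trans ?_ (Finset.sum_le_sum fun n _ => blk_le hp2 (x n))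
    rw [e2]
    refine Finset.sum_le_sum_of_subset_of_nonneg ?_ fun σ _ _ => by positivity
    intro σ hσ
    rw [Finset.mem_sigma]
    exact ⟨Finset.mem_image_of_mem _ hσ, Finset.mem_univ _⟩
  refine h1.trans ?_
  have h2 := lp.sum_rpow_le_norm_rpow (by rw [hpr]; linarith) x s
  rwa [hpr] at h2

theorem abs_coord_le {q : ℝ} (hq : 1 < q) (hq2 : q < 2) (u : ℕ → ℕ) [Fact (1 ≤ pE q)]
    (x : lp (E u) (pE q)) (σ : Ix u) : |x σ.1 σ.2| ≤ ‖x‖ := by
  have h1 := pw_sum_le hq hq2 u x {σ}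
  rw [Finset.sum_singleton] at h1
  exact (Real.rpow_le_rpow_iff (abs_nonneg _) (norm_nonneg _)
    (by have := two_lt hq hq2; linarith)).1 h1

theorem coord_sum {q : ℝ} [Fact (1 ≤ pE q)] (u : ℕ → ℕ) {D : ℕ}
    (J : (Fin D → ℝ) →ₗ[ℝ] lp (E u) (pE q)) (B : lp (E u) (pE q) →L[ℝ] lp (E u) (pE q)) (n : ℕ)
    (j : Fin (u n)) (h : Fin D → ℝ) {Λ : Fin D → ℝ}
    (hΛ : ∀ ω, Λ ω = (B (J (Pi.single ω 1))) n j) :
    ∑ ω, Λ ω * h ω = (B (J h)) n j := by
  set L : (Fin D → ℝ) →ₗ[ℝ] ℝ :=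
    { toFun := fun h => (B (J h)) n j
      map_add' := fun x y => by
        rw [map_add, map_add]
        rfl
      map_smul' := fun c x => by
        rw [map_smul, map_smul]
        rfl } with hL
  have e1 : ∀ h, L h = (B (J h)) n j := fun h => rfl
  rw [← e1, LinearMap.pi_apply_eq_sum_univ L h]
  refine Finset.sum_congr rfl fun ω _ => ?_
  have e2 : (fun j => if ω = j then (1 : ℝ) else 0) = Pi.single ω 1 := by
    funext j
    rw [Pi.single_apply]
    simp only [eq_comm]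
  rw [e2, e1, hΛ, smul_eq_mul, mul_comm]

end RowI

open RowI in
/-- **RowI.** `R` does not belong to the ideal of `I`. -/
theorem wRowI (hEmb : NM.S_Emb) (hFun : NM.S_Fun) (hJc : NM.S_Jc) (hDat : S_DatE) : S_RowI := by
  classical
  intro q hq hq2 _ X Z _ _ hZ R I hR hI hmem
  have hp2 := two_lt hq hq2
  have hp1 : 1 < q / (q - 1) := by linarith
  have hp0 : 0 < q / (q - 1) := by linarith
  obtain ⟨J, hJn, hJf, -⟩ := hEmb (q / (q - 1)) hp1 X.P.u X.P.u_pos X.D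
  set F : ∀ m, Fin (X.P.v (2 * m)) → USp X.P.u (pE q) := fun m t => J m ((X.st m).f t) with hFdef
  have hF : ∀ m t, ‖F m t‖ ≤ 1 := by
    intro m t
    have h0 : ‖F m t‖ = (∑ ω, |(X.st m).f t ω| ^ (q / (q - 1))) ^ (1 / (q / (q - 1))) :=
      hJn m ((X.st m).f t)
    rw [h0]
    exact Real.rpow_le_one (Finset.sum_nonneg fun _ _ => by positivity) ((X.st m).f_norm t)
      (by positivity)
  obtain ⟨K, hK, hKm⟩ := (hJc (USp X.P.u (pE q)) Z (fun m => X.P.v (2 * m))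
    (fun m => X.P.v_pos _)).1 F hF
  have hIle : ∀ x, ‖I x‖ ≤ ‖x‖ := by
    intro x
    refine hZ.le_of _ _ (norm_nonneg x) fun ν => ?_
    rw [hI x ν]
    exact abs_coord_le hq hq2 X.P.u x (X.P.tw ν)
  have hIK : I ∈ K := by
    rw [hKm]
    intro B
    have hlim : Tendsto (fun m : ℕ => (‖B‖ + 1) / ((m : ℝ) + 1)) atTop (𝓝 0) :=
      tendsto_const_nhds.div_atTop (tendsto_natCast_atTop_atTop.atTop_add tendsto_const_nhds)
    refine squeeze_zero' (Eventually.of_forall fun m => div_nonneg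
      (Finset.sum_nonneg fun t _ => norm_nonneg _) (Nat.cast_nonneg _)) ?_ hlim
    obtain ⟨m₀, hm₀⟩ := exists_nat_ge ‖B‖
    filter_upwards [eventually_ge_atTop m₀] with m hm
    have hbm : ‖B‖ ≤ m := hm₀.trans (by exact_mod_cast hm)
    have hm1 : (0 : ℝ) < (m : ℝ) + 1 := by positivity
    set J₀ : Finset (Fin (X.P.v (2 * m))) :=
      Finset.univ.filter fun t => 1 / ((m : ℝ) + 1) < ‖I (B (F m t))‖ with hJ₀
    have hν : ∀ t, ∃ ν, t ∈ J₀ → 1 / ((m : ℝ) + 1) < |hZ.c (I (B (F m t))) ν| := by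
      intro t
      by_cases ht : t ∈ J₀
      · have h1 := (Finset.mem_filter.1 ht).2
        by_contra hcon
        push Not at hcon
        have h2 : ∀ ν, |hZ.c (I (B (F m t))) ν| ≤ 1 / ((m : ℝ) + 1) := fun ν => (hcon ν).2
        exact absurd h1 (not_lt.2 (hZ.le_of _ _ (by positivity) h2))
      · exact ⟨⟨0, ⟨0, X.P.v_pos 0⟩⟩, fun h => absurd h ht⟩
    choose ν hν using hν
    set S : Finset (Ix X.P.v) := J₀.image ν with hS
    obtain ⟨Jm, hJm⟩ : ∃ Jm : (Fin (X.st m).D → ℝ) →ₗ[ℝ] lp (E X.P.u) (pE q), Jm = J m :=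
      ⟨J m, rfl⟩
    have hFJ : ∀ t, F m t = Jm ((X.st m).f t) := fun t => by
      rw [hJm]
      rfl
    have hJn' : ∀ h : Fin (X.st m).D → ℝ,
        ‖Jm h‖ = (∑ ω, |h ω| ^ (q / (q - 1))) ^ (1 / (q / (q - 1))) := fun h => by
      rw [hJm]
      exact hJn m h
    clear_value F
    obtain ⟨Λ, hΛ⟩ : ∃ Λ : Fin S.card → Fin (X.st m).D → ℝ, Λ = fun s ω =>
      (B (Jm (Pi.single ω 1))) (X.P.tw (S.equivFin.symm s).1).1
        (X.P.tw (S.equivFin.symm s).1).2 := ⟨_, rfl⟩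
    have hΛs : ∀ s (h : Fin (X.st m).D → ℝ), ∑ ω, Λ s ω * h ω =
        (B (Jm h)) (X.P.tw (S.equivFin.symm s).1).1 (X.P.tw (S.equivFin.symm s).1).2 := by
      intro s h
      exact coord_sum X.P.u Jm B _ _ h (fun ω => by rw [hΛ])
    have hfew := (X.st m).few ‖B‖ S.card Λ (norm_nonneg B) hbm (by
      intro h
      have e1 : ∑ s, |∑ ω, Λ s ω * h ω| ^ (q / (q - 1)) =
          ∑ ν ∈ S, |(B (Jm h)) (X.P.tw ν).1 (X.P.tw ν).2| ^ (q / (q - 1)) := by
        rw [← Finset.sum_coe_sort S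
          (fun ν => |(B (Jm h)) (X.P.tw ν).1 (X.P.tw ν).2| ^ (q / (q - 1)))]
        rw [← Equiv.sum_comp S.equivFin.symm]
        exact Finset.sum_congr rfl fun s _ => by rw [hΛs]
      have e2 : ∑ ν ∈ S, |(B (Jm h)) (X.P.tw ν).1 (X.P.tw ν).2| ^ (q / (q - 1)) =
          ∑ σ ∈ S.image X.P.tw, |(B (Jm h)) σ.1 σ.2| ^ (q / (q - 1)) := by
        rw [Finset.sum_image fun a _ b _ hab => X.P.tw_injective hab]
      rw [e1, e2]
      refine (pw_sum_le hq hq2 X.P.u (B (Jm h)) _).trans ?_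
      have e3 : ‖B (Jm h)‖ ≤ ‖B‖ * ‖Jm h‖ := B.le_opNorm _
      have e4 : ‖B (Jm h)‖ ^ (q / (q - 1)) ≤ (‖B‖ * ‖Jm h‖) ^ (q / (q - 1)) := by gcongr
      refine e4.trans (le_of_eq ?_)
      rw [Real.mul_rpow (norm_nonneg _) (norm_nonneg _), hJn', ← Real.rpow_mul (by positivity),
        one_div_mul_cancel hp0.ne', Real.rpow_one]) J₀ (by
      intro t ht
      have hm' : ν t ∈ S := Finset.mem_image_of_mem _ ht
      refine ⟨S.equivFin ⟨ν t, hm'⟩, ?_⟩
      rw [hΛs, Equiv.symm_apply_apply]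
      have := hν t ht
      rw [hI, hFJ] at this
      exact this.le)
    have hv : (0 : ℝ) < X.P.v (2 * m) := by exact_mod_cast X.P.v_pos _
    rw [div_le_div_iff₀ hv hm1]
    have hsum : ∑ t, ‖I (B (F m t))‖ ≤ J₀.card * ‖B‖ + X.P.v (2 * m) * (1 / ((m : ℝ) + 1)) := by
      have h1 : ∀ t, ‖I (B (F m t))‖ ≤ (if t ∈ J₀ then ‖B‖ else 0) + 1 / ((m : ℝ) + 1) := by
        intro t
        by_cases ht : t ∈ J₀
        · rw [if_pos ht]
          have h2 : ‖I (B (F m t))‖ ≤ ‖B‖ := by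
            calc ‖I (B (F m t))‖ ≤ ‖B (F m t)‖ := hIle _
              _ ≤ ‖B‖ * ‖F m t‖ := B.le_opNorm _
              _ ≤ ‖B‖ * 1 := by
                  gcongr
                  exact hF m t
              _ = ‖B‖ := mul_one _
          have h3 : 0 ≤ 1 / ((m : ℝ) + 1) := by positivity
          linarith
        · rw [if_neg ht, zero_add]
          by_contra hcon
          exact ht (Finset.mem_filter.2 ⟨Finset.mem_univ _, not_le.1 hcon⟩)
      calc ∑ t, ‖I (B (F m t))‖ ≤ ∑ t, ((if t ∈ J₀ then ‖B‖ else 0) + 1 / ((m : ℝ) + 1)) :=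
            Finset.sum_le_sum fun t _ => h1 t
        _ = J₀.card * ‖B‖ + X.P.v (2 * m) * (1 / ((m : ℝ) + 1)) := by
            rw [Finset.sum_add_distrib, Finset.sum_ite_mem, Finset.univ_inter, Finset.sum_const,
              Finset.sum_const, Finset.card_univ, Fintype.card_fin, nsmul_eq_mul, nsmul_eq_mul]
    have hB := norm_nonneg B
    have h5 : (∑ t, ‖I (B (F m t))‖) * ((m : ℝ) + 1) ≤
        (J₀.card * ‖B‖ + X.P.v (2 * m) * (1 / ((m : ℝ) + 1))) * ((m : ℝ) + 1) :=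
      mul_le_mul_of_nonneg_right hsum hm1.le
    have h6 : (J₀.card * ‖B‖ + X.P.v (2 * m) * (1 / ((m : ℝ) + 1))) * ((m : ℝ) + 1) =
        ((m : ℝ) + 1) * J₀.card * ‖B‖ + X.P.v (2 * m) := by
      field_simp
    have h7 : ((m : ℝ) + 1) * J₀.card * ‖B‖ ≤ X.P.v (2 * m) * ‖B‖ :=
      mul_le_mul_of_nonneg_right hfew hB
    calc (∑ t, ‖I (B (F m t))‖) * ((m : ℝ) + 1) ≤ X.P.v (2 * m) * ‖B‖ + X.P.v (2 * m) := by
          rw [h6] at h5
          linarith
      _ = (‖B‖ + 1) * X.P.v (2 * m) := by ring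
  have hRK : R ∉ K := by
    intro hRK
    rw [hKm] at hRK
    have h1 := hRK (ContinuousLinearMap.id ℝ _)
    have h2 : ∀ m : ℕ, X.c ≤ (∑ t, ‖R ((ContinuousLinearMap.id ℝ (USp X.P.u (pE q))) (F m t))‖) /
        (X.P.v (2 * m) : ℝ) := by
      intro m
      have hv : (0 : ℝ) < X.P.v (2 * m) := by exact_mod_cast X.P.v_pos _
      rw [le_div_iff₀ hv]
      calc X.c * X.P.v (2 * m) = ∑ _t : Fin (X.P.v (2 * m)), X.c := by
            rw [Finset.sum_const, Finset.card_univ, Fintype.card_fin, nsmul_eq_mul, mul_comm]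
        _ ≤ _ := Finset.sum_le_sum fun t _ => ?_
      have h3 := hZ.c_le (R (F m t)) ⟨2 * m, t⟩
      rw [(hR (F m t)).1 m t] at h3
      have h4 : ∑ ω : Fin (X.D m), (X.st m).r t ω * fc X.P.u_pos (F m t) (pos X.D m ω) =
          ∑ ω, (X.st m).f t ω * (X.st m).r t ω := by
        refine Finset.sum_congr rfl fun ω _ => ?_
        have h5 : fc X.P.u_pos (F m t) (pos X.D m ω) = (X.st m).f t ω :=
          hJf m ((X.st m).f t) ω
        rw [h5, mul_comm]
      rw [h4] at h3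
      exact ((X.st m).pair t).trans ((le_abs_self _).trans h3)
    have h3 := ge_of_tendsto' h1 h2
    exact absurd h3 (not_le.2 X.c_pos)
  exact hRK (idealGen_le hK hIK hmem)

end Pool.Agent.Lib.MP_537232_an.PG
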