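import Pool.Agent.Lib.MP_537232_an.PG.SpecJ

set_option autoImplicit false

/-!
# MP_537232_an, PG/RowM: `R` belongs to the ideal of `T_M` (helper59)
-/

open scoped ENNReal Topology
open Filter Finset

namespace Pool.Agent.Lib.MP_537232_an.PG

open NM

namespace RowM

/-- Functions on the even blocks. -/
theorem exists_even {v : ℕ → ℕ} {α : Type} (G : ∀ m, Fin (v (2 * m)) → α) (d : α) :
    ∃ F : Ix v → α, (∀ m t, F ⟨2 * m, t⟩ = G m t) ∧ ∀ m t, F ⟨2 * m + 1, t⟩ = d := by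
  have h : ∀ μ : Ix v, ∃ a : α, (∀ m t, μ = ⟨2 * m, t⟩ → a = G m t) ∧
      ∀ m t, μ = ⟨2 * m + 1, t⟩ → a = d := by
    rintro ⟨n, t⟩
    rcases Nat.even_or_odd' n with ⟨m, rfl | rfl⟩
    · refine ⟨G m t, ?_, ?_⟩
      · intro m' t' h
        have h1 : 2 * m = 2 * m' := congrArg Sigma.fst h
        obtain rfl : m = m' := by omega
        have h2 : t = t' := by simpa using h
        rw [h2]
      · intro m' t' h
        have h1 : 2 * m = 2 * m' + 1 := congrArg Sigma.fst h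
        omega
    · refine ⟨d, ?_, fun _ _ _ => rfl⟩
      intro m' t' h
      have h1 : 2 * m + 1 = 2 * m' := congrArg Sigma.fst h
      omega
  choose F hF1 hF2 using h
  exact ⟨F, fun m t => hF1 _ m t rfl, fun m t => hF2 _ m t rfl⟩

section Z

variable {v : ℕ → ℕ} {Z : Type} [NormedAddCommGroup Z] [NormedSpace ℝ Z] (hZ : CoordSpace v Z)

/-- Weighted shuffles. -/
theorem exists_A (hM : MulSp hZ) (σ : Ix v → Option (Ix v))
    (hσ : ∀ ν, {μ | σ μ = some ν}.Finite) (cf : Ix v → ℝ) (K : ℝ) (hK : ∀ μ, |cf μ| ≤ K) :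
    ∃ A : Z →L[ℝ] Z, ∀ z μ, hZ.c (A z) μ = cf μ * (σ μ).elim 0 (hZ.c z) := by
  obtain ⟨S, hS1, hS2⟩ := hZ.exists_shuffle σ hσ
  have hK' : 0 < |K| + 1 := by positivity
  have hKc : ∀ μ, |cf μ| ≤ |K| + 1 := fun μ => by
    have := hK μ
    have h2 := le_abs_self K
    linarith
  obtain ⟨A, _, hA⟩ := hZ.exists_op (X := Z)
    { toFun := fun z μ => cf μ * hZ.c (S z) μ
      map_add' := fun x y => by
        funext μ
        rw [map_add, map_add]
        exact mul_add _ _ _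
      map_smul' := fun c x => by
        funext μ
        rw [map_smul, map_smul]
        show cf μ * (c * hZ.c (S x) μ) = c * (cf μ * hZ.c (S x) μ)
        ring } hK'.le (fun z μ => by
      show |cf μ * hZ.c (S z) μ| ≤ _
      rw [abs_mul]
      refine mul_le_mul (hKc μ) ?_ (abs_nonneg _) hK'.le
      refine (hZ.c_le _ μ).trans ?_
      calc ‖S z‖ ≤ ‖S‖ * ‖z‖ := S.le_opNorm z
        _ ≤ 1 * ‖z‖ := by gcongr
        _ = ‖z‖ := one_mul _) (fun z => by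
      obtain ⟨z', hz'⟩ := hM (fun μ => cf μ / (|K| + 1)) (fun μ => by
        rw [abs_div, abs_of_pos hK', div_le_one hK']
        exact hKc μ) (S z)
      refine ⟨(|K| + 1) • z', ?_⟩
      funext μ
      rw [map_smul]
      show (|K| + 1) * hZ.c z' μ = cf μ * hZ.c (S z) μ
      rw [hz']
      field_simp)
  refine ⟨A, fun z μ => ?_⟩
  rw [hA]
  show cf μ * hZ.c (S z) μ = _
  rw [hS2]

/-- Operators with finitely many coordinates. -/
theorem finite_mem' (h1 : S_Fr) {X : Type} [NormedAddCommGroup X] [NormedSpace ℝ X]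
    (T : X →L[ℝ] Z) (hT : T ≠ 0) (R : X →L[ℝ] Z) {n₀ : ℕ}
    (hR : ∀ x (ν : Ix v), n₀ ≤ ν.1 → hZ.c (R x) ν = 0) : R ∈ idealGen T := by
  classical
  have hfin : {ν : Ix v | ν.1 ∈ Set.Iio n₀}.Finite := finite_fst (Set.finite_Iio n₀)
  set s := hfin.toFinset with hs
  choose f hf using fun ν => hZ.exists_coord R ν
  have hz : ∀ ν : Ix v, ∃ z : Z, hZ.c z = fun μ => if μ = ν then (1 : ℝ) else 0 := by
    intro ν
    refine hZ.exists_of _ fun ε hε => (Set.finite_singleton ν).subset ?_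
    intro μ hμ
    simp only [Set.mem_ofPred_eq] at hμ
    split_ifs at hμ with h
    · exact h
    · rw [abs_zero] at hμ
      exact absurd hμ (not_le.2 hε)
  choose z hz using hz
  have hsum : R = ∑ ν ∈ s, (f ν).smulRight (z ν) := by
    ext x
    refine hZ.ext (funext fun μ => ?_)
    rw [_root_.sum_apply, map_sum, Finset.sum_apply]
    have h1 : ∀ ν ∈ s, hZ.c (((f ν).smulRight (z ν)) x) μ = if μ = ν then hZ.c (R x) ν else 0 := by
      intro ν _
      change hZ.c (f ν x • z ν) μ = _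
      rw [map_smul, hz]
      change f ν x * (if μ = ν then (1 : ℝ) else 0) = _
      rw [hf]
      split_ifs <;> simp
    rw [Finset.sum_congr rfl h1, Finset.sum_ite_eq]
    split_ifs with h2
    · rfl
    · refine hR x μ ?_
      by_contra h3
      exact h2 (hfin.mem_toFinset.2 (not_le.1 h3))
  rw [hsum]
  exact Submodule.sum_mem _ fun ν _ => h1 X Z T hT (f ν) (z ν)

end Z

theorem exps {q : ℝ} (hq : 1 < q) : q / (q - 1) / (q / (q - 1) - 1) = q ∧
    (q / (q - 1) - 1) / (q / (q - 1)) = 1 / q ∧ 1 / (q / (q - 1)) = (q - 1) / q ∧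
    1 < q / (q - 1) := by
  have h1 : 0 < q - 1 := by linarith
  have h0 : 0 < q := by linarith
  have h : q / (q - 1) - 1 = 1 / (q - 1) := by
    field_simp
    ring
  refine ⟨?_, ?_, ?_, ?_⟩
  · rw [h]
    field_simp
  · rw [h]
    field_simp
  · field_simp
  · rw [lt_div_iff₀ h1]
    linarith

theorem fun_bound (h2 : S_Fun) {q : ℝ} (hq : 1 < q) [Fact (1 ≤ pE q)] (u : ℕ → ℕ)
    (hu : ∀ n, 0 < u n) (D : ℕ → ℕ) (x : lp (E u) (pE q)) (m : ℕ) (f : Fin (D m) → ℝ) {η : ℝ}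
    (hη : 0 ≤ η) (hf : ∑ ω, |f ω| ^ q ≤ η ^ q) :
    |∑ ω, f ω * fc hu x (pos D m ω)| ≤ η * ‖x‖ := by
  obtain ⟨e1, e2, e3, e4⟩ := exps hq
  obtain ⟨a, -, b⟩ := h2 (q / (q - 1)) e4 u hu D x
  have h0 : 0 < q := by linarith
  have hr : 0 < q / (q - 1) := by linarith
  have b' := b m f
  rw [e1, e2] at b'
  refine b'.trans ?_
  have k1 : (∑ ω, |f ω| ^ q) ^ (1 / q) ≤ η := by
    calc (∑ ω, |f ω| ^ q) ^ (1 / q) ≤ (η ^ q) ^ (1 / q) :=
          Real.rpow_le_rpow (Finset.sum_nonneg fun ω _ => Real.rpow_nonneg (abs_nonneg _) _) hf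
            (by positivity)
      _ = η := by
          rw [← Real.rpow_mul hη, mul_one_div, div_self h0.ne', Real.rpow_one]
  have k2 : (∑ ω : Fin (D m), |fc hu x (pos D m ω)| ^ (q / (q - 1))) ^ (1 / (q / (q - 1))) ≤
      ‖x‖ := by
    have k3 := a {m}
    rw [Finset.sum_singleton] at k3
    calc (∑ ω : Fin (D m), |fc hu x (pos D m ω)| ^ (q / (q - 1))) ^ (1 / (q / (q - 1)))
        ≤ (‖x‖ ^ (q / (q - 1))) ^ (1 / (q / (q - 1))) :=
          Real.rpow_le_rpow (Finset.sum_nonneg fun ω _ => Real.rpow_nonneg (abs_nonneg _) _) k3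
            (by positivity)
      _ = ‖x‖ := by
          rw [← Real.rpow_mul (norm_nonneg _), mul_one_div, div_self hr.ne', Real.rpow_one]
  exact mul_le_mul k1 k2 (Real.rpow_nonneg (Finset.sum_nonneg fun ω _ =>
    Real.rpow_nonneg (abs_nonneg _) _) _) hη

/-- The block operators given by matrices. -/
theorem exists_B (h3 : S_Dua) (h4 : S_Opb) {q : ℝ} (hq : 1 < q) (hq2 : q < 2) [Fact (1 ≤ pE q)] (u : ℕ → ℕ)
    (hu : ∀ n, 0 < u n) (D b : ℕ → ℕ) (hb : Function.Injective b) (l : ℕ)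
    (B : ∀ m, Fin (u (b m)) → Fin (D m) → ℝ)
    (hB : ∀ m (a : Fin (u (b m)) → ℝ), ∑ ω, |∑ j, a j * B m j ω| ^ q ≤
      ((2 : ℝ) ^ (l + 1) * ∑ j, a j ^ 2) ^ (q / 2)) :
    ∃ Bo : lp (E u) (pE q) →L[ℝ] lp (E u) (pE q), ∀ x m (g : E u (b m)),
      inner ℝ (Bo x (b m)) g = ∑ ω, (∑ j, g j * B m j ω) * fc hu x (pos D m ω) := by
  obtain ⟨e1, e2, e3, e4⟩ := exps hq
  obtain ⟨A, hA⟩ : ∃ A : ∀ m, Fin (D m) → E u (b m), ∀ m ω (g : E u (b m)),
      inner ℝ (A m ω) g = ∑ j, g j * B m j ω := by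
    refine ⟨fun m ω => WithLp.toLp 2 fun j => B m j ω, fun m ω g => ?_⟩
    rw [PiLp.inner_apply]
    refine Finset.sum_congr rfl fun j _ => ?_
    simp
  obtain ⟨Bo, hBo⟩ := h4 (q / (q - 1)) e4 u hu D b A (Real.sqrt (2 ^ (l + 1))) hb
    (Real.sqrt_nonneg _) (fun m y => by
      rw [e3]
      refine h3 q hq hq2 (u (b m)) (D m) (A m) _ (Real.sqrt_nonneg _) (fun a => ?_) y
      simp only [hA]
      refine (hB m a).trans (le_of_eq ?_)
      have k1 : ‖a‖ ^ 2 = ∑ j, a j ^ 2 := by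
        rw [EuclideanSpace.norm_sq_eq]
        refine Finset.sum_congr rfl fun j _ => ?_
        rw [Real.norm_eq_abs, sq_abs]
      have k2 : (2 : ℝ) ^ (l + 1) * ∑ j, a j ^ 2 = (Real.sqrt (2 ^ (l + 1)) * ‖a‖) ^ 2 := by
        rw [mul_pow, Real.sq_sqrt (by positivity), k1]
      rw [k2, ← Real.rpow_natCast, ← Real.rpow_mul (by positivity)]
      congr 1
      push_cast
      ring)
  refine ⟨Bo, fun x m g => ?_⟩
  rw [hBo, sum_inner]
  refine Finset.sum_congr rfl fun ω _ => ?_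
  rw [real_inner_smul_left, hA, mul_comm]

end RowM

open RowM in
theorem wRowM (h1 : S_Fr) (h2 : S_Fun) (h3 : S_Dua) (h4 : S_Opb) : S_RowM := by
  classical
  intro q hq hq2 _ X Z _ _ hZ hM R hR M T hT b φ hb hbM hφ hAp
  have hT0 : T ≠ 0 := by
    intro h0
    set t₀ : Fin (X.P.v (b 0)) := ⟨0, X.P.v_pos _⟩
    have h5 := hT (lp.single (pE q) (b 0) (X.P.g (b 0) t₀)) ⟨b 0, t₀⟩
    rw [h0, if_pos (hbM 0), lp.single_apply_self, real_inner_self_eq_norm_sq, X.P.norm_g] at h5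
    simp at h5
  choose Bm hBm1 hBm2 using hAp
  refine (isClosedIdeal_idealGen T).mem_of_approx fun ε hε => ?_
  obtain ⟨i, hi⟩ := exists_nat_one_div_lt hε
  have hη : (0 : ℝ) ≤ 1 / ((i : ℝ) + 1) := by positivity
  -- coefficients
  have hc : ∀ m (t : Fin (X.P.v (2 * m))), ∃ c : Fin (X.L i) → ℝ, (∀ l, |c l| ≤ |X.Cc i|) ∧
      (i ≤ m → ∑ ω, |(X.st m).r t ω - ∑ l, c l * ∑ j, X.P.g (b m) (φ m t) j * Bm m l j ω| ^ q ≤
        (1 / ((i : ℝ) + 1)) ^ q) := by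
    intro m t
    by_cases him : i ≤ m
    · obtain ⟨c, hc1, hc2⟩ := hBm2 m i him t
      exact ⟨c, fun l => (hc1 l).trans (le_abs_self _), fun _ => hc2⟩
    · exact ⟨0, fun l => by simp, fun h => absurd h him⟩
  choose c hc1 hc2 using hc
  obtain ⟨σ, hσ1, hσ2⟩ := exists_even (v := X.P.v)
    (fun m t => if i ≤ m then some (⟨b m, φ m t⟩ : Ix X.P.v) else none) none
  have hσfin : ∀ ν, {μ | σ μ = some ν}.Finite := by
    intro ν
    refine Set.Subsingleton.finite ?_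
    have key : ∀ μ, σ μ = some ν → ∃ m t, μ = ⟨2 * m, t⟩ ∧ ν = ⟨b m, φ m t⟩ := by
      rintro ⟨n, t⟩ hμ
      rcases Nat.even_or_odd' n with ⟨m, rfl | rfl⟩
      · rw [hσ1] at hμ
        split_ifs at hμ with h
        exact ⟨m, t, rfl, (Option.some.inj hμ).symm⟩
      · rw [hσ2] at hμ
        exact absurd hμ.symm (Option.some_ne_none ν)
    intro μ hμ μ' hμ'
    obtain ⟨m, t, rfl, h5⟩ := key μ hμ
    obtain ⟨m', t', rfl, h6⟩ := key μ' hμ'
    rw [h5] at h6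
    have h7 : b m = b m' := congrArg Sigma.fst h6
    obtain rfl := hb h7
    have h8 : φ m t = φ m t' := by simpa using h6
    rw [hφ m h8]
  have hcf : ∀ l : Fin (X.L i), ∃ cf : Ix X.P.v → ℝ, (∀ m t, cf ⟨2 * m, t⟩ = c m t l) ∧
      ∀ μ, |cf μ| ≤ |X.Cc i| := by
    intro l
    obtain ⟨cf, k1, k2⟩ := exists_even (v := X.P.v) (fun m t => c m t l) (0 : ℝ)
    refine ⟨cf, k1, ?_⟩
    rintro ⟨n, t⟩
    rcases Nat.even_or_odd' n with ⟨m, rfl | rfl⟩
    · rw [k1]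
      exact hc1 m t l
    · rw [k2, abs_zero]
      exact abs_nonneg _
  choose cf hcf1 hcf2 using hcf
  choose A hA using fun l : Fin (X.L i) => exists_A hZ hM σ hσfin (cf l) _ (hcf2 l)
  choose Bo hBo using fun l : Fin (X.L i) => exists_B h3 h4 hq hq2 X.P.u X.P.u_pos X.D b hb l
    (fun m => Bm m l) (fun m a => hBm1 m l a)
  obtain ⟨S1, hS1⟩ : ∃ S1 : USp X.P.u (pE q) →L[ℝ] Z,
      S1 = ∑ l, ((A l).comp T).comp (Bo l) := ⟨_, rfl⟩
  have hS1m : S1 ∈ idealGen T := by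
    rw [hS1]
    exact Submodule.sum_mem _ fun l _ =>
      (isClosedIdeal_idealGen _).comp _ _ _ (mem_idealGen _)
  have hS1c : ∀ x μ, hZ.c (S1 x) μ =
      ∑ l, cf l μ * (σ μ).elim 0 (hZ.c (T (Bo l x))) := by
    intro x μ
    rw [hS1, _root_.sum_apply, map_sum, Finset.sum_apply]
    refine Finset.sum_congr rfl fun l _ => ?_
    exact hA l (T (Bo l x)) μ
  have hSe : ∀ x m (t : Fin (X.P.v (2 * m))), i ≤ m → hZ.c (S1 x) ⟨2 * m, t⟩ =
      ∑ ω : Fin (X.D m), (∑ l, c m t l * ∑ j, X.P.g (b m) (φ m t) j * Bm m l j ω) *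
        fc X.P.u_pos x (pos X.D m ω) := by
    intro x m t him
    rw [hS1c, hσ1, if_pos him]
    have k1 : ∀ l, cf l ⟨2 * m, t⟩ * (some (⟨b m, φ m t⟩ : Ix X.P.v)).elim 0
        (hZ.c (T (Bo l x))) = ∑ ω : Fin (X.D m),
        (c m t l * ∑ j, X.P.g (b m) (φ m t) j * Bm m l j ω) * fc X.P.u_pos x (pos X.D m ω) := by
      intro l
      rw [Option.elim_some, hT, if_pos (hbM m), hBo, hcf1, Finset.mul_sum]
      refine Finset.sum_congr rfl fun ω _ => ?_
      rw [mul_assoc]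
    rw [Finset.sum_congr rfl fun l _ => k1 l, Finset.sum_comm]
    refine Finset.sum_congr rfl fun ω _ => ?_
    rw [Finset.sum_mul]
  have hSo : ∀ x m (t : Fin (X.P.v (2 * m + 1))), hZ.c (S1 x) ⟨2 * m + 1, t⟩ = 0 := by
    intro x m t
    rw [hS1c, hσ2]
    simp
  obtain ⟨R1, hR1⟩ : ∃ R1 : USp X.P.u (pE q) →L[ℝ] Z, R1 = R - S1 := ⟨_, rfl⟩
  have hR1c : ∀ x μ, hZ.c (R1 x) μ = hZ.c (R x) μ - hZ.c (S1 x) μ := by
    intro x μ
    rw [hR1, sub_apply, map_sub]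
    rfl
  have hbd : ∀ x (μ : Ix X.P.v), 2 * i ≤ μ.1 → |hZ.c (R1 x) μ| ≤ 1 / ((i : ℝ) + 1) * ‖x‖ := by
    rintro x ⟨n, t⟩ hn
    rcases Nat.even_or_odd' n with ⟨m, rfl | rfl⟩
    · have him : i ≤ m := by
        have : 2 * i ≤ 2 * m := hn
        omega
      rw [hR1c, (hR x).1, hSe x m t him, ← Finset.sum_sub_distrib]
      have k1 : ∀ ω : Fin (X.D m), (X.st m).r t ω * fc X.P.u_pos x (pos X.D m ω) -
          (∑ l, c m t l * ∑ j, X.P.g (b m) (φ m t) j * Bm m l j ω) *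
            fc X.P.u_pos x (pos X.D m ω) =
          ((X.st m).r t ω - ∑ l, c m t l * ∑ j, X.P.g (b m) (φ m t) j * Bm m l j ω) *
            fc X.P.u_pos x (pos X.D m ω) := fun ω => (sub_mul _ _ _).symm
      rw [Finset.sum_congr rfl fun ω _ => k1 ω]
      exact fun_bound h2 hq X.P.u X.P.u_pos X.D x m _ hη (hc2 m t him)
    · rw [hR1c, (hR x).2, hSo, sub_zero, abs_zero]
      positivity
  obtain ⟨Q, hQ1, hQ2⟩ := exists_coordProj X.P hZ {μ | 2 * i ≤ μ.1}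
  refine ⟨R - Q.comp R1, ?_, ?_⟩
  · have k1 : R - Q.comp R1 = S1 + (R1 - Q.comp R1) := by
      rw [hR1]
      abel
    rw [k1]
    refine Submodule.add_mem _ hS1m ?_
    refine finite_mem' hZ h1 T hT0 _ (n₀ := 2 * i) fun x ν hν => ?_
    rw [sub_apply, map_sub, Pi.sub_apply]
    change hZ.c (R1 x) ν - hZ.c (Q (R1 x)) ν = 0
    rw [hQ2, if_pos (show ν ∈ {μ : Ix X.P.v | 2 * i ≤ μ.1} from hν), sub_self]
  · rw [sub_sub_cancel]
    refine le_trans (ContinuousLinearMap.opNorm_le_bound _ hη fun x => ?_) hi.le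
    refine hZ.le_of _ _ (by positivity) fun ν => ?_
    change |hZ.c (Q (R1 x)) ν| ≤ _
    rw [hQ2]
    split_ifs with h
    · exact hbd x ν h
    · rw [abs_zero]
      positivity

end Pool.Agent.Lib.MP_537232_an.PG
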