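import Pool.Agent.Lib.MP_537232_an.PG.SpecJ

set_option autoImplicit false

open scoped ENNReal Topology
open Filter Finset

namespace Pool.Agent.Lib.MP_537232_an.PG

open NM

theorem wRowR (h1 : S_Fun) : S_RowR := by
  intro q hq hq2 _ X Z _ _ hZ
  classical
  set r : ℝ := q / (q - 1) with hr
  have hq1 : 0 < q - 1 := by linarith
  have hr1 : 1 < r := by
    rw [hr, lt_div_iff₀ hq1]
    linarith
  have hr0 : 0 < r := by linarith
  have hrr : r / (r - 1) = q := by
    rw [hr]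
    field_simp
    ring
  have hrq : (r - 1) / r = 1 / q := by
    rw [hr]
    field_simp
    ring
  have hFun := fun x : lp (E X.P.u) (ENNReal.ofReal r) => h1 r hr1 X.P.u X.P.u_pos X.D x
  let row : ∀ m, Fin (X.P.v (2 * m)) → (USp X.P.u (pE q) →ₗ[ℝ] ℝ) := fun m t =>
    { toFun := fun x => ∑ ω : Fin (X.D m), (X.st m).r t ω * fc X.P.u_pos x (pos X.D m ω)
      map_add' := fun x y => by
        rw [← Finset.sum_add_distrib]
        refine Finset.sum_congr rfl fun ω _ => ?_
        rw [← mul_add]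
        rfl
      map_smul' := fun c x => by
        rw [RingHom.id_apply, smul_eq_mul, Finset.mul_sum]
        refine Finset.sum_congr rfl fun ω _ => ?_
        rw [mul_left_comm]
        rfl }
  have hrow : ∀ m t (x : USp X.P.u (pE q)),
      |row m t x| ≤ (∑ ω : Fin (X.D m), |fc X.P.u_pos x (pos X.D m ω)| ^ r) ^ (1 / r) := by
    intro m t x
    have h2 := (hFun x).2.2 m ((X.st m).r t)
    rw [hrr, hrq] at h2
    refine h2.trans ?_
    have h3 : (∑ ω, |(X.st m).r t ω| ^ q) ^ (1 / q) ≤ 1 := by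
      refine Real.rpow_le_one (Finset.sum_nonneg fun ω _ => Real.rpow_nonneg (abs_nonneg _) _)
        ((X.st m).r_norm t) (by positivity)
    have h4 : (0 : ℝ) ≤ (∑ ω : Fin (X.D m), |fc X.P.u_pos x (pos X.D m ω)| ^ r) ^ (1 / r) :=
      Real.rpow_nonneg (Finset.sum_nonneg fun ω _ => Real.rpow_nonneg (abs_nonneg _) _) _
    exact mul_le_of_le_one_left h4 h3
  have hrow1 : ∀ m t (x : USp X.P.u (pE q)), |row m t x| ≤ 1 * ‖x‖ := by
    intro m t x
    refine (hrow m t x).trans ?_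
    have h2 := (hFun x).1 {m}
    rw [Finset.sum_singleton] at h2
    rw [one_mul]
    calc (∑ ω : Fin (X.D m), |fc X.P.u_pos x (pos X.D m ω)| ^ r) ^ (1 / r) ≤ (‖x‖ ^ r) ^ (1 / r) :=
          Real.rpow_le_rpow (Finset.sum_nonneg fun ω _ => Real.rpow_nonneg (abs_nonneg _) _) h2 (by positivity)
      _ = ‖x‖ := by
          rw [← Real.rpow_mul (norm_nonneg _), mul_one_div_cancel hr0.ne', Real.rpow_one]
  have hex : ∀ n, ∃ ρ : Fin (X.P.v n) → (USp X.P.u (pE q) →ₗ[ℝ] ℝ),
      (∀ m (h : 2 * m = n) (t : Fin (X.P.v (2 * m))), ρ (h ▸ t) = row m t) ∧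
      (∀ m, 2 * m + 1 = n → ρ = 0) ∧
      (∀ t (x : USp X.P.u (pE q)), |ρ t x| ≤ 1 * ‖x‖) ∧
      ∀ t (x : USp X.P.u (pE q)), |ρ t x| ≤
        (∑ ω : Fin (X.D (n / 2)), |fc X.P.u_pos x (pos X.D (n / 2) ω)| ^ r) ^ (1 / r) := by
    intro n
    obtain ⟨m, hm | hm⟩ := Nat.even_or_odd' n
    · subst hm
      refine ⟨row m, fun m' h' t => ?_, fun m' h' => ?_, hrow1 m, fun t x => ?_⟩
      · have : m' = m := by omega
        subst this
        rfl
      · omega
      · have : 2 * m / 2 = m := by omega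
        rw [this]
        exact hrow m t x
    · subst hm
      refine ⟨0, fun m' h' => ?_, fun m' h' => rfl, fun t x => ?_, fun t x => ?_⟩
      · omega
      · simp
      · have h4 : (0 : ℝ) ≤ (∑ ω : Fin (X.D ((2 * m + 1) / 2)),
            |fc X.P.u_pos x (pos X.D ((2 * m + 1) / 2) ω)| ^ r) ^ (1 / r) :=
          Real.rpow_nonneg (Finset.sum_nonneg fun ω _ => Real.rpow_nonneg (abs_nonneg _) _) _
        simpa using h4
  choose ρ hρ1 hρ2 hρ3 hρ4 using hex
  obtain ⟨R, -, hR⟩ := hZ.exists_op (X := USp X.P.u (pE q))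
    { toFun := fun x ν => ρ ν.1 ν.2 x
      map_add' := fun x y => by
        funext ν
        exact map_add _ _ _
      map_smul' := fun c x => by
        funext ν
        exact map_smul _ _ _ } zero_le_one (fun x ν => hρ3 ν.1 ν.2 x) (fun x => by
      refine hZ.exists_of _ fun ε hε => ?_
      have h2 := (hFun x).2.1
      have h3 : ∀ᶠ m in atTop, ∑ ω : Fin (X.D m), |fc X.P.u_pos x (pos X.D m ω)| ^ r < ε ^ r :=
        h2.eventually (gt_mem_nhds (Real.rpow_pos_of_pos hε _))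
      obtain ⟨m₀, hm₀⟩ := eventually_atTop.1 h3
      refine (finite_fst (w := X.P.v) (s := Set.Iio (2 * m₀)) (Set.finite_Iio _)).subset ?_
      intro ν hν
      simp only [Set.mem_ofPred_eq, Set.mem_Iio] at hν ⊢
      by_contra hcon
      have h5 : m₀ ≤ ν.1 / 2 := by omega
      have h6 := hm₀ _ h5
      have h7 : ε ≤ (∑ ω : Fin (X.D (ν.1 / 2)), |fc X.P.u_pos x (pos X.D (ν.1 / 2) ω)| ^ r) ^ (1 / r) :=
        hν.trans (hρ4 ν.1 ν.2 x)
      have h8 := Real.rpow_le_rpow hε.le h7 hr0.le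
      rw [← Real.rpow_mul (Finset.sum_nonneg fun ω _ => Real.rpow_nonneg (abs_nonneg _) _),
        one_div_mul_cancel hr0.ne', Real.rpow_one] at h8
      linarith)
  refine ⟨R, fun x => ⟨fun m t => ?_, fun m t => ?_⟩⟩
  · rw [hR]
    change ρ (2 * m) t x = _
    have := hρ1 (2 * m) m rfl t
    simp only at this
    rw [this]
    rfl
  · rw [hR]
    change ρ (2 * m + 1) t x = _
    rw [hρ2 (2 * m + 1) m rfl]
    rfl

end Pool.Agent.Lib.MP_537232_an.PG
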