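import Pool.Agent.Lib.MP_537232_an.PG.SpecA

set_option autoImplicit false
set_option linter.unusedSectionVars false

/-!
# MP_537232_an, directory PG: the functions `R_D`
-/

open Finset

namespace Pool.Agent.Lib.MP_537232_an.PG

section

variable {K E : Type} [Field K] [Field E] [Fintype K] [Fintype E] [Algebra K E] [CharP E 2]
  {Ψ : AddChar E ℝ}

private theorem rsm_one (h2 : S_Chs) (hΨ : Ψ ≠ 1) (D : E →ₗ[K] E) (c d : E) :
    ∑ v, ∑ w, Ψ (w * (D v + d) + c * v) = Fintype.card E * Rd K Ψ D c d := by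
  classical
  obtain ⟨-, c2, -⟩ := h2 E Ψ hΨ
  unfold Rd
  rw [Finset.mul_sum]
  refine Finset.sum_congr rfl fun v _ => ?_
  have h3 : ∀ w, Ψ (w * (D v + d) + c * v) = Ψ ((D v + d) * w) * Ψ (c * v) := by
    intro w
    rw [AddChar.map_add_eq_mul, mul_comm w]
  rw [Finset.sum_congr rfl fun w _ => h3 w, ← Finset.sum_mul]
  by_cases h4 : D v = d
  · rw [if_pos h4]
    have h5 : D v + d = 0 := by rw [h4, CharTwo.add_self_eq_zero]
    rw [h5]
    simp
  · rw [if_neg h4, mul_zero]
    have h5 : D v + d ≠ 0 := by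
      intro h6
      apply h4
      have h7 : D v = -d := eq_neg_of_add_eq_zero_left h6
      rw [h7, CharTwo.neg_eq]
    rw [c2 _ h5, zero_mul]

private theorem rsm_add (D D' : E →ₗ[K] E) (v : E) : (D + D') v = 0 ↔ D v = D' v := by
  rw [LinearMap.add_apply]
  constructor
  · intro h
    have h1 := eq_neg_of_add_eq_zero_left h
    rw [h1, CharTwo.neg_eq]
  · intro h
    rw [h, CharTwo.add_self_eq_zero]

open Classical in
private theorem rsm_two (h1 : S_Ker) (h2 : S_Chs) (hΨ : Ψ ≠ 1) (D D' : E →ₗ[K] E) :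
    ∑ c, ∑ d, Rd K Ψ D c d * Rd K Ψ D' c d =
      Fintype.card E * (Fintype.card K : ℝ) ^ cr K (D + D') := by
  obtain ⟨-, c2, -⟩ := h2 E Ψ hΨ
  have hk := (h1 K E (D + D')).1
  have e1 : ∀ c d, Rd K Ψ D c d * Rd K Ψ D' c d = ∑ v, ∑ v',
      if D v = d ∧ D' v' = d then Ψ ((v + v') * c) else 0 := by
    intro c d
    unfold Rd
    rw [Finset.sum_mul_sum]
    refine Finset.sum_congr rfl fun v _ => Finset.sum_congr rfl fun v' _ => ?_
    by_cases h3 : D v = d <;> by_cases h4 : D' v' = d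
    · rw [if_pos h3, if_pos h4, if_pos ⟨h3, h4⟩, ← AddChar.map_add_eq_mul]
      congr 1
      ring
    · rw [if_pos h3, if_neg h4, if_neg (fun h => h4 h.2), mul_zero]
    · rw [if_neg h3, if_pos h4, if_neg (fun h => h3 h.1), zero_mul]
    · rw [if_neg h3, if_neg h4, if_neg (fun h => h3 h.1), zero_mul]
  have e2 : ∀ c, ∑ d, Rd K Ψ D c d * Rd K Ψ D' c d = ∑ v, ∑ v',
      if D v = D' v' then Ψ ((v + v') * c) else 0 := by
    intro c
    rw [Finset.sum_congr rfl fun d _ => e1 c d, Finset.sum_comm]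
    refine Finset.sum_congr rfl fun v _ => ?_
    rw [Finset.sum_comm]
    refine Finset.sum_congr rfl fun v' _ => ?_
    by_cases h3 : D v = D' v'
    · rw [if_pos h3, Finset.sum_eq_single (D v)]
      · rw [if_pos ⟨rfl, h3.symm⟩]
      · intro d _ hd
        rw [if_neg (fun h => hd h.1.symm)]
      · intro h
        exact absurd (Finset.mem_univ _) h
    · rw [if_neg h3]
      refine Finset.sum_eq_zero fun d _ => ?_
      rw [if_neg (fun h => h3 (h.1.trans h.2.symm))]
  rw [Finset.sum_congr rfl fun c _ => e2 c, Finset.sum_comm]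
  have e3 : ∀ v, ∑ c, ∑ v', (if D v = D' v' then Ψ ((v + v') * c) else 0) =
      if D v = D' v then (Fintype.card E : ℝ) else 0 := by
    intro v
    rw [Finset.sum_comm, Finset.sum_eq_single v]
    · by_cases h3 : D v = D' v
      · rw [if_pos h3, Finset.sum_congr rfl fun c _ => if_pos h3]
        have h4 : ∀ c : E, Ψ ((v + v) * c) = 1 := by
          intro c
          rw [CharTwo.add_self_eq_zero, zero_mul, AddChar.map_zero_eq_one]
        rw [Finset.sum_congr rfl fun c _ => h4 c]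
        simp
      · rw [if_neg h3, Finset.sum_congr rfl fun c _ => if_neg h3]
        simp
    · intro v' _ hv'
      by_cases h3 : D v = D' v'
      · rw [Finset.sum_congr rfl fun c _ => if_pos h3]
        refine c2 _ fun h4 => hv' ?_
        have h5 := eq_neg_of_add_eq_zero_left h4
        rw [h5, CharTwo.neg_eq]
      · rw [Finset.sum_congr rfl fun c _ => if_neg h3]
        simp
    · intro h
      exact absurd (Finset.mem_univ _) h
  rw [Finset.sum_congr rfl fun v _ => e3 v, ← Finset.sum_filter, Finset.sum_const, nsmul_eq_mul]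
  have e4 : (univ.filter fun v => D v = D' v) = univ.filter fun v => (D + D') v = 0 := by
    ext v
    rw [Finset.mem_filter, Finset.mem_filter, rsm_add]
  rw [e4, hk]
  push_cast
  ring

open Classical in
private theorem rsm_three (h1 : S_Ker) (h2 : S_Chs) (hΨ : Ψ ≠ 1) (D : E →ₗ[K] E) (c d : E) :
    Rd K Ψ D c d = 0 ∨ |Rd K Ψ D c d| = (Fintype.card K : ℝ) ^ cr K D := by
  obtain ⟨c1, -, -⟩ := h2 E Ψ hΨ
  have hk := (h1 K E D).1
  by_cases h3 : ∃ v₀, D v₀ = d
  · obtain ⟨v₀, hv₀⟩ := h3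
    have e1 : Rd K Ψ D c d = Ψ (c * v₀) * ∑ v, if D v = 0 then Ψ (c * v) else 0 := by
      unfold Rd
      rw [Finset.mul_sum, ← Equiv.sum_comp (Equiv.addLeft v₀)]
      refine Finset.sum_congr rfl fun v _ => ?_
      rw [Equiv.coe_addLeft, map_add, hv₀]
      by_cases h4 : D v = 0
      · rw [if_pos (by rw [h4, add_zero]), if_pos h4, mul_add, AddChar.map_add_eq_mul]
      · rw [if_neg (fun h => h4 (by simpa using h)), if_neg h4, mul_zero]
    by_cases h4 : ∃ k₀, D k₀ = 0 ∧ Ψ (c * k₀) ≠ 1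
    · left
      obtain ⟨k₀, hk₀, hk1⟩ := h4
      have e2 : (∑ v, if D v = 0 then Ψ (c * v) else 0) =
          Ψ (c * k₀) * ∑ v, if D v = 0 then Ψ (c * v) else 0 := by
        rw [Finset.mul_sum]
        conv_lhs => rw [← Equiv.sum_comp (Equiv.addLeft k₀)]
        refine Finset.sum_congr rfl fun v _ => ?_
        rw [Equiv.coe_addLeft, map_add, hk₀, zero_add]
        by_cases h4 : D v = 0
        · rw [if_pos h4, if_pos h4, mul_add, AddChar.map_add_eq_mul]
        · rw [if_neg h4, if_neg h4, mul_zero]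
      have e3 : (∑ v, if D v = 0 then Ψ (c * v) else 0) = 0 := by
        by_contra hne
        exact hk1 ((mul_eq_right₀ hne).mp e2.symm)
      rw [e1, e3, mul_zero]
    · right
      push Not at h4
      have e2 : (∑ v, if D v = 0 then Ψ (c * v) else 0) = (Fintype.card K : ℝ) ^ cr K D := by
        have e3 : ∀ v, (if D v = 0 then Ψ (c * v) else 0) = if D v = 0 then (1 : ℝ) else 0 := by
          intro v
          by_cases h5 : D v = 0
          · rw [if_pos h5, if_pos h5, h4 v h5]
          · rw [if_neg h5, if_neg h5]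
        rw [Finset.sum_congr rfl fun v _ => e3 v, Finset.sum_boole, hk]
        push_cast
        rfl
      rw [e1, e2, abs_mul]
      have e3 : |Ψ (c * v₀)| = 1 := by
        rcases c1 (c * v₀) with h5 | h5 <;> rw [h5] <;> norm_num
      rw [e3, one_mul]
      exact abs_of_nonneg (by positivity)
  · left
    unfold Rd
    refine Finset.sum_eq_zero fun v _ => ?_
    rw [if_neg (fun h => h3 ⟨v, h⟩)]

private theorem rsm_four (h2 : S_Chs) (hΨ : Ψ ≠ 1) (D : E →ₗ[K] E) (hD : Function.Injective D)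
    (c d : E) : |Rd K Ψ D c d| = 1 := by
  classical
  obtain ⟨c1, -, -⟩ := h2 E Ψ hΨ
  obtain ⟨v₀, hv₀⟩ := (Finite.injective_iff_surjective.mp hD) d
  have e1 : Rd K Ψ D c d = Ψ (c * v₀) := by
    unfold Rd
    rw [Finset.sum_eq_single v₀]
    · rw [if_pos hv₀]
    · intro v _ hv
      rw [if_neg (fun h => hv (hD (h.trans hv₀.symm)))]
    · intro h
      exact absurd (Finset.mem_univ _) h
  rw [e1]
  rcases c1 (c * v₀) with h5 | h5 <;> rw [h5] <;> norm_num

end

theorem wRsm (h1 : S_Ker) (h2 : S_Chs) : S_Rsm := by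
  intro K E _ _ _ _ _ _ Ψ hΨ D D'
  refine ⟨fun c d => rsm_one h2 hΨ D c d, rsm_two h1 h2 hΨ D D', fun c d => rsm_three h1 h2 hΨ D c d,
    fun hD c d => rsm_four h2 hΨ D hD c d, fun q hq => ?_⟩
  have hK : (0 : ℝ) < (Fintype.card K : ℝ) ^ cr K D := by
    have : 0 < Fintype.card K := Fintype.card_pos
    positivity
  have e1 : ∀ c d, |Rd K Ψ D c d| ^ q =
      ((Fintype.card K : ℝ) ^ cr K D) ^ (q - 2) * (Rd K Ψ D c d * Rd K Ψ D c d) := by
    intro c d
    rcases rsm_three h1 h2 hΨ D c d with h3 | h3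
    · rw [h3, abs_zero, Real.zero_rpow hq.ne']
      ring
    · rw [← abs_mul_abs_self, h3, Real.rpow_sub hK]
      have h4 : ((Fintype.card K : ℝ) ^ cr K D) ^ (2 : ℝ) =
          (Fintype.card K : ℝ) ^ cr K D * (Fintype.card K : ℝ) ^ cr K D := by
        rw [Real.rpow_two, sq]
      rw [h4]
      field_simp
  simp only [e1, ← Finset.mul_sum]
  rw [rsm_two h1 h2 hΨ D D]
  have e2 : D + D = 0 := by
    ext v
    rw [LinearMap.add_apply, CharTwo.add_self_eq_zero, LinearMap.zero_apply]
  have e3 := (h1 K E D).2.2.1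
  rw [e2]
  have e4 : (Fintype.card K : ℝ) ^ cr K (0 : E →ₗ[K] E) = Fintype.card E := by
    rw [← e3]
    push_cast
    rfl
  rw [e4]
  ring

end Pool.Agent.Lib.MP_537232_an.PG
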