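import Pool.Agent.Lib.MP_537232_an.PG.SpecA

/-! # Sif: the sites, in numbers -/

set_option linter.unusedVariables false

namespace Pool.Agent.Lib.MP_537232_an.PG

open Finset Pool.Agent.Lib.MP_537232_an

theorem wSif (h1 : S_Fld) (h2 : S_Sit) (h3 : S_Tra) : S_Sif := by
  intro q h ρ t e N hq hq2 hh hρ hρe he hN
  obtain ⟨K, E, _, _, _, _, _, _, Ψ, hΨ, hK, hE⟩ := h1 e N (by omega) (by omega)
  have h32 : 32 ≤ Fintype.card K := by
    rw [hK]
    calc 32 = 2 ^ 5 := by norm_num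
      _ ≤ 2 ^ e := Nat.pow_le_pow_right (by norm_num) he
  have hW : 2 * Fintype.card K ^ ρ ≤ Fintype.card E := by
    rw [hK, hE, ← pow_mul, ← pow_succ']
    refine Nat.pow_le_pow_right (by norm_num) ?_
    calc e * ρ + 1 ≤ e * ρ + e := by omega
      _ = e * (ρ + 1) := by ring
      _ ≤ e * N := Nat.mul_le_mul_left e hN
  have h4 := h2 K E Ψ hΨ q h ρ t hq hq2 hh hρ (by rw [hK]; exact hρe) h32 hW
  have h5 := h3 q _ _ _ _ _ _ _ _ h4 ((2 ^ (e * N)) ^ (2 * h)) ((2 ^ (e * N)) ^ (2 * ρ + 2 * h))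
    ((2 ^ (e * N)) ^ (t + 1)) (by
      rw [Fintype.card_fun, Fintype.card_prod, Fintype.card_fin, hE, ← pow_two, ← pow_mul _ 2 h]) (by
      rw [Fintype.card_prod, Fintype.card_fun, Fintype.card_fun, Fintype.card_prod, Fintype.card_fin,
        Fintype.card_fin, hE, ← pow_two, ← pow_mul _ 2 h, ← pow_add]) (by
      rw [Fintype.card_fun, Fintype.card_fin, hE])
  have e1 : (Fintype.card K : ℝ) = 2 ^ e := by rw [hK]; push_cast; rfl
  have e2 : (Fintype.card E : ℝ) = 2 ^ (e * N) := by rw [hE]; push_cast; rfl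
  rw [e1, e2] at h5
  exact h5

end Pool.Agent.Lib.MP_537232_an.PG
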