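import Pool.Agent.Lib.MP_537232_an.PG.SpecA

set_option autoImplicit false

/-!
# MP_537232_an, directory PG: the site (`S_Sit`)
-/

open Finset

namespace Pool.Agent.Lib.MP_537232_an.PG

namespace Sit

section

variable (K : Type) {E : Type} [Field K] [Field E] [Fintype K] [Fintype E] [Algebra K E]

/-- the product of the `R_D` -/
noncomputable def P (Ψ : AddChar E ℝ) {h : ℕ} (D : E →ₗ[K] E) (z : Fin h → E × E) : ℝ :=
  ∏ i, Rd K Ψ D (z i).1 (z i).2

end

theorem card_O (E : Type) [Fintype E] (R h : ℕ) :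
    (Fintype.card ((Fin R → E) × (Fin h → E × E)) : ℝ) =
      (Fintype.card E : ℝ) ^ R * ((Fintype.card E : ℝ) * Fintype.card E) ^ h := by
  classical
  rw [Fintype.card_prod, Fintype.card_fun, Fintype.card_fun, Fintype.card_fin, Fintype.card_fin,
    Fintype.card_prod]
  push_cast
  ring

theorem sum_O {E : Type} [Fintype E] {R h : ℕ} (F : (Fin R → E) → (Fin h → E × E) → ℝ) :
    ∑ ω : (Fin R → E) × (Fin h → E × E), F ω.1 ω.2 = ∑ b, ∑ z, F b z := by
  classical
  rw [Fintype.sum_prod_type]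

/-- characteristic 2 -/
theorem add_self_map {K E : Type} [Field K] [Field E] [Algebra K E] [CharP E 2] (D : E →ₗ[K] E) :
    D + D = 0 := by
  ext v
  simp [CharTwo.add_self_eq_zero]

theorem add_add_cancel_map {K E : Type} [Field K] [Field E] [Algebra K E] [CharP E 2]
    (A A' B : E →ₗ[K] E) : (A + B) + (A' + B) = A + A' := by
  have : (A + B) + (A' + B) = A + A' + (B + B) := by abel
  rw [this, add_self_map, add_zero]

end Sit

open Sit

theorem wSit (h1 : S_Lqa) (h2 : S_Ker) (h3 : S_Gmb) (h4 : S_Orb) (h5 : S_Crk) (h6 : S_Smm)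
    (h7 : S_Sta) (h8 : S_Stb) : S_Sit := by
  intro K E _ _ _ _ _ _ Ψ hΨ q h m t hq1 hq2 hh hm hmQ hQ hW
  classical
  obtain ⟨t1, t2, t3, t4, t5⟩ := h7 K E Ψ hΨ h t (2 * m)
  have hq0 : 0 < q := by linarith
  -- the numbers
  set Q : ℝ := (Fintype.card K : ℝ) with hQdef
  set W : ℝ := (Fintype.card E : ℝ) with hWdef
  have hQ32 : (32 : ℝ) ≤ Q := by rw [hQdef]; exact_mod_cast hQ
  have hQ0 : 0 < Q := by linarith
  have hW0 : 0 < W := by rw [hWdef]; exact_mod_cast Fintype.card_pos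
  -- the kernels
  have kinj : ∀ D : E →ₗ[K] E, cr K D = 0 ↔ Function.Injective D := fun D => (h2 K E D).2.1
  have kzero : Q ^ cr K (0 : E →ₗ[K] E) = W := by
    rw [hQdef, hWdef]
    exact_mod_cast (h2 K E 0).2.2.1
  have kle : ∀ D : E →ₗ[K] E, Q ^ cr K D ≤ W := fun D => by
    rw [← kzero]
    exact pow_le_pow_right₀ (by linarith) (h2 K E D).2.2.2
  have kadd : ∀ a a' : Fin (t + 1) → E, a ≠ a' → cr K (Lq K a + Lq K a') ≤ t := by
    intro a a' ha
    rw [← (h1 K E (t + 1) a a').2.1]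
    refine ((h1 K E (t + 1) (a + a') 0).2.2 ?_).trans (by omega)
    intro h0
    apply ha
    have : a = -a' := eq_neg_of_add_eq_zero_left h0
    rw [this]
    funext i
    simp [CharTwo.neg_eq]
  -- the functions
  let D : (Fin (t + 1) → E) → (Fin (2 * m) → E) → (E →ₗ[K] E) := fun a b => Lq K a + Lq K b
  let gam : (Fin (t + 1) → E) → (Fin (2 * m) → E) × (Fin h → E × E) → ℝ :=
    fun a ω => gm K Ψ m (D a ω.1)
  let ind : (Fin (t + 1) → E) → (Fin (2 * m) → E) × (Fin h → E × E) → ℝ :=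
    fun a ω => if Function.Injective (D a ω.1) then 1 else 0
  have hr : ∀ a ω, rr (sx K Ψ h) (sM K Ψ h) a ω = P K Ψ (D a ω.1) ω.2 := fun a ω => t5 a ω
  have p1 : ∀ D₁ D₂ : E →ₗ[K] E, ∑ z : Fin h → E × E, P K Ψ D₁ z * P K Ψ D₂ z =
      (W * Q ^ cr K (D₁ + D₂)) ^ h := fun D₁ D₂ => (h8 K E Ψ hΨ h D₁ D₂).1
  have p2 : ∀ D₁ : E →ₗ[K] E, ∑ z : Fin h → E × E, |P K Ψ D₁ z| ^ q =
      (W ^ 2 * (Q ^ cr K D₁) ^ (q - 2)) ^ h := fun D₁ => (h8 K E Ψ hΨ h D₁ D₁).2.1 q hq0
  have p3 : ∀ D₁ : E →ₗ[K] E, Function.Injective D₁ → ∀ z : Fin h → E × E, |P K Ψ D₁ z| = 1 :=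
    fun D₁ => (h8 K E Ψ hΨ h D₁ D₁).2.2
  have hcard := card_O E (2 * m) h
  rw [← hWdef] at hcard
  -- the number of the `b` with an injective map
  have hcnt : ∀ a : Fin (t + 1) → E,
      W ^ (2 * m) * (1 - 2 / Q) ≤
        ∑ b : Fin (2 * m) → E, if Function.Injective (D a b) then (1 : ℝ) else 0 := by
    intro a
    have c1 := (h5 K E (2 * m) (Lq K a)).2 (by omega)
    have c2 : ∑ b : Fin (2 * m) → E, (if Function.Injective (D a b) then (1 : ℝ) else 0) =
        W ^ (2 * m) - ((univ.filter fun b : Fin (2 * m) → E => 1 ≤ cr K (Lq K a + Lq K b)).card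
          : ℝ) := by
      have c3 : ∀ b : Fin (2 * m) → E, (if Function.Injective (D a b) then (1 : ℝ) else 0) =
          1 - if 1 ≤ cr K (Lq K a + Lq K b) then (1 : ℝ) else 0 := by
        intro b
        by_cases hb : Function.Injective (D a b)
        · have : cr K (Lq K a + Lq K b) = 0 := (kinj _).mpr hb
          rw [if_pos hb, if_neg (by omega), sub_zero]
        · have : cr K (Lq K a + Lq K b) ≠ 0 := fun h0 => hb ((kinj _).mp h0)
          rw [if_neg hb, if_pos (by omega), sub_self]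
      rw [Finset.sum_congr rfl fun b _ => c3 b, Finset.sum_sub_distrib, ← Finset.sum_filter]
      simp [hWdef]
    rw [c2]
    have c4 : ((univ.filter fun b : Fin (2 * m) → E => 1 ≤ cr K (Lq K a + Lq K b)).card : ℝ) *
        (Q - 1) ≤ W ^ (2 * m) := by
      have := (Nat.cast_le (α := ℝ)).mpr c1
      rw [Nat.cast_mul, Nat.cast_sub (by omega), Nat.cast_pow, Nat.cast_one] at this
      exact this
    have c5 : ((univ.filter fun b : Fin (2 * m) → E => 1 ≤ cr K (Lq K a + Lq K b)).card : ℝ) ≤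
        W ^ (2 * m) * (2 / Q) := by
      have hn : (0 : ℝ) ≤
          ((univ.filter fun b : Fin (2 * m) → E => 1 ≤ cr K (Lq K a + Lq K b)).card : ℝ) :=
        Nat.cast_nonneg _
      rw [mul_div_assoc', le_div_iff₀ hQ0]
      nlinarith
    linarith
  have hind_mean : ∀ a, (Fintype.card ((Fin (2 * m) → E) × (Fin h → E × E)) : ℝ) *
      (1 - 2 / Q) ≤ ∑ ω, ind a ω := by
    intro a
    have e1 : ∑ ω, ind a ω = (W * W) ^ h *
        ∑ b : Fin (2 * m) → E, if Function.Injective (D a b) then (1 : ℝ) else 0 := by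
      rw [sum_O (fun b _ => if Function.Injective (D a b) then (1 : ℝ) else 0), Finset.mul_sum]
      refine Finset.sum_congr rfl fun b _ => ?_
      rw [Finset.sum_const, nsmul_eq_mul, Finset.card_univ, Fintype.card_fun, Fintype.card_fin,
        Fintype.card_prod]
      push_cast
      ring
    rw [e1, hcard]
    have := mul_le_mul_of_nonneg_left (hcnt a) (by positivity : (0 : ℝ) ≤ (W * W) ^ h)
    linarith
  have hind01 : ∀ a ω, ind a ω = 0 ∨ ind a ω = 1 ∧ |rr (sx K Ψ h) (sM K Ψ h) a ω| = 1 := by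
    intro a ω
    by_cases hi : Function.Injective (D a ω.1)
    · right
      refine ⟨if_pos hi, ?_⟩
      rw [hr]
      exact p3 _ hi _
    · left
      exact if_neg hi
  refine ⟨⟨sx K Ψ h, sM K Ψ h, gam, ind, t1, t2, t3, t4, ?_, ?_, ?_, ?_, hind01, hind_mean, ?_⟩⟩
  · -- app
    intro a
    have e1 : ∀ ω : (Fin (2 * m) → E) × (Fin h → E × E),
        |rr (sx K Ψ h) (sM K Ψ h) a ω - gam a ω * rr (sx K Ψ h) (sM K Ψ h) a ω| ^ q =
          |1 - gm K Ψ m (D a ω.1)| ^ q * |P K Ψ (D a ω.1) ω.2| ^ q := by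
      intro ω
      rw [hr, ← Real.mul_rpow (abs_nonneg _) (abs_nonneg _), ← abs_mul]
      congr 2
      ring
    rw [Finset.sum_congr rfl fun ω _ => e1 ω,
      sum_O (fun b z => |1 - gm K Ψ m (D a b)| ^ q * |P K Ψ (D a b) z| ^ q)]
    have e2 : ∀ b : Fin (2 * m) → E, ∑ z : Fin h → E × E,
        |1 - gm K Ψ m (D a b)| ^ q * |P K Ψ (D a b) z| ^ q =
        (W * W) ^ h * (|1 - gm K Ψ m (Lq K a + Lq K b)| ^ q *
          (Q ^ cr K (Lq K a + Lq K b)) ^ (-(h * (2 - q)))) := by
      intro b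
      rw [← Finset.mul_sum, p2]
      have e3 : (W ^ 2 * (Q ^ cr K (D a b)) ^ (q - 2)) ^ h =
          (W * W) ^ h * (Q ^ cr K (Lq K a + Lq K b)) ^ (-(h * (2 - q))) := by
        rw [mul_pow, ← Real.rpow_mul_natCast (by positivity), pow_two]
        congr 2
        ring
      rw [e3]
      ring
    rw [Finset.sum_congr rfl fun b _ => e2 b, ← Finset.mul_sum, hcard]
    have e4 := h6 K E Ψ hΨ q h m hq1 hq2 hh hm hmQ hQ hW (Lq K a)
    have e5 := mul_le_mul_of_nonneg_left e4 (by positivity : (0 : ℝ) ≤ (W * W) ^ h)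
    refine e5.trans (le_of_eq ?_)
    ring
  · -- f_low
    intro a
    have e1 : ∑ ω, ind a ω ≤ ∑ ω, (gam a ω * rr (sx K Ψ h) (sM K Ψ h) a ω) ^ 2 := by
      refine Finset.sum_le_sum fun ω _ => ?_
      rcases hind01 a ω with h0 | ⟨h0, h1'⟩
      · rw [h0]
        positivity
      · have hi : Function.Injective (D a ω.1) := by
          by_contra hn
          have : ind a ω = 0 := if_neg hn
          rw [this] at h0
          exact one_ne_zero h0.symm
        have hg : gam a ω = 1 := (h3 K E Ψ hΨ m hm hmQ hW (D a ω.1)).1 ((kinj _).mpr hi)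
        rw [h0, hg, one_mul, ← sq_abs, h1']
        norm_num
    refine le_trans ?_ ((hind_mean a).trans e1)
    have e2 : (1 : ℝ) / 2 ≤ 1 - 2 / Q := by
      have : 2 / Q ≤ 1 / 2 := by
        rw [div_le_div_iff₀ hQ0 (by norm_num)]
        linarith
      linarith
    have e3 : (0 : ℝ) ≤ (Fintype.card ((Fin (2 * m) → E) × (Fin h → E × E)) : ℝ) :=
      Nat.cast_nonneg _
    have := mul_le_mul_of_nonneg_left e2 e3
    linarith
  · -- f_up
    intro a
    have e1 : ∀ ω : (Fin (2 * m) → E) × (Fin h → E × E),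
        (gam a ω * rr (sx K Ψ h) (sM K Ψ h) a ω) ^ 2 =
          gm K Ψ m (D a ω.1) ^ 2 * (P K Ψ (D a ω.1) ω.2 * P K Ψ (D a ω.1) ω.2) := by
      intro ω
      rw [hr]
      ring
    rw [Finset.sum_congr rfl fun ω _ => e1 ω,
      sum_O (fun b z => gm K Ψ m (D a b) ^ 2 * (P K Ψ (D a b) z * P K Ψ (D a b) z))]
    have e2 : ∀ b : Fin (2 * m) → E, ∑ z : Fin h → E × E,
        gm K Ψ m (D a b) ^ 2 * (P K Ψ (D a b) z * P K Ψ (D a b) z) =
        (W * W) ^ h * gm K Ψ m (Lq K a + Lq K b) ^ 2 := by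
      intro b
      rw [← Finset.mul_sum, p1, add_self_map, kzero]
      ring
    rw [Finset.sum_congr rfl fun b _ => e2 b, ← Finset.mul_sum, hcard]
    have e4 := (h4 K E Ψ hΨ m t hm hmQ hW (Lq K a) (Lq K a)).1
    have e5 := mul_le_mul_of_nonneg_left e4 (by positivity : (0 : ℝ) ≤ (W * W) ^ h)
    refine e5.trans (le_of_eq ?_)
    ring
  · -- f_cross
    intro a a' haa
    have e1 : ∀ ω : (Fin (2 * m) → E) × (Fin h → E × E),
        gam a ω * rr (sx K Ψ h) (sM K Ψ h) a ω * (gam a' ω * rr (sx K Ψ h) (sM K Ψ h) a' ω) =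
          (gm K Ψ m (D a ω.1) * gm K Ψ m (D a' ω.1)) *
            (P K Ψ (D a ω.1) ω.2 * P K Ψ (D a' ω.1) ω.2) := by
      intro ω
      rw [hr, hr]
      ring
    rw [Finset.sum_congr rfl fun ω _ => e1 ω,
      sum_O (fun b z => (gm K Ψ m (D a b) * gm K Ψ m (D a' b)) *
            (P K Ψ (D a b) z * P K Ψ (D a' b) z))]
    have e2 : ∀ b : Fin (2 * m) → E, ∑ z : Fin h → E × E,
        (gm K Ψ m (D a b) * gm K Ψ m (D a' b)) * (P K Ψ (D a b) z * P K Ψ (D a' b) z) =
        (W * Q ^ cr K (Lq K a + Lq K a')) ^ h *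
          (gm K Ψ m (Lq K a + Lq K b) * gm K Ψ m (Lq K a' + Lq K b)) := by
      intro b
      rw [← Finset.mul_sum, p1, add_add_cancel_map]
      ring
    rw [Finset.sum_congr rfl fun b _ => e2 b, ← Finset.mul_sum, hcard, abs_mul]
    have e4 := (h4 K E Ψ hΨ m t hm hmQ hW (Lq K a) (Lq K a')).2 (kadd a a' haa)
    have e5 : |(W * Q ^ cr K (Lq K a + Lq K a')) ^ h| ≤ (W * W) ^ h := by
      rw [abs_of_nonneg (by positivity)]
      exact pow_le_pow_left₀ (by positivity) (mul_le_mul_of_nonneg_left (kle _) hW0.le) h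
    refine (mul_le_mul e5 e4 (abs_nonneg _) (by positivity)).trans (le_of_eq ?_)
    ring
  · -- ind_cross
    intro a a' haa
    have e1 : ∀ ω : (Fin (2 * m) → E) × (Fin h → E × E),
        ind a ω * rr (sx K Ψ h) (sM K Ψ h) a ω * (ind a' ω * rr (sx K Ψ h) (sM K Ψ h) a' ω) =
          ((if Function.Injective (D a ω.1) then (1 : ℝ) else 0) *
            (if Function.Injective (D a' ω.1) then (1 : ℝ) else 0)) *
            (P K Ψ (D a ω.1) ω.2 * P K Ψ (D a' ω.1) ω.2) := by
      intro ω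
      rw [hr, hr]
      ring
    rw [Finset.sum_congr rfl fun ω _ => e1 ω,
      sum_O (fun b z => ((if Function.Injective (D a b) then (1 : ℝ) else 0) *
            (if Function.Injective (D a' b) then (1 : ℝ) else 0)) *
            (P K Ψ (D a b) z * P K Ψ (D a' b) z))]
    have e2 : ∀ b : Fin (2 * m) → E, ∑ z : Fin h → E × E,
        ((if Function.Injective (D a b) then (1 : ℝ) else 0) *
            (if Function.Injective (D a' b) then (1 : ℝ) else 0)) *
            (P K Ψ (D a b) z * P K Ψ (D a' b) z) =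
        (W * Q ^ cr K (Lq K a + Lq K a')) ^ h *
          ((if Function.Injective (D a b) then (1 : ℝ) else 0) *
            (if Function.Injective (D a' b) then (1 : ℝ) else 0)) := by
      intro b
      rw [← Finset.mul_sum, p1, add_add_cancel_map]
      ring
    rw [Finset.sum_congr rfl fun b _ => e2 b, ← Finset.mul_sum, hcard, abs_mul]
    have e5 : |(W * Q ^ cr K (Lq K a + Lq K a')) ^ h| ≤ (W * Q ^ t) ^ h := by
      rw [abs_of_nonneg (by positivity)]
      refine pow_le_pow_left₀ (by positivity) (mul_le_mul_of_nonneg_left ?_ hW0.le) h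
      exact pow_le_pow_right₀ (by linarith) (kadd a a' haa)
    have e6 : |∑ b : Fin (2 * m) → E, ((if Function.Injective (D a b) then (1 : ℝ) else 0) *
            (if Function.Injective (D a' b) then (1 : ℝ) else 0))| ≤ W ^ (2 * m) := by
      refine (Finset.abs_sum_le_sum_abs _ _).trans ?_
      refine (Finset.sum_le_sum (g := fun _ => (1 : ℝ)) fun b _ => ?_).trans (le_of_eq ?_)
      · split_ifs <;> simp
      · simp [hWdef]
    refine (mul_le_mul e5 e6 (abs_nonneg _) (by positivity)).trans (le_of_eq ?_)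
    rw [div_pow, mul_pow, mul_pow]
    field_simp

end Pool.Agent.Lib.MP_537232_an.PG
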