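import Pool.Agent.Lib.MP_537232_an.PG.SpecA

set_option autoImplicit false

/-!
# MP_537232_an, directory PG, module Smm: the `L_q`-estimate
-/

open Finset

namespace Pool.Agent.Lib.MP_537232_an.PG

/-- The `L_q`-estimate. -/
theorem wSmm (h1 : S_Ker) (h2 : S_Gmb) (h3 : S_Crk) (h4 : S_Nse) : S_Smm := by
  intro K E _ _ _ _ _ _ Ψ hΨ q h m hq1 hq2 hh hm1 hmK hK32 hKE A
  have hQ32 : (32 : ℝ) ≤ (Fintype.card K : ℝ) := by exact_mod_cast hK32
  have hG := h2 K E Ψ hΨ m hm1 hmK hKE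
  have hC := (h3 K E (2 * m) A).1
  have hN := h4 q h m (cr K (0 : E →ₗ[K] E)) (Fintype.card K : ℝ) hq1 hq2 hh hm1 hQ32
  have hcn : ∀ b : Fin (2 * m) → E, cr K (A + Lq K b) ≤ cr K (0 : E →ₗ[K] E) :=
    fun b => (h1 K E (A + Lq K b)).2.2.2
  generalize hQ : (Fintype.card K : ℝ) = Q at *
  generalize hW : (Fintype.card E : ℝ) = W at *
  have hQpos : 0 < Q := by linarith
  have hWnn : 0 ≤ W := by rw [← hW]; positivity
  set n : ℕ := cr K (0 : E →ₗ[K] E) with hn
  set c : (Fin (2 * m) → E) → ℕ := fun b => cr K (A + Lq K b) with hc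
  set T : ℕ → ℝ := fun k => (1 + 2 * ((k : ℝ) + 1) *
    Q ^ ((k : ℝ) * ((min k (2 * m) : ℕ) + 3) / 2)) ^ q * (Q ^ k) ^ (-(h * (2 - q))) with hT
  have hT0 : ∀ k, 0 ≤ T k := by
    intro k
    have : 0 ≤ 1 + 2 * ((k : ℝ) + 1) * Q ^ ((k : ℝ) * ((min k (2 * m) : ℕ) + 3) / 2) := by
      have := Real.rpow_nonneg hQpos.le ((k : ℝ) * ((min k (2 * m) : ℕ) + 3) / 2)
      positivity
    exact mul_nonneg (Real.rpow_nonneg this _) (Real.rpow_nonneg (pow_nonneg hQpos.le _) _)
  -- the terms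
  have hterm0 : ∀ b, c b = 0 →
      |1 - gm K Ψ m (A + Lq K b)| ^ q * (Q ^ c b) ^ (-(h * (2 - q))) = 0 := by
    intro b hb
    rw [(hG (A + Lq K b)).1 hb, sub_self, abs_zero, Real.zero_rpow (by linarith), zero_mul]
  have hterm1 : ∀ b, 1 ≤ c b →
      |1 - gm K Ψ m (A + Lq K b)| ^ q * (Q ^ c b) ^ (-(h * (2 - q))) ≤ T (c b) := by
    intro b hb
    refine mul_le_mul_of_nonneg_right ?_ (Real.rpow_nonneg (pow_nonneg hQpos.le _) _)
    refine Real.rpow_le_rpow (abs_nonneg _) ?_ (by linarith)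
    have h5 := (hG (A + Lq K b)).2 hb
    have h6 : |1 - gm K Ψ m (A + Lq K b)| ≤ 1 + |gm K Ψ m (A + Lq K b)| := by
      have := abs_sub (1 : ℝ) (gm K Ψ m (A + Lq K b))
      rwa [abs_one] at this
    linarith
  -- the number of the terms
  have hcard : ∀ k, 1 ≤ k → (((univ.filter fun b => c b ≠ 0).filter fun b => c b = k).card : ℝ) ≤
      W ^ (2 * m) * (Q ^ ((k - 1) * min k (2 * m)))⁻¹ := by
    intro k hk
    have h5 := hC k (min k (2 * m)) (min_le_left _ _) (min_le_right _ _)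
    have h6 : ((univ.filter fun b => c b ≠ 0).filter fun b => c b = k).card ≤
        (univ.filter fun b : Fin (2 * m) → E => k ≤ cr K (A + Lq K b)).card := by
      apply Finset.card_le_card
      intro b hb
      rw [mem_filter, mem_filter] at hb
      rw [mem_filter]
      exact ⟨mem_univ _, hb.2.ge⟩
    have h7 : ((univ.filter fun b : Fin (2 * m) → E => k ≤ cr K (A + Lq K b)).card : ℝ) *
        Q ^ ((k - 1) * min k (2 * m)) ≤ W ^ (2 * m) := by
      rw [← hQ, ← hW]
      exact_mod_cast h5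
    have h8 : (((univ.filter fun b => c b ≠ 0).filter fun b => c b = k).card : ℝ) ≤
        ((univ.filter fun b : Fin (2 * m) → E => k ≤ cr K (A + Lq K b)).card : ℝ) := by
      exact_mod_cast h6
    have h9 : 0 < Q ^ ((k - 1) * min k (2 * m)) := pow_pos hQpos _
    rw [← div_eq_mul_inv, le_div_iff₀ h9]
    exact (mul_le_mul_of_nonneg_right h8 h9.le).trans h7
  calc ∑ b : Fin (2 * m) → E, |1 - gm K Ψ m (A + Lq K b)| ^ q *
        (Q ^ cr K (A + Lq K b)) ^ (-(h * (2 - q)))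
      = ∑ b ∈ univ.filter (fun b => c b ≠ 0), |1 - gm K Ψ m (A + Lq K b)| ^ q *
        (Q ^ c b) ^ (-(h * (2 - q))) := by
        symm
        apply Finset.sum_subset (Finset.filter_subset _ _)
        intro b _ hb
        rw [mem_filter, not_and, not_not] at hb
        exact hterm0 b (hb (mem_univ b))
    _ ≤ ∑ b ∈ univ.filter (fun b => c b ≠ 0), T (c b) := by
        refine Finset.sum_le_sum fun b hb => ?_
        rw [mem_filter] at hb
        exact hterm1 b (Nat.one_le_iff_ne_zero.2 hb.2)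
    _ = ∑ k ∈ Icc 1 n, ∑ b ∈ (univ.filter fun b => c b ≠ 0).filter (fun b => c b = k),
          T (c b) := by
        symm
        apply Finset.sum_fiberwise_of_maps_to
        intro b hb
        rw [mem_filter] at hb
        exact mem_Icc.2 ⟨Nat.one_le_iff_ne_zero.2 hb.2, hcn b⟩
    _ ≤ ∑ k ∈ Icc 1 n, W ^ (2 * m) * ((Q ^ ((k - 1) * min k (2 * m)))⁻¹ * T k) := by
        refine Finset.sum_le_sum fun k hk => ?_
        have h5 : ∑ b ∈ (univ.filter fun b => c b ≠ 0).filter (fun b => c b = k), T (c b) =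
            (((univ.filter fun b => c b ≠ 0).filter fun b => c b = k).card : ℝ) * T k := by
          rw [Finset.sum_congr rfl (fun b hb => by rw [(mem_filter.1 hb).2]), Finset.sum_const,
            nsmul_eq_mul]
        rw [h5]
        exact (mul_le_mul_of_nonneg_right (hcard k (mem_Icc.1 hk).1) (hT0 k)).trans
          (le_of_eq (mul_assoc _ _ _))
    _ = W ^ (2 * m) * ∑ k ∈ Icc 1 n, (Q ^ ((k - 1) * min k (2 * m)))⁻¹ * T k := by
        rw [Finset.mul_sum]
    _ ≤ W ^ (2 * m) * (1 / Q) := mul_le_mul_of_nonneg_left hN (pow_nonneg hWnn _)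
    _ = W ^ (2 * m) / Q := by rw [mul_one_div]

end Pool.Agent.Lib.MP_537232_an.PG
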