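import Pool.Agent.Lib.MP_537232_an.PG.SpecA

set_option autoImplicit false
set_option linter.unusedSectionVars false

/-!
# MP_537232_an, directory PG: the linear part of the site
-/

open Finset

namespace Pool.Agent.Lib.MP_537232_an.PG

section

variable {K E : Type} [Field K] [Field E] [Fintype K] [Fintype E] [Algebra K E] [CharP E 2]
  {Ψ : AddChar E ℝ}

private theorem sta_sum {α : Type} [Fintype α] (h : ℕ) (g : Fin h → α → ℝ) :
    ∑ j : Fin h → α, ∏ i, g i (j i) = ∏ i, ∑ a, g i a := by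
  classical
  rw [Finset.prod_univ_sum, Fintype.piFinset_univ]

private theorem sta_ne {a b : E} (h : a ≠ b) : a + b ≠ 0 := by
  intro h1
  apply h
  have h2 := eq_neg_of_add_eq_zero_left h1
  rw [h2, CharTwo.neg_eq]

private theorem sta_sq (h3 : S_Chs) (hΨ : Ψ ≠ 1) (x : E) : Ψ x * Ψ x = 1 := by
  rcases (h3 E Ψ hΨ).1 x with h | h <;> rw [h] <;> norm_num

open Classical in
private theorem sta_ker (h2 : S_Ker) (h3 : S_Chs) (hΨ : Ψ ≠ 1) (L : E →ₗ[K] E) :
    ∑ z : E × E, Ψ (z.2 * L z.1) = Fintype.card E * (Fintype.card K : ℝ) ^ cr K L := by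
  rw [Fintype.sum_prod_type]
  have e1 : ∀ v, ∑ w, Ψ (w * L v) = if L v = 0 then (Fintype.card E : ℝ) else 0 := by
    intro v
    by_cases h : L v = 0
    · rw [if_pos h, h]
      simp
    · rw [if_neg h]
      have h4 := (h3 E Ψ hΨ).2.1 _ h
      rw [← h4]
      exact Finset.sum_congr rfl fun w _ => by rw [mul_comm]
  rw [Finset.sum_congr rfl fun v _ => e1 v, ← Finset.sum_filter, Finset.sum_const, nsmul_eq_mul,
    (h2 K E L).1]
  push_cast
  ring

end

theorem wSta (h1 : S_Lqa) (h2 : S_Ker) (h3 : S_Chs) (h4 : S_Rsm) : S_Sta := by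
  classical
  intro K E _ _ _ _ _ _ Ψ hΨ h t R
  have hW : (0 : ℝ) < Fintype.card E := by
    have : 0 < Fintype.card E := Fintype.card_pos
    positivity
  have hsq : ∀ x, Ψ x * Ψ x = 1 := sta_sq h3 hΨ
  have hcard : (Fintype.card (Fin h → E × E) : ℝ) = ((Fintype.card E : ℝ) ^ h) ^ 2 := by
    rw [Fintype.card_fun, Fintype.card_fin, Fintype.card_prod]
    push_cast
    ring
  refine ⟨fun a => ?_, fun a a' haa => ?_, fun j => ?_, fun j j' hjj => ?_, fun a ω => ?_⟩
  · have e1 : ∀ j : Fin h → E × E, sx K Ψ h a j ^ 2 = (((Fintype.card E : ℝ) ^ h)⁻¹) ^ 2 := by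
      intro j
      unfold sx
      rw [mul_pow]
      have e2 : (∏ i, Ψ ((j i).2 * Lq K a (j i).1)) ^ 2 = 1 := by
        rw [sq, ← Finset.prod_mul_distrib]
        exact Finset.prod_eq_one fun i _ => hsq _
      rw [e2, mul_one]
    rw [Finset.sum_congr rfl fun j _ => e1 j, Finset.sum_const, Finset.card_univ, nsmul_eq_mul,
      hcard]
    field_simp
  · have e1 : ∀ j : Fin h → E × E, sx K Ψ h a j * sx K Ψ h a' j =
        (((Fintype.card E : ℝ) ^ h)⁻¹) ^ 2 * ∏ i, Ψ ((j i).2 * Lq K (a + a') (j i).1) := by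
      intro j
      unfold sx
      have e2 : ∏ i, Ψ ((j i).2 * Lq K (a + a') (j i).1) =
          (∏ i, Ψ ((j i).2 * Lq K a (j i).1)) * ∏ i, Ψ ((j i).2 * Lq K a' (j i).1) := by
        rw [← Finset.prod_mul_distrib]
        refine Finset.prod_congr rfl fun i _ => ?_
        rw [← AddChar.map_add_eq_mul, (h1 K E (t + 1) a a').2.1, LinearMap.add_apply]
        congr 1
        ring
      rw [e2]
      ring
    rw [Finset.sum_congr rfl fun j _ => e1 j, ← Finset.mul_sum,
      sta_sum h (fun _ (z : E × E) => Ψ (z.2 * Lq K (a + a') z.1)), Finset.prod_const, Finset.card_univ,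
      Fintype.card_fin, sta_ker h2 h3 hΨ]
    have hne : a + a' ≠ 0 := by
      intro h5
      apply haa
      funext i
      have h6 := congrFun h5 i
      by_contra h7
      exact sta_ne h7 h6
    have hcr := (h1 K E (t + 1) (a + a') 0).2.2 hne
    rw [Nat.add_sub_cancel] at hcr
    have hK : (1 : ℝ) ≤ Fintype.card K := by
      have : 1 ≤ Fintype.card K := Fintype.card_pos
      exact_mod_cast this
    have e3 : (Fintype.card K : ℝ) ^ cr K (Lq K (a + a')) ≤ (Fintype.card K : ℝ) ^ t :=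
      pow_le_pow_right₀ hK hcr
    have e4 : (((Fintype.card E : ℝ) ^ h)⁻¹) ^ 2 *
        (Fintype.card E * (Fintype.card K : ℝ) ^ cr K (Lq K (a + a'))) ^ h =
        ((Fintype.card K : ℝ) ^ cr K (Lq K (a + a')) / Fintype.card E) ^ h := by
      rw [mul_pow, div_pow]
      field_simp
    rw [e4, abs_of_nonneg (by positivity)]
    refine pow_le_pow_left₀ (by positivity) ?_ h
    exact div_le_div_of_nonneg_right e3 hW.le
  · have e1 : ∀ ω : (Fin R → E) × (Fin h → E × E), sM K Ψ h j ω * sM K Ψ h j ω = 1 := by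
      intro ω
      unfold sM
      rw [← Finset.prod_mul_distrib]
      exact Finset.prod_eq_one fun i _ => hsq _
    rw [Finset.sum_congr rfl fun ω _ => e1 ω]
    simp
  · rw [Fintype.sum_prod_type]
    refine Finset.sum_eq_zero fun b _ => ?_
    obtain ⟨i₀, hi₀⟩ : ∃ i, j i ≠ j' i := by
      by_contra hcon
      push Not at hcon
      exact hjj (funext hcon)
    have e1 : ∀ z : Fin h → E × E, sM K Ψ h j (b, z) * sM K Ψ h j' (b, z) =
        ∏ i, (Ψ ((j i).2 * Lq K b (j i).1 + (j' i).2 * Lq K b (j' i).1) *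
          (Ψ (((j i).1 + (j' i).1) * (z i).1) * Ψ (((j i).2 + (j' i).2) * (z i).2))) := by
      intro z
      unfold sM
      rw [← Finset.prod_mul_distrib]
      refine Finset.prod_congr rfl fun i _ => ?_
      rw [← AddChar.map_add_eq_mul, ← AddChar.map_add_eq_mul, ← AddChar.map_add_eq_mul]
      congr 1
      ring
    rw [Finset.sum_congr rfl fun z _ => e1 z, sta_sum h (fun i (z : E × E) =>
      Ψ ((j i).2 * Lq K b (j i).1 + (j' i).2 * Lq K b (j' i).1) *
          (Ψ (((j i).1 + (j' i).1) * z.1) * Ψ (((j i).2 + (j' i).2) * z.2)))]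
    refine Finset.prod_eq_zero (Finset.mem_univ i₀) ?_
    rw [← Finset.mul_sum, Fintype.sum_prod_type]
    simp only [← Finset.mul_sum, ← Finset.sum_mul]
    by_cases h5 : (j i₀).1 = (j' i₀).1
    · have h6 : (j i₀).2 ≠ (j' i₀).2 := fun h6 => hi₀ (Prod.ext h5 h6)
      rw [(h3 E Ψ hΨ).2.1 _ (sta_ne h6)]
      simp
    · rw [(h3 E Ψ hΨ).2.1 _ (sta_ne h5)]
      simp
  · unfold rr
    have e1 : ∀ j : Fin h → E × E, sx K Ψ h a j * sM K Ψ h j ω = ((Fintype.card E : ℝ) ^ h)⁻¹ *
        ∏ i, Ψ ((j i).2 * ((Lq K a + Lq K ω.1) (j i).1 + (ω.2 i).2) + (ω.2 i).1 * (j i).1) := by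
      intro j
      unfold sx sM
      rw [mul_assoc, ← Finset.prod_mul_distrib]
      congr 1
      refine Finset.prod_congr rfl fun i _ => ?_
      rw [← AddChar.map_add_eq_mul, LinearMap.add_apply]
      congr 1
      ring
    rw [Finset.sum_congr rfl fun j _ => e1 j, ← Finset.mul_sum, sta_sum h (fun i (z : E × E) =>
      Ψ (z.2 * ((Lq K a + Lq K ω.1) z.1 + (ω.2 i).2) + (ω.2 i).1 * z.1))]
    have e2 : ∀ i, ∑ z : E × E, Ψ (z.2 * ((Lq K a + Lq K ω.1) z.1 + (ω.2 i).2) + (ω.2 i).1 * z.1) =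
        Fintype.card E * Rd K Ψ (Lq K a + Lq K ω.1) (ω.2 i).1 (ω.2 i).2 := by
      intro i
      rw [Fintype.sum_prod_type]
      exact (h4 K E Ψ hΨ (Lq K a + Lq K ω.1) 0).1 _ _
    rw [Finset.prod_congr rfl fun i _ => e2 i, Finset.prod_mul_distrib, Finset.prod_const,
      Finset.card_univ, Fintype.card_fin, ← mul_assoc, inv_mul_cancel₀ (by positivity), one_mul]

end Pool.Agent.Lib.MP_537232_an.PG
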