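import Pool.Agent.Lib.MP_537232_an.PG.SpecA

set_option autoImplicit false

/-!
# MP_537232_an, PG, module Stb: sums of products of `R_D`
-/

open Finset

namespace Pool.Agent.Lib.MP_537232_an.PG

private theorem stbPow {A : Type} [Fintype A] (g : A × A → ℝ) (h : ℕ) :
    ∑ z : Fin h → A × A, ∏ i, g (z i) = (∑ c, ∑ d, g (c, d)) ^ h := by
  rw [← Fintype.sum_prod_type, Fintype.sum_pow]

theorem wStb (h1 : S_Rsm) : S_Stb := by
  intro K E _ _ _ _ _ _ Ψ hΨ h D D'
  obtain ⟨-, h2, -, h4, h5⟩ := h1 K E Ψ hΨ D D'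
  refine ⟨?_, fun q hq => ?_, fun hD z => ?_⟩
  · rw [← h2]
    have h6 := stbPow (fun x : E × E => Rd K Ψ D x.1 x.2 * Rd K Ψ D' x.1 x.2) h
    rw [← h6]
    refine Finset.sum_congr rfl fun z _ => ?_
    rw [Finset.prod_mul_distrib]
  · rw [← h5 q hq]
    have h6 := stbPow (fun x : E × E => |Rd K Ψ D x.1 x.2| ^ q) h
    rw [← h6]
    refine Finset.sum_congr rfl fun z _ => ?_
    rw [Finset.abs_prod, Real.finsetProd_rpow _ _ (fun i _ => abs_nonneg _)]
  · rw [Finset.abs_prod]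
    exact Finset.prod_eq_one fun i _ => h4 hD _ _

end Pool.Agent.Lib.MP_537232_an.PG
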