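import Pool.Agent.Lib.MP_537232_an.PG.SpecA

set_option autoImplicit false

open Finset

namespace Pool.Agent.Lib.MP_537232_an.PG

namespace Sym

variable {K E : Type} [Field K] [Field E] [Fintype K] [Fintype E] [Algebra K E]

theorem key (h1 : S_Moo) (m : ℕ) (y y' φ φ' : Fin m → E)
    (h : ∀ i < 2 * m, ∑ j, φ j * y j ^ (Fintype.card K ^ i) + ∑ j, φ' j * y' j ^ (Fintype.card K ^ i) = 0)
    (D : E →ₗ[K] E) : ∑ j, φ j * D (y j) + ∑ j, φ' j * D (y' j) = 0 := by
  have h2 := (h1 K E).2 (2 * m) (m + m) (Fin.append y y') (Fin.append φ φ') (by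
    unfold rk
    have := finrank_range_le_card (R := K) (Fin.append y y')
    rw [Fintype.card_fin] at this
    unfold Set.finrank at this
    omega) (by
    intro i hi
    rw [Fin.sum_univ_add]
    simp only [Fin.append_left, Fin.append_right]
    exact h i hi) D
  rw [Fin.sum_univ_add] at h2
  simpa only [Fin.append_left, Fin.append_right] using h2

theorem span_le (m : ℕ) (y y' φ φ' : Fin m → E) (hφ : LinearIndependent K φ)
    (h : ∀ D : E →ₗ[K] E, ∑ j, φ j * D (y j) + ∑ j, φ' j * D (y' j) = 0) :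
    Submodule.span K (Set.range y) ≤ Submodule.span K (Set.range y') := by
  rw [Submodule.span_le]
  rintro _ ⟨j, rfl⟩
  by_contra hj
  obtain ⟨ξ, hξ1, hξ2⟩ := Submodule.exists_dual_map_eq_bot_of_notMem (R := K)
    (p := Submodule.span K (Set.range y')) hj inferInstance
  have hξ3 : ∀ k, ξ (y' k) = 0 := by
    intro k
    have h3 : ξ (y' k) ∈ (Submodule.span K (Set.range y')).map ξ :=
      Submodule.mem_map_of_mem (Submodule.subset_span ⟨k, rfl⟩)
    rw [hξ2] at h3
    exact (Submodule.mem_bot K).1 h3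
  have h4 := h ((Algebra.linearMap K E).comp ξ)
  simp only [LinearMap.comp_apply, Algebra.linearMap_apply, hξ3, map_zero, mul_zero, sum_const_zero,
    add_zero] at h4
  have h5 : ∑ k, ξ (y k) • φ k = 0 := by
    rw [← h4]
    refine sum_congr rfl fun k _ => ?_
    rw [Algebra.smul_def, mul_comm]
  exact hξ1 (Fintype.linearIndependent_iff.1 hφ (fun k => ξ (y k)) h5 j)

theorem dual (m : ℕ) (y : Fin m → E) (hy : LinearIndependent K y) (c : Fin m → E)
    (h : ∀ D : E →ₗ[K] E, ∑ j, c j * D (y j) = 0) (j : Fin m) : c j = 0 := by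
  have hj : y j ∉ Submodule.span K (y '' {k | k ≠ j}) := by
    apply hy.notMem_span_image
    simp
  obtain ⟨ξ, hξ1, hξ2⟩ := Submodule.exists_dual_map_eq_bot_of_notMem (R := K)
    (p := Submodule.span K (y '' {k | k ≠ j})) hj inferInstance
  have hξ3 : ∀ k, k ≠ j → ξ (y k) = 0 := by
    intro k hk
    have h3 : ξ (y k) ∈ (Submodule.span K (y '' {k | k ≠ j})).map ξ :=
      Submodule.mem_map_of_mem (Submodule.subset_span ⟨k, hk, rfl⟩)
    rw [hξ2] at h3
    exact (Submodule.mem_bot K).1 h3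
  have h4 := h ((Algebra.linearMap K E).comp ξ)
  simp only [LinearMap.comp_apply, Algebra.linearMap_apply] at h4
  rw [sum_eq_single j (fun k _ hk => by rw [hξ3 k hk, map_zero, mul_zero]) (by simp)] at h4
  rcases mul_eq_zero.1 h4 with h5 | h5
  · exact h5
  · exact absurd ((map_eq_zero (algebraMap K E)).1 h5) hξ1

end Sym

open Sym in
theorem wSym (h1 : S_Moo) : S_Sym := by
  intro K E _ _ _ _ _ _ m y y' φ φ' hy hy' hφ hφ' h
  have hk := key h1 m y y' φ φ' h
  refine ⟨le_antisymm (span_le m y y' φ φ' hφ hk) (span_le m y' y φ' φ hφ' fun D => by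
    rw [add_comm]; exact hk D), ?_⟩
  rintro rfl
  funext j
  have h2 := dual (K := K) m y hy (fun j => φ j + φ' j) (fun D => by
    rw [← hk D, ← sum_add_distrib]
    exact sum_congr rfl fun k _ => add_mul _ _ _) j
  exact CharTwo.add_eq_zero.1 h2

end Pool.Agent.Lib.MP_537232_an.PG
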