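import Pool.Agent.Lib.MP_537232_an.PG.SpecA

set_option autoImplicit false

/-!
# The value of `Θ_m` at independent tuples
-/

open Finset

namespace Pool.Agent.Lib.MP_537232_an.PG

namespace Tha

variable {K E : Type} [Field K] [Field E] [Fintype K] [Fintype E] [Algebra K E]


open Classical in
theorem span_sum {m : ℕ} (φ : Fin m → E) (hφ : LinearIndependent K φ) (f : E → ℝ) :
    ∑ w ∈ univ.filter (fun w => w ∈ Submodule.span K (Set.range φ)), f w =
      ∑ a : Fin m → K, f (∑ j, a j • φ j) := by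
  symm
  refine Finset.sum_bij (fun a _ => ∑ j, a j • φ j) ?_ ?_ ?_ ?_
  · intro a _
    rw [mem_filter]
    exact ⟨mem_univ _, Submodule.sum_mem _ fun j _ =>
      Submodule.smul_mem _ _ (Submodule.subset_span ⟨j, rfl⟩)⟩
  · intro a _ b _ hab
    have h1 : ∑ j, (a j - b j) • φ j = 0 := by
      simp only [sub_smul, Finset.sum_sub_distrib]
      rw [sub_eq_zero]
      exact hab
    have h2 := Fintype.linearIndependent_iff.1 hφ _ h1
    funext j
    exact sub_eq_zero.1 (h2 j)
  · intro w hw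
    rw [mem_filter] at hw
    obtain ⟨c, hc⟩ := (Submodule.mem_span_range_iff_exists_fun K).1 hw.2
    exact ⟨c, mem_univ _, hc⟩
  · intro a _
    rfl

open Classical in
theorem out_sum (Ψ : AddChar E ℝ) (hΨ : ∀ c, c ≠ 0 → ∑ v, Ψ (c * v) = 0) {m : ℕ} (φ : Fin m → E)
    (hφ : LinearIndependent K φ) {z : E} (hz : z ≠ 0) :
    ∑ w ∈ univ.filter (fun w => w ∉ Submodule.span K (Set.range φ)), Ψ (w * z) =
      - ∑ a : Fin m → K, Ψ ((∑ j, a j • φ j) * z) := by
  have h1 := Finset.sum_filter_add_sum_filter_not (univ : Finset E)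
    (fun w => w ∈ Submodule.span K (Set.range φ)) (fun w => Ψ (w * z))
  have h2 : ∑ w, Ψ (w * z) = 0 := by
    rw [← hΨ z hz]
    exact Finset.sum_congr rfl fun v _ => by rw [mul_comm]
  rw [h2, span_sum φ hφ] at h1
  linarith

open Classical in
theorem inner_sum (Ψ : AddChar E ℝ) (hΨ : ∀ c, c ≠ 0 → ∑ v, Ψ (c * v) = 0) {m : ℕ} (φ : Fin m → E)
    (y : Fin (m + 1) → E) (hz : y 0 ≠ 0) :
    (∑ w : E, if LinearIndependent K (Fin.cons w φ : Fin (m + 1) → E) then
      Ψ (∑ j, (Fin.cons w φ : Fin (m + 1) → E) j * y j) else 0) =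
    if LinearIndependent K φ then
      - ∑ a : Fin m → K, Ψ (∑ j, φ j * (y j.succ + a j • y 0)) else 0 := by
  by_cases hφ : LinearIndependent K φ
  · rw [if_pos hφ]
    have h1 : ∀ w : E, (if LinearIndependent K (Fin.cons w φ : Fin (m + 1) → E) then
        Ψ (∑ j, (Fin.cons w φ : Fin (m + 1) → E) j * y j) else 0) =
        if w ∉ Submodule.span K (Set.range φ) then
          Ψ (∑ j, φ j * y j.succ) * Ψ (w * y 0) else 0 := by
      intro w
      by_cases hw : w ∈ Submodule.span K (Set.range φ)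
      · rw [if_neg, if_neg (not_not.2 hw)]
        intro h2
        exact (linearIndependent_finCons.1 h2).2 hw
      · rw [if_pos (linearIndependent_finCons.2 ⟨hφ, hw⟩), if_pos hw, Fin.sum_univ_succ,
          ← AddChar.map_add_eq_mul, add_comm]
        simp only [Fin.cons_zero, Fin.cons_succ]
    rw [Finset.sum_congr rfl fun w _ => h1 w, ← Finset.sum_filter, ← Finset.mul_sum,
      out_sum Ψ hΨ φ hφ hz, mul_neg, Finset.mul_sum]
    congr 1
    refine Finset.sum_congr rfl fun a _ => ?_
    rw [← AddChar.map_add_eq_mul]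
    congr 1
    rw [Finset.sum_mul, ← Finset.sum_add_distrib]
    refine Finset.sum_congr rfl fun j _ => ?_
    rw [mul_add, smul_mul_assoc, mul_smul_comm]
  · rw [if_neg hφ]
    refine Finset.sum_eq_zero fun w _ => ?_
    rw [if_neg]
    intro h2
    exact hφ (linearIndependent_finCons.1 h2).1

open Classical in
theorem step (Ψ : AddChar E ℝ) (hΨ : ∀ c, c ≠ 0 → ∑ v, Ψ (c * v) = 0) {m : ℕ}
    (y : Fin (m + 1) → E) (hz : y 0 ≠ 0) :
    Th K Ψ y = - ∑ a : Fin m → K, Th K Ψ (fun j => y j.succ + a j • y 0) := by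
  unfold Th Ind
  rw [Finset.sum_filter, ← (Fin.consEquiv fun _ => E).sum_comp, Fintype.sum_prod_type_right]
  have h1 : ∀ φ : Fin m → E, (∑ w : E, if LinearIndependent K ((Fin.consEquiv fun _ => E) (w, φ))
      then Ψ (∑ j, (Fin.consEquiv fun _ => E) (w, φ) j * y j) else 0) =
      if LinearIndependent K φ then
        - ∑ a : Fin m → K, Ψ (∑ j, φ j * (y j.succ + a j • y 0)) else 0 :=
    fun φ => inner_sum Ψ hΨ φ y hz
  rw [Finset.sum_congr rfl fun φ _ => h1 φ, ← Finset.sum_filter, Finset.sum_neg_distrib,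
    Finset.sum_comm]

omit [Fintype K] in
theorem ind_step {m : ℕ} (y : Fin (m + 1) → E) (hy : LinearIndependent K y) (a : Fin m → K) :
    LinearIndependent K (fun j : Fin m => y j.succ + a j • y 0) := by
  rw [Fintype.linearIndependent_iff] at hy ⊢
  intro c hc j
  have h1 := hy (Fin.cons (∑ j, c j * a j) c) ?_ j.succ
  · rwa [Fin.cons_succ] at h1
  · rw [Fin.sum_univ_succ]
    simp only [Fin.cons_zero, Fin.cons_succ]
    rw [← hc, Finset.sum_smul, ← Finset.sum_add_distrib]
    refine Finset.sum_congr rfl fun i _ => ?_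
    rw [smul_add, smul_smul, add_comm]

theorem val (Ψ : AddChar E ℝ) (hΨ : ∀ c, c ≠ 0 → ∑ v, Ψ (c * v) = 0) :
    ∀ (m : ℕ) (y : Fin m → E), LinearIndependent K y →
      Th K Ψ y = (-1) ^ m * (Fintype.card K : ℝ) ^ (m * (m - 1) / 2) := by
  intro m
  induction m with
  | zero =>
    intro y hy
    unfold Th Ind
    rw [Finset.sum_filter, Fintype.sum_unique, if_pos]
    · simp
    · exact linearIndependent_empty_type
  | succ m ih =>
    intro y hy
    rw [step Ψ hΨ y (hy.ne_zero 0), Finset.sum_congr rfl fun a _ => ih _ (ind_step y hy a),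
      Finset.sum_const, Finset.card_univ, Fintype.card_fun, Fintype.card_fin, nsmul_eq_mul]
    push_cast
    have h1 : (m + 1) * m / 2 = m + m * (m - 1) / 2 := by
      have h2 : (m + 1) * m = m * (m - 1) + m * 2 := by
        rcases m with _ | m
        · rfl
        · rw [Nat.add_sub_cancel]
          ring
      rw [h2, Nat.add_mul_div_right _ _ (by norm_num), add_comm]
    rw [h1, pow_succ, pow_add]
    ring

end Tha

theorem wTha (h1 : S_Chs) : S_Tha := by
  intro K E _ _ _ _ _ _ Ψ hΨ m y hy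
  exact Tha.val Ψ (h1 E Ψ hΨ).2.1 m y hy

end Pool.Agent.Lib.MP_537232_an.PG
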