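import Pool.Agent.Lib.MP_537232_an.PG.SpecA

set_option autoImplicit false

/-!
# Thb: invariance of `Θ_m` and the bound for `Θ_m`
-/

open Finset

namespace Pool.Agent.Lib.MP_537232_an.PG

namespace Thb

variable {K E : Type} [Field K] [Field E] [Algebra K E]

/-- The action of matrices over `K` on tuples. -/
def act {m : ℕ} (M : Matrix (Fin m) (Fin m) K) (y : Fin m → E) : Fin m → E :=
  fun j => ∑ i, M j i • y i

theorem act_mul {m : ℕ} (M N : Matrix (Fin m) (Fin m) K) (y : Fin m → E) :
    act (M * N) y = act M (act N y) := by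
  funext j
  simp only [act, Matrix.mul_apply, Finset.smul_sum, Finset.sum_smul, smul_smul]
  rw [Finset.sum_comm]

theorem act_one {m : ℕ} (y : Fin m → E) : act (1 : Matrix (Fin m) (Fin m) K) y = y := by
  funext j
  simp only [act, Matrix.one_apply, ite_smul, one_smul, zero_smul, Finset.sum_ite_eq,
    Finset.mem_univ, if_true]

theorem act_span {m : ℕ} (M : Matrix (Fin m) (Fin m) K) (y : Fin m → E) :
    Submodule.span K (Set.range (act M y)) ≤ Submodule.span K (Set.range y) := by
  rw [Submodule.span_le]
  rintro _ ⟨j, rfl⟩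
  exact Submodule.sum_mem _ fun i _ => Submodule.smul_mem _ _ (Submodule.subset_span ⟨i, rfl⟩)

theorem act_span_eq {m : ℕ} {M N : Matrix (Fin m) (Fin m) K} (h : N * M = 1) (y : Fin m → E) :
    Submodule.span K (Set.range (act M y)) = Submodule.span K (Set.range y) := by
  refine le_antisymm (act_span M y) ?_
  have h1 := act_span N (act M y)
  rwa [← act_mul, h, act_one] at h1

theorem act_li {m : ℕ} {M N : Matrix (Fin m) (Fin m) K} (h : N * M = 1) {y : Fin m → E}
    (hy : LinearIndependent K y) : LinearIndependent K (act M y) := by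
  rw [linearIndependent_iff_card_eq_finrank_span] at hy ⊢
  rw [hy, Set.finrank, Set.finrank, act_span_eq h]

theorem pairing {m : ℕ} (M : Matrix (Fin m) (Fin m) K) (φ y : Fin m → E) :
    ∑ j, φ j * act M y j = ∑ i, act M.transpose φ i * y i := by
  simp only [act, Finset.mul_sum, Finset.sum_mul, Matrix.transpose_apply]
  rw [Finset.sum_comm]
  refine Finset.sum_congr rfl fun i _ => Finset.sum_congr rfl fun j _ => ?_
  rw [mul_smul_comm, smul_mul_assoc]

theorem th_act [Fintype K] [Fintype E] (Ψ : AddChar E ℝ) {m : ℕ} {M N : Matrix (Fin m) (Fin m) K}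
    (h1 : M * N = 1) (h2 : N * M = 1) (y : Fin m → E) : Th K Ψ (act M y) = Th K Ψ y := by
  classical
  have h1' : N.transpose * M.transpose = 1 := by
    rw [← Matrix.transpose_mul, h1, Matrix.transpose_one]
  have h2' : M.transpose * N.transpose = 1 := by
    rw [← Matrix.transpose_mul, h2, Matrix.transpose_one]
  unfold Th
  refine Finset.sum_bij' (fun φ _ => act M.transpose φ) (fun φ _ => act N.transpose φ) ?_ ?_ ?_ ?_ ?_
  · intro φ hφ
    rw [Ind, Finset.mem_filter] at hφ ⊢
    exact ⟨Finset.mem_univ _, act_li h1' hφ.2⟩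
  · intro φ hφ
    rw [Ind, Finset.mem_filter] at hφ ⊢
    exact ⟨Finset.mem_univ _, act_li h2' hφ.2⟩
  · intro φ _
    rw [← act_mul, h1', act_one]
  · intro φ _
    rw [← act_mul, h2', act_one]
  · intro φ _
    rw [pairing]

/-- Two bases of the same subspace differ by an invertible matrix. -/
theorem exists_mat {m : ℕ} {x x' : Fin m → E} (hx : LinearIndependent K x)
    (hx' : LinearIndependent K x')
    (h : Submodule.span K (Set.range x) = Submodule.span K (Set.range x')) :
    ∃ M N : Matrix (Fin m) (Fin m) K, M * N = 1 ∧ N * M = 1 ∧ x' = act M x := by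
  have key : ∀ {z z' : Fin m → E}, LinearIndependent K z →
      Submodule.span K (Set.range z) = Submodule.span K (Set.range z') →
      ∃ M : Matrix (Fin m) (Fin m) K, z' = act M z := by
    intro z z' _ hs
    have h1 : ∀ j, ∃ c : Fin m → K, ∑ i, c i • z i = z' j := by
      intro j
      rw [← Submodule.mem_span_range_iff_exists_fun, hs]
      exact Submodule.subset_span ⟨j, rfl⟩
    choose M hM using h1
    exact ⟨M, funext fun j => (hM j).symm⟩
  obtain ⟨M, hM⟩ := key hx h
  obtain ⟨N, hN⟩ := key hx' h.symm
  have inj : ∀ {z : Fin m → E}, LinearIndependent K z → ∀ A : Matrix (Fin m) (Fin m) K,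
      act A z = z → A = 1 := by
    intro z hz A hA
    have h1 : ∀ j i, (A - 1) j i = 0 := by
      intro j
      refine Fintype.linearIndependent_iff.1 hz (fun i => (A - 1) j i) ?_
      have h2 := congrFun hA j
      have h3 := congrFun (act_one (K := K) z) j
      simp only [act] at h2 h3
      simp only [Matrix.sub_apply, sub_smul, Finset.sum_sub_distrib]
      rw [h2, h3, sub_self]
    ext j i
    exact sub_eq_zero.1 (h1 j i)
  refine ⟨M, N, ?_, ?_, hM⟩
  · refine inj hx' _ ?_
    rw [act_mul, ← hN, ← hM]
  · refine inj hx _ ?_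
    rw [act_mul, ← hM, ← hN]

/-- The number of vectors outside of the span of an independent tuple. -/
theorem card_compl_span [Fintype K] [Fintype E] {n : ℕ} {ψ : Fin n → E}
    (hψ : LinearIndependent K ψ) [DecidablePred fun w : E => w ∈ Submodule.span K (Set.range ψ)] :
    ((univ.filter fun w : E => ¬ w ∈ Submodule.span K (Set.range ψ)).card : ℝ) =
      Fintype.card E - (Fintype.card K : ℝ) ^ n := by
  classical
  have h1 := Finset.card_filter_add_card_filter_not (s := (univ : Finset E))
    (fun w : E => w ∈ Submodule.span K (Set.range ψ))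
  have h2 : (univ.filter fun w : E => w ∈ Submodule.span K (Set.range ψ)).card =
      Fintype.card K ^ n := by
    rw [← Fintype.card_subtype]
    have h3 := Module.card_eq_pow_finrank (K := K) (V := Submodule.span K (Set.range ψ))
    rw [finrank_span_eq_card hψ, Fintype.card_fin] at h3
    rw [← h3]
  rw [h2, Finset.card_univ] at h1
  rw [← h1]
  push_cast
  ring

/-- The value of `Θ` for tuples with first component `0`. -/
theorem th_cons [Fintype K] [Fintype E] (Ψ : AddChar E ℝ) {n : ℕ} (y : Fin n → E) :
    Th K Ψ (Fin.cons 0 y : Fin (n + 1) → E) =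
      (Fintype.card E - (Fintype.card K : ℝ) ^ n) * Th K Ψ y := by
  classical
  unfold Th Ind
  rw [Finset.sum_filter, Finset.sum_filter, Finset.mul_sum]
  rw [← (Fin.consEquiv fun _ : Fin (n + 1) => E).sum_comp, Fintype.sum_prod_type_right]
  refine Finset.sum_congr rfl fun ψ _ => ?_
  by_cases hψ : LinearIndependent K ψ
  · rw [if_pos hψ, ← card_compl_span hψ, Finset.card_filter]
    push_cast
    rw [Finset.sum_mul]
    refine Finset.sum_congr rfl fun w _ => ?_
    have h1 : LinearIndependent K ((Fin.consEquiv fun _ : Fin (n + 1) => E) (w, ψ)) ↔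
        ¬ w ∈ Submodule.span K (Set.range ψ) := by
      change LinearIndependent K (Fin.cons w ψ : Fin (n + 1) → E) ↔ _
      rw [linearIndependent_finCons]
      exact and_iff_right hψ
    have h2 : ∑ j, (Fin.consEquiv fun _ : Fin (n + 1) => E) (w, ψ) j *
        (Fin.cons 0 y : Fin (n + 1) → E) j = ∑ j, ψ j * y j := by
      change ∑ j, (Fin.cons w ψ : Fin (n + 1) → E) j * (Fin.cons 0 y : Fin (n + 1) → E) j = _
      rw [Fin.sum_univ_succ]
      simp only [Fin.cons_zero, Fin.cons_succ, mul_zero, zero_add]
    rw [h2]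
    by_cases hw : w ∈ Submodule.span K (Set.range ψ)
    · rw [if_neg (fun h => (h1.1 h) hw), if_neg (fun h => h hw), zero_mul]
    · rw [if_pos (h1.2 hw), if_pos hw, one_mul]
  · rw [if_neg hψ, mul_zero]
    refine Finset.sum_eq_zero fun w _ => if_neg fun h => hψ ?_
    have h' : LinearIndependent K (Fin.cons w ψ : Fin (n + 1) → E) := h
    rw [linearIndependent_finCons] at h'
    exact h'.1

/-- A dependent tuple is equivalent to a tuple with first component `0`. -/
theorem exists_red {n : ℕ} (y : Fin (n + 1) → E) (hy : ¬ LinearIndependent K y) :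
    ∃ (y' : Fin n → E) (M N : Matrix (Fin (n + 1)) (Fin (n + 1)) K), M * N = 1 ∧ N * M = 1 ∧
      act M y = Fin.cons 0 y' := by
  classical
  obtain ⟨c, hc, s, hs⟩ := Fintype.not_linearIndependent_iff.1 hy
  let M : Matrix (Fin (n + 1)) (Fin (n + 1)) K :=
    Fin.cons c fun i => Pi.single (s.succAbove i) 1
  have hli : LinearIndependent K M.row := by
    change LinearIndependent K (Fin.cons c fun i => Pi.single (s.succAbove i) 1 :
      Fin (n + 1) → Fin (n + 1) → K)
    rw [linearIndependent_finCons]
    constructor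
    · have h1 := (Pi.basisFun K (Fin (n + 1))).linearIndependent.comp s.succAbove
        Fin.succAbove_right_injective
      have h2 : (⇑(Pi.basisFun K (Fin (n + 1))) ∘ s.succAbove) =
          fun i => (Pi.single (s.succAbove i) 1 : Fin (n + 1) → K) := by
        funext i
        rw [Function.comp_apply, Pi.basisFun_apply]
      rw [h2] at h1
      exact h1
    · intro h
      have h1 : ∀ v ∈ Submodule.span K (Set.range fun i : Fin n =>
          (Pi.single (s.succAbove i) 1 : Fin (n + 1) → K)), v s = 0 := by
        intro v hv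
        refine Submodule.span_induction ?_ ?_ ?_ ?_ hv
        · rintro _ ⟨i, rfl⟩
          exact Pi.single_eq_of_ne (Fin.succAbove_ne s i).symm 1
        · rfl
        · intro a b _ _ ha hb
          rw [Pi.add_apply, ha, hb, add_zero]
        · intro r a _ ha
          rw [Pi.smul_apply, ha, smul_zero]
      exact hs (h1 c h)
  have hu : IsUnit M := Matrix.linearIndependent_rows_iff_isUnit.1 hli
  have hd : IsUnit M.det := (Matrix.isUnit_iff_isUnit_det M).1 hu
  refine ⟨fun i => y (s.succAbove i), M, M⁻¹, Matrix.mul_nonsing_inv M hd,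
    Matrix.nonsing_inv_mul M hd, ?_⟩
  funext j
  refine Fin.cases ?_ (fun i => ?_) j
  · rw [Fin.cons_zero]
    exact hc
  · rw [Fin.cons_succ]
    change ∑ l, (Pi.single (s.succAbove i) (1 : K) : Fin (n + 1) → K) l • y l = _
    rw [Finset.sum_eq_single (s.succAbove i)]
    · rw [Pi.single_eq_same, one_smul]
    · intro l _ hl
      rw [Pi.single_eq_of_ne hl, zero_smul]
    · intro h
      exact absurd (Finset.mem_univ _) h

theorem rk_le {n : ℕ} (y : Fin n → E) : rk K y ≤ n := by
  have h := finrank_range_le_card (R := K) y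
  rw [Fintype.card_fin] at h
  exact h

theorem bound [Fintype K] [Fintype E] [CharP E 2] (h : S_Tha) (Ψ : AddChar E ℝ) (hΨ : Ψ ≠ 1) :
    ∀ (m : ℕ) (y : Fin m → E), |Th K Ψ y| ≤ (Fintype.card K : ℝ) ^ (rk K y * (rk K y - 1) / 2) *
      (Fintype.card E : ℝ) ^ (m - rk K y) := by
  intro m
  induction m with
  | zero =>
    intro y
    have hy : LinearIndependent K y := linearIndependent_empty_type
    rw [h K E Ψ hΨ 0 y hy]
    have hr : rk K y = 0 := Nat.le_zero.1 (rk_le y)
    rw [hr]
    simp
  | succ n ih =>
    intro y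
    by_cases hy : LinearIndependent K y
    · have hr : rk K y = n + 1 := by
        rw [rk, finrank_span_eq_card hy, Fintype.card_fin]
      rw [h K E Ψ hΨ (n + 1) y hy, hr, Nat.sub_self, pow_zero, mul_one, abs_mul, abs_pow, abs_neg,
        abs_one, one_pow, one_mul, abs_of_nonneg (by positivity)]
    · obtain ⟨y', M, N, h1, h2, h3⟩ := exists_red y hy
      have hr : rk K y = rk K y' := by
        have h4 := act_span_eq h2 y
        rw [h3, Fin.range_cons, Submodule.span_insert_zero] at h4
        rw [rk, rk, h4]
      rw [← th_act Ψ h1 h2 y, h3, th_cons, abs_mul, hr]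
      have hrn : rk K y' ≤ n := rk_le y'
      have hsub : n + 1 - rk K y' = (n - rk K y') + 1 := by omega
      rw [hsub, pow_succ]
      by_cases hI : (Ind K E n).Nonempty
      · obtain ⟨ψ, hψ⟩ := hI
        classical
        have hψ' : LinearIndependent K ψ := by
          rw [Ind, Finset.mem_filter] at hψ
          exact hψ.2
        have h6 := card_compl_span hψ'
        have h7 : (0 : ℝ) ≤ Fintype.card E - (Fintype.card K : ℝ) ^ n := by
          rw [← h6]
          exact Nat.cast_nonneg _
        have h5 : |(Fintype.card E : ℝ) - (Fintype.card K : ℝ) ^ n| ≤ Fintype.card E := by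
          rw [abs_of_nonneg h7]
          have h8 : (0 : ℝ) ≤ (Fintype.card K : ℝ) ^ n := by positivity
          linarith
        calc |(Fintype.card E : ℝ) - (Fintype.card K : ℝ) ^ n| * |Th K Ψ y'|
            ≤ Fintype.card E * ((Fintype.card K : ℝ) ^ (rk K y' * (rk K y' - 1) / 2) *
              (Fintype.card E : ℝ) ^ (n - rk K y')) :=
              mul_le_mul h5 (ih y') (abs_nonneg _) (Nat.cast_nonneg _)
          _ = _ := by ring
      · have h0 : Th K Ψ y' = 0 := by
          rw [Th, Finset.not_nonempty_iff_eq_empty.1 hI, Finset.sum_empty]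
        rw [h0, abs_zero, mul_zero]
        positivity

end Thb

open Thb in
theorem wThb (h1 : S_Tha) : S_Thb := by
  intro K E _ _ _ _ _ _ Ψ hΨ m
  refine ⟨?_, bound h1 Ψ hΨ m⟩
  intro x x' D hx hx' hs
  obtain ⟨M, N, hM, hN, hx2⟩ := exists_mat hx hx' hs
  have h2 : (fun j => D (x' j)) = act M fun j => D (x j) := by
    funext j
    rw [hx2]
    simp only [act, map_sum, map_smul]
  rw [h2, th_act Ψ hM hN]

end Pool.Agent.Lib.MP_537232_an.PG
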