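import Pool.Agent.Lib.MP_537232_an.PG.SpecA

set_option autoImplicit false

/-!
# MP_537232_an, PG/Tra: transport of a site to the types `Fin n`
-/

open Finset

namespace Pool.Agent.Lib.MP_537232_an.PG

namespace Tra

variable {X O L X' O' L' : Type} [Fintype X] [Fintype O] [Fintype L] [Fintype X'] [Fintype O'] [Fintype L']

omit [Fintype O] [Fintype L] [Fintype O'] [Fintype L'] in
theorem rr_transport (eX : X' ≃ X) (eO : O' ≃ O) (eL : L' ≃ L) (x : L → X → ℝ) (M : X → O → ℝ) (a : L') (ω : O') :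
    rr (fun a j => x (eL a) (eX j)) (fun j ω => M (eX j) (eO ω)) a ω = rr x M (eL a) (eO ω) := by
  unfold rr
  exact Equiv.sum_comp eX (fun j => x (eL a) j * M j (eO ω))

/-- Transport of a site along bijections. -/
noncomputable def transport (q Cm β ε δ μ : ℝ) (eX : X' ≃ X) (eO : O' ≃ O) (eL : L' ≃ L)
    (S : Site q X O L Cm β ε δ μ) : Site q X' O' L' Cm β ε δ μ where
  x := fun a j => S.x (eL a) (eX j)
  M := fun j ω => S.M (eX j) (eO ω)
  gam := fun a ω => S.gam (eL a) (eO ω)
  ind := fun a ω => S.ind (eL a) (eO ω)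
  norm_x := fun a => (Equiv.sum_comp eX (fun j => S.x (eL a) j ^ 2)).trans (S.norm_x (eL a))
  coh_x := fun a a' h => by
    rw [Equiv.sum_comp eX (fun j => S.x (eL a) j * S.x (eL a') j)]
    exact S.coh_x (eL a) (eL a') fun h' => h (eL.injective h')
  iso_one := fun j => by
    rw [Equiv.sum_comp eO (fun ω => S.M (eX j) ω * S.M (eX j) ω), Fintype.card_congr eO]
    exact S.iso_one (eX j)
  iso_zero := fun j j' h => by
    rw [Equiv.sum_comp eO (fun ω => S.M (eX j) ω * S.M (eX j') ω)]
    exact S.iso_zero (eX j) (eX j') fun h' => h (eX.injective h')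
  app := fun a => by
    simp only [rr_transport eX eO eL S.x S.M]
    rw [Equiv.sum_comp eO (fun ω => |rr S.x S.M (eL a) ω - S.gam (eL a) ω * rr S.x S.M (eL a) ω| ^ q),
      Fintype.card_congr eO]
    exact S.app (eL a)
  f_low := fun a => by
    simp only [rr_transport eX eO eL S.x S.M]
    rw [Equiv.sum_comp eO (fun ω => (S.gam (eL a) ω * rr S.x S.M (eL a) ω) ^ 2), Fintype.card_congr eO]
    exact S.f_low (eL a)
  f_up := fun a => by
    simp only [rr_transport eX eO eL S.x S.M]
    rw [Equiv.sum_comp eO (fun ω => (S.gam (eL a) ω * rr S.x S.M (eL a) ω) ^ 2), Fintype.card_congr eO]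
    exact S.f_up (eL a)
  f_cross := fun a a' h => by
    simp only [rr_transport eX eO eL S.x S.M]
    rw [Equiv.sum_comp eO (fun ω => S.gam (eL a) ω * rr S.x S.M (eL a) ω *
      (S.gam (eL a') ω * rr S.x S.M (eL a') ω)), Fintype.card_congr eO]
    exact S.f_cross (eL a) (eL a') fun h' => h (eL.injective h')
  ind_01 := fun a ω => by
    rw [rr_transport eX eO eL S.x S.M]
    exact S.ind_01 (eL a) (eO ω)
  ind_mean := fun a => by
    rw [Equiv.sum_comp eO (fun ω => S.ind (eL a) ω), Fintype.card_congr eO]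
    exact S.ind_mean (eL a)
  ind_cross := fun a a' h => by
    simp only [rr_transport eX eO eL S.x S.M]
    rw [Equiv.sum_comp eO (fun ω => S.ind (eL a) ω * rr S.x S.M (eL a) ω *
      (S.ind (eL a') ω * rr S.x S.M (eL a') ω)), Fintype.card_congr eO]
    exact S.ind_cross (eL a) (eL a') fun h' => h (eL.injective h')

end Tra

theorem wTra : S_Tra := by
  rintro q X O L _ _ _ Cm β ε δ μ ⟨S⟩ nX nO nL hX hO hL
  exact ⟨Tra.transport q Cm β ε δ μ (Fintype.equivFinOfCardEq hX).symm (Fintype.equivFinOfCardEq hO).symm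
    (Fintype.equivFinOfCardEq hL).symm S⟩

end Pool.Agent.Lib.MP_537232_an.PG
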