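import Pool.Agent.Lib.MP_537232_an.NM.All
import Pool.Agent.Lib.MP_537232_an.PG.Lqa
import Pool.Agent.Lib.MP_537232_an.PG.Ker
import Pool.Agent.Lib.MP_537232_an.PG.Fld
import Pool.Agent.Lib.MP_537232_an.PG.Chs
import Pool.Agent.Lib.MP_537232_an.PG.Moo
import Pool.Agent.Lib.MP_537232_an.PG.Sym
import Pool.Agent.Lib.MP_537232_an.PG.Cnt
import Pool.Agent.Lib.MP_537232_an.PG.Tha
import Pool.Agent.Lib.MP_537232_an.PG.Thb
import Pool.Agent.Lib.MP_537232_an.PG.Njd
import Pool.Agent.Lib.MP_537232_an.PG.Gmb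
import Pool.Agent.Lib.MP_537232_an.PG.Orh
import Pool.Agent.Lib.MP_537232_an.PG.Orb
import Pool.Agent.Lib.MP_537232_an.PG.Crk
import Pool.Agent.Lib.MP_537232_an.PG.Nse
import Pool.Agent.Lib.MP_537232_an.PG.Smm
import Pool.Agent.Lib.MP_537232_an.PG.Rsm
import Pool.Agent.Lib.MP_537232_an.PG.Sta
import Pool.Agent.Lib.MP_537232_an.PG.Stb
import Pool.Agent.Lib.MP_537232_an.PG.Sit
import Pool.Agent.Lib.MP_537232_an.PG.Tra
import Pool.Agent.Lib.MP_537232_an.PG.Sif
import Pool.Agent.Lib.MP_537232_an.PG.Pra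
import Pool.Agent.Lib.MP_537232_an.PG.Prb
import Pool.Agent.Lib.MP_537232_an.PG.Prc
import Pool.Agent.Lib.MP_537232_an.PG.Rad
import Pool.Agent.Lib.MP_537232_an.PG.Fwp
import Pool.Agent.Lib.MP_537232_an.PG.Eva
import Pool.Agent.Lib.MP_537232_an.PG.Ovc
import Pool.Agent.Lib.MP_537232_an.PG.Num
import Pool.Agent.Lib.MP_537232_an.PG.Fmm
import Pool.Agent.Lib.MP_537232_an.PG.Pre
import Pool.Agent.Lib.MP_537232_an.PG.Flk
import Pool.Agent.Lib.MP_537232_an.PG.Odp
import Pool.Agent.Lib.MP_537232_an.PG.Stg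
import Pool.Agent.Lib.MP_537232_an.PG.Par
import Pool.Agent.Lib.MP_537232_an.PG.DatE
import Pool.Agent.Lib.MP_537232_an.PG.Dua
import Pool.Agent.Lib.MP_537232_an.PG.RowR
import Pool.Agent.Lib.MP_537232_an.PG.RowM
import Pool.Agent.Lib.MP_537232_an.PG.RowI
import Pool.Agent.Lib.MP_537232_an.PG.RowF
import Pool.Agent.Lib.MP_537232_an.PG.ColE
import Pool.Agent.Lib.MP_537232_an.PG.ColR
import Pool.Agent.Lib.MP_537232_an.PG.ColM
import Pool.Agent.Lib.MP_537232_an.PG.ColI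
import Pool.Agent.Lib.MP_537232_an.PG.ColF

namespace Pool.Agent.Lib.MP_537232_an.PG

theorem aLqa : S_Lqa := wLqa

theorem aKer : S_Ker := wKer

theorem aFld : S_Fld := wFld

theorem aChs : S_Chs := wChs

theorem aMoo : S_Moo := wMoo aLqa

theorem aSym : S_Sym := wSym aMoo

theorem aCnt : S_Cnt := wCnt

theorem aTha : S_Tha := wTha aChs

theorem aThb : S_Thb := wThb aTha

theorem aNjd : S_Njd := wNjd

theorem aGmb : S_Gmb := wGmb aKer aCnt aTha aThb aNjd

theorem aOrh : S_Orh := wOrh aLqa aChs aSym aCnt aThb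

theorem aOrb : S_Orb := wOrb aOrh aCnt aGmb

theorem aCrk : S_Crk := wCrk aMoo

theorem aNse : S_Nse := wNse

theorem aSmm : S_Smm := wSmm aKer aGmb aCrk aNse

theorem aRsm : S_Rsm := wRsm aKer aChs

theorem aSta : S_Sta := wSta aLqa aKer aChs aRsm

theorem aStb : S_Stb := wStb aRsm

theorem aSit : S_Sit := wSit aLqa aKer aGmb aOrb aCrk aSmm aSta aStb

theorem aTra : S_Tra := wTra

theorem aSif : S_Sif := wSif aFld aSit aTra

theorem aPra : S_Pra := wPra

theorem aPrb : S_Prb := wPrb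

theorem aPrc : S_Prc := wPrc

theorem aRad : S_Rad := wRad

theorem aFwp : S_Fwp := wFwp aRad

theorem aEva : S_Eva := wEva aPra

theorem aOvc : S_Ovc := wOvc aPrb

theorem aNum : S_Num := wNum

theorem aFmm : S_Fmm := wFmm aSif

theorem aPre : S_Pre := wPre aPra aPrb aPrc aFwp aEva aOvc aNum aFmm

theorem aFlk : S_Flk := wFlk

theorem aOdp : S_Odp := wOdp aFlk

theorem aStg : S_Stg := wStg aPre aOdp

theorem aPar : S_Par := wPar aStg

theorem aDatE : S_DatE := wDatE aPar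

theorem aDua : S_Dua := wDua

theorem aRowR : S_RowR := wRowR NM.aFun

theorem aRowM : S_RowM := wRowM NM.aFr NM.aFun aDua NM.aOpb

theorem aRowI : S_RowI := wRowI NM.aEmb NM.aFun NM.aJc aDatE

theorem aRowF : S_RowF := wRowF aRowR aRowM aRowI

theorem aColE : S_ColE := wColE

theorem aColR : S_ColR := wColR NM.aEmb

theorem aColM : S_ColM := wColM NM.aFr NM.aOpc

theorem aColI : S_ColI := wColI NM.aFun NM.aJc aDatE

theorem aColF : S_ColF := wColF aColR aColM aColI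

end Pool.Agent.Lib.MP_537232_an.PG
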