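import Pool.Agent.Lib.MP_537232_an.PG.SpecJ

set_option autoImplicit false

/-!
# MP_537232_an, directory PG: from the formulas for all vectors to the values on unit vectors
-/

open scoped ENNReal Topology
open Filter Finset

namespace Pool.Agent.Lib.MP_537232_an.PG

open Classical in
lemma eY_apply (v : ℕ → ℕ) (ν : Ix v) (n : ℕ) (j : Fin (v n)) :
    (eY v ν) n j = if ν = ⟨n, j⟩ then 1 else 0 := by
  obtain ⟨m, i⟩ := ν
  unfold eY
  by_cases hm : m = n
  · subst hm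
    simp only
    rw [lp.single_apply_self]
    by_cases hi : i = j
    · subst hi
      simp
    · have h0 : (⟨m, i⟩ : Ix v) ≠ ⟨m, j⟩ := fun h => hi (eq_of_heq (Sigma.mk.inj h).2)
      rw [if_neg h0]
      simp [Ne.symm hi]
  · have h0 : (⟨m, i⟩ : Ix v) ≠ ⟨n, j⟩ := fun h => hm (Sigma.mk.inj h).1
    rw [if_neg h0]
    simp only
    rw [lp.single_apply_ne _ _ _ (Ne.symm hm)]
    rfl

open Classical in
lemma sum_eY {p : ℝ≥0∞} (P : Params p) (ν : Ix P.v) (n : ℕ) :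
    ∑ j, (eY P.v ν) n j • P.g n j = (Pi.single ν.1 (P.g ν.1 ν.2) : ∀ n, E P.u n) n := by
  obtain ⟨m, i⟩ := ν
  by_cases hm : m = n
  · subst hm
    rw [Finset.sum_eq_single i]
    · rw [eY_apply, if_pos rfl, one_smul]
      simp
    · intro j _ hj
      have h0 : (⟨m, i⟩ : Ix P.v) ≠ ⟨m, j⟩ := fun h => hj (eq_of_heq (Sigma.mk.inj h).2).symm
      rw [eY_apply, if_neg h0, zero_smul]
    · intro h
      exact absurd (Finset.mem_univ _) h
  · simp only
    rw [Pi.single_eq_of_ne (Ne.symm hm)]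
    refine Finset.sum_eq_zero fun j _ => ?_
    have h0 : (⟨m, i⟩ : Ix P.v) ≠ ⟨n, j⟩ := fun h => hm (Sigma.mk.inj h).1
    rw [eY_apply, if_neg h0, zero_smul]

/-- the position of the coordinate `tw ν` -/
lemma pos_tw {p : ℝ≥0∞} (P : Params p) (ν : Ix P.v) :
    pos P.v ν.1 ν.2 = pos P.u (P.tw ν).1 (P.tw ν).2 := by
  unfold Params.tw
  rw [pos_unpos]

/-- every coordinate of `U` is `tw ν` -/
lemma exists_tw {p : ℝ≥0∞} (P : Params p) (m : ℕ) (t : Fin (P.u m)) :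
    ∃ ν : Ix P.v, P.tw ν = ⟨m, t⟩ ∧ pos P.v ν.1 ν.2 = pos P.u m t := by
  refine ⟨unpos P.v P.v_pos (pos P.u m t), ?_, pos_unpos _ _⟩
  unfold Params.tw
  rw [pos_unpos]
  exact unpos_pos P.u_pos ⟨m, t⟩

lemma tw_inj {p : ℝ≥0∞} (P : Params p) {ν ν' : Ix P.v} (h : P.tw ν = P.tw ν') : ν = ν' := by
  have h1 := pos_tw P ν
  have h2 := pos_tw P ν'
  rw [h, ← h2] at h1
  exact pos_injective h1

open Classical in
lemma isIS_aux {p : ℝ≥0∞} (P : Params p) (c : YSp P.v → ∀ n, E P.u n)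
    (hc : ∀ y m t n j, pos P.v n j = pos P.u m t → c y m t = y n j) (ν : Ix P.v) (m : ℕ) :
    c (eY P.v ν) m = (Pi.single (P.tw ν).1 (EuclideanSpace.single (P.tw ν).2 1) : ∀ n, E P.u n) m := by
  ext t
  obtain ⟨μ, h1, h2⟩ := exists_tw P m t
  rw [hc _ m t _ _ h2, eY_apply]
  by_cases h : ν = μ
  · subst h
    rw [if_pos rfl, h1]
    simp
  · rw [if_neg h]
    have h3 : P.tw ν ≠ ⟨m, t⟩ := fun h' => h (tw_inj P (h'.trans h1.symm))
    generalize P.tw ν = τ at h3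
    obtain ⟨a, s⟩ := τ
    by_cases ham : a = m
    · subst ham
      have h4 : t ≠ s := fun h' => h3 (by rw [h'])
      simp [h4]
    · rw [Pi.single_eq_of_ne (Ne.symm ham)]
      rfl

end Pool.Agent.Lib.MP_537232_an.PG
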