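import Pool.Agent.Lib.MP_537232_an.PG.SpecJ

/-!
# MP_537232_an, PG/ColI: `R` does not belong to the ideal of `I`, operators from `V*` to `U_*`, p > 2
(task of helper81, by helper92, after NM/ColI)
-/

set_option autoImplicit false

open scoped ENNReal Topology
open Filter Finset

namespace Pool.Agent.Lib.MP_537232_an.PG

open NM (pE qE fc MulSp)

namespace ColI

/-- The functionals on the `ℓ_q`-sum. -/
theorem exists_G (hFun : NM.S_Fun) {q : ℝ} (hq1 : 1 < q) [Fact (1 ≤ qE q)] (u : ℕ → ℕ)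
    (hu : ∀ n, 0 < u n) (D : ℕ → ℕ) : ∃ G : ∀ m, (Fin (D m) → ℝ) → (lp (E u) (qE q) →L[ℝ] ℝ),
    (∀ m h x, G m h x = ∑ ω, h ω * fc hu x (pos D m ω)) ∧
    ∀ m h, ‖G m h‖ ≤ (∑ ω, |h ω| ^ (q / (q - 1))) ^ ((q - 1) / q) := by
  have hb : ∀ m (h : Fin (D m) → ℝ) (x : lp (E u) (qE q)), ‖∑ ω, h ω * fc hu x (pos D m ω)‖ ≤
      (∑ ω, |h ω| ^ (q / (q - 1))) ^ ((q - 1) / q) * ‖x‖ := by
    intro m h x
    obtain ⟨h1, -, h3⟩ := hFun q hq1 u hu D x
    rw [Real.norm_eq_abs]
    refine (h3 m h).trans ?_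
    have h4 := h1 {m}
    rw [Finset.sum_singleton] at h4
    have h5 : (∑ ω : Fin (D m), |fc hu x (pos D m ω)| ^ q) ^ (1 / q) ≤ ‖x‖ := by
      calc (∑ ω : Fin (D m), |fc hu x (pos D m ω)| ^ q) ^ (1 / q) ≤ (‖x‖ ^ q) ^ (1 / q) :=
            Real.rpow_le_rpow (Finset.sum_nonneg fun _ _ => by positivity) h4 (by positivity)
        _ = ‖x‖ := by
            rw [← Real.rpow_mul (norm_nonneg x), mul_one_div_cancel (by linarith : q ≠ 0),
              Real.rpow_one]
    exact mul_le_mul_of_nonneg_left h5 (by positivity)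
  refine ⟨fun m h => LinearMap.mkContinuous
    { toFun := fun x => ∑ ω, h ω * fc hu x (pos D m ω)
      map_add' := fun x y => by
        rw [← Finset.sum_add_distrib]
        refine Finset.sum_congr rfl fun ω _ => ?_
        unfold fc
        rw [lp.coeFn_add, Pi.add_apply, PiLp.add_apply, mul_add]
      map_smul' := fun c x => by
        rw [RingHom.id_apply, smul_eq_mul, Finset.mul_sum]
        refine Finset.sum_congr rfl fun ω _ => ?_
        unfold fc
        rw [lp.coeFn_smul, Pi.smul_apply, PiLp.smul_apply, smul_eq_mul]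
        ring } _ (hb m h), fun m h x => rfl, fun m h => ?_⟩
  exact LinearMap.mkContinuous_norm_le _ (by positivity) _

/-- Subadditivity of the powers with exponent at most one. -/
theorem sum_rpow_le {ι : Type} (S : Finset ι) (a : ι → ℝ) (ha : ∀ i, 0 ≤ a i) {r : ℝ} (hr : 0 < r)
    (hr1 : r ≤ 1) : (∑ i ∈ S, a i) ^ r ≤ ∑ i ∈ S, a i ^ r := by
  classical
  induction S using Finset.induction_on with
  | empty => rw [Finset.sum_empty, Finset.sum_empty, Real.zero_rpow hr.ne']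
  | insert i S hi ih =>
    rw [Finset.sum_insert hi, Finset.sum_insert hi]
    refine (Real.rpow_add_le_add_rpow (ha i) (Finset.sum_nonneg fun j _ => ha j) hr.le hr1).trans ?_
    linarith

/-- The norm of a combination of different unit vectors. -/
theorem norm_comb_le {q : ℝ} (hq1 : 1 < q) (hq2 : q < 2) [Fact (1 ≤ qE q)] (u : ℕ → ℕ) {ι : Type}
    (τ : ι → Ix u) (hτ : Function.Injective τ) (S : Finset ι) (c : ι → ℝ) :
    ‖∑ i ∈ S, c i • (lp.single (qE q) (τ i).1 (EuclideanSpace.single (τ i).2 (1 : ℝ)) :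
      lp (E u) (qE q))‖ ≤ (∑ i ∈ S, |c i| ^ q) ^ (1 / q) := by
  classical
  have hq0 : 0 < q := by linarith
  have hqr : (qE q).toReal = q := ENNReal.toReal_ofReal hq0.le
  obtain ⟨z, hz⟩ : ∃ z : lp (E u) (qE q), z = ∑ i ∈ S, c i •
    (lp.single (qE q) (τ i).1 (EuclideanSpace.single (τ i).2 (1 : ℝ)) : lp (E u) (qE q)) :=
    ⟨_, rfl⟩
  rw [← hz]
  obtain ⟨A, hA⟩ : ∃ A : ℝ, A = ∑ i ∈ S, |c i| ^ q := ⟨_, rfl⟩
  rw [← hA]
  have hA0 : 0 ≤ A := by
    rw [hA]
    exact Finset.sum_nonneg fun _ _ => by positivity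
  have hone : ∀ (i : ι) (n : ℕ) (j : Fin (u n)),
      (lp.single (qE q) (τ i).1 (EuclideanSpace.single (τ i).2 (1 : ℝ)) : lp (E u) (qE q)) n j =
        if τ i = ⟨n, j⟩ then 1 else 0 := by
    intro i n j
    rcases hi : τ i with ⟨n', j'⟩
    by_cases hn : n = n'
    · subst hn
      rw [lp.single_apply_self, PiLp.single_apply]
      by_cases hj : j = j'
      · rw [if_pos hj, if_pos (by rw [hj])]
      · rw [if_neg hj, if_neg]
        intro h2
        apply hj
        simpa using h2.symm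
    · rw [lp.single_apply_ne _ _ _ hn, if_neg]
      · rfl
      · intro h2
        exact hn (congrArg Sigma.fst h2).symm
  have hval : ∀ (n : ℕ) (j : Fin (u n)), z n j = ∑ i ∈ S, if τ i = ⟨n, j⟩ then c i else 0 := by
    intro n j
    rw [hz, lp.coeFn_sum, Finset.sum_apply, WithLp.ofLp_sum, Finset.sum_apply]
    refine Finset.sum_congr rfl fun i _ => ?_
    rw [lp.coeFn_smul, Pi.smul_apply, PiLp.smul_apply, hone, smul_eq_mul]
    split_ifs
    · rw [mul_one]
    · rw [mul_zero]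
  have hsq : ∀ (n : ℕ) (j : Fin (u n)), |z n j| ^ q =
      ∑ i ∈ S, if τ i = ⟨n, j⟩ then |c i| ^ q else 0 := by
    intro n j
    rw [hval]
    by_cases h : ∃ i ∈ S, τ i = ⟨n, j⟩
    · obtain ⟨i, hi, hij⟩ := h
      rw [Finset.sum_eq_single i, Finset.sum_eq_single i, if_pos hij, if_pos hij]
      · intro k _ hk
        rw [if_neg]
        intro hk2
        exact hk (hτ (hk2.trans hij.symm))
      · intro h; exact absurd hi h
      · intro k _ hk
        rw [if_neg]
        intro hk2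
        exact hk (hτ (hk2.trans hij.symm))
      · intro h; exact absurd hi h
    · push Not at h
      rw [Finset.sum_eq_zero fun i hi => if_neg (h i hi),
        Finset.sum_eq_zero fun i hi => if_neg (h i hi), abs_zero, Real.zero_rpow hq0.ne']
  have hblk : ∀ n, ‖z n‖ ^ q ≤ ∑ j : Fin (u n), |z n j| ^ q := by
    intro n
    have e1 : ‖z n‖ ^ q = (‖z n‖ ^ 2) ^ (q / 2) := by
      rw [← Real.rpow_natCast, ← Real.rpow_mul (norm_nonneg _)]
      congr 1
      push_cast
      ring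
    rw [e1, EuclideanSpace.norm_sq_eq]
    refine (sum_rpow_le _ _ (fun j => sq_nonneg _) (by linarith) (by linarith)).trans
      (le_of_eq ?_)
    refine Finset.sum_congr rfl fun j _ => ?_
    rw [Real.norm_eq_abs, ← Real.rpow_natCast, ← Real.rpow_mul (abs_nonneg _)]
    congr 1
    push_cast
    ring
  refine lp.norm_le_of_forall_sum_le (by rw [hqr]; exact hq0) (by positivity) fun s => ?_
  rw [hqr]
  calc ∑ n ∈ s, ‖z n‖ ^ q ≤ ∑ n ∈ s, ∑ j : Fin (u n), ∑ i ∈ S,
        if τ i = ⟨n, j⟩ then |c i| ^ q else 0 := by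
        refine Finset.sum_le_sum fun n _ => (hblk n).trans (le_of_eq ?_)
        exact Finset.sum_congr rfl fun j _ => hsq n j
    _ = ∑ σ ∈ s.sigma (fun n => (Finset.univ : Finset (Fin (u n)))), ∑ i ∈ S,
        if τ i = σ then |c i| ^ q else 0 := by
        rw [Finset.sum_sigma]
    _ = ∑ i ∈ S, ∑ σ ∈ s.sigma (fun n => (Finset.univ : Finset (Fin (u n)))),
        if τ i = σ then |c i| ^ q else 0 := Finset.sum_comm
    _ ≤ ∑ i ∈ S, |c i| ^ q := by
        refine Finset.sum_le_sum fun i _ => ?_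
        rw [Finset.sum_ite_eq]
        split_ifs
        · exact le_rfl
        · positivity
    _ = A := hA.symm
    _ = (A ^ (1 / q)) ^ q := by
        rw [← Real.rpow_mul hA0, one_div_mul_cancel hq0.ne', Real.rpow_one]

/-- The dual vector. -/
theorem exists_dualvec {q : ℝ} (hq1 : 1 < q) (c : ℝ) : ∃ θ : ℝ, θ * c = |c| ^ (q / (q - 1)) ∧
    |θ| ^ q = |c| ^ (q / (q - 1)) := by
  have hq0 : 0 < q := by linarith
  have hq3 : 0 < q - 1 := by linarith
  have hp : 0 < q / (q - 1) := by positivity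
  have hp1 : 0 < q / (q - 1) - 1 := by
    rw [sub_pos, lt_div_iff₀ hq3]
    linarith
  by_cases h0 : c = 0
  · refine ⟨0, ?_, ?_⟩
    · rw [h0, abs_zero, Real.zero_rpow hp.ne', mul_zero]
    · rw [h0, abs_zero, Real.zero_rpow hp.ne', Real.zero_rpow hq0.ne']
  · have hc : 0 < |c| := abs_pos.2 h0
    refine ⟨c * |c| ^ (q / (q - 1) - 2), ?_, ?_⟩
    · have e1 : c * |c| ^ (q / (q - 1) - 2) * c = |c| ^ (2 : ℕ) * |c| ^ (q / (q - 1) - 2) := by
        rw [sq_abs]
        ring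
      rw [e1, ← Real.rpow_natCast, ← Real.rpow_add hc]
      congr 1
      push_cast
      ring
    · have e1 : |c * |c| ^ (q / (q - 1) - 2)| = |c| ^ (q / (q - 1) - 1) := by
        rw [abs_mul, abs_of_pos (Real.rpow_pos_of_pos hc _)]
        conv_lhs => rw [← Real.rpow_one |c|]
        rw [Real.rpow_one |c|, ← Real.rpow_one_add' hc.le]
        · congr 1
          ring
        · have : 1 + (q / (q - 1) - 2) = q / (q - 1) - 1 := by ring
          rw [this]
          exact hp1.ne'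
      rw [e1, ← Real.rpow_mul hc.le]
      congr 1
      field_simp
      ring

/-- The last step of the duality argument. -/
theorem final_le {q A H b : ℝ} (hq1 : 1 < q) (hA : 0 ≤ A) (hH : 0 ≤ H) (hb : 0 ≤ b)
    (h : A ≤ H * b * A ^ (1 / q)) : A ≤ b ^ (q / (q - 1)) * H ^ (q / (q - 1)) := by
  have hq0 : 0 < q := by linarith
  have hq3 : 0 < q - 1 := by linarith
  have hp : 0 < q / (q - 1) := by positivity
  rcases eq_or_lt_of_le hA with h0 | h0
  · rw [← h0]
    positivity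
  · have h1 : 0 < A ^ (1 / q) := Real.rpow_pos_of_pos h0 _
    have h2 : A ^ ((q - 1) / q) ≤ H * b := by
      have e1 : A ^ ((q - 1) / q) * A ^ (1 / q) = A := by
        rw [← Real.rpow_add h0]
        have : (q - 1) / q + 1 / q = 1 := by
          field_simp
          ring
        rw [this, Real.rpow_one]
      rw [← e1] at h
      have h' : A ^ ((q - 1) / q) * A ^ (1 / q) ≤ H * b * A ^ (1 / q) := by
        rw [e1] at h ⊢
        exact h
      exact le_of_mul_le_mul_right h' h1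
    have h3 : A = (A ^ ((q - 1) / q)) ^ (q / (q - 1)) := by
      rw [← Real.rpow_mul h0.le]
      have : (q - 1) / q * (q / (q - 1)) = 1 := by field_simp
      rw [this, Real.rpow_one]
    calc A = (A ^ ((q - 1) / q)) ^ (q / (q - 1)) := h3
      _ ≤ (H * b) ^ (q / (q - 1)) := Real.rpow_le_rpow (by positivity) h2 hp.le
      _ = b ^ (q / (q - 1)) * H ^ (q / (q - 1)) := by
          rw [Real.mul_rpow hH hb, mul_comm]

theorem arith (a b v x : ℝ) (hx : 0 < x) : (a * b + v * (1 / x)) * x = x * a * b + v := by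
  field_simp

theorem fc_J {q : ℝ} (X : Dat q) [Fact (1 ≤ qE q)]
    (J : ∀ m, (Fin (X.D m) → ℝ) →ₗ[ℝ] lp (E X.P.u) (qE q)) (hJ : IsJ X J) (m : ℕ)
    (y : Fin (X.D m) → ℝ) (ω : Fin (X.D m)) : fc X.P.u_pos (J m y) (pos X.D m ω) = y ω := by
  classical
  unfold fc
  rw [hJ m y (pos X.D m ω), WithLp.ofLp_sum, Finset.sum_apply, Finset.sum_eq_single ω]
  · rw [if_pos rfl, PiLp.single_apply, if_pos rfl]
  · intro ω' _ h
    rw [if_neg]
    · rfl
    · intro h2
      have h3 := pos_injective (w := X.D) (ν := ⟨m, ω'⟩) (μ := ⟨m, ω⟩) h2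
      apply h
      simpa using h3
  · intro h
    exact absurd (Finset.mem_univ _) h

end ColI

open ColI in
/-- **ColI.** `R` does not belong to the ideal of `I`. -/
theorem wColI (h1 : NM.S_Fun) (h2 : NM.S_Jc) (_h3 : S_DatE) : S_ColI := by
  classical
  intro q hq1 hq2 _ X J hJ R I hR hI hmem
  have hq0 : 0 < q := by linarith
  obtain ⟨G, hG, hGn⟩ := exists_G h1 hq1 X.P.u X.P.u_pos X.D
  obtain ⟨F, hFdef⟩ : ∃ F : ∀ m, Fin (X.P.v (2 * m)) → (lp (E X.P.u) (qE q) →L[ℝ] ℝ),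
    F = fun m t => G m ((X.st m).f t) := ⟨_, rfl⟩
  have hF : ∀ m t, ‖F m t‖ ≤ 1 := by
    intro m t
    rw [hFdef]
    refine (hGn m ((X.st m).f t)).trans ?_
    exact Real.rpow_le_one (Finset.sum_nonneg fun _ _ => by positivity) ((X.st m).f_norm t)
      (div_nonneg (by linarith) (by linarith))
  obtain ⟨K, hK, hKm⟩ := (h2 (YSp X.P.v) (lp (E X.P.u) (qE q)) (fun m => X.P.v (2 * m))
    (fun m => X.P.v_pos _)).2 F hF
  have hIe : ∀ ν, ‖I (eY X.P.v ν)‖ ≤ 1 := by
    intro ν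
    rw [hI ν, lp.norm_single (ENNReal.ofReal_pos.mpr hq0), PiLp.norm_single, norm_one]
  have hIn : ‖I‖ ≤ 1 := Y_norm_le I zero_le_one hIe
  have hIK : I ∈ K := by
    rw [hKm]
    intro B
    have hlim : Tendsto (fun m : ℕ => (‖B‖ + 1) / ((m : ℝ) + 1)) atTop (𝓝 0) :=
      tendsto_const_nhds.div_atTop (tendsto_natCast_atTop_atTop.atTop_add tendsto_const_nhds)
    refine squeeze_zero' (Eventually.of_forall fun m => div_nonneg
      (Finset.sum_nonneg fun t _ => norm_nonneg _) (Nat.cast_nonneg _)) ?_ hlim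
    obtain ⟨m₀, hm₀⟩ := exists_nat_ge ‖B‖
    filter_upwards [eventually_ge_atTop m₀] with m hm
    have hbm : ‖B‖ ≤ m := hm₀.trans (by exact_mod_cast hm)
    have hm1 : (0 : ℝ) < (m : ℝ) + 1 := by positivity
    set J₀ : Finset (Fin (X.P.v (2 * m))) :=
      Finset.univ.filter fun t => 1 / ((m : ℝ) + 1) < ‖(F m t).comp (B.comp I)‖ with hJ₀
    have hν : ∀ t, ∃ ν, t ∈ J₀ → 1 / ((m : ℝ) + 1) < |F m t (B (I (eY X.P.v ν)))| := by
      intro t
      by_cases ht : t ∈ J₀
      · have h1 := (Finset.mem_filter.1 ht).2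
        by_contra hcon
        push Not at hcon
        have h2 : ∀ ν, ‖((F m t).comp (B.comp I)) (eY X.P.v ν)‖ ≤ 1 / ((m : ℝ) + 1) :=
          fun ν => (hcon ν).2
        exact absurd h1 (not_lt.2 (Y_norm_le _ (by positivity) h2))
      · exact ⟨⟨0, ⟨0, X.P.v_pos 0⟩⟩, fun h => absurd h ht⟩
    choose ν hν using hν
    set S : Finset (Ix X.P.v) := J₀.image ν with hS
    obtain ⟨Gm, hGm⟩ : ∃ Gm : (Fin (X.st m).D → ℝ) → (lp (E X.P.u) (qE q) →L[ℝ] ℝ), Gm = G m :=
      ⟨G m, rfl⟩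
    have hGm1 : ∀ (h : Fin (X.st m).D → ℝ) x, Gm h x =
        ∑ ω : Fin (X.st m).D, h ω * fc X.P.u_pos x (pos X.D m ω) := by
      intro h x
      rw [hGm]
      exact hG m h x
    have hGm2 : ∀ (h : Fin (X.st m).D → ℝ),
        ‖Gm h‖ ≤ (∑ ω, |h ω| ^ (q / (q - 1))) ^ ((q - 1) / q) := by
      intro h
      rw [hGm]
      exact hGn m h
    have hFG : ∀ t, F m t = Gm ((X.st m).f t) := fun t => by
      rw [hGm, hFdef]
    obtain ⟨Λ, hΛ⟩ : ∃ Λ : Fin S.card → Fin (X.st m).D → ℝ, Λ = fun s ω =>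
      fc X.P.u_pos (B (I (eY X.P.v (S.equivFin.symm s).1))) (pos X.D m ω) := ⟨_, rfl⟩
    have hΛs : ∀ s (h : Fin (X.st m).D → ℝ), ∑ ω, Λ s ω * h ω =
        Gm h (B (I (eY X.P.v (S.equivFin.symm s).1))) := by
      intro s h
      rw [hGm1, hΛ]
      exact Finset.sum_congr rfl fun ω _ => mul_comm _ _
    have hfew := (X.st m).few ‖B‖ S.card Λ (norm_nonneg B) hbm (by
      intro h
      obtain ⟨c, hc⟩ : ∃ c : Ix X.P.v → ℝ, c = fun ν => Gm h (B (I (eY X.P.v ν))) := ⟨_, rfl⟩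
      have e1 : ∑ s, |∑ ω, Λ s ω * h ω| ^ (q / (q - 1)) = ∑ ν ∈ S, |c ν| ^ (q / (q - 1)) := by
        rw [← Finset.sum_coe_sort S (fun ν => |c ν| ^ (q / (q - 1)))]
        rw [← Equiv.sum_comp S.equivFin.symm]
        exact Finset.sum_congr rfl fun s _ => by rw [hΛs, hc]
      rw [e1]
      obtain ⟨A, hA⟩ : ∃ A : ℝ, A = ∑ ν ∈ S, |c ν| ^ (q / (q - 1)) := ⟨_, rfl⟩
      have hA0 : 0 ≤ A := by
        rw [hA]
        exact Finset.sum_nonneg fun _ _ => by positivity
      have hθ : ∀ ν, ∃ θ : ℝ, θ * c ν = |c ν| ^ (q / (q - 1)) ∧ |θ| ^ q = |c ν| ^ (q / (q - 1)) :=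
        fun ν => exists_dualvec hq1 (c ν)
      choose θ hθ1 hθ2 using hθ
      have e2 : A = Gm h (B (∑ ν ∈ S, θ ν • I (eY X.P.v ν))) := by
        rw [map_sum, map_sum, hA]
        refine Finset.sum_congr rfl fun ν _ => ?_
        rw [map_smul, map_smul, smul_eq_mul, ← hθ1, hc]
      have e3 : ‖∑ ν ∈ S, θ ν • I (eY X.P.v ν)‖ ≤ A ^ (1 / q) := by
        have h4 := norm_comb_le hq1 hq2 X.P.u X.P.tw (fun _ _ h => X.P.tw_injective h) S θ
        rw [Finset.sum_congr rfl fun ν _ => hθ2 ν, ← hA] at h4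
        refine le_trans (le_of_eq ?_) h4
        congr 1
        exact Finset.sum_congr rfl fun ν _ => by rw [hI ν]
      obtain ⟨H, hH⟩ : ∃ H : ℝ, H = (∑ ω, |h ω| ^ (q / (q - 1))) ^ ((q - 1) / q) := ⟨_, rfl⟩
      have hH0 : 0 ≤ H := by
        rw [hH]
        positivity
      have e4 : A ≤ H * ‖B‖ * A ^ (1 / q) := by
        calc A = Gm h (B (∑ ν ∈ S, θ ν • I (eY X.P.v ν))) := e2
          _ ≤ ‖Gm h (B (∑ ν ∈ S, θ ν • I (eY X.P.v ν)))‖ := le_abs_self _
          _ ≤ ‖Gm h‖ * ‖B (∑ ν ∈ S, θ ν • I (eY X.P.v ν))‖ := (Gm h).le_opNorm _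
          _ ≤ ‖Gm h‖ * (‖B‖ * ‖∑ ν ∈ S, θ ν • I (eY X.P.v ν)‖) := by
              gcongr
              exact B.le_opNorm _
          _ ≤ H * (‖B‖ * A ^ (1 / q)) := by
              rw [hH]
              gcongr
              exact hGm2 h
          _ = H * ‖B‖ * A ^ (1 / q) := by ring
      have e6 := final_le hq1 hA0 hH0 (norm_nonneg B) e4
      rw [← hA]
      refine e6.trans (le_of_eq ?_)
      congr 1
      rw [hH, ← Real.rpow_mul (by positivity)]
      have e7 : (q - 1) / q * (q / (q - 1)) = 1 := by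
        have : q - 1 ≠ 0 := by linarith
        field_simp
      rw [e7, Real.rpow_one]) J₀ (by
      intro t ht
      have hm' : ν t ∈ S := Finset.mem_image_of_mem _ ht
      refine ⟨S.equivFin ⟨ν t, hm'⟩, ?_⟩
      rw [hΛs, Equiv.symm_apply_apply]
      have := hν t ht
      rw [hFG] at this
      exact this.le)
    have hv : (0 : ℝ) < X.P.v (2 * m) := by exact_mod_cast X.P.v_pos _
    rw [div_le_div_iff₀ hv hm1]
    have hsum : ∑ t, ‖(F m t).comp (B.comp I)‖ ≤
        J₀.card * ‖B‖ + X.P.v (2 * m) * (1 / ((m : ℝ) + 1)) := by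
      have h1 : ∀ t, ‖(F m t).comp (B.comp I)‖ ≤
          (if t ∈ J₀ then ‖B‖ else 0) + 1 / ((m : ℝ) + 1) := by
        intro t
        by_cases ht : t ∈ J₀
        · rw [if_pos ht]
          have h2 : ‖(F m t).comp (B.comp I)‖ ≤ ‖B‖ := by
            calc ‖(F m t).comp (B.comp I)‖ ≤ ‖F m t‖ * ‖B.comp I‖ :=
                  ContinuousLinearMap.opNorm_comp_le _ _
              _ ≤ 1 * (‖B‖ * ‖I‖) := by
                  gcongr
                  · exact hF m t
                  · exact ContinuousLinearMap.opNorm_comp_le _ _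
              _ ≤ 1 * (‖B‖ * 1) := by gcongr
              _ = ‖B‖ := by ring
          have h3 : 0 ≤ 1 / ((m : ℝ) + 1) := by positivity
          linarith
        · rw [if_neg ht, zero_add]
          by_contra hcon
          exact ht (Finset.mem_filter.2 ⟨Finset.mem_univ _, not_le.1 hcon⟩)
      calc ∑ t, ‖(F m t).comp (B.comp I)‖ ≤
            ∑ t, ((if t ∈ J₀ then ‖B‖ else 0) + 1 / ((m : ℝ) + 1)) :=
            Finset.sum_le_sum fun t _ => h1 t
        _ = J₀.card * ‖B‖ + X.P.v (2 * m) * (1 / ((m : ℝ) + 1)) := by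
            rw [Finset.sum_add_distrib, Finset.sum_ite_mem, Finset.univ_inter, Finset.sum_const,
              Finset.sum_const, Finset.card_univ, Fintype.card_fin, nsmul_eq_mul, nsmul_eq_mul]
    have hB := norm_nonneg B
    have h5 : (∑ t, ‖(F m t).comp (B.comp I)‖) * ((m : ℝ) + 1) ≤
        (J₀.card * ‖B‖ + X.P.v (2 * m) * (1 / ((m : ℝ) + 1))) * ((m : ℝ) + 1) :=
      mul_le_mul_of_nonneg_right hsum hm1.le
    have h6 : (J₀.card * ‖B‖ + X.P.v (2 * m) * (1 / ((m : ℝ) + 1))) * ((m : ℝ) + 1) =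
        ((m : ℝ) + 1) * J₀.card * ‖B‖ + X.P.v (2 * m) := arith _ _ _ _ hm1
    have h7 : ((m : ℝ) + 1) * J₀.card * ‖B‖ ≤ X.P.v (2 * m) * ‖B‖ :=
      mul_le_mul_of_nonneg_right hfew hB
    calc (∑ t, ‖(F m t).comp (B.comp I)‖) * ((m : ℝ) + 1) ≤
          X.P.v (2 * m) * ‖B‖ + X.P.v (2 * m) := by
          rw [h6] at h5
          linarith
      _ = (‖B‖ + 1) * X.P.v (2 * m) := by ring
  have hRK : R ∉ K := by
    intro hRK
    rw [hKm] at hRK
    have h1 := hRK (ContinuousLinearMap.id ℝ _)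
    have h2 : ∀ m : ℕ, X.c ≤ (∑ t, ‖(F m t).comp
        ((ContinuousLinearMap.id ℝ (lp (E X.P.u) (qE q))).comp R)‖) / (X.P.v (2 * m) : ℝ) := by
      intro m
      have hv : (0 : ℝ) < X.P.v (2 * m) := by exact_mod_cast X.P.v_pos _
      rw [le_div_iff₀ hv]
      calc X.c * X.P.v (2 * m) = ∑ _t : Fin (X.P.v (2 * m)), X.c := by
            rw [Finset.sum_const, Finset.card_univ, Fintype.card_fin, nsmul_eq_mul, mul_comm]
        _ ≤ _ := Finset.sum_le_sum fun t _ => ?_
      have h3 := ((F m t).comp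
        ((ContinuousLinearMap.id ℝ (lp (E X.P.u) (qE q))).comp R)).le_opNorm
          (eY X.P.v ⟨2 * m, t⟩)
      rw [norm_eY, mul_one] at h3
      refine le_trans ?_ h3
      change X.c ≤ ‖F m t (R (eY X.P.v ⟨2 * m, t⟩))‖
      rw [hR.1 m t, hFdef]
      change X.c ≤ |G m ((X.st m).f t) (J m ((X.st m).r t))|
      rw [hG]
      have h4 : ∑ ω : Fin (X.D m), (X.st m).f t ω *
          fc X.P.u_pos (J m ((X.st m).r t)) (pos X.D m ω) =
          ∑ ω, (X.st m).f t ω * (X.st m).r t ω :=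
        Finset.sum_congr rfl fun ω _ => by rw [fc_J X J hJ]
      rw [h4]
      exact ((X.st m).pair t).trans (le_abs_self _)
    have h3 := ge_of_tendsto' h1 h2
    exact absurd h3 (not_le.2 X.c_pos)
  exact hRK (idealGen_le hK hIK hmem)

end Pool.Agent.Lib.MP_537232_an.PG
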