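import Pool.Agent.Lib.MP_537232_an.NM.Defs

set_option autoImplicit false

/-!
# MP_537232_an, directory PG (author helper81): for p > 2 the maps φ₁, φ₂, φ₃ do not preserve meets

Definitions for all parts.  `1 < q < 2` is the conjugate exponent of `p`.
-/

open Finset

namespace Pool.Agent.Lib.MP_537232_an.PG

/-! ## Finite fields: `Q`-polynomials, independent tuples, characters -/

section fields

variable (K : Type) [Field K] [Fintype K]

/-- the `K`-linear map `v ↦ ∑_{i<R} b_i v^(Q^i)`, `Q = card K` -/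
noncomputable def Lq {E : Type} [Field E] [Algebra K E] {R : ℕ} (b : Fin R → E) : E →ₗ[K] E :=
  ∑ i : Fin R, (LinearMap.mulLeft K (b i)).comp ((FiniteField.frobeniusAlgHom K E) ^ (i : ℕ)).toLinearMap

open Classical in
/-- the `K`-linearly independent `m`-tuples of elements of `E` -/
noncomputable def Ind (E : Type) [Field E] [Fintype E] [Algebra K E] (m : ℕ) : Finset (Fin m → E) :=
  univ.filter fun x => LinearIndependent K x

/-- `Θ_m(y) = ∑_φ Ψ(∑_j φ_j y_j)`, the sum over all independent `φ` -/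
noncomputable def Th {E : Type} [Field E] [Fintype E] [Algebra K E] (Ψ : AddChar E ℝ) {m : ℕ} (y : Fin m → E) : ℝ :=
  ∑ φ ∈ Ind K E m, Ψ (∑ j, φ j * y j)

/-- the rank over `K` of a tuple -/
noncomputable def rk {E : Type} [Field E] [Algebra K E] {m : ℕ} (y : Fin m → E) : ℕ :=
  Module.finrank K (Submodule.span K (Set.range y))

/-- `dim ker D` -/
noncomputable def cr {E : Type} [Field E] [Algebra K E] (D : E →ₗ[K] E) : ℕ :=
  Module.finrank K (LinearMap.ker D)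

/-- the function `γ_m(D)`, a combination of the characters `Ψ(tr(C D))`, `rank C = m`, normalized by `γ_m(1) = 1` -/
noncomputable def gm {E : Type} [Field E] [Fintype E] [Algebra K E] (Ψ : AddChar E ℝ) (m : ℕ) (D : E →ₗ[K] E) : ℝ :=
  (∑ x ∈ Ind K E m, Th K Ψ fun j => D (x j)) /
    (((Ind K E m).card : ℝ) * ((-1) ^ m * (Fintype.card K : ℝ) ^ (m * (m - 1) / 2)))

open Classical in
/-- `R_D(c,d) = ∑_{v : D v = d} Ψ(c v)` -/
noncomputable def Rd {E : Type} [Field E] [Fintype E] [Algebra K E] (Ψ : AddChar E ℝ) (D : E →ₗ[K] E) (c d : E) : ℝ :=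
  ∑ v, if D v = d then Ψ (c * v) else 0

/-- the number of ordered bases of a space of dimension `m` over a field with `Q` elements -/
def gl (Q m : ℕ) : ℕ := ∏ i ∈ range m, (Q ^ m - Q ^ i)

end fields

/-! ## Sites -/

/-- `r_a(ω) = ∑_j x_a(j) M(j,ω)` -/
noncomputable def rr {X O L : Type} [Fintype X] (x : L → X → ℝ) (M : X → O → ℝ) (a : L) (ω : O) : ℝ :=
  ∑ j, x a j * M j ω

/-- A site: unit vectors `x a` with small coherence, a matrix `M` (an isometry from `ℓ₂^X` to `L₂(O)`, `O` with the uniform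
probability), `r a` = the image of `x a`; multipliers `gam a` such that `gam a * r a` is close to `r a` in `L_q` and has very
small coherence in `L₂`; sets `ind a` of measure `≥ 1 - β` where `|r a| = 1`. -/
structure Site (q : ℝ) (X O L : Type) [Fintype X] [Fintype O] (Cm β ε δ μ : ℝ) where
  x : L → X → ℝ
  M : X → O → ℝ
  gam : L → O → ℝ
  ind : L → O → ℝ
  norm_x : ∀ a, ∑ j, x a j ^ 2 = 1
  coh_x : ∀ a a', a ≠ a' → |∑ j, x a j * x a' j| ≤ δ
  iso_one : ∀ j, ∑ ω, M j ω * M j ω = Fintype.card O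
  iso_zero : ∀ j j', j ≠ j' → ∑ ω, M j ω * M j' ω = 0
  app : ∀ a, ∑ ω, |rr x M a ω - gam a ω * rr x M a ω| ^ q ≤ Fintype.card O * ε
  f_low : ∀ a, (Fintype.card O : ℝ) / 2 ≤ ∑ ω, (gam a ω * rr x M a ω) ^ 2
  f_up : ∀ a, ∑ ω, (gam a ω * rr x M a ω) ^ 2 ≤ Fintype.card O * Cm
  f_cross : ∀ a a', a ≠ a' →
    |∑ ω, gam a ω * rr x M a ω * (gam a' ω * rr x M a' ω)| ≤ Fintype.card O * μ
  ind_01 : ∀ a ω, ind a ω = 0 ∨ ind a ω = 1 ∧ |rr x M a ω| = 1
  ind_mean : ∀ a, Fintype.card O * (1 - β) ≤ ∑ ω, ind a ω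
  ind_cross : ∀ a a', a ≠ a' →
    |∑ ω, ind a ω * rr x M a ω * (ind a' ω * rr x M a' ω)| ≤ Fintype.card O * δ

/-- A family of `n` sites, and `v` atoms in each of them. -/
structure Fam (q : ℝ) (n v : ℕ) where
  nX : Fin n → ℕ
  nO : Fin n → ℕ
  nL : Fin n → ℕ
  Cm : Fin n → ℝ
  β : Fin n → ℝ
  ε : Fin n → ℝ
  δ : Fin n → ℝ
  μ : Fin n → ℝ
  S : ∀ l, Site q (Fin (nX l)) (Fin (nO l)) (Fin (nL l)) (Cm l) (β l) (ε l) (δ l) (μ l)
  lam : ∀ l, Fin v → Fin (nL l)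
  lam_inj : ∀ l, Function.Injective (lam l)
  nO_pos : ∀ l, 0 < nO l

section fam

variable {q : ℝ} {n v : ℕ} (F : Fam q n v)

/-- the product of the index sets of the vectors -/
abbrev Fam.PX : Type := ∀ l, Fin (F.nX l)

/-- the product of the probability spaces -/
abbrev Fam.PO : Type := ∀ l, Fin (F.nO l)

/-- tensor product of the unit vectors -/
noncomputable def Fam.x (t : Fin v) (j : F.PX) : ℝ := ∏ l, (F.S l).x (F.lam l t) (j l)

/-- tensor product of the matrices -/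
noncomputable def Fam.M (j : F.PX) (ω : F.PO) : ℝ := ∏ l, (F.S l).M (j l) (ω l)

/-- the row -/
noncomputable def Fam.r (t : Fin v) (ω : F.PO) : ℝ := ∏ l, rr (F.S l).x (F.S l).M (F.lam l t) (ω l)

/-- the row, multiplied by `gam` in the site `i` -/
noncomputable def Fam.f (i : Fin n) (t : Fin v) (ω : F.PO) : ℝ := (F.S i).gam (F.lam i t) (ω i) * F.r t ω

/-- the row, restricted to the product of the sets `ind` -/
noncomputable def Fam.y (t : Fin v) (ω : F.PO) : ℝ :=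
  ∏ l, ((F.S l).ind (F.lam l t) (ω l) * rr (F.S l).x (F.S l).M (F.lam l t) (ω l))

/-- the number of points of the product of the probability spaces -/
noncomputable def Fam.D : ℕ := Fintype.card F.PO

/-- an enumeration of the points -/
noncomputable def Fam.en : Fin F.D ≃ F.PO := (Fintype.equivFin F.PO).symm

/-- the normalized row -/
noncomputable def Fam.rN (t : Fin v) (ω : Fin F.D) : ℝ := (F.D : ℝ) ^ (-(1 / q)) * F.r t (F.en ω)

/-- the normalized functional -/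
noncomputable def Fam.fN (t : Fin v) (ω : Fin F.D) : ℝ := (F.D : ℝ) ^ (-((q - 1) / q)) * F.y t (F.en ω)

end fam

/-! ## Numbers -/

/-- the rank `ρ_l = 2^(l+1) M₀` of the characters in the site `l` -/
def rho (M₀ l : ℕ) : ℕ := 2 ^ (l + 1) * M₀

/-- the exponent `e_l = l + 5 + M₀`, `Q_l = 2^(e_l)` -/
def ee (M₀ l : ℕ) : ℕ := l + 5 + M₀

/-- the number `W_l = 2^(G 2^(m-l))` -/
def wl (G m l : ℕ) : ℕ := 2 ^ (G * 2 ^ (m - l))

/-- the exponent `κ`: the product of the probability spaces has `2^(Gκ)` points -/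
def kap (h M₀ m : ℕ) : ℕ := ∑ l ∈ range (m + 1), 2 ^ (m - l) * (2 * rho M₀ l + 2 * h)

/-! ## Stages -/

/-- The vectors `w t` give approximations of the rows `r t`: for every `i ≤ m` up to `1/(i+1)`, by combinations with
coefficients `≤ Cc i` of `⟨w t, B l ω⟩`, `l < L i`, where the matrices `B l` have norm at most `2^((l+1)/2)` from `ℓ₂` to
`ℓ_q^D`. -/
def ApxI (q : ℝ) (Cc : ℕ → ℝ) (L : ℕ → ℕ) (m : ℕ) {v D : ℕ} {ι : Type} [Fintype ι] (r : Fin v → Fin D → ℝ)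
    (w : Fin v → ι → ℝ) : Prop :=
  ∃ B : ℕ → ι → Fin D → ℝ,
    (∀ l (a : ι → ℝ), ∑ ω, |∑ j, a j * B l j ω| ^ q ≤ ((2 : ℝ) ^ (l + 1) * ∑ j, a j ^ 2) ^ (q / 2)) ∧
    ∀ i ≤ m, ∀ t, ∃ c : Fin (L i) → ℝ, (∀ l, |c l| ≤ Cc i) ∧
      ∑ ω, |r t ω - ∑ l, c l * ∑ j, w t j * B l j ω| ^ q ≤ (1 / ((i : ℝ) + 1)) ^ q

/-- The functionals `f t` have few large coordinates, `p > 2`: for every matrix `Λ` of norm at most `b ≤ m` from `ℓ_p^D` to
`ℓ_p^n` at most the part `1/(m+1)` of the `t` have a coordinate `|Λ_s(f_t)| ≥ 1/(m+1)`. -/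
def FewP (p : ℝ) (m : ℕ) {v D : ℕ} (f : Fin v → Fin D → ℝ) : Prop :=
  ∀ (b : ℝ) (n : ℕ) (Λ : Fin n → Fin D → ℝ), 0 ≤ b → b ≤ m →
    (∀ h : Fin D → ℝ, ∑ s, |∑ ω, Λ s ω * h ω| ^ p ≤ b ^ p * ∑ ω, |h ω| ^ p) →
    ∀ J : Finset (Fin v), (∀ t ∈ J, ∃ s, 1 / ((m : ℝ) + 1) ≤ |∑ ω, Λ s ω * f t ω|) →
      ((m : ℝ) + 1) * J.card ≤ v

/-- The `m`-th stage: the even block `(u, v, g)`, the odd block `(u', v', g')`. -/
structure Stage (q c : ℝ) (Cc : ℕ → ℝ) (L : ℕ → ℕ) (m : ℕ) {u v u' v' : ℕ}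
    (g : Fin v → EuclideanSpace ℝ (Fin u)) (g' : Fin v' → EuclideanSpace ℝ (Fin u')) where
  D : ℕ
  r : Fin v → Fin D → ℝ
  f : Fin v → Fin D → ℝ
  ι : Fin v → Fin v'
  ι_inj : Function.Injective ι
  r_norm : ∀ t, ∑ ω, |r t ω| ^ q ≤ 1
  f_norm : ∀ t, ∑ ω, |f t ω| ^ (q / (q - 1)) ≤ 1
  pair : ∀ t, c ≤ ∑ ω, f t ω * r t ω
  app : NM.Apx q Cc L m r id g
  app' : NM.Apx q Cc L m r ι g'
  few : FewP (q / (q - 1)) m f

end Pool.Agent.Lib.MP_537232_an.PG
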