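import Pool.Agent.Lib.MP_537232_an.PG.SpecA

set_option autoImplicit false

/-!
# MP_537232_an, directory PG: values and bounds for `γ_m`
-/

open Finset

namespace Pool.Agent.Lib.MP_537232_an.PG

namespace Gmb

/-- `n (n - 1) / 2` in the real numbers -/
theorem tri (n : ℕ) : ((n * (n - 1) / 2 : ℕ) : ℝ) = (n : ℝ) * (n - 1) / 2 := by
  obtain ⟨c, hc⟩ := Nat.even_mul_pred_self n
  have h1 : n * (n - 1) / 2 = c := by omega
  rw [h1]
  rcases Nat.eq_zero_or_pos n with rfl | hn
  · have : c = 0 := by omega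
    rw [this]
    simp
  · have h2 : ((n * (n - 1) : ℕ) : ℝ) = (c : ℝ) + c := by exact_mod_cast hc
    rw [Nat.cast_mul, Nat.cast_sub hn, Nat.cast_one] at h2
    linarith

/-- the inequality of the exponents -/
theorem expo (m j k : ℕ) (hj : j ≤ m) (hk : j ≤ k) :
    (j : ℝ) + ((m - j + k : ℕ) : ℝ) * j + ((m - j : ℕ) : ℝ) * ((m - j : ℕ) - 1) / 2 ≤
      (m : ℝ) * (m - 1) / 2 + (k : ℝ) * ((min k (2 * m) : ℕ) + 3) / 2 := by
  obtain ⟨a, rfl⟩ : ∃ a, m = j + a := ⟨m - j, by omega⟩
  obtain ⟨b, rfl⟩ : ∃ b, k = j + b := ⟨k - j, by omega⟩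
  have h1 : j + a - j = a := by omega
  rw [h1]
  push_cast
  have ha : (0 : ℝ) ≤ a := Nat.cast_nonneg a
  have hb : (0 : ℝ) ≤ b := Nat.cast_nonneg b
  have hj0 : (0 : ℝ) ≤ j := Nat.cast_nonneg j
  rcases le_total ((j : ℝ) + b) (2 * ((j : ℝ) + a)) with h | h
  · rw [min_eq_left h]
    nlinarith [mul_nonneg hb hb]
  · rw [min_eq_right h]
    nlinarith [mul_nonneg hb hj0, mul_nonneg ha hj0, mul_nonneg ha hb, mul_nonneg hj0 hj0]

/-- the bound of one term -/
theorem term {Q : ℝ} (hQ : 1 ≤ Q) (m j k : ℕ) (hj : j ≤ m) (hk : j ≤ k) (hm : (m : ℝ) ≤ Q) :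
    (m.choose j : ℝ) * ((Q ^ (m - j + k)) ^ j * Q ^ ((m - j) * (m - j - 1) / 2)) ≤
      Q ^ (m * (m - 1) / 2) * Q ^ ((k : ℝ) * ((min k (2 * m) : ℕ) + 3) / 2) := by
  have hQ0 : 0 < Q := lt_of_lt_of_le one_pos hQ
  have h1 : (m.choose j : ℝ) ≤ Q ^ j := by
    calc (m.choose j : ℝ) ≤ ((m ^ j : ℕ) : ℝ) := by exact_mod_cast Nat.choose_le_pow m j
      _ = (m : ℝ) ^ j := by push_cast; ring
      _ ≤ Q ^ j := pow_le_pow_left₀ (Nat.cast_nonneg m) hm j
  have h2 : (m.choose j : ℝ) * ((Q ^ (m - j + k)) ^ j * Q ^ ((m - j) * (m - j - 1) / 2)) ≤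
      Q ^ j * ((Q ^ (m - j + k)) ^ j * Q ^ ((m - j) * (m - j - 1) / 2)) :=
    mul_le_mul_of_nonneg_right h1 (by positivity)
  refine h2.trans ?_
  rw [← pow_mul, ← pow_add, ← pow_add, ← Real.rpow_natCast Q (j + _),
    ← Real.rpow_natCast Q (m * (m - 1) / 2), ← Real.rpow_add hQ0]
  apply Real.rpow_le_rpow_of_exponent_le hQ
  have h3 := expo m j k hj hk
  rw [Nat.cast_add, Nat.cast_add, Nat.cast_mul, tri, tri]
  linarith

end Gmb

open Gmb

open Classical in
theorem wGmb (h1 : S_Ker) (h2 : S_Cnt) (h3 : S_Tha) (h4 : S_Thb) (h5 : S_Njd) : S_Gmb := by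
  intro K E _ _ _ _ _ _ Ψ hΨ m hm hmQ hW D
  obtain ⟨-, hker, -, -⟩ := h1 K E D
  obtain ⟨-, hcard, -, -, -⟩ := h2 K E m hW
  have hW0 : (0 : ℝ) < Fintype.card E := by exact_mod_cast Fintype.card_pos
  have hQ0 : (0 : ℝ) < Fintype.card K := by exact_mod_cast Fintype.card_pos
  have hQ1 : (1 : ℝ) ≤ Fintype.card K := by
    exact_mod_cast (Nat.succ_le_of_lt (Fintype.card_pos (α := K)))
  have hWm : (0 : ℝ) < (Fintype.card E : ℝ) ^ m / 2 := by positivity
  have hc0 : (0 : ℝ) < ((Ind K E m).card : ℝ) := lt_of_lt_of_le hWm hcard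
  have hs0 : (0 : ℝ) < (Fintype.card K : ℝ) ^ (m * (m - 1) / 2) := by positivity
  have hind : ∀ x ∈ Ind K E m, LinearIndependent K x := by
    intro x hx
    exact (Finset.mem_filter.1 hx).2
  constructor
  · intro h0
    have hinj := hker.1 h0
    have hT : ∀ x ∈ Ind K E m, (Th K Ψ fun j => D (x j)) =
        (-1) ^ m * (Fintype.card K : ℝ) ^ (m * (m - 1) / 2) := by
      intro x hx
      exact h3 K E Ψ hΨ m _ ((hind x hx).map' D (LinearMap.ker_eq_bot.2 hinj))
    unfold gm
    rw [Finset.sum_congr rfl hT, Finset.sum_const, nsmul_eq_mul]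
    apply div_self
    exact mul_ne_zero hc0.ne' (mul_ne_zero (pow_ne_zero m (by norm_num)) hs0.ne')
  · intro hk
    set k := cr K D with hkdef
    set B : ℝ := (k : ℝ) * ((min k (2 * m) : ℕ) + 3) / 2 with hB
    obtain ⟨hr, hN⟩ := h5 K E D m
    obtain ⟨-, hTb⟩ := h4 K E Ψ hΨ m
    -- the sum of the absolute values
    have hsum : ∑ x ∈ Ind K E m, |Th K Ψ fun j => D (x j)| ≤
        ((k : ℝ) + 1) * ((Fintype.card E : ℝ) ^ m *
          ((Fintype.card K : ℝ) ^ (m * (m - 1) / 2) * (Fintype.card K : ℝ) ^ B)) := by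
      have hmaps : ∀ x ∈ Ind K E m, m - rk K (fun j => D (x j)) ∈ range (k + 1) := by
        intro x hx
        have h6 := hr x (hind x hx)
        rw [Finset.mem_range]
        omega
      rw [← Finset.sum_fiberwise_of_maps_to hmaps]
      have hfib : ∀ j ∈ range (k + 1),
          ∑ x ∈ (Ind K E m).filter (fun x => m - rk K (fun j => D (x j)) = j),
            |Th K Ψ fun j => D (x j)| ≤ (Fintype.card E : ℝ) ^ m *
          ((Fintype.card K : ℝ) ^ (m * (m - 1) / 2) * (Fintype.card K : ℝ) ^ B) := by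
        intro j hj
        rw [Finset.mem_range] at hj
        have hpos : 0 ≤ (Fintype.card E : ℝ) ^ m *
          ((Fintype.card K : ℝ) ^ (m * (m - 1) / 2) * (Fintype.card K : ℝ) ^ B) := by positivity
        by_cases hjm : j ≤ m
        · have hle : ∀ x ∈ (Ind K E m).filter (fun x => m - rk K (fun j => D (x j)) = j),
              |Th K Ψ fun j => D (x j)| ≤
                (Fintype.card K : ℝ) ^ ((m - j) * (m - j - 1) / 2) *
                  (Fintype.card E : ℝ) ^ j := by
            intro x hx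
            obtain ⟨hx1, hx2⟩ := Finset.mem_filter.1 hx
            have h6 := hr x (hind x hx1)
            have h7 : rk K (fun j => D (x j)) = m - j := by omega
            have h8 := hTb (fun j => D (x j))
            rw [h7] at h8
            have h9 : m - (m - j) = j := by omega
            rw [h9] at h8
            exact h8
          have hcle : (((Ind K E m).filter
              (fun x => m - rk K (fun j => D (x j)) = j)).card : ℝ) ≤
              (m.choose j : ℝ) * (Fintype.card E : ℝ) ^ (m - j) *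
                ((Fintype.card K : ℝ) ^ (m - j + k)) ^ j := by
            have h6 := hN j hjm
            have h7 : ((Ind K E m).filter
              (fun x => m - rk K (fun j => D (x j)) = j)).card ≤
                ((Ind K E m).filter fun x => rk K (fun i => D (x i)) = m - j).card := by
              apply Finset.card_le_card
              intro x hx
              obtain ⟨hx1, hx2⟩ := Finset.mem_filter.1 hx
              have h8 := hr x (hind x hx1)
              exact Finset.mem_filter.2 ⟨hx1, by omega⟩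
            have h8 := h7.trans h6
            exact_mod_cast h8
          have ht := term hQ1 m j k hjm (by omega) (by exact_mod_cast hmQ)
          calc ∑ x ∈ (Ind K E m).filter (fun x => m - rk K (fun j => D (x j)) = j),
              |Th K Ψ fun j => D (x j)|
              ≤ (((Ind K E m).filter
                (fun x => m - rk K (fun j => D (x j)) = j)).card : ℝ) *
                ((Fintype.card K : ℝ) ^ ((m - j) * (m - j - 1) / 2) *
                  (Fintype.card E : ℝ) ^ j) := by
                have h6 := Finset.sum_le_card_nsmul _ _ _ hle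
                rwa [nsmul_eq_mul] at h6
            _ ≤ ((m.choose j : ℝ) * (Fintype.card E : ℝ) ^ (m - j) *
                ((Fintype.card K : ℝ) ^ (m - j + k)) ^ j) *
                ((Fintype.card K : ℝ) ^ ((m - j) * (m - j - 1) / 2) *
                  (Fintype.card E : ℝ) ^ j) := mul_le_mul_of_nonneg_right hcle (by positivity)
            _ = (Fintype.card E : ℝ) ^ m * ((m.choose j : ℝ) *
                (((Fintype.card K : ℝ) ^ (m - j + k)) ^ j *
                  (Fintype.card K : ℝ) ^ ((m - j) * (m - j - 1) / 2))) := by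
                have h6 : (Fintype.card E : ℝ) ^ m =
                    (Fintype.card E : ℝ) ^ (m - j) * (Fintype.card E : ℝ) ^ j := by
                  rw [← pow_add]
                  congr 1
                  omega
                rw [h6]
                ring
            _ ≤ _ := mul_le_mul_of_nonneg_left ht (by positivity)
        · have hemp : (Ind K E m).filter (fun x => m - rk K (fun j => D (x j)) = j) = ∅ := by
            apply Finset.filter_eq_empty_iff.2
            intro x _ h
            omega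
          rw [hemp, Finset.sum_empty]
          exact hpos
      have h6 := Finset.sum_le_card_nsmul _ _ _ hfib
      rw [Finset.card_range, nsmul_eq_mul] at h6
      push_cast at h6
      exact h6
    have habs : |gm K Ψ m D| ≤ (∑ x ∈ Ind K E m, |Th K Ψ fun j => D (x j)|) /
        (((Ind K E m).card : ℝ) * (Fintype.card K : ℝ) ^ (m * (m - 1) / 2)) := by
      unfold gm
      rw [abs_div, abs_mul, abs_mul, abs_pow, abs_neg, abs_one, one_pow, one_mul,
        abs_of_pos hc0, abs_of_pos hs0]
      exact div_le_div_of_nonneg_right (Finset.abs_sum_le_sum_abs _ _) (by positivity)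
    refine habs.trans ?_
    rw [div_le_iff₀ (by positivity)]
    refine hsum.trans ?_
    have h7 : (Fintype.card E : ℝ) ^ m ≤ 2 * ((Ind K E m).card : ℝ) := by linarith
    have h8 : 0 ≤ ((k : ℝ) + 1) * ((Fintype.card K : ℝ) ^ (m * (m - 1) / 2) *
      (Fintype.card K : ℝ) ^ B) := by positivity
    calc ((k : ℝ) + 1) * ((Fintype.card E : ℝ) ^ m *
          ((Fintype.card K : ℝ) ^ (m * (m - 1) / 2) * (Fintype.card K : ℝ) ^ B))
        = (Fintype.card E : ℝ) ^ m * (((k : ℝ) + 1) * ((Fintype.card K : ℝ) ^ (m * (m - 1) / 2) *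
          (Fintype.card K : ℝ) ^ B)) := by ring
      _ ≤ (2 * ((Ind K E m).card : ℝ)) * (((k : ℝ) + 1) *
          ((Fintype.card K : ℝ) ^ (m * (m - 1) / 2) * (Fintype.card K : ℝ) ^ B)) :=
          mul_le_mul_of_nonneg_right h7 h8
      _ = _ := by ring

end Pool.Agent.Lib.MP_537232_an.PG
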