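import Pool.Agent.Lib.MP_537232_an.PG.SpecB

set_option autoImplicit false

/-!
# MP_537232_an, PG/Pra: products, the vectors and the matrix
-/

open Finset

namespace Pool.Agent.Lib.MP_537232_an.PG

namespace Pra

/-- sums of products are products of sums -/
private theorem sumprod {n : ℕ} (d : Fin n → ℕ) (f : ∀ l, Fin (d l) → ℝ) :
    ∑ j : (∀ l, Fin (d l)), ∏ l, f l (j l) = ∏ l, ∑ i, f l i := by
  rw [Finset.prod_univ_sum, Fintype.piFinset_univ]

/-- the inner product of two unit vectors -/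
private theorem cs {X : Type} [Fintype X] (x y : X → ℝ) (hx : ∑ j, x j ^ 2 = 1)
    (hy : ∑ j, y j ^ 2 = 1) : |∑ j, x j * y j| ≤ 1 := by
  have h := Finset.sum_mul_sq_le_sq_mul_sq univ x y
  rw [hx, hy, mul_one] at h
  exact (sq_le_one_iff_abs_le_one _).1 h

/-- a product of numbers at most one, one of which is at most `δ` -/
private theorem prod_le {n : ℕ} (f : Fin n → ℝ) (δ : ℝ) (l : Fin n) (h0 : ∀ i, 0 ≤ f i)
    (h1 : ∀ i, f i ≤ 1) (hl : f l ≤ δ) : ∏ i, f i ≤ δ := by
  rw [← Finset.mul_prod_erase univ f (Finset.mem_univ l)]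
  have h2 : ∏ i ∈ univ.erase l, f i ≤ 1 := Finset.prod_le_one (fun i _ => h0 i) fun i _ => h1 i
  have h3 : 0 ≤ ∏ i ∈ univ.erase l, f i := Finset.prod_nonneg fun i _ => h0 i
  calc f l * ∏ i ∈ univ.erase l, f i ≤ f l * 1 := mul_le_mul_of_nonneg_left h2 (h0 l)
    _ ≤ δ := by rw [mul_one]; exact hl

/-- power means -/
private theorem power_mean {O : Type} [Fintype O] (q : ℝ) (hq : 0 < q) (hq2 : q < 2) (z : O → ℝ) :
    ∑ ω, |z ω| ^ q ≤ (Fintype.card O : ℝ) ^ (1 - q / 2) * (∑ ω, z ω ^ 2) ^ (q / 2) := by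
  have h1 : (1 : ℝ) ≤ 2 / q := by rw [le_div_iff₀ hq]; linarith
  have h2 := Real.rpow_sum_le_const_mul_sum_rpow (univ : Finset O) (fun ω => |z ω| ^ q) h1
  have h3 : ∀ ω, |(|z ω| ^ q)| = |z ω| ^ q := fun ω => abs_of_nonneg (by positivity)
  have h4 : ∀ ω, (|z ω| ^ q) ^ (2 / q) = z ω ^ 2 := by
    intro ω
    rw [← Real.rpow_mul (abs_nonneg _), mul_div_cancel₀ _ hq.ne', Real.rpow_two, sq_abs]
  simp only [h3, h4, Finset.card_univ] at h2
  have h5 : 0 ≤ ∑ ω, |z ω| ^ q := Finset.sum_nonneg fun ω _ => by positivity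
  have h6 : 0 ≤ ∑ ω, z ω ^ 2 := Finset.sum_nonneg fun ω _ => sq_nonneg _
  have h7 := Real.rpow_le_rpow (by positivity) h2 (by positivity : (0 : ℝ) ≤ q / 2)
  rw [← Real.rpow_mul h5, div_mul_div_comm, mul_comm 2 q, div_self (by positivity),
    Real.rpow_one, Real.mul_rpow (by positivity) h6, ← Real.rpow_mul (by positivity)] at h7
  have h8 : (2 / q - 1) * (q / 2) = 1 - q / 2 := by
    field_simp
  rwa [h8] at h7

end Pra

open Pra in
theorem wPra : S_Pra := by
  intro q hq1 hq2 n v F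
  classical
  have hpar : ∀ j j' : F.PX, ∑ ω, F.M j ω * F.M j' ω =
      if j = j' then (Fintype.card F.PO : ℝ) else 0 := by
    intro j j'
    have e1 : ∑ ω, F.M j ω * F.M j' ω =
        ∏ l, ∑ ω, (F.S l).M (j l) ω * (F.S l).M (j' l) ω := by
      rw [← sumprod F.nO fun l ω => (F.S l).M (j l) ω * (F.S l).M (j' l) ω]
      refine Finset.sum_congr rfl fun ω _ => ?_
      unfold Fam.M
      rw [Finset.prod_mul_distrib]
    rw [e1]
    split_ifs with h
    · subst h
      rw [Fintype.card_pi]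
      push_cast
      refine Finset.prod_congr rfl fun l _ => ?_
      exact (F.S l).iso_one (j l)
    · obtain ⟨l, hl⟩ := Function.ne_iff.1 h
      exact Finset.prod_eq_zero (Finset.mem_univ l) ((F.S l).iso_zero _ _ hl)
  refine ⟨?_, ?_, ?_, ?_⟩
  · intro t
    have e1 : ∑ j, F.x t j ^ 2 = ∏ l, ∑ i, (F.S l).x (F.lam l t) i ^ 2 := by
      rw [← sumprod F.nX fun l i => (F.S l).x (F.lam l t) i ^ 2]
      refine Finset.sum_congr rfl fun j _ => ?_
      unfold Fam.x
      rw [Finset.prod_pow]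
    rw [e1]
    exact Finset.prod_eq_one fun l _ => (F.S l).norm_x _
  · intro t t' htt l
    have e1 : ∑ j, F.x t j * F.x t' j =
        ∏ l, ∑ i, (F.S l).x (F.lam l t) i * (F.S l).x (F.lam l t') i := by
      rw [← sumprod F.nX fun l i => (F.S l).x (F.lam l t) i * (F.S l).x (F.lam l t') i]
      refine Finset.sum_congr rfl fun j _ => ?_
      unfold Fam.x
      rw [Finset.prod_mul_distrib]
    rw [e1, Finset.abs_prod]
    refine prod_le _ _ l (fun i => abs_nonneg _) (fun i => ?_) ?_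
    · exact cs _ _ ((F.S i).norm_x _) ((F.S i).norm_x _)
    · exact (F.S l).coh_x _ _ fun h => htt (F.lam_inj l h)
  · intro t ω
    unfold Fam.r rr
    rw [← sumprod F.nX fun l i => (F.S l).x (F.lam l t) i * (F.S l).M i (ω l)]
    refine Finset.sum_congr rfl fun j _ => ?_
    unfold Fam.x Fam.M
    rw [Finset.prod_mul_distrib]
  · intro a
    have hN : 0 < (Fintype.card F.PO : ℝ) := by
      rw [Fintype.card_pi]
      push_cast
      refine Finset.prod_pos fun l _ => ?_
      rw [Fintype.card_fin]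
      exact_mod_cast F.nO_pos l
    have h1 := power_mean q (by linarith) hq2 fun ω => ∑ j, a j * F.M j ω
    have h2 : ∑ ω, (∑ j, a j * F.M j ω) ^ 2 = Fintype.card F.PO * ∑ j, a j ^ 2 := by
      have e1 : ∀ ω, (∑ j, a j * F.M j ω) ^ 2 =
          ∑ j, ∑ j', a j * a j' * (F.M j ω * F.M j' ω) := by
        intro ω
        rw [sq, Finset.sum_mul_sum]
        refine Finset.sum_congr rfl fun j _ => Finset.sum_congr rfl fun j' _ => ?_
        ring
      rw [Finset.sum_congr rfl fun ω _ => e1 ω, Finset.sum_comm, Finset.mul_sum]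
      refine Finset.sum_congr rfl fun j _ => ?_
      rw [Finset.sum_comm]
      have e2 : ∀ j', ∑ ω, a j * a j' * (F.M j ω * F.M j' ω) =
          if j = j' then a j * a j' * (Fintype.card F.PO : ℝ) else 0 := by
        intro j'
        rw [← Finset.mul_sum, hpar]
        split_ifs <;> simp
      rw [Finset.sum_congr rfl fun j' _ => e2 j', Finset.sum_ite_eq, if_pos (Finset.mem_univ _)]
      ring
    rw [h2, Real.mul_rpow hN.le (Finset.sum_nonneg fun j _ => sq_nonneg _), ← mul_assoc,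
      ← Real.rpow_add hN, sub_add_cancel, Real.rpow_one] at h1
    exact h1

end Pool.Agent.Lib.MP_537232_an.PG
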