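import Pool.Agent.Lib.MP_537232_an.PG.Defs

set_option autoImplicit false

/-!
# MP_537232_an, directory PG, part A: finite fields, the sites

Every statement `S_Xxx` is a `Prop`, proved in its own file `PG/Xxx.lean` (`theorem wXxx`), with the statements it uses as
hypotheses.  The complete proofs are in the docstrings.

`K ⊂ E` are finite fields of characteristic 2, `Q = card K`, `W = card E`, `Ψ : E → {±1}` is a nontrivial additive character.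
For `b : Fin R → E` let `L_b v = ∑_{i<R} b_i v^(Q^i)` (`Lq K b`, a `K`-linear map).  `γ_m(D)` (`gm`) is the normalized sum of the
characters `D ↦ Ψ(∑_j φ_j D x_j)` over all independent `m`-tuples `x`, `φ`.
-/

open Finset

namespace Pool.Agent.Lib.MP_537232_an.PG

/-- **Lqa.**  `Q`-polynomials.

Proof.  `FiniteField.frobeniusAlgHom K E` is `v ↦ v^Q` (`coe_frobeniusAlgHom`), its `i`-th power is `v ↦ v^(Q^i)` (`AlgHom.coe_pow`, `pow_iterate`).  The polynomial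
`∑_{i<R} b_i X^(Q^i) ≠ 0` has degree `≤ Q^(R-1)` (`Q ≥ 2`, so the exponents `Q^i` are different), hence at most `Q^(R-1)` roots; the
kernel of `Lq K b` has `Q^cr` elements (`Module.card_eq_pow_finrank`), so `cr ≤ R - 1`. -/
def S_Lqa : Prop := ∀ (K E : Type) [Field K] [Field E] [Fintype K] [Fintype E] [Algebra K E] (R : ℕ) (b b' : Fin R → E),
  (∀ v, Lq K b v = ∑ i, b i * v ^ (Fintype.card K ^ (i : ℕ))) ∧ Lq K (b + b') = Lq K b + Lq K b' ∧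
  (b ≠ 0 → cr K (Lq K b) ≤ R - 1)

open Classical in
/-- **Ker.**  Kernels.

Proof.  `Module.card_eq_pow_finrank` for the subspace `ker D`.  `Fintype.card E = card K ^ finrank K E`. -/
def S_Ker : Prop := ∀ (K E : Type) [Field K] [Field E] [Fintype K] [Fintype E] [Algebra K E] (D : E →ₗ[K] E),
  ((univ.filter fun v => D v = 0).card = Fintype.card K ^ cr K D) ∧ (cr K D = 0 ↔ Function.Injective D) ∧
  Fintype.card K ^ cr K (0 : E →ₗ[K] E) = Fintype.card E ∧ cr K D ≤ cr K (0 : E →ₗ[K] E)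

/-- **Fld.**  The fields.

Proof.  `K = GaloisField 2 e`, `E = FiniteField.Extension K 2 N` (`Mathlib.FieldTheory.Finite.Extension`; `natCard_extension`), `Fintype.ofFinite`.  Characteristic 2:
`charP_of_injective_algebraMap`.  `Ψ`: `E` is a vector space over `ZMod 2`, not `0`: there is a linear functional `f ≠ 0` with values in `ZMod 2`, `Ψ x = 1` if
`f x = 0` and `Ψ x = -1` if `f x = 1` (e.g. `(-1)^(f x).val`). -/
def S_Fld : Prop := ∀ e N : ℕ, 1 ≤ e → 1 ≤ N → ∃ (K E : Type) (_ : Field K) (_ : Field E) (_ : Fintype K)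
  (_ : Fintype E) (_ : Algebra K E) (_ : CharP E 2) (Ψ : AddChar E ℝ), Ψ ≠ 1 ∧ Fintype.card K = 2 ^ e ∧
  Fintype.card E = 2 ^ (e * N)

/-- **Chs.**  Character sums.

Proof.  `Ψ(x)² = Ψ(x+x) = Ψ(0) = 1`.  `AddChar.sum_eq_zero_of_ne_one` (for `v ↦ Ψ(c v)`, `c ≠ 0`, which is nontrivial, and for the character
`b ↦ Ψ(∑ b_i c_i)` of `Fin R → E`). -/
def S_Chs : Prop := ∀ (E : Type) [Field E] [Fintype E] [CharP E 2] (Ψ : AddChar E ℝ), Ψ ≠ 1 →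
  (∀ x, Ψ x = 1 ∨ Ψ x = -1) ∧ (∀ c, c ≠ 0 → ∑ v, Ψ (c * v) = 0) ∧
  ∀ (R : ℕ) (c : Fin R → E), c ≠ 0 → ∑ b : Fin R → E, Ψ (∑ i, b i * c i) = 0

open Classical in
/-- **Moo** (from `Lqa`).  Moore's lemma.

Proof.  (1) Fix the coordinates `b_i, …, b_(R-1)` (`W^(R-i)` choices).  The map `E^i → E^i`, `(b_0, …, b_(i-1)) ↦ (L_b x_j)_j` (only these coordinates) is additive and
injective: if `L_b x_j = 0` for all `j` then `L_b` vanishes on `span(x)`, which has dimension `i`, so `cr K (L_b) ≥ i` and `b = 0` by `Lqa` (if `i ≥ 1`;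
`i = 0` is trivial).  So it is bijective, and exactly one choice of `(b_0, …, b_(i-1))` gives the values `y_j` (minus the contribution of the fixed
coordinates).  (2) Let `z` be a basis of `span(u)` (`r = rk u ≤ R` elements); by (1) there is `b : Fin R → E` with `L_b z_j = D z_j`, so `L_b = D` on
`span(u)`, and `∑_j c_j D u_j = ∑_j c_j L_b u_j = ∑_i b_i ∑_j c_j u_j^(Q^i) = 0`. -/
def S_Moo : Prop := ∀ (K E : Type) [Field K] [Field E] [Fintype K] [Fintype E] [Algebra K E],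
  (∀ i R : ℕ, i ≤ R → ∀ x : Fin i → E, LinearIndependent K x → ∀ y : Fin i → E,
    (univ.filter fun b : Fin R → E => ∀ j, Lq K b (x j) = y j).card = Fintype.card E ^ (R - i)) ∧
  ∀ (R n : ℕ) (u c : Fin n → E), rk K u ≤ R → (∀ i < R, ∑ j, c j * u j ^ (Fintype.card K ^ i) = 0) →
    ∀ D : E →ₗ[K] E, ∑ j, c j * D (u j) = 0

/-- **Sym** (from `Moo`).  The characters are different.

Proof.  `Moo`(2) for the `2m`-tuple `(y, y')` with the coefficients `(φ, φ')` (`Fin.append`, `rk ≤ 2m`): `∑φ_j D y_j + ∑φ'_j D y'_j = 0` for all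
`K`-linear `D`.  (1) If `span y ≠ span y'`: both have dimension `m`, so some `y_j ∉ span y'`; there is a `K`-linear functional `ξ : E → K` with `ξ = 0` on
`span y'` and `ξ(y_j) = 1` (`Submodule.exists_le_ker_of_lt_top`-like, `Submodule.exists_dual_map_eq_bot_of_notMem`); `D v = algebraMap (ξ v)`: `∑_k ξ(y_k) • φ_k = 0`, so `ξ(y_k) = 0` for all `k`
(`φ` is independent), a contradiction.  (2) If `y = y'`: for each `j` a functional `ξ` with `ξ(y_k) = δ_jk` (extend to a basis, or `LinearIndependent` dual) gives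
`φ_j + φ'_j = 0`, so `φ_j = φ'_j` (characteristic 2). -/
def S_Sym : Prop := ∀ (K E : Type) [Field K] [Field E] [Fintype K] [Fintype E] [Algebra K E] [CharP E 2] (m : ℕ)
  (y y' φ φ' : Fin m → E), LinearIndependent K y → LinearIndependent K y' → LinearIndependent K φ →
  LinearIndependent K φ' →
  (∀ i < 2 * m, ∑ j, φ j * y j ^ (Fintype.card K ^ i) + ∑ j, φ' j * y' j ^ (Fintype.card K ^ i) = 0) →
  Submodule.span K (Set.range y) = Submodule.span K (Set.range y') ∧ (y = y' → φ = φ')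

open Classical in
/-- **Cnt.**  Numbers of independent tuples.

Proof.  (1) `card_linearIndependent` (`W = Q^N`, `m ≤ N` since `Q^m ≤ W`).  (2) `∏(W - Q^i) ≥ W^m ∏(1 - Q^i/W) ≥ W^m (1 - ∑_{i<m} Q^i/W)` and `∑_{i<m}Q^i ≤ Q^m ≤ W/2`
(`Q ≥ 2`; Weierstrass: `Finset.prod_one_sub_...`, or induction).  (3) The independent tuples with span `X = span y` are the independent tuples of the space `X`
(dimension `m`): `card_linearIndependent` for `X`.  (4) Choose one tuple for every span: `Rm` = image of `Ind` under a function which maps `x` to a fixed tuple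
with the span of `x` (`Classical.choice` on the fibres of `x ↦ span x`).  Sum over the fibres (`Finset.sum_fiberwise`-like) with (3).  (5) clear. -/
def S_Cnt : Prop := ∀ (K E : Type) [Field K] [Field E] [Fintype K] [Fintype E] [Algebra K E] (m : ℕ),
  2 * Fintype.card K ^ m ≤ Fintype.card E →
  (Ind K E m).card = ∏ i ∈ range m, (Fintype.card E - Fintype.card K ^ i) ∧
  (Fintype.card E : ℝ) ^ m / 2 ≤ (Ind K E m).card ∧
  (∀ y ∈ Ind K E m, ((Ind K E m).filter fun x => Submodule.span K (Set.range x) = Submodule.span K (Set.range y)).card =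
    gl (Fintype.card K) m) ∧
  (∃ Rm ⊆ Ind K E m, (∀ y ∈ Rm, ∀ y' ∈ Rm, Submodule.span K (Set.range y) = Submodule.span K (Set.range y') → y = y') ∧
    ∀ G : (Fin m → E) → ℝ, (∀ x ∈ Ind K E m, ∀ x' ∈ Ind K E m,
      Submodule.span K (Set.range x) = Submodule.span K (Set.range x') → G x = G x') →
      ∑ x ∈ Ind K E m, G x = gl (Fintype.card K) m * ∑ y ∈ Rm, G y) ∧
  gl (Fintype.card K) m ≤ Fintype.card K ^ (m * m)

/-- **Tha** (from `Chs`).  The value of `Θ_m` at independent tuples.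

Proof.  Induction on `m`.  `m = 0`: one term, `Ψ(0) = 1`.  `m → m+1`: an independent `(m+1)`-tuple is `Fin.snoc φ w` with `φ` independent and `w ∉ span φ`
(`linearIndependent_finSnoc` or `linearIndependent_fin_succ'`).  For fixed `φ`, with `z = y_m ≠ 0` (the last one): `∑_{w ∉ span φ}Ψ(w z) = ∑_wΨ(w z) - ∑_{w ∈ span φ}Ψ(w z) = 0 - ∑_{a : Fin m → K}Ψ((∑_j a_jφ_j) z)`
(`Chs`; `a ↦ ∑a_jφ_j` is a bijection of `K^m` onto the span).  So `Θ_(m+1)(y) = -∑_a ∑_φ Ψ(∑_j φ_j(y_j + a_j z)) = -∑_aΘ_m((y_j + a_j z)_{j<m})`, and the `m`-tuple `(y_j + a_j z)_{j<m}` is independent.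
By induction the value is `-Q^m (-1)^m Q^(m(m-1)/2) = (-1)^(m+1) Q^((m+1)m/2)`. -/
def S_Tha : Prop := ∀ (K E : Type) [Field K] [Field E] [Fintype K] [Fintype E] [Algebra K E] [CharP E 2]
  (Ψ : AddChar E ℝ), Ψ ≠ 1 → ∀ (m : ℕ) (y : Fin m → E), LinearIndependent K y →
    Th K Ψ y = (-1) ^ m * (Fintype.card K : ℝ) ^ (m * (m - 1) / 2)

/-- **Thb** (from `Tha`).  Invariance, and the bound for `Θ_m`.

Proof.  (1) `x'_j = ∑_i g_ij x_i` with an invertible matrix `g` over `K` (both are bases of the same space).  `∑_jφ_j D x'_j = ∑_i(∑_jg_ijφ_j)D x_i`, and `φ ↦ (∑_jg_ijφ_j)_i` is a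
bijection of the independent tuples.  (2) Induction on `m`.  If `rk y = m`, `y` is independent: `Tha`.  Otherwise (`m ≥ 1`) some `y_s` is a combination
`∑_{j≠s}c_j y_j`, `c_j ∈ K`.  The map `φ ↦ φ'`, `φ'_j = φ_j + c_jφ_s` (`j ≠ s`), `φ'_s = φ_s`, is a bijection of the independent tuples and `∑φ_jy_j = ∑_{j≠s}φ'_jy_j`.  So `Θ_m(y)` is the sum over
`φ'` of `Ψ(∑_{j≠s}φ'_jy_j)`; for fixed `(φ'_j)_{j≠s}` (an independent `(m-1)`-tuple) the number of `φ'_s` (not in the span) is `W - Q^(m-1)`, so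
`|Θ_m(y)| = (W - Q^(m-1))|Θ_(m-1)((y_j)_{j≠s})| ≤ W·|Θ_(m-1)|`, and the rank of `(y_j)_{j≠s}` is again `rk y` (`Fin.insertNth`, `Fin.succAbove`; or move `s` to the last place by a
permutation of the indices). -/
def S_Thb : Prop := ∀ (K E : Type) [Field K] [Field E] [Fintype K] [Fintype E] [Algebra K E] [CharP E 2]
  (Ψ : AddChar E ℝ), Ψ ≠ 1 → ∀ m : ℕ,
  (∀ (x x' : Fin m → E) (D : E →ₗ[K] E), LinearIndependent K x → LinearIndependent K x' →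
    Submodule.span K (Set.range x) = Submodule.span K (Set.range x') →
    Th K Ψ (fun j => D (x j)) = Th K Ψ fun j => D (x' j)) ∧
  ∀ y : Fin m → E, |Th K Ψ y| ≤ (Fintype.card K : ℝ) ^ (rk K y * (rk K y - 1) / 2) *
    (Fintype.card E : ℝ) ^ (m - rk K y)

open Classical in
/-- **Njd.**  The number of tuples with a given rank of the image.

Proof.  (1) `span(D∘x) = D(span x)`, rank-nullity for the restriction of `D` to `span x` (dimension `m`); its kernel is contained in `ker D`.  (2) Let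
`rk (D∘x) = m - j`.  There is a set `I` of `j` indices such that the `D x_l`, `l ∉ I`, are a basis of `span(D∘x)` (`exists_linearIndependent'`, or a minimal spanning
subfamily).  For fixed `I` (`C(m,j)` choices): `(x_l)_{l∉I}` has at most `W^(m-j)` values, and given these, every `x_i`, `i ∈ I`, is in `D⁻¹(span{D x_l : l ∉ I})`, which has at most
`Q^(cr D)·Q^(m-j)` elements. -/
def S_Njd : Prop := ∀ (K E : Type) [Field K] [Field E] [Fintype K] [Fintype E] [Algebra K E] (D : E →ₗ[K] E) (m : ℕ),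
  (∀ x : Fin m → E, LinearIndependent K x → m ≤ rk K (fun j => D (x j)) + cr K D ∧ rk K (fun j => D (x j)) ≤ m) ∧
  ∀ j ≤ m, ((Ind K E m).filter fun x => rk K (fun i => D (x i)) = m - j).card ≤
    m.choose j * Fintype.card E ^ (m - j) * (Fintype.card K ^ (m - j + cr K D)) ^ j

/-- **Gmb** (from `Ker`, `Cnt`, `Tha`, `Thb`, `Njd`).  Values and bounds for `γ_m`.

Proof.  (1) `D` injective: `D∘x` is independent for independent `x`, so all terms are `(-1)^mQ^(m(m-1)/2)` (`Tha`), and `Ind` is not empty (`Cnt`).  (2) `k = cr D ≥ 1`, `N_m = card Ind ≥ W^m/2`.  By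
`Thb`, `Njd`: `|γ_m(D)| ≤ (N_m Q^(m(m-1)/2))⁻¹∑_{x}|Θ_m(D∘x)|`, group the `x` by `j = m - rk(D∘x) ≤ min(m,k)`:
`≤ 2W^(-m)Q^(-m(m-1)/2)∑_{j≤min(m,k)}C(m,j)W^(m-j)Q^(j(m-j+k))Q^((m-j)(m-j-1)/2)W^j = 2∑_jC(m,j)Q^(jk-j(j-1)/2)`, and `C(m,j) ≤ m^j ≤ Q^j`.  The exponent `jk - j(j-3)/2` is increasing for
`j ≤ k`, so with `i = min(m,k)` the sum is at most `(k+1)Q^(ik-i(i-3)/2)`, and `ik - i(i-3)/2 ≤ k(min(k,2m)+3)/2`: for `k ≤ m` both sides are `k(k+3)/2`; for `m < k ≤ 2m` it says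
`0 ≤ (k-m)² + 3(k-m)`; for `k > 2m` it says `3m - m² ≤ 3k`. -/
def S_Gmb : Prop := ∀ (K E : Type) [Field K] [Field E] [Fintype K] [Fintype E] [Algebra K E] [CharP E 2]
  (Ψ : AddChar E ℝ), Ψ ≠ 1 → ∀ m : ℕ, 1 ≤ m → m ≤ Fintype.card K → 2 * Fintype.card K ^ m ≤ Fintype.card E →
  ∀ D : E →ₗ[K] E, (cr K D = 0 → gm K Ψ m D = 1) ∧
    (1 ≤ cr K D → |gm K Ψ m D| ≤ 2 * ((cr K D : ℝ) + 1) *
      (Fintype.card K : ℝ) ^ ((cr K D : ℝ) * ((min (cr K D) (2 * m) : ℕ) + 3) / 2))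

/-- **Orh** (from `Lqa`, `Chs`, `Sym`, `Cnt`, `Thb`).  Orthogonality.

Proof.  `s = (-1)^mQ^(m(m-1)/2)`.  `G_D(x) = Θ_m(D∘x)` depends only on the span of `x` (`Thb`), so by `Cnt`, for all `D`: `γ_m(D) = (∑_{y∈Rm}Θ_m(D∘y))/(card Rm · s)`, and
`card Ind = gl·card Rm` (`G = 1`).  Therefore `∑_bγ_m(A+L_b)γ_m(A'+L_b) = (card Rm·s)^(-2)∑_{(y,φ),(y',φ')}Ψ(∑φ_jAy_j + ∑φ'_jA'y'_j)∑_bΨ(∑φ_jL_by_j + ∑φ'_jL_by'_j)`; the last sum is
`∑_bΨ(∑_ib_ic_i)` with `c_i = ∑_jφ_jy_j^(Q^i) + ∑_jφ'_jy'_j^(Q^i)` (`Lqa`), it is `0` if `c ≠ 0` (`Chs`), and `c = 0` implies `y = y'`, `φ = φ'` (`Sym` and the property of `Rm`); then all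
`c_i = 0` (characteristic 2) and the sum is `W^(2m)`.  So the whole is `(card Rm·s)^(-2)W^(2m)∑_{(y,φ)}Ψ(∑φ_j(A+A')y_j) = (card Rm·s)^(-2)W^(2m)card Rm·s·γ_m(A+A')`, and `1/card Rm = gl/card Ind`. -/
def S_Orh : Prop := ∀ (K E : Type) [Field K] [Field E] [Fintype K] [Fintype E] [Algebra K E] [CharP E 2]
  (Ψ : AddChar E ℝ), Ψ ≠ 1 → ∀ m : ℕ, 2 * Fintype.card K ^ m ≤ Fintype.card E → ∀ A A' : E →ₗ[K] E,
  ∑ b : Fin (2 * m) → E, gm K Ψ m (A + Lq K b) * gm K Ψ m (A' + Lq K b) =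
    (Fintype.card E : ℝ) ^ (2 * m) * (gl (Fintype.card K) m / (Ind K E m).card) *
      (((-1) ^ m * (Fintype.card K : ℝ) ^ (m * (m - 1) / 2))⁻¹ * gm K Ψ m (A + A'))

/-- **Orb** (from `Orh`, `Cnt`, `Gmb`).  The two consequences of `Orh`.

Proof.  (1) `A = A'`: `A + A = 0` (characteristic 2), `γ_m(0) = card Ind/((-1)^mQ^(m(m-1)/2))` (`Θ_m(0) = card Ind`), so the sum is `W^(2m)·gl/Q^(m(m-1)) ≤ W^(2m)Q^m`, as
`gl = ∏_{i<m}(Q^m - Q^i) ≤ Q^(m·m)` and `2·(m(m-1)/2) = m(m-1)`.  (2) `gl ≤ Q^(m·m)`, `card Ind ≥ W^m/2`, `|γ_m(A+A')| ≤ 2(t+1)Q^(t²+3t)` by `Gmb` (`k = cr(A+A') ≤ t`: `k(min(k,2m)+3)/2 ≤ t²+3t`; for `k = 0` it is `1`). -/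
def S_Orb : Prop := ∀ (K E : Type) [Field K] [Field E] [Fintype K] [Fintype E] [Algebra K E] [CharP E 2]
  (Ψ : AddChar E ℝ), Ψ ≠ 1 → ∀ m t : ℕ, 1 ≤ m → m ≤ Fintype.card K → 2 * Fintype.card K ^ m ≤ Fintype.card E →
  ∀ A A' : E →ₗ[K] E,
  ∑ b : Fin (2 * m) → E, gm K Ψ m (A + Lq K b) ^ 2 ≤ (Fintype.card E : ℝ) ^ (2 * m) * (Fintype.card K : ℝ) ^ m ∧
  (cr K (A + A') ≤ t →
    |∑ b : Fin (2 * m) → E, gm K Ψ m (A + Lq K b) * gm K Ψ m (A' + Lq K b)| ≤ (Fintype.card E : ℝ) ^ (2 * m) *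
      (4 * ((t : ℝ) + 1) * (Fintype.card K : ℝ) ^ (t ^ 2 + 3 * t + m ^ 2) / (Fintype.card E : ℝ) ^ m))

open Classical in
/-- **Crk** (from `Moo`).  The distribution of the dimension of the kernel.

Proof.  Count the pairs `(b,x)`, `x` an independent `i`-tuple with `(A + L_b)x_j = 0` for all `j`.  For fixed `x` the condition is `L_b x_j = A x_j` (characteristic 2), so there are
`W^(R-i)` such `b` (`Moo`(1)); there are at most `W^i` tuples `x`: at most `W^R` pairs.  If `cr(A+L_b) = k' ≥ k`, the number of `x` is `∏_{s<i}(Q^k' - Q^s) ≥ Q^((k-1)i)`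
(`card_linearIndependent` for the space `ker(A+L_b)`, `i ≤ k ≤ k'`, `Q^k' - Q^s ≥ Q^k' - Q^(k'-1) ≥ Q^(k'-1) ≥ Q^(k-1)` as `Q ≥ 2`), and for `i = 1` it is `≥ Q^k' - 1 ≥ Q - 1`. -/
def S_Crk : Prop := ∀ (K E : Type) [Field K] [Field E] [Fintype K] [Fintype E] [Algebra K E] [CharP E 2] (R : ℕ)
  (A : E →ₗ[K] E), (∀ k i : ℕ, i ≤ k → i ≤ R →
    (univ.filter fun b : Fin R → E => k ≤ cr K (A + Lq K b)).card * Fintype.card K ^ ((k - 1) * i) ≤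
      Fintype.card E ^ R) ∧
  (1 ≤ R → (univ.filter fun b : Fin R → E => 1 ≤ cr K (A + Lq K b)).card * (Fintype.card K - 1) ≤ Fintype.card E ^ R)

/-- **Nse.**  A numerical series.

Proof.  Let `i' = min(k,2m)`, so `1 ≤ i' ≤ k`, `f = k(i'+3)/2 ≥ 0`.  `1 + 2(k+1)Q^f ≤ (2k+3)Q^f`, so the term is at most `(2k+3)^q Q^x`, `x = -(k-1)i' + qf - kh(2-q)`
`= i' - (1-q/2)k i' + 3qk/2 - kh(2-q) ≤ k + 3k - 6k = -2k`.  `(2k+3)^q ≤ (2k+3)² ≤ 25^k`.  So the sum is `≤ ∑_{k≥1}(25/Q²)^k = 25/(Q²-25) ≤ 1/Q`. -/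
def S_Nse : Prop := ∀ (q : ℝ) (h m n : ℕ) (Q : ℝ), 1 < q → q < 2 → 6 ≤ h * (2 - q) → 1 ≤ m → 32 ≤ Q →
  ∑ k ∈ Icc 1 n, (Q ^ ((k - 1) * min k (2 * m)))⁻¹ *
    ((1 + 2 * ((k : ℝ) + 1) * Q ^ ((k : ℝ) * ((min k (2 * m) : ℕ) + 3) / 2)) ^ q *
      (Q ^ k) ^ (-(h * (2 - q)))) ≤ 1 / Q

/-- **Smm** (from `Ker`, `Gmb`, `Crk`, `Nse`).  The `L_q`-estimate.

Proof.  Group the `b` by `k = cr K (A + L_b) ≤ n := cr K 0`.  `k = 0`: the term is `|1-1|^q = 0`.  `k ≥ 1`: the term is at most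
`(1+|γ|)^q (Q^k)^(-h(2-q))` with the bound of `Gmb`, and there are at most `W^(2m)/Q^((k-1)i')` such `b`, `i' = min(k,2m)` (`Crk`, `R = 2m`).  `Nse`. -/
def S_Smm : Prop := ∀ (K E : Type) [Field K] [Field E] [Fintype K] [Fintype E] [Algebra K E] [CharP E 2]
  (Ψ : AddChar E ℝ), Ψ ≠ 1 → ∀ (q : ℝ) (h m : ℕ), 1 < q → q < 2 → 6 ≤ h * (2 - q) → 1 ≤ m → m ≤ Fintype.card K →
  32 ≤ Fintype.card K → 2 * Fintype.card K ^ m ≤ Fintype.card E → ∀ A : E →ₗ[K] E,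
  ∑ b : Fin (2 * m) → E, |1 - gm K Ψ m (A + Lq K b)| ^ q *
    ((Fintype.card K : ℝ) ^ cr K (A + Lq K b)) ^ (-(h * (2 - q))) ≤
      (Fintype.card E : ℝ) ^ (2 * m) / Fintype.card K

/-- **Rsm** (from `Ker`, `Chs`).  The functions `R_D`.

Proof.  (1) `∑_wΨ(w(Dv+d)) = W` if `D v = d` (characteristic 2), `0` otherwise (`Chs`).  (2) By (1), `∑_{c,d}R_DR_D' = W^(-2)∑_{v,w,v',w'}Ψ(wDv + w'D'v')∑_cΨ(c(v+v'))∑_dΨ((w+w')d) = ∑_{v,w}Ψ(w(D+D')v) = W·#ker(D+D')`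
(`v' = v`, `w' = w`).  (3) If `D v₀ = d`, the solutions of `D v = d` are `v₀ + k`, `k ∈ ker D`, and `∑_{k∈ker D}Ψ(ck)` is `#ker D` if `k ↦ Ψ(ck)` is trivial on the kernel and `0` otherwise
(`AddChar` on the subgroup, or: multiply by `Ψ(ck₀) = -1`); no solution: `0`.  (4) exactly one solution (`D` is bijective), `|Ψ| = 1`.  (5) by (3), `|R|^q = (Q^cr)^(q-2)R²`, and `∑R_D² = W·Q^(cr 0) = W²`. -/
def S_Rsm : Prop := ∀ (K E : Type) [Field K] [Field E] [Fintype K] [Fintype E] [Algebra K E] [CharP E 2]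
  (Ψ : AddChar E ℝ), Ψ ≠ 1 → ∀ D D' : E →ₗ[K] E,
  (∀ c d, ∑ v, ∑ w, Ψ (w * (D v + d) + c * v) = Fintype.card E * Rd K Ψ D c d) ∧
  (∑ c, ∑ d, Rd K Ψ D c d * Rd K Ψ D' c d = Fintype.card E * (Fintype.card K : ℝ) ^ cr K (D + D')) ∧
  (∀ c d, Rd K Ψ D c d = 0 ∨ |Rd K Ψ D c d| = (Fintype.card K : ℝ) ^ cr K D) ∧
  (Function.Injective D → ∀ c d, |Rd K Ψ D c d| = 1) ∧
  ∀ q : ℝ, 0 < q → ∑ c, ∑ d, |Rd K Ψ D c d| ^ q = (Fintype.card E : ℝ) ^ 2 * ((Fintype.card K : ℝ) ^ cr K D) ^ (q - 2)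

section sit

variable (K : Type) {E : Type} [Field K] [Field E] [Fintype K] [Fintype E] [Algebra K E]

/-- the unit vectors of the site -/
noncomputable def sx (Ψ : AddChar E ℝ) (h : ℕ) {R : ℕ} (a : Fin R → E) (j : Fin h → E × E) : ℝ :=
  ((Fintype.card E : ℝ) ^ h)⁻¹ * ∏ i, Ψ ((j i).2 * Lq K a (j i).1)

/-- the matrix of the site -/
noncomputable def sM (Ψ : AddChar E ℝ) (h : ℕ) {R : ℕ} (j : Fin h → E × E)
    (ω : (Fin R → E) × (Fin h → E × E)) : ℝ :=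
  ∏ i, Ψ ((j i).2 * Lq K ω.1 (j i).1 + (ω.2 i).1 * (j i).1 + (j i).2 * (ω.2 i).2)

end sit

/-- **Sta** (from `Lqa`, `Ker`, `Chs`, `Rsm`).  The linear part of the site.

Proof.  All sums over `Fin h → E × E` of products over `i` are products of sums (`Finset.prod_univ_sum`, `Fintype.piFinset_univ`, or `Fintype.sum_pow` for equal factors).
(1), (2): `∑_jx_a x_a' = W^(-2h)∏_i∑_{v,w}Ψ(wL_(a+a')v) = (#ker L_(a+a')/W)^h`; it is `1` for `a = a'` (`a + a = 0`), and `0 ≤ · ≤ (Q^t/W)^h` for `a ≠ a'` (`Lqa`: `a + a' ≠ 0`, `cr ≤ t`).  (3), (4): for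
`j ≠ j'` choose `i` with `j i ≠ j' i`: the factor `∑_{c,d}Ψ(c(v+v') + (w+w')d)` (up to a sign which does not depend on `c,d`) vanishes; `Ψ² = 1`, `card O = W^R W^(2h)`.
(5) `∑_jx_a(j)M(j,ω) = W^(-h)∏_i∑_{v,w}Ψ(w(L_av + L_bv + d_i) + c_iv)`, and `Rsm`(1). -/
def S_Sta : Prop := ∀ (K E : Type) [Field K] [Field E] [Fintype K] [Fintype E] [Algebra K E] [CharP E 2]
  (Ψ : AddChar E ℝ), Ψ ≠ 1 → ∀ h t R : ℕ,
  (∀ a : Fin (t + 1) → E, ∑ j, sx K Ψ h a j ^ 2 = 1) ∧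
  (∀ a a' : Fin (t + 1) → E, a ≠ a' →
    |∑ j, sx K Ψ h a j * sx K Ψ h a' j| ≤ ((Fintype.card K : ℝ) ^ t / Fintype.card E) ^ h) ∧
  (∀ j : Fin h → E × E, ∑ ω : (Fin R → E) × (Fin h → E × E), sM K Ψ h j ω * sM K Ψ h j ω =
    Fintype.card ((Fin R → E) × (Fin h → E × E))) ∧
  (∀ j j' : Fin h → E × E, j ≠ j' →
    ∑ ω : (Fin R → E) × (Fin h → E × E), sM K Ψ h j ω * sM K Ψ h j' ω = 0) ∧
  ∀ (a : Fin (t + 1) → E) (ω : (Fin R → E) × (Fin h → E × E)),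
    rr (sx K Ψ h) (sM K Ψ h) a ω = ∏ i, Rd K Ψ (Lq K a + Lq K ω.1) (ω.2 i).1 (ω.2 i).2

/-- **Stb** (from `Rsm`).  Sums of products of `R_D`.

Proof.  `Finset.prod_univ_sum`: the sum over `Fin h → E × E` of a product over `i` of the same function `g` is `(∑_{c,d}g(c,d))^h`; `Rsm`(2), (5), (4). -/
def S_Stb : Prop := ∀ (K E : Type) [Field K] [Field E] [Fintype K] [Fintype E] [Algebra K E] [CharP E 2]
  (Ψ : AddChar E ℝ), Ψ ≠ 1 → ∀ (h : ℕ) (D D' : E →ₗ[K] E),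
  (∑ z : Fin h → E × E, (∏ i, Rd K Ψ D (z i).1 (z i).2) * (∏ i, Rd K Ψ D' (z i).1 (z i).2) =
    (Fintype.card E * (Fintype.card K : ℝ) ^ cr K (D + D')) ^ h) ∧
  (∀ q : ℝ, 0 < q → ∑ z : Fin h → E × E, |∏ i, Rd K Ψ D (z i).1 (z i).2| ^ q =
    ((Fintype.card E : ℝ) ^ 2 * ((Fintype.card K : ℝ) ^ cr K D) ^ (q - 2)) ^ h) ∧
  (Function.Injective D → ∀ z : Fin h → E × E, |∏ i, Rd K Ψ D (z i).1 (z i).2| = 1)

/-- **Sit** (from `Lqa`, `Ker`, `Gmb`, `Orb`, `Crk`, `Smm`, `Sta`, `Stb`).  The site.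

Proof.  `X = Fin h → E × E`, `O = (Fin (2m) → E) × (Fin h → E × E)`, `L = Fin (t+1) → E`, `x = sx`, `M = sM`, `gam a ω = γ_m(L_a + L_(ω.1))`, `ind a ω = 1` if `L_a + L_(ω.1)` is
injective and `0` otherwise.  `norm_x`, `coh_x`, `iso_one`, `iso_zero`: `Sta`.  By `Sta`(5) `rr x M a ω = ∏_iR_D(ω.2 i)` with `D = L_a + L_(ω.1)`; sums over `ω` are sums over `b = ω.1` and `z = ω.2`
(`Fintype.sum_prod_type`), `card O = W^(2m)W^(2h)`; `D + D' = L_a + L_a' = L_(a+a')` for the same `b` (characteristic 2).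
`app`: `∑_ω|r - γr|^q = ∑_b|1-γ|^q(W²(Q^cr)^(q-2))^h = W^(2h)∑_b|1-γ|^q(Q^cr)^(-h(2-q)) ≤ W^(2h)W^(2m)/Q` (`Stb`, `Smm` with `A = L_a`).  `f_up`: `W^(2h)∑_bγ²` (`Stb`(1) with `D = D'`: `(W·W)^h`), `Orb`(1).
`f_cross`: `(W Q^(cr(L_(a+a'))))^h∑_bγγ'`, and `Q^(cr) ≤ W`, `Orb`(2) with `cr(L_(a+a')) ≤ t` (`Lqa`).  `ind_01`: `Stb`(3).  `ind_mean`: at most `W^(2m)/(Q-1) ≤ W^(2m)·2/Q` of the `b` are such that
`L_a + L_b` is not injective (`Crk`, `1 ≤ 2m`; `Ker`).  `f_low`: `(γr)² ≥ ind` (`γ = 1` by `Gmb` and `|r| = 1` if `ind = 1`), and `1 - 2/Q ≥ 1/2`.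
`ind_cross`: `(W Q^(cr(L_(a+a'))))^h·#{b : both are injective} ≤ (W Q^t)^hW^(2m) = card O·(Q^t/W)^h`. -/
def S_Sit : Prop := ∀ (K E : Type) [Field K] [Field E] [Fintype K] [Fintype E] [Algebra K E] [CharP E 2]
  (Ψ : AddChar E ℝ), Ψ ≠ 1 → ∀ (q : ℝ) (h m t : ℕ), 1 < q → q < 2 → 6 ≤ h * (2 - q) → 1 ≤ m → m ≤ Fintype.card K →
  32 ≤ Fintype.card K → 2 * Fintype.card K ^ m ≤ Fintype.card E →
  Nonempty (Site q (Fin h → E × E) ((Fin (2 * m) → E) × (Fin h → E × E)) (Fin (t + 1) → E)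
    ((Fintype.card K : ℝ) ^ m) (2 / Fintype.card K) (1 / Fintype.card K)
    (((Fintype.card K : ℝ) ^ t / Fintype.card E) ^ h)
    (4 * ((t : ℝ) + 1) * (Fintype.card K : ℝ) ^ (t ^ 2 + 3 * t + m ^ 2) / (Fintype.card E : ℝ) ^ m))

/-- **Tra.**  Transport to the types `Fin n`.

Proof.  `Fintype.equivFin`; all sums by `Equiv.sum_comp`. -/
def S_Tra : Prop := ∀ (q : ℝ) (X O L : Type) [Fintype X] [Fintype O] [Fintype L] (Cm β ε δ μ : ℝ),
  Nonempty (Site q X O L Cm β ε δ μ) → ∀ nX nO nL : ℕ, Fintype.card X = nX → Fintype.card O = nO →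
  Fintype.card L = nL → Nonempty (Site q (Fin nX) (Fin nO) (Fin nL) Cm β ε δ μ)

/-- **Sif** (from `Fld`, `Sit`, `Tra`).  The sites, in numbers.

Proof.  `Fld`, `Sit` with the rank `m = ρ`, `Q = 2^e`, `W = 2^(eN)`; `2 Q^ρ ≤ W` since `N ≥ ρ+1` and `Q ≥ 2`.  `card (Fin h → E × E) = (W·W)^h`, `card (Fin (t+1) → E) = W^(t+1)`.  `Tra`. -/
def S_Sif : Prop := ∀ (q : ℝ) (h ρ t e N : ℕ), 1 < q → q < 2 → 6 ≤ h * (2 - q) → 1 ≤ ρ → ρ ≤ 2 ^ e → 5 ≤ e →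
  ρ + 1 ≤ N → Nonempty (Site q (Fin ((2 ^ (e * N)) ^ (2 * h))) (Fin ((2 ^ (e * N)) ^ (2 * ρ + 2 * h)))
    (Fin ((2 ^ (e * N)) ^ (t + 1))) (((2 : ℝ) ^ e) ^ ρ) (2 / 2 ^ e) (1 / 2 ^ e)
    ((((2 : ℝ) ^ e) ^ t / 2 ^ (e * N)) ^ h)
    (4 * ((t : ℝ) + 1) * ((2 : ℝ) ^ e) ^ (t ^ 2 + 3 * t + ρ ^ 2) / ((2 : ℝ) ^ (e * N)) ^ ρ))

end Pool.Agent.Lib.MP_537232_an.PG
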