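import Pool.Agent.Lib.MP_537232_an.PG.SpecA

set_option autoImplicit false

/-!
# MP_537232_an, directory PG, part B: products of sites, the stages, the parameters
-/

open Finset

namespace Pool.Agent.Lib.MP_537232_an.PG

/-- **Pra.**  Products: the vectors and the matrix.

Proof.  Sums over `∀ l, Fin (n l)` of products over `l` are products of sums (`Finset.prod_univ_sum`, `Fintype.piFinset_univ`).  (2): the inner product is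
`∏_l⟨x^l,x'^l⟩`; every factor is at most 1 in absolute value (Cauchy-Schwarz, `norm_x`), and the factor `l` is at most `δ l` (`coh_x`, `lam_inj`).  (3) the product of the `rr`.
(4) `1 < q < 2`.  `∑_ωM j ω M j' ω = card PO` if `j = j'` and `0` otherwise (a factor vanishes), so `∑_ω(∑_ja_jM j ω)² = card PO ∑a²`.  Hölder (power mean, exponent `2/q ≥ 1`):
`∑_ω|z_ω|^q ≤ (card PO)^(1-q/2)(∑z²)^(q/2)` (`Real.inner_le_Lp_mul_Lq` or `Real.pow_arith_mean_le_arith_mean...`/`ConvexOn`), which is `card PO (∑a²)^(q/2)`. -/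
def S_Pra : Prop := ∀ (q : ℝ), 1 < q → q < 2 → ∀ (n v : ℕ) (F : Fam q n v),
  (∀ t, ∑ j, F.x t j ^ 2 = 1) ∧
  (∀ t t', t ≠ t' → ∀ l, |∑ j, F.x t j * F.x t' j| ≤ F.δ l) ∧
  (∀ t ω, ∑ j, F.x t j * F.M j ω = F.r t ω) ∧
  ∀ a : F.PX → ℝ, ∑ ω, |∑ j, a j * F.M j ω| ^ q ≤ (Fintype.card F.PO : ℝ) * (∑ j, a j ^ 2) ^ (q / 2)

/-- **Prb.**  Products: the functions `f i`.

Proof.  `F.f i t ω = (gam^i r^i)(ω i)·∏_{l≠i}r^l(ω l)` (`Finset.mul_prod_erase` or `Fintype.prod_eq_mul_prod_compl`), `card PO = ∏card O_l`.  In one site: `∑_ωr_ar_a' = card O ∑_jx_a(j)x_a'(j)`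
(`iso_one`, `iso_zero`), which is `card O` for `a = a'` and at most `card O` in absolute value in general; `∑_ω|r_a|^q ≤ card O` (power mean, `q < 2`).  So: (1), (2): `f_low`, `f_up` in the site `i`, the
other factors are `card O_l`.  (3): `f_cross` in the site `i`.  (4): `|r - f| = |r^i - gam r^i|∏_{l≠i}|r^l|`, `app` in the site `i`. -/
def S_Prb : Prop := ∀ (q : ℝ), 1 < q → q < 2 → ∀ (n v : ℕ) (F : Fam q n v) (i : Fin n),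
  (∀ t, (Fintype.card F.PO : ℝ) / 2 ≤ ∑ ω, F.f i t ω ^ 2) ∧
  (∀ t, ∑ ω, F.f i t ω ^ 2 ≤ Fintype.card F.PO * F.Cm i) ∧
  (∀ t t', t ≠ t' → |∑ ω, F.f i t ω * F.f i t' ω| ≤ Fintype.card F.PO * F.μ i) ∧
  ∀ t, ∑ ω, |F.r t ω - F.f i t ω| ^ q ≤ Fintype.card F.PO * F.ε i

/-- **Prc.**  Products: the functions `y`.

Proof.  (1) every factor is `0` or `±1`.  (2) `y r = ∏ ind^l` (`ind·r² = ind`), so the sum is `∏_l∑ind ≥ ∏_l card O_l(1-β_l)`; if all `β_l ≤ 1`: `∏(1-β_l) ≥ 1 - ∑β_l`; the sums `∑ind ≥ 0`, so if some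
`β_l > 1` the left side of the claim is `≤ 0` (`β ≥ 0` because `∑ind ≤ card O`).  (3) the product of the sums `∑ind_a r_a ind_a' r_a'`; each is at most `card O` in absolute value (`|ind r| ≤ 1`), and the
factor `l` is at most `card O_l δ_l` (`ind_cross`, `lam_inj`). -/
def S_Prc : Prop := ∀ (q : ℝ) (n v : ℕ) (F : Fam q n v),
  (∀ t ω, |F.y t ω| ≤ 1) ∧
  (∀ t, (Fintype.card F.PO : ℝ) * (1 - ∑ l, F.β l) ≤ ∑ ω, F.y t ω * F.r t ω) ∧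
  ∀ t t', t ≠ t' → ∀ l, |∑ ω, F.y t ω * F.y t' ω| ≤ Fintype.card F.PO * F.δ l

/-- **Rad.**  A lower bound for the moments of Rademacher sums.

Proof.  Jensen (power mean with the exponent `p/2 ≥ 1`, `inner_le_nnorm...`/`Real.rpow_arith_mean_le_arith_mean_rpow`) and `∑_θ(∑_ωa_ωθ_ω)² = 2^n∑a²` (`∑_θθ_ωθ_ω' = 0` for `ω ≠ ω'`). -/
def S_Rad : Prop := ∀ (p : ℝ), 2 ≤ p → ∀ (n : ℕ) (a : Fin n → ℝ),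
  (∑ ω, a ω ^ 2) ^ (p / 2) ≤ ((2 : ℝ) ^ n)⁻¹ * ∑ θ : Fin n → Bool, |∑ ω, a ω * NM.sg (θ ω)| ^ p

/-- **Fwp** (from `Rad`).  The functionals have few large coordinates.

Proof.  `f t = D^(-1/p)y t`, `η = 1/(m+1)`, `Λ`, `b ≤ m`, `J` as in `FewP`.  (1) Let `s` be such that `η ≤ |∑_ωΛ_s ω f t ω|` for some `t ∈ J`.  `|y| ≤ 1`: `∑_ω|Λ_s ω| ≥ ηD^(1/p)`, so `∑_ωΛ_s² ≥ η²D^(2/p-1)` and
`(∑Λ_s²)^(p/2) ≥ η^pD^(1-p/2)`.  `Rad` for `a = Λ_s` and the hypothesis on `Λ` for `h = θ` (`∑|θ|^p = D`): the sum over all `s` of `(∑Λ_s²)^(p/2)` is at most `b^pD`.  So there are at most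
`(b/η)^pD^(p/2)` such `s`.  (2) For fixed `s` let `J_s = {t ∈ J : η ≤ |Λ_s(f t)|}`, `N = |J_s| ≥ 1`, `θ_t` the sign of `Λ_s(f t)`: `Nη ≤ Λ_s(∑_tθ_tf t) ≤ b(∑_ω|∑_tθ_tf t ω|^p)^(1/p)` (one term of the
hypothesis), and `∑_ω|∑θ_tf t ω|^p = D^(-1)∑_ω|∑θ_ty t ω|^p ≤ D^(-1)N^(p-2)∑_ω(∑θ_ty t ω)² ≤ N^(p-2)(N + N²μ)`.  So `N^pη^p ≤ b^pN^(p-1)(1 + Nμ)`, `N(η^p - b^pμ) ≤ b^p`, and `b^pμ ≤ m^pμ ≤ η^p/2`: `N ≤ 2(b/η)^p`.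
(3) `|J| ≤ 2(b/η)^(2p)D^(p/2) ≤ 2(m(m+1))^(2p)D^(p/2)`. -/
def S_Fwp : Prop := ∀ (p : ℝ), 2 < p → ∀ (v D m : ℕ) (y : Fin v → Fin D → ℝ) (μ : ℝ), 1 ≤ D → (∀ t ω, |y t ω| ≤ 1) →
  (∀ t t', t ≠ t' → |∑ ω, y t ω * y t' ω| ≤ D * μ) → 0 ≤ μ → 2 * (m : ℝ) ^ p * μ * ((m : ℝ) + 1) ^ p ≤ 1 →
  2 * ((m : ℝ) + 1) * ((m : ℝ) * ((m : ℝ) + 1)) ^ (2 * p) * (D : ℝ) ^ (p / 2) ≤ v →
  FewP p m fun t ω => (D : ℝ) ^ (-(1 / p)) * y t ω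

/-- **Eva** (from `Pra`).  The approximation by the even block: exact.

Proof.  `B 0 j ω = D^(-1/q)M j (en ω)`, `B l = 0` for `l ≥ 1`.  Norm: `Pra`(4): `D^(-1)·D(∑a²)^(q/2)` and `1 ≤ 2^(l+1)` (sums over `Fin D` by `Equiv.sum_comp`; `D > 0`).  `c 0 = 1`, the other `c` are `0`
(`L i ≥ 1`): the difference is `0` (`Pra`(3)), and `0^q = 0`. -/
def S_Eva : Prop := ∀ (q : ℝ), 1 < q → q < 2 → ∀ (n v : ℕ) (F : Fam q n v) (Cc : ℕ → ℝ) (L : ℕ → ℕ) (m : ℕ),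
  (∀ i, 1 ≤ Cc i) → (∀ i, 1 ≤ L i) → ApxI q Cc L m F.rN F.x

/-- **Ovc** (from `Prb`).  The vectors of the odd block.

Proof.  `c_i = 2^(-(i+1))/(1 - 2^(-(m+1)))` for `i ≤ m`: `∑_{i≤m}c_i = 1`, `c_i ≥ 2^(-(i+1))`.  `T_i(t) = ∑_ω(F.f i t ω)² ≥ card PO/2 > 0`.  `w' t (i,ω) = √(c_i/T_i(t)) F.f i t ω`.  (1) `∑_ic_i = 1`.  (2) The inner product is
`∑_ic_i∑_ωf_if_i'/√(T_iT_i')`, each `|…| ≤ card PO μ_i/(card PO/2) = 2μ_i ≤ μ₀`.  (3) `D = card PO`.  `B i (i',ω') ω = D^(1/2-1/q)c_i^(-1/2)` if `i' = i` and `ω' = en ω`, `0` otherwise (`B i = 0` for `i > m`).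
Norm: `∑_ω|a(i,en ω)|^qD^(q/2-1)c_i^(-q/2) ≤ (c_i^(-1)∑a²)^(q/2)` (`∑_ω|a_ω|^q ≤ D^(1-q/2)(∑a²)^(q/2)`), `c_i^(-1) ≤ 2^(i+1)`.  For `i ≤ m` let `c l = 0` for `l < i`, `c i = √(T_i(t)/D) ≤ √(Cm i) ≤ Cc i` (`L i = i+1`, the last
index).  Then `c i·∑_jw' t j B i j ω = √(T_i/D)D^(1/2-1/q)c_i^(-1/2)√(c_i/T_i)F.f i t (en ω) = D^(-1/q)F.f i t (en ω)`, and the error is
`D^(-1)∑|r - f_i|^q ≤ ε_i ≤ (1/(i+1))^q`. -/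
def S_Ovc : Prop := ∀ (q : ℝ), 1 < q → q < 2 → ∀ (m v : ℕ) (F : Fam q (m + 1) v) (Cc : ℕ → ℝ) (L : ℕ → ℕ) (μ₀ : ℝ),
  (∀ i : Fin (m + 1), Real.sqrt (F.Cm i) ≤ Cc i) → (∀ i, L i = i + 1) → (∀ i, 0 ≤ Cc i) →
  (∀ i : Fin (m + 1), F.ε i ≤ (1 / (((i : ℕ) : ℝ) + 1)) ^ q) → (∀ i, 2 * F.μ i ≤ μ₀) →
  ∃ w' : Fin v → (Fin (m + 1) × F.PO) → ℝ, (∀ t, ∑ j, w' t j ^ 2 = 1) ∧
    (∀ t t', t ≠ t' → |∑ j, w' t j * w' t' j| ≤ μ₀) ∧ ApxI q Cc L m F.rN w'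

/-- **Num.**  The choice of `G`.

Proof.  `Π = ∏_{l≤m}(l + 5 + M₀)`, `G = Π·g` with a large `g`.  `ee M₀ l` divides `G 2^(m-l)`; the quotient is `≥ g`, so it is `≥ rho M₀ l + 1` for large `g`.  `K(2^(ee M₀ 0))^T ≤ 2^G` is clear for large `g`.  Last claim:
`wl G m l ^ rho M₀ l = 2^(G 2^(m-l) 2^(l+1) M₀) = 2^(G 2^(m+1) M₀)`, `M₀ = 2hP + 1`, and `(∏_l(wl G m l)^(2h))^P = 2^(2hPG∑_{l≤m}2^(m-l)) ≤ 2^(2hPG 2^(m+1))`, so the quotient of the two is at least `2^(G 2^(m+1)) ≥ 2^G`,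
which is larger than the remaining factor (a constant) for large `g`, for all `l ≤ m`. -/
def S_Num : Prop := ∀ h P M₀ m K T : ℕ, M₀ = 2 * h * P + 1 → ∃ G : ℕ, 1 ≤ G ∧ K * (2 ^ ee M₀ 0) ^ T ≤ 2 ^ G ∧
  (∀ l ≤ m, ∃ N, ee M₀ l * N = G * 2 ^ (m - l) ∧ rho M₀ l + 1 ≤ N) ∧
  ∀ l ≤ m, K * (T + 1) * (2 ^ ee M₀ l) ^ (T ^ 2 + 3 * T + rho M₀ l ^ 2) *
    (∏ l ∈ range (m + 1), wl G m l ^ (2 * h)) ^ P ≤ wl G m l ^ rho M₀ l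

/-- **Fmm** (from `Sif`).  The family of sites.

Proof.  For `l ≤ m` let `e = ee M₀ l`, `N` the number given by the hypothesis, `ρ = rho M₀ l`, `2^(eN) = wl G m l`: `Sif` gives the site number `l` (`ρ = 2^(l+1)M₀ ≤ 2^(l+5+M₀)` since `M₀ ≤ 2^M₀`; `ρ ≥ 1`).  `choose`.  `v = 2^(GΘ) ≤ (wl G m l)^Θ = nL l`
as `wl G m l ≥ 2^G`: `lam l = Fin.castLE`.  `card PX = ∏(wl)^(2h)`, `card PO = ∏(wl)^(2ρ+2h) = 2^(G·kap)` (`Fintype.card_pi`, `Finset.prod_pow_eq_pow_sum`, `Fin.prod_univ_eq_prod_range`). -/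
def S_Fmm : Prop := ∀ (q : ℝ) (h M₀ m G Θ : ℕ), 1 < q → q < 2 → 6 ≤ h * (2 - q) → 1 ≤ M₀ → 1 ≤ G → 1 ≤ Θ →
  (∀ l ≤ m, ∃ N, ee M₀ l * N = G * 2 ^ (m - l) ∧ rho M₀ l + 1 ≤ N) →
  ∃ F : Fam q (m + 1) (2 ^ (G * Θ)),
    Fintype.card F.PX = ∏ l ∈ range (m + 1), wl G m l ^ (2 * h) ∧
    Fintype.card F.PO = 2 ^ (G * kap h M₀ m) ∧
    (∀ l, F.Cm l = ((2 : ℝ) ^ ee M₀ l) ^ rho M₀ l) ∧ (∀ l, F.β l = 2 / 2 ^ ee M₀ l) ∧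
    (∀ l, F.ε l = 1 / 2 ^ ee M₀ l) ∧
    (∀ l, F.δ l = (((2 : ℝ) ^ ee M₀ l) ^ (Θ - 1) / (wl G m l : ℕ)) ^ h) ∧
    ∀ l, F.μ l = 4 * ((Θ : ℝ) - 1 + 1) * ((2 : ℝ) ^ ee M₀ l) ^ ((Θ - 1) ^ 2 + 3 * (Θ - 1) + rho M₀ l ^ 2) /
      ((wl G m l : ℕ) : ℝ) ^ rho M₀ l

/-- **Pre** (from `Pra`, `Prb`, `Prc`, `Fwp`, `Eva`, `Ovc`, `Num`, `Fmm`).  The main step.

Proof.  `h ≥ 1` with `6 ≤ h(2-q)`, `M₀ = 2hP+1`, `Cc l = (2^ee M₀ l)^rho M₀ l ≥ 1`, `L l = l+1`.  Given `m, K₀, A, B`: `κ = kap h M₀ m`, `Θ = κP + 1`, `T = Θ - 1`; `p = q/(q-1) ≤ P`;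
`c₁ = 2(m+1)(m(m+1)+1)^(2P)` (a natural number), `K = A + 2K₀ + 17B + 1 + c₁ + 2(m+1)^(2P)`, so `K ≥ 1, A, 2K₀, B+1, 16B, c₁, 2(m+1)^(2P)`, and `K ≤ 2^G`.
`G` from `Num`, `F` from `Fmm`, `v = 2^(GΘ)`, `ι = PX`, `ι' = Fin (m+1) × PO`, `w = F.x`, `w'` from `Ovc`, `r = F.rN`, `f = F.fN`, `D = card PO = 2^(Gκ)`.
`u = card PX = ∏wl^(2h)`: `u ≥ wl G m m ^(2h) ≥ 2^G ≥ A`; `u ≤ card PO`, so `B u^P ≤ B 2^(GκP) < 2^G2^(GκP) = v` and `u ≤ u^P`.  Unit vectors: `Pra`(1), `Ovc`.  Coherence of `w`: `Pra`(2) with `l = 0`, `δ_0 = ((2^ee 0)^T/2^(G2^m))^h ≤ (2^ee 0)^T/2^G ≤ 1/K`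
(`Num`; the base is `≤ 1` and `h ≥ 1`), `K₀/K ≤ 1/2`.  `OB` for `w'`: `Ovc` with `μ₀ = 8/(K u^P)`: `2μ_l ≤ μ₀` by the last claim of `Num` (`T+1 = Θ`), `μ₀·Bu^P = 8B/K ≤ 1/2`: `NM.S_Coh` is proved (`NM.wCoh` in
`NM/Coh.lean`).  `r_norm`: `Pra`(3), (4) with `a = F.x t`.  `f_norm`: `|y| ≤ 1`, `∑_ω D^(-1)|y|^p ≤ 1`.  `pair`: `D^(-1/q-(q-1)/q) = D^(-1)`, `Prc`(2), `∑_lβ_l = ∑2/2^(l+5+M₀) ≤ 1/8`.  `ApxI`: `Eva`, `Ovc`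
(`√(Cm) ≤ Cm = Cc` as `Cm ≥ 1`; `ε_l = 2^(-l-5-M₀) ≤ (l+1)^(-2) ≤ (1/(l+1))^q`).  `FewP`: `Fwp` with `p = q/(q-1)` (`1/p = (q-1)/q`), `y t ω = F.y t (en ω)`, `μ = δ_0 ≤ 1/K`, `2m^pδ_0(m+1)^p ≤ 2(m+1)^(2P)/K ≤ 1`, and
`2(m+1)(m(m+1))^(2p)D^(p/2) ≤ c₁D^P ≤ 2^G2^(GκP) = v` (`D ≥ 1`, `p/2 ≤ P`; `m(m+1) ≤ m(m+1)+1`). -/
def S_Pre : Prop := ∀ (q : ℝ) (P : ℕ), 1 < q → q < 2 → q / (q - 1) ≤ P → ∃ (Cc : ℕ → ℝ) (L : ℕ → ℕ), ∀ m K₀ A B : ℕ,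
  ∃ (v D : ℕ) (ι ι' : Type) (_ : Fintype ι) (_ : Fintype ι') (w : Fin v → ι → ℝ) (w' : Fin v → ι' → ℝ)
    (r f : Fin v → Fin D → ℝ),
    A ≤ Fintype.card ι ∧ B * Fintype.card ι ^ P < v ∧ Fintype.card ι < v ∧
    (∀ t, ∑ j, w t j ^ 2 = 1) ∧ (∀ t t', t ≠ t' → |∑ j, w t j * w t' j| * K₀ ≤ 1 / 2) ∧
    (∀ t, ∑ j, w' t j ^ 2 = 1) ∧ NM.OB (fun t t' => ∑ j, w' t j * w' t' j) (B * Fintype.card ι ^ P) (1 / 2) ∧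
    (∀ t, ∑ ω, |r t ω| ^ q ≤ 1) ∧ (∀ t, ∑ ω, |f t ω| ^ (q / (q - 1)) ≤ 1) ∧ (∀ t, 1 / 2 ≤ ∑ ω, f t ω * r t ω) ∧
    ApxI q Cc L m r w ∧ ApxI q Cc L m r w' ∧ FewP (q / (q - 1)) m f

/-- **Flk.**  Vectors with small coherence (DeVore).

Proof.  As `NM.S_Fil` (`NM/Fil.lean`), polynomials of degree `< k`.  `Pr ≥ n` prime, `F = ZMod Pr`.  For `a : Fin k → F` let `y_a = (1/√Pr)∑_{x∈F} e_(x, ∑a_ix^i) ∈ ℝ^(F×F)`: `‖y_a‖² = 1` and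
`⟨y_a,y_a'⟩ = #{x : f_a(x) = f_a'(x)}/Pr ≤ k/Pr` for `a ≠ a'`.  Enumerate `F^k`, `F×F`. -/
def S_Flk : Prop := ∀ n k : ℕ, ∃ Pr : ℕ, n ≤ Pr ∧ 1 ≤ Pr ∧ ∃ y : Fin (Pr ^ k) → Fin (Pr ^ 2) → ℝ,
  (∀ c, ∑ i, y c i ^ 2 = 1) ∧ ∀ c c', c ≠ c' → |∑ i, y c i * y c' i| ≤ (k : ℝ) / Pr

/-- **Odp** (from `Flk`).  The odd blocks.

Proof.  As `NM.S_Odb` (`NM/Odb.lean`).  `k = 2P+1`, `Pr` (`Flk`) large, `u' = card ι + Pr²`, `v' = v + Pr^k` (`finSumFinEquiv`; `ι ≃ Fin (card ι)`).  The vectors with number `t < v` are `w t` in the first summand, the others are the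
`y_c` in the second summand.  For large `Pr`: `u' ≤ 2Pr²`, `B u'^P ≤ B2^PPr^(2P) ≤ Pr^k ≤ v'`, `u' ≥ A`, `u' < v'` (`k ≥ 3` as `P ≥ 1`).  The Gram matrix is block diagonal, each block satisfies `OB _ s (1/2)` (the second one by
`NM.wCoh`, `ks/Pr ≤ 1/2`).  `NM.wRp` (`NM/Rp.lean`). -/
def S_Odp : Prop := ∀ (v s P : ℕ) (ι : Type) [Fintype ι] (w : Fin v → ι → ℝ), 1 ≤ P → (∀ t, ∑ j, w t j ^ 2 = 1) →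
  NM.OB (fun t t' => ∑ j, w t j * w t' j) s (1 / 2) → ∀ A B : ℕ, ∃ u' v' : ℕ, A ≤ u' ∧ u' < v' ∧ B * u' ^ P ≤ v' ∧
  ∃ (g' : Fin v' → EuclideanSpace ℝ (Fin u')) (φ : Fin v → Fin v') (e : ι → Fin u'), Function.Injective φ ∧
    Function.Injective e ∧ NM.Rip s g' ∧ ∀ t, (∀ j, g' (φ t) (e j) = w t j) ∧ ∀ i, (∀ j, e j ≠ i) → g' (φ t) i = 0

/-- **Stg** (from `Pre`, `Odp`).  The stage lemma.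

Proof.  As `NM.S_Stg` (`NM/Stg.lean`), `p = q/(q-1) > 2`, `P = ⌈p⌉₊`.  For natural numbers `a ≥ 1`: `a^p ≤ a^P`, `(2u)^(p/2) ≤ (2u)^P = 2^Pu^P` (`u ≥ 1`).  Given `m, u₀, v₀, S`: `K₀ ≥ max((2u₀)^(p/2)(2m)^p+1, 19(2m+1)²)`,
`A = max(v₀+1, 19(2m+1)³(6(2m+1)+1)^S)`, `B = 9(2m+1)³2^P(2m+1)^P + 2^P(2m+1)^P + 1 + 19(2m+2)²`; `Pre`.  `u = card ι` (`ι ≃ Fin u`), `g t` = the vector `w t`: `NM.wCoh` with `s = K₀`, `μ = 1/(2K₀)` and `NM.wRp` give the `Rip` of `g`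
(`Rip` is monotonic in the order).  `9(2m+1)³(2u)^(p/2)(2m+1)^p ≤ Bu^P ≤ v`.  Odd block: `s = Bu^P ≥ max((2u)^(p/2)(2m+1)^p+1, 19(2m+2)²)`; `Odp` with the bounds `max(v+1, 19(2m+2)³(6(2m+2)+1)^(S+u))` and
`9(2m+2)³2^P(2m+2)^P`.  `Stage`: `D, r, f` from `Pre`, `ι = φ`; `NM.Apx` for `g`: the matrices of `ApxI` transported by `ι ≃ Fin u`; `NM.Apx` for `g'`: `B' l i = B l j` if `i = e j`, and `0` if `i` is not in the range of `e`. -/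
def S_Stg : Prop := ∀ q : ℝ, 1 < q → q < 2 → ∃ (c : ℝ) (Cc : ℕ → ℝ) (L : ℕ → ℕ), 0 < c ∧ ∀ m u₀ v₀ S : ℕ,
  ∃ (u v u' v' : ℕ) (g : Fin v → EuclideanSpace ℝ (Fin u)) (g' : Fin v' → EuclideanSpace ℝ (Fin u')),
    v₀ < u ∧ u < v ∧ v < u' ∧ u' < v' ∧
    19 * (2 * m + 1) ^ 3 * (6 * (2 * m + 1) + 1) ^ S ≤ u ∧
    19 * (2 * m + 2) ^ 3 * (6 * (2 * m + 2) + 1) ^ (S + u) ≤ u' ∧
    9 * (2 * (m : ℝ) + 1) ^ 3 * ((2 * (u : ℝ)) ^ (q / (q - 1) / 2) * (2 * (m : ℝ) + 1) ^ (q / (q - 1))) ≤ v ∧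
    9 * (2 * (m : ℝ) + 2) ^ 3 * ((2 * (u' : ℝ)) ^ (q / (q - 1) / 2) * (2 * (m : ℝ) + 2) ^ (q / (q - 1))) ≤ v' ∧
    NM.Rip (max ((2 * (u₀ : ℝ)) ^ (q / (q - 1) / 2) * (2 * (m : ℝ)) ^ (q / (q - 1)) + 1)
      (19 * (2 * (m : ℝ) + 1) ^ 2)) g ∧
    NM.Rip (max ((2 * (u : ℝ)) ^ (q / (q - 1) / 2) * (2 * (m : ℝ) + 1) ^ (q / (q - 1)) + 1)
      (19 * (2 * (m : ℝ) + 2) ^ 2)) g' ∧
    Nonempty (Stage q c Cc L m g g')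

/-- **Par** (from `Stg`).  The parameters.

Proof.  As `NM.S_Par` (`NM/Par.lean`).  `p = q/(q-1) > 2`, so `sNum p u n = (2u_n)^(p/2)(n+1)^p`.  A block is a triple `(u,v,g)` (make a structure, so that equalities of blocks can be rewritten).  Recursion over `m` with `Stg`: the pair of blocks
`(b(2m), b(2m+1))` for `S = ∑_{l<2m}u_l`, `u₀ = u_(2m-1)`, `v₀ = v_(2m-1)` (`u₀ = v₀ = 0` for `m = 0`; then `(2u₀)^(p/2)(2m)^p + 1 = 1 = sPrev + 1`, as `0^p = 0`). -/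
def S_Par : Prop := ∀ q : ℝ, 1 < q → q < 2 → ∃ (P : Params (ENNReal.ofReal (q / (q - 1)))) (c : ℝ) (Cc : ℕ → ℝ)
  (L : ℕ → ℕ), 0 < c ∧ ∀ m, Nonempty (Stage q c Cc L m (P.g (2 * m)) (P.g (2 * m + 1)))

end Pool.Agent.Lib.MP_537232_an.PG
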