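import Pool.Agent.Lib.MP_537232_an.PG.SpecB
import Pool.Agent.Lib.MP_537232_an.NM.Coh
import Pool.Agent.Lib.MP_537232_an.NM.Rp

set_option autoImplicit false

/-!
# MP_537232_an, PG, Stg: the stage lemma (helper27, task 17886)
-/

namespace Pool.Agent.Lib.MP_537232_an.PG

open Finset

namespace Stg

/-- transport of `ApxI` along an injective map of the coordinates -/
theorem apx {q : ℝ} (hq : 1 < q) {Cc : ℕ → ℝ} {L : ℕ → ℕ} {m v D n k : ℕ} {ι : Type} [Fintype ι]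
    {r : Fin v → Fin D → ℝ} {w : Fin v → ι → ℝ} (h : ApxI q Cc L m r w) (e : ι → Fin n)
    (he : Function.Injective e) (g : Fin k → EuclideanSpace ℝ (Fin n)) (φ : Fin v → Fin k)
    (hg : ∀ t j, g (φ t) (e j) = w t j) : NM.Apx q Cc L m r φ g := by
  classical
  obtain ⟨B, hB1, hB2⟩ := h
  have key : ∀ (l : ℕ) (ω : Fin D) (a : Fin n → ℝ),
      ∑ i, a i * Function.extend e (fun j => B l j ω) 0 i = ∑ j, a (e j) * B l j ω := by
    intro l ω a
    symm
    refine Fintype.sum_of_injective e he _ _ (fun i hi => ?_) fun j => ?_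
    · rw [Function.extend_apply' _ _ _ fun ⟨j, hj⟩ => hi ⟨j, hj⟩]
      simp
    · rw [he.extend_apply]
  refine ⟨fun l i ω => Function.extend e (fun j => B l j ω) 0 i, fun l a => ?_,
    fun i hi t => ?_⟩
  · simp_rw [key]
    refine (hB1 l fun j => a (e j)).trans ?_
    refine Real.rpow_le_rpow (by positivity) ?_ (by linarith)
    refine mul_le_mul_of_nonneg_left ?_ (by positivity)
    calc ∑ j, a (e j) ^ 2 = ∑ i ∈ univ.image e, a i ^ 2 := by
          rw [sum_image fun _ _ _ _ h => he h]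
      _ ≤ ∑ i, a i ^ 2 := sum_le_sum_of_subset_of_nonneg (subset_univ _) fun _ _ _ => sq_nonneg _
  · obtain ⟨c, hc, hc'⟩ := hB2 i hi t
    refine ⟨c, hc, ?_⟩
    simp_rw [key, hg]
    exact hc'

theorem rip_mono {u v : ℕ} {K K' : ℝ} {g : Fin v → EuclideanSpace ℝ (Fin u)} (h : NM.Rip K g)
    (hK : K' ≤ K) : NM.Rip K' g := ⟨h.1, fun J hJ => h.2 J (hJ.trans hK)⟩

/-- natural numbers with real exponents -/
theorem rp {p : ℝ} {P : ℕ} (hp : 2 < p) (hpP : p ≤ P) {u k : ℝ} (hu : 1 ≤ u) (hk : 1 ≤ k) :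
    (2 * u) ^ (p / 2) * k ^ p ≤ 2 ^ P * k ^ P * u ^ P := by
  have h1 : (2 * u) ^ (p / 2) ≤ (2 * u) ^ P := by
    rw [← Real.rpow_natCast]
    exact Real.rpow_le_rpow_of_exponent_le (by linarith) (by linarith)
  have h2 : k ^ p ≤ k ^ P := by
    rw [← Real.rpow_natCast k P]
    exact Real.rpow_le_rpow_of_exponent_le hk hpP
  calc (2 * u) ^ (p / 2) * k ^ p ≤ (2 * u) ^ P * k ^ P :=
        mul_le_mul h1 h2 (by positivity) (by positivity)
    _ = 2 ^ P * k ^ P * u ^ P := by rw [mul_pow]; ring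

end Stg

theorem wStg (h1 : S_Pre) (h2 : S_Odp) : S_Stg := by
  intro q hq1 hq2
  have hq0 : 0 < q - 1 := by linarith
  set p : ℝ := q / (q - 1) with hp
  have hp2 : 2 < p := by
    rw [hp, lt_div_iff₀ hq0]
    linarith
  set P : ℕ := ⌈p⌉₊ with hP
  have hpP : p ≤ P := Nat.le_ceil p
  have hP1 : 1 ≤ P := by
    have : (1 : ℝ) ≤ P := by linarith
    exact_mod_cast this
  obtain ⟨Cc, L, hpre⟩ := h1 q P hq1 hq2 hpP
  refine ⟨1 / 2, Cc, L, by norm_num, fun m u₀ v₀ S => ?_⟩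
  set K₀ : ℕ := max ⌈(2 * (u₀ : ℝ)) ^ (p / 2) * (2 * (m : ℝ)) ^ p + 1⌉₊ (19 * (2 * m + 1) ^ 2)
    with hK₀
  have hK₀pos : 0 < K₀ := lt_of_lt_of_le (by positivity) (le_max_right _ _)
  obtain ⟨v, D, ι, ι', _, _, w, w', r, f, hA, hB, hv, hw, hcoh, hw', hOB, hr, hf, hrf, ha, ha',
    hfew⟩ := hpre m K₀ (max (v₀ + 1) (19 * (2 * m + 1) ^ 3 * (6 * (2 * m + 1) + 1) ^ S))
      (9 * (2 * m + 1) ^ 3 * 2 ^ P * (2 * m + 1) ^ P + 2 ^ P * (2 * m + 1) ^ P + 1 +
        19 * (2 * m + 2) ^ 2)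
  set u : ℕ := Fintype.card ι with hu
  have hu0 : v₀ + 1 ≤ u := (le_max_left _ _).trans hA
  obtain ⟨u', v', hA', huv', hB', g', φ, e, hφ, he, hrip', hge⟩ := h2 v _ P ι' w' hP1 hw' hOB
    (max (v + 1) (19 * (2 * m + 2) ^ 3 * (6 * (2 * m + 2) + 1) ^ (S + u)))
    (9 * (2 * m + 2) ^ 3 * 2 ^ P * (2 * m + 2) ^ P)
  let e1 : ι ≃ Fin u := Fintype.equivFin ι
  let g : Fin v → EuclideanSpace ℝ (Fin u) := fun t => WithLp.toLp 2 fun i => w t (e1.symm i)
  have hgapp : ∀ t j, g t (e1 j) = w t j := fun t j => by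
    show w t (e1.symm (e1 j)) = w t j
    rw [e1.symm_apply_apply]
  have hinner : ∀ t t', inner ℝ (g t) (g t') = ∑ j, w t j * w t' j := by
    intro t t'
    rw [PiLp.inner_apply, ← e1.sum_comp]
    refine sum_congr rfl fun j _ => ?_
    rw [hgapp, hgapp]
    simp [mul_comm]
  have hnorm : ∀ t, ‖g t‖ = 1 := by
    intro t
    have h := hinner t t
    rw [real_inner_self_eq_norm_sq] at h
    have h' : ∑ j, w t j * w t j = 1 := by
      rw [← hw t]
      exact sum_congr rfl fun j _ => (sq _).symm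
    rw [h'] at h
    exact (pow_eq_one_iff_of_nonneg (norm_nonneg _) two_ne_zero).1 h
  have hrip : NM.Rip (max ((2 * (u₀ : ℝ)) ^ (p / 2) * (2 * (m : ℝ)) ^ p + 1)
      (19 * (2 * (m : ℝ) + 1) ^ 2)) g := by
    refine NM.wRp u v K₀ _ g ?_ hnorm ?_
    · rw [hK₀]
      refine max_le ?_ ?_
      · exact (Nat.le_ceil _).trans (by exact_mod_cast le_max_left _ _)
      · refine le_trans (le_of_eq ?_) (Nat.cast_le.2 (le_max_right _ _))
        push_cast
        ring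
    · have hKr : (0 : ℝ) < K₀ := by exact_mod_cast hK₀pos
      refine NM.wCoh v _ K₀ (1 / (2 * K₀)) (1 / 2) (fun t => ?_) (by positivity)
        (fun t t' htt => ?_) ?_
      · rw [hinner, ← hw t]
        exact sum_congr rfl fun j _ => (sq _).symm
      · rw [hinner, le_div_iff₀ (by positivity)]
        have := hcoh t t' htt
        linarith
      · refine le_of_eq ?_
        field_simp
  have hm0 : (0 : ℝ) ≤ m := Nat.cast_nonneg m
  have hu1 : 1 ≤ u := by omega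
  have hur : (1 : ℝ) ≤ u := by exact_mod_cast hu1
  have hBr : (((9 * (2 * m + 1) ^ 3 * 2 ^ P * (2 * m + 1) ^ P + 2 ^ P * (2 * m + 1) ^ P + 1 +
        19 * (2 * m + 2) ^ 2) * u ^ P : ℕ) : ℝ) ≤ v := by exact_mod_cast hB.le
  push_cast at hBr
  have huP : (1 : ℝ) ≤ (u : ℝ) ^ P := one_le_pow₀ hur
  have k1 := Stg.rp hp2 hpP hur (show (1 : ℝ) ≤ 2 * m + 1 by linarith)
  refine ⟨u, v, u', v', g, g', hu0, hv, ?_, huv', ?_, ?_, ?_, ?_, hrip, ?_, ⟨?_⟩⟩
  · exact (le_max_left _ _).trans hA'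
  · exact (le_max_right _ _).trans hA
  · exact (le_max_right _ _).trans hA'
  · refine le_trans ?_ hBr
    have h3 : (0 : ℝ) ≤ 9 * (2 * m + 1) ^ 3 := by positivity
    have h4 : (0 : ℝ) ≤ (2 ^ P * (2 * m + 1) ^ P + 1 + 19 * (2 * m + 2) ^ 2) * (u : ℝ) ^ P := by
      positivity
    nlinarith [mul_le_mul_of_nonneg_left k1 h3]
  · have hu'1 : (1 : ℝ) ≤ u' := by
      have : 1 ≤ u' := by
        have := (le_max_left _ _).trans hA'
        omega
      exact_mod_cast this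
    have k2 := Stg.rp hp2 hpP hu'1 (show (1 : ℝ) ≤ 2 * m + 2 by linarith)
    have hB2 : (((9 * (2 * m + 2) ^ 3 * 2 ^ P * (2 * m + 2) ^ P) * u' ^ P : ℕ) : ℝ) ≤ v' := by
      exact_mod_cast hB'
    push_cast at hB2
    refine le_trans ?_ hB2
    have h3 : (0 : ℝ) ≤ 9 * (2 * m + 2) ^ 3 := by positivity
    nlinarith [mul_le_mul_of_nonneg_left k2 h3]
  · refine Stg.rip_mono hrip' ?_
    push_cast
    have h3 : (0 : ℝ) ≤ (9 * (2 * m + 1) ^ 3 * 2 ^ P * (2 * m + 1) ^ P) * (u : ℝ) ^ P := by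
      positivity
    have h4 : (0 : ℝ) ≤ (19 * (2 * m + 2) ^ 2) * (u : ℝ) ^ P := by positivity
    have h5 : (0 : ℝ) ≤ (2 ^ P * (2 * m + 1) ^ P) * (u : ℝ) ^ P := by positivity
    have h6 : (0 : ℝ) ≤ 19 * (2 * (m : ℝ) + 2) ^ 2 := by positivity
    refine max_le ?_ ?_
    · nlinarith
    · nlinarith [mul_le_mul_of_nonneg_left huP h6]
  · exact {
      D := D
      r := r
      f := f
      ι := φ
      ι_inj := hφ
      r_norm := hr
      f_norm := hf
      pair := hrf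
      app := Stg.apx hq1 ha e1 e1.injective g id hgapp
      app' := Stg.apx hq1 ha' e he g' φ fun t => (hge t).1
      few := hfew }

end Pool.Agent.Lib.MP_537232_an.PG
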